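import Mathlib
import Pool.Agent.Helper44.RO2.Defs

/-! Project RZ: triples of type (B'), definitions. -/

set_option autoImplicit false

open Finset
open Pool.Agent.Helper42.RO Pool.Agent.Helper44.RO2

namespace Pool.Agent.Helper63.AZ

/-- The primes of `T t` which divide neither the entry `f` nor `m`. -/
def Fr (f : Fin 3) (m : ℕ) (t : ℕ × ℕ) : Finset ℕ :=
  (T t).primeFactors.filter fun p => ¬ p ∣ ent t f ∧ ¬ p ∣ m

/-- The product of the `p ^ w p` over the free primes of the entry `j`. -/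
def XX (f j : Fin 3) (m : ℕ) (w : ℕ → ℕ) (t : ℕ × ℕ) : ℕ :=
  ∏ p ∈ (Fr f m t).filter (fun p => p ∣ ent t j), p ^ w p

/-- Type (B'): `f` is the modulus entry, its part supported on `m` is at least `c ^ γ`, and the free
primes of the two other entries have exponents near the multiples `k * w p` of `k`. -/
def TyW (Z : ℕ) (γ H τ : ℝ) (k m : ℕ) (f : Fin 3) (w : ℕ → ℕ) (t : ℕ × ℕ) : Prop :=
  (c t) ^ γ ≤ (part m (ent t f) : ℝ) ∧
  (∑ p ∈ Fr f m t, |((T t).factorization p : ℝ) - k * w p| * Real.log p) ≤ τ * Real.log (c t) ∧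
  (∑ p ∈ Fr f m t, (w p : ℝ) * Real.log p) ≤ H * Real.log Z

/-- The sign of the congruence modulo the entry `f`. -/
def sg (f : Fin 3) : ℤ := if f = 2 then -1 else 1

/-- The part of an exponent vector assigned to the entry `j`. -/
def QQ (m : ℕ) (vs : ℕ → ℕ) (as : ℕ → Fin 3) (j : Fin 3) : ℕ :=
  ∏ p ∈ m.primeFactors.filter (fun p => as p = j), p ^ vs p

/-- `t` is in the cell `(vs, as)` of `m`, with precision `θ`. -/
def InCell (θ : ℝ) (m : ℕ) (vs : ℕ → ℕ) (as : ℕ → Fin 3) (t : ℕ × ℕ) : Prop :=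
  (∀ p ∈ m.primeFactors, vs p ≤ (T t).factorization p ∧ p ∣ ent t (as p)) ∧
  (∑ p ∈ m.primeFactors, (((T t).factorization p : ℝ) - vs p) * Real.log p) ≤
    θ * Real.log (c t)

end Pool.Agent.Helper63.AZ
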