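import Mathlib
import Pool.Agent.Helper63.AZ.CDefs

/-! Project RZ: cells (piece C1). -/

set_option autoImplicit false

open Finset
open Pool.Agent.Helper42.RO Pool.Agent.Helper44.RO2

namespace Pool.Agent.Helper63.AZ

private lemma ccell_log {t : ℕ × ℕ} (ht : Cop t) {m : ℕ} (hm : m ≠ 0) (hd : m ∣ rad (T t)) :
    ∑ p ∈ m.primeFactors, ((T t).factorization p : ℝ) * Real.log p ≤ 3 * Real.log (c t) := by
  have hsub : m.primeFactors ⊆ (T t).primeFactors := by
    rw [← rad_primeFactors (T t)]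
    exact Nat.primeFactors_mono hd (rad_pos _).ne'
  have h1 : ∑ p ∈ (T t).primeFactors, ((T t).factorization p : ℝ) * Real.log p =
      Real.log (T t) := by
    rw [Real.log_nat_eq_sum_factorization, Finsupp.sum, Nat.support_factorization]
  refine le_trans ?_ (log_T_le ht)
  rw [← h1]
  refine Finset.sum_le_sum_of_subset_of_nonneg hsub fun p _ _ => ?_
  have := Real.log_natCast_nonneg p
  positivity

private lemma ccell_card_as {m : ℕ} (A : Finset (ℕ → Fin 3))
    (hA : ∀ f ∈ A, ∀ p, p ∉ m.primeFactors → f p = 0) :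
    A.card ≤ 3 ^ m.primeFactors.card := by
  classical
  have h1 : A.card ≤ (Finset.univ : Finset (m.primeFactors → Fin 3)).card := by
    refine Finset.card_le_card_of_injOn (fun f p => f p.1) (fun f _ => by simp) ?_
    intro f hf g hg hfg
    funext p
    by_cases hp : p ∈ m.primeFactors
    · exact congrFun hfg ⟨p, hp⟩
    · rw [hA f (Finset.mem_coe.1 hf) p hp, hA g (Finset.mem_coe.1 hg) p hp]
  refine h1.trans (le_of_eq ?_)
  rw [Finset.card_univ, Fintype.card_fun, Fintype.card_fin, Fintype.card_coe]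

/-- RZ-C1.  Few cells.  PROOF (like `Pool.Agent.Helper44.RO2.cells`).  `s = ω(m)`; `s = 0` trivial (one
cell).  `wd p = θ ℓ / (s log p)`, `i_p(t) = ⌊v_p(T t) / wd p⌋₊`; `vs p = ⌈i_p wd p⌉₊ ≤ v_p`, and
`v_p - vs p ≤ wd p`, so `∑ (v_p - vs p) log p ≤ θ ℓ ≤ θ log (c t)`.  `as p` = an entry divisible by
`p` (every `p ∣ m ∣ rad (T t)` divides `T t`).  `∑ i_p ≤ s log (T t) / (θ ℓ) ≤ 3 (ℓ + 1) s / (θ ℓ)
≤ 6 s / θ` (`log_T_le`), so by `Pool.Agent.Helper42.RO.card_le_of_sum_le` the number of index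
vectors is at most `2 ^ (⌈6 / θ⌉₊ * s + s)`, and there are `3 ^ s` maps `as` on the primes of `m`
(put `as p = 0`, `vs p = 0` outside). -/
theorem cellsC (θ : ℝ) (h0 : 0 < θ) (h1 : θ ≤ 1) : ∃ K : ℝ, 1 ≤ K ∧ ∀ (m ℓ : ℕ), m ≠ 0 → 1 ≤ ℓ →
    ∀ S : Finset (ℕ × ℕ), (∀ t ∈ S, Cop t ∧ m ∣ rad (T t) ∧ (ℓ : ℝ) ≤ Real.log (c t) ∧
      Real.log (c t) < ℓ + 1) →
    ∃ 𝒬 : Finset ((ℕ → ℕ) × (ℕ → Fin 3)), (𝒬.card : ℝ) ≤ K ^ m.primeFactors.card ∧
      ∀ t ∈ S, ∃ q ∈ 𝒬, InCell θ m q.1 q.2 t := by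
  classical
  refine ⟨((2 ^ (⌈6 / θ⌉₊ + 1) * 3 : ℕ) : ℝ), ?_, ?_⟩
  · have : 1 ≤ 2 ^ (⌈6 / θ⌉₊ + 1) * 3 := Nat.one_le_iff_ne_zero.2 (by positivity)
    exact_mod_cast this
  intro m ℓ hm hℓ S hS
  set s : ℕ := m.primeFactors.card with hs
  have hℓ0 : (1 : ℝ) ≤ ℓ := by exact_mod_cast hℓ
  have hθℓ : 0 < θ * ℓ := by positivity
  have hs0 : ∀ p ∈ m.primeFactors, (0 : ℝ) < s := fun p hp => by
    have : 0 < s := by
      rw [hs]
      exact Finset.card_pos.2 ⟨p, hp⟩
    exact_mod_cast this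
  have hlogp : ∀ p ∈ m.primeFactors, 0 < Real.log p := fun p hp =>
    Real.log_pos (by exact_mod_cast (Nat.prime_of_mem_primeFactors hp).one_lt)
  let h : ℕ × ℕ → ℕ → ℕ := fun t p => if p ∈ m.primeFactors then
    ⌊((T t).factorization p : ℝ) * Real.log p * s / (θ * ℓ)⌋₊ else 0
  let vsOf : (ℕ → ℕ) → ℕ → ℕ := fun f p => if p ∈ m.primeFactors then
    ⌈(f p : ℝ) * (θ * ℓ) / (s * Real.log p)⌉₊ else 0
  have has : ∀ t : ℕ × ℕ, ∃ a : ℕ → Fin 3, (∀ p, p ∉ m.primeFactors → a p = 0) ∧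
      ∀ p ∈ m.primeFactors, (∃ k, p ∣ ent t k) → p ∣ ent t (a p) := by
    intro t
    have h2 : ∀ p : ℕ, ∃ k : Fin 3, (p ∉ m.primeFactors → k = 0) ∧
        (p ∈ m.primeFactors → (∃ k, p ∣ ent t k) → p ∣ ent t k) := by
      intro p
      by_cases hp : p ∈ m.primeFactors
      · by_cases hk : ∃ k, p ∣ ent t k
        · obtain ⟨k, hk⟩ := hk
          exact ⟨k, fun h3 => absurd hp h3, fun _ _ => hk⟩
        · exact ⟨0, fun _ => rfl, fun _ h3 => absurd h3 hk⟩
      · exact ⟨0, fun _ => rfl, fun h3 => absurd h3 hp⟩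
    choose a ha using h2
    exact ⟨a, fun p hp => (ha p).1 hp, fun p hp => (ha p).2 hp⟩
  choose asOf has1 has2 using has
  have hle : ∀ t p, p ∈ m.primeFactors →
      (h t p : ℝ) ≤ ((T t).factorization p : ℝ) * Real.log p * s / (θ * ℓ) := by
    intro t p hp
    have h2 : h t p = ⌊((T t).factorization p : ℝ) * Real.log p * s / (θ * ℓ)⌋₊ := if_pos hp
    rw [h2]
    refine Nat.floor_le ?_
    have h3 := (hlogp p hp).le
    positivity
  have hlt : ∀ t p, p ∈ m.primeFactors →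
      ((T t).factorization p : ℝ) * Real.log p * s / (θ * ℓ) < (h t p : ℝ) + 1 := by
    intro t p hp
    have h2 : h t p = ⌊((T t).factorization p : ℝ) * Real.log p * s / (θ * ℓ)⌋₊ := if_pos hp
    rw [h2]
    exact Nat.lt_floor_add_one _
  -- the number of index vectors
  have hsum : ∀ t ∈ S, ∑ p ∈ m.primeFactors, h t p ≤ ⌈6 / θ⌉₊ * s := by
    intro t ht
    obtain ⟨hc, hd, hl1, hl2⟩ := hS t ht
    have h2 : (∑ p ∈ m.primeFactors, (h t p : ℝ)) ≤
        ∑ p ∈ m.primeFactors, ((T t).factorization p : ℝ) * Real.log p * s / (θ * ℓ) :=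
      Finset.sum_le_sum fun p hp => hle t p hp
    have h3 : ∑ p ∈ m.primeFactors, ((T t).factorization p : ℝ) * Real.log p * s / (θ * ℓ) =
        (∑ p ∈ m.primeFactors, ((T t).factorization p : ℝ) * Real.log p) * (s / (θ * ℓ)) := by
      rw [Finset.sum_mul]
      refine Finset.sum_congr rfl fun p _ => ?_
      ring
    have h4 : (∑ p ∈ m.primeFactors, ((T t).factorization p : ℝ) * Real.log p) * (s / (θ * ℓ)) ≤
        (6 * ℓ) * (s / (θ * ℓ)) := by
      refine mul_le_mul_of_nonneg_right ?_ (by positivity)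
      have h5 := ccell_log hc hm hd
      linarith
    have h5 : (6 * ℓ) * (s / (θ * ℓ)) = 6 / θ * s := by
      field_simp
    have h6 : 6 / θ * s ≤ (⌈6 / θ⌉₊ : ℝ) * s :=
      mul_le_mul_of_nonneg_right (Nat.le_ceil _) (Nat.cast_nonneg _)
    have h7 : (∑ p ∈ m.primeFactors, (h t p : ℝ)) ≤ (⌈6 / θ⌉₊ : ℝ) * s := by
      rw [h3] at h2
      rw [h5] at h4
      exact h2.trans (h4.trans h6)
    exact_mod_cast h7
  have hcells : (S.image h).card ≤ (2 ^ (⌈6 / θ⌉₊ + 1)) ^ s := by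
    have h2 := card_le_of_sum_le m.primeFactors (⌈6 / θ⌉₊ * s) (S.image h)
      (fun f i => f i) (by
        intro f hf
        obtain ⟨t, ht, rfl⟩ := Finset.mem_image.1 hf
        exact hsum t ht) (by
        intro f hf g hg hfg
        obtain ⟨t, ht, rfl⟩ := Finset.mem_image.1 hf
        obtain ⟨t', ht', rfl⟩ := Finset.mem_image.1 hg
        funext p
        by_cases hp : p ∈ m.primeFactors
        · exact hfg p hp
        · have e1 : h t p = 0 := if_neg hp
          have e2 : h t' p = 0 := if_neg hp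
          rw [e1, e2])
    refine h2.trans (le_of_eq ?_)
    rw [← pow_mul, ← hs]
    congr 1
    ring
  have hascard : (S.image asOf).card ≤ 3 ^ s := by
    refine ccell_card_as _ ?_
    intro f hf p hp
    obtain ⟨t, -, rfl⟩ := Finset.mem_image.1 hf
    exact has1 t p hp
  refine ⟨(S.image h).image vsOf ×ˢ S.image asOf, ?_, ?_⟩
  · have h2 : ((S.image h).image vsOf ×ˢ S.image asOf).card ≤
        (2 ^ (⌈6 / θ⌉₊ + 1)) ^ s * 3 ^ s := by
      rw [Finset.card_product]
      exact Nat.mul_le_mul (Finset.card_image_le.trans hcells) hascard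
    rw [← mul_pow] at h2
    exact_mod_cast h2
  · intro t ht
    obtain ⟨hc, hd, hl1, hl2⟩ := hS t ht
    refine ⟨(vsOf (h t), asOf t), ?_, ?_, ?_⟩
    · rw [Finset.mem_product]
      exact ⟨Finset.mem_image_of_mem _ (Finset.mem_image_of_mem _ ht),
        Finset.mem_image_of_mem _ ht⟩
    · intro p hp
      refine ⟨?_, ?_⟩
      · have h2 : vsOf (h t) p = ⌈(h t p : ℝ) * (θ * ℓ) / (s * Real.log p)⌉₊ := if_pos hp
        show vsOf (h t) p ≤ _
        rw [h2]
        refine Nat.ceil_le.2 ?_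
        have h3 := hle t p hp
        rw [le_div_iff₀ hθℓ] at h3
        rw [div_le_iff₀ (mul_pos (hs0 p hp) (hlogp p hp))]
        linarith
      · refine has2 t p hp ?_
        refine prime_dvd_T (Nat.prime_of_mem_primeFactors hp) ?_
        exact ((Nat.dvd_of_mem_primeFactors hp).trans hd).trans (rad_dvd _)
    · have h2 : ∀ p ∈ m.primeFactors,
          (((T t).factorization p : ℝ) - vsOf (h t) p) * Real.log p ≤ θ * ℓ / s := by
        intro p hp
        have h3 : vsOf (h t) p = ⌈(h t p : ℝ) * (θ * ℓ) / (s * Real.log p)⌉₊ := if_pos hp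
        have h4 : (h t p : ℝ) * (θ * ℓ) / (s * Real.log p) ≤ (vsOf (h t) p : ℝ) := by
          rw [h3]
          exact Nat.le_ceil _
        have h5 := hlt t p hp
        rw [div_lt_iff₀ hθℓ] at h5
        rw [div_le_iff₀ (mul_pos (hs0 p hp) (hlogp p hp))] at h4
        rw [le_div_iff₀ (hs0 p hp)]
        nlinarith
      have h3 := Finset.sum_le_sum h2
      rw [Finset.sum_const, nsmul_eq_mul, ← hs] at h3
      refine h3.trans ?_
      have h4 : (s : ℝ) * (θ * ℓ / s) ≤ θ * ℓ := by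
        rcases Nat.eq_zero_or_pos s with h5 | h5
        · rw [h5]
          simp
          positivity
        · have h6 : (0 : ℝ) < s := by exact_mod_cast h5
          rw [mul_div_cancel₀ _ h6.ne']
      refine h4.trans ?_
      exact mul_le_mul_of_nonneg_left hl1 h0.le

end Pool.Agent.Helper63.AZ
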