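import Mathlib
import Pool.Agent.Helper42.RO.A3
import Pool.Agent.Helper63.AZ.CDefs

/-! Project RZ: few triples for a pair `(X, Y)` (piece C4). -/

set_option autoImplicit false

open Finset
open Pool.Agent.Helper42.RO Pool.Agent.Helper44.RO2

namespace Pool.Agent.Helper63.AZ

private lemma CFib_log_part (m n : ℕ) :
    Real.log (part m n : ℝ) = ∑ p ∈ m.primeFactors, (n.factorization p : ℝ) * Real.log p := by
  unfold part
  push_cast
  rw [Real.log_prod]
  · exact Finset.sum_congr rfl fun p _ => Real.log_pow _ _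
  · intro p hp
    have := (Nat.prime_of_mem_primeFactors hp).pos
    positivity

private lemma CFib_log_self {n : ℕ} (hn : n ≠ 0) :
    Real.log (n : ℝ) = ∑ p ∈ n.primeFactors, (n.factorization p : ℝ) * Real.log p := by
  have h := CFib_log_part (rad n) n
  rwa [part_self hn, rad_primeFactors] at h

private lemma CFib_term_nonneg (n p : ℕ) : 0 ≤ (n.factorization p : ℝ) * Real.log p :=
  mul_nonneg (Nat.cast_nonneg _) (Real.log_natCast_nonneg p)

private lemma CFib_dvd_XX {f j : Fin 3} {m : ℕ} {w : ℕ → ℕ} {t : ℕ × ℕ} {p : ℕ}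
    (hp : p ∈ Fr f m t) (hj : p ∣ ent t j) (hw : w p ≠ 0) : p ∣ XX f j m w t := by
  unfold XX
  exact (dvd_pow_self p hw).trans
    (Finset.dvd_prod_of_mem (fun q : ℕ => q ^ w q) (Finset.mem_filter.2 ⟨hp, hj⟩))

private lemma CFib_prime_XX {f j : Fin 3} {m : ℕ} {w : ℕ → ℕ} {t : ℕ × ℕ} {p : ℕ} (hp : p.Prime)
    (h : p ∣ XX f j m w t) : p ∈ (T t).primeFactors := by
  unfold XX at h
  obtain ⟨q, hq, hpq⟩ := (Prime.dvd_finsetProd_iff hp.prime _).1 h
  have hq1 : q ∈ (T t).primeFactors :=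
    (Finset.mem_filter.1 (Finset.mem_filter.1 hq).1).1
  have hqp : q.Prime := Nat.prime_of_mem_primeFactors hq1
  have h2 : p ∣ q := hp.dvd_of_dvd_pow hpq
  rwa [(Nat.prime_dvd_prime_iff_eq hp hqp).1 h2]

private lemma CFib_XX_ne {f j : Fin 3} {m : ℕ} {w : ℕ → ℕ} {t : ℕ × ℕ} :
    XX f j m w t ≠ 0 := by
  unfold XX
  refine Finset.prod_ne_zero_iff.2 fun q hq => ?_
  have hq1 : q ∈ (T t).primeFactors :=
    (Finset.mem_filter.1 (Finset.mem_filter.1 hq).1).1
  exact pow_ne_zero _ (Nat.prime_of_mem_primeFactors hq1).ne_zero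

/-- RZ-C4a.  PROOF.  Let `m' = m * X * Y`, `X = XX f e m w t`, `Y = XX f g m w t`.  The primes of `m'`
are primes of `T t`.  A prime `p ∣ T t` not dividing `m'` divides `ent t f` and not `m`, or is in
`Fr f m t` with `w p = 0`; so
`log (T t) - log (part m' (T t)) ≤ (log (ent t f) - log (part m (ent t f))) + ∑_Fr |v - k w| log p`
`≤ (1 - γ + γ / 2) log c`, and `T t = a b c`. -/
theorem part_ge (t : ℕ × ℕ) (ht : Cop t) {f e g : Fin 3} (h1 : f ≠ e) (h2 : g ≠ f) (h3 : g ≠ e)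
    (Z m k : ℕ) (γ H τ : ℝ) (hτ : τ ≤ γ / 2) (hm : m ∣ rad (T t)) (w : ℕ → ℕ)
    (hw : TyW Z γ H τ k m f w t) :
    (m * XX f e m w t * XX f g m w t).primeFactors ⊆ (T t).primeFactors ∧
    ((t.1 : ℝ) * t.2) * (c t) ^ (γ / 2) ≤
      (part (m * XX f e m w t * XX f g m w t) (T t) : ℝ) := by
  classical
  have hm0 : m ≠ 0 := fun h => (rad_pos (T t)).ne' (Nat.eq_zero_of_zero_dvd (h ▸ hm))
  have hT0 : T t ≠ 0 := ht.T_ne
  have hmT : m ∣ T t := hm.trans (rad_dvd _)
  have hX0 : XX f e m w t ≠ 0 := CFib_XX_ne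
  have hY0 : XX f g m w t ≠ 0 := CFib_XX_ne
  set m' := m * XX f e m w t * XX f g m w t with hm'
  have hm'0 : m' ≠ 0 := mul_ne_zero (mul_ne_zero hm0 hX0) hY0
  have hsub : m'.primeFactors ⊆ (T t).primeFactors := by
    intro p hp
    have hpp := Nat.prime_of_mem_primeFactors hp
    have hpd := Nat.dvd_of_mem_primeFactors hp
    rw [hm', hpp.dvd_mul, hpp.dvd_mul] at hpd
    rcases hpd with (h | h) | h
    · exact Nat.mem_primeFactors.2 ⟨hpp, h.trans hmT, hT0⟩
    · exact CFib_prime_XX hpp h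
    · exact CFib_prime_XX hpp h
  refine ⟨hsub, ?_⟩
  obtain ⟨hw1, hw2, -⟩ := hw
  have hc0 : 0 < c t := ht.c_pos
  have hlc : 0 < Real.log (c t) := ht.log_c_pos
  have hef0 : ent t f ≠ 0 := ent_ne ht f
  set φ : ℕ → ℝ := fun p => ((T t).factorization p : ℝ) * Real.log p with hφ
  have hφ0 : ∀ p, 0 ≤ φ p := fun p => CFib_term_nonneg _ _
  have hlogT : Real.log (T t : ℝ) = ∑ p ∈ (T t).primeFactors, φ p := CFib_log_self hT0
  have hlogP : Real.log (part m' (T t) : ℝ) = ∑ p ∈ m'.primeFactors, φ p := CFib_log_part _ _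
  -- the rest
  set A : Finset ℕ := (ent t f).primeFactors.filter (fun p => ¬ p ∣ m) with hA
  set B : Finset ℕ := (Fr f m t).filter (fun p => w p = 0) with hB
  have hcov : (T t).primeFactors \ m'.primeFactors ⊆ A ∪ B := by
    intro p hp
    rw [Finset.mem_sdiff] at hp
    have hpp := Nat.prime_of_mem_primeFactors hp.1
    have hpm' : ¬ p ∣ m' := fun h => hp.2 (Nat.mem_primeFactors.2 ⟨hpp, h, hm'0⟩)
    have hpm : ¬ p ∣ m := fun h => hpm' (by rw [hm', mul_assoc]; exact Dvd.dvd.mul_right h _)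
    have hpX : ¬ p ∣ XX f e m w t := fun h => hpm' (by
      rw [hm']; exact Dvd.dvd.mul_right (Dvd.dvd.mul_left h _) _)
    have hpY : ¬ p ∣ XX f g m w t := fun h => hpm' (by
      rw [hm']; exact Dvd.dvd.mul_left h _)
    rw [Finset.mem_union]
    by_cases hpf : p ∣ ent t f
    · left
      exact Finset.mem_filter.2 ⟨Nat.mem_primeFactors.2 ⟨hpp, hpf, hef0⟩, hpm⟩
    · right
      have hFr : p ∈ Fr f m t := Finset.mem_filter.2 ⟨hp.1, hpf, hpm⟩
      refine Finset.mem_filter.2 ⟨hFr, ?_⟩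
      by_contra hw0
      obtain ⟨i, hi⟩ := prime_dvd_T hpp (Nat.dvd_of_mem_primeFactors hp.1)
      rcases eq_of_three h1 h2 h3 (i := i) with rfl | rfl | rfl
      · exact hpf hi
      · exact hpX (CFib_dvd_XX hFr hi hw0)
      · exact hpY (CFib_dvd_XX hFr hi hw0)
  have hrest : ∑ p ∈ (T t).primeFactors \ m'.primeFactors, φ p ≤ (1 - γ / 2) * Real.log (c t) := by
    have e1 : ∑ p ∈ (T t).primeFactors \ m'.primeFactors, φ p ≤ ∑ p ∈ A ∪ B, φ p :=
      Finset.sum_le_sum_of_subset_of_nonneg hcov fun p _ _ => hφ0 p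
    have e2 : ∑ p ∈ A ∪ B, φ p ≤ ∑ p ∈ A, φ p + ∑ p ∈ B, φ p := by
      rw [← Finset.sum_union_inter]
      exact le_add_of_nonneg_right (Finset.sum_nonneg fun p _ => hφ0 p)
    have e3 : ∑ p ∈ B, φ p ≤ τ * Real.log (c t) := by
      refine le_trans ?_ hw2
      refine le_trans (Finset.sum_le_sum ?_) (Finset.sum_le_sum_of_subset_of_nonneg
        (Finset.filter_subset _ _) fun p _ _ =>
          mul_nonneg (abs_nonneg _) (Real.log_natCast_nonneg p))
      intro p hp
      have hw0 : w p = 0 := (Finset.mem_filter.1 hp).2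
      simp only [hφ, hw0, Nat.cast_zero, mul_zero, sub_zero, Nat.abs_cast]
      exact le_rfl
    have e4 : ∑ p ∈ A, φ p ≤ (1 - γ) * Real.log (c t) := by
      have f1 : ∑ p ∈ A, φ p = ∑ p ∈ A, ((ent t f).factorization p : ℝ) * Real.log p := by
        refine Finset.sum_congr rfl fun p hp => ?_
        have hp' := (Finset.mem_filter.1 hp).1
        simp only [hφ]
        rw [fact_T ht (Nat.prime_of_mem_primeFactors hp') (Nat.dvd_of_mem_primeFactors hp')]
      have f2 := CFib_log_self hef0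
      have f3 := CFib_log_part m (ent t f)
      have f4 : ∑ p ∈ m.primeFactors, ((ent t f).factorization p : ℝ) * Real.log p =
          ∑ p ∈ (ent t f).primeFactors.filter (fun p => p ∣ m),
            ((ent t f).factorization p : ℝ) * Real.log p := by
        symm
        refine Finset.sum_subset ?_ ?_
        · intro p hp
          rw [Finset.mem_filter] at hp
          exact Nat.mem_primeFactors.2 ⟨Nat.prime_of_mem_primeFactors hp.1, hp.2, hm0⟩
        · intro p hp hp2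
          have hpd : ¬ p ∣ ent t f := fun h => hp2 (Finset.mem_filter.2
            ⟨Nat.mem_primeFactors.2 ⟨Nat.prime_of_mem_primeFactors hp, h, hef0⟩,
              Nat.dvd_of_mem_primeFactors hp⟩)
          rw [Nat.factorization_eq_zero_of_not_dvd hpd]
          simp
      have f5 := Finset.sum_filter_add_sum_filter_not (ent t f).primeFactors (fun p => p ∣ m)
        (fun p => ((ent t f).factorization p : ℝ) * Real.log p)
      have f6 : Real.log (ent t f : ℝ) ≤ Real.log (c t) :=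
        Real.log_le_log (by exact_mod_cast ent_pos ht f) (ent_le_c t f)
      have f7 : γ * Real.log (c t) ≤ Real.log (part m (ent t f) : ℝ) := by
        rw [← Real.log_rpow hc0]
        exact Real.log_le_log (Real.rpow_pos_of_pos hc0 _) hw1
      rw [f1]
      have f8 : ∑ p ∈ A, ((ent t f).factorization p : ℝ) * Real.log p =
          Real.log (ent t f : ℝ) - Real.log (part m (ent t f) : ℝ) := by
        rw [f2, f3, f4, ← f5]
        ring
      rw [f8]
      linarith
    have e5 : τ * Real.log (c t) ≤ γ / 2 * Real.log (c t) :=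
      mul_le_mul_of_nonneg_right hτ hlc.le
    linarith
  have hsplit : ∑ p ∈ (T t).primeFactors \ m'.primeFactors, φ p + ∑ p ∈ m'.primeFactors, φ p =
      ∑ p ∈ (T t).primeFactors, φ p := Finset.sum_sdiff hsub
  have hT' : Real.log (T t : ℝ) = Real.log ((t.1 : ℝ) * t.2) + Real.log (c t) := by
    have h11 := ht.pos1
    have h12 := ht.pos2
    rw [← Real.log_mul (by positivity) hc0.ne']
    congr 1
    unfold T c
    push_cast
    ring
  have hab : (0 : ℝ) < (t.1 : ℝ) * t.2 := by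
    have h11 := ht.pos1
    have h12 := ht.pos2
    positivity
  have hfin : Real.log (((t.1 : ℝ) * t.2) * (c t) ^ (γ / 2)) ≤ Real.log (part m' (T t) : ℝ) := by
    rw [Real.log_mul hab.ne' (Real.rpow_pos_of_pos hc0 _).ne', Real.log_rpow hc0, hlogP]
    linarith
  exact (Real.log_le_log_iff (mul_pos hab (Real.rpow_pos_of_pos hc0 _))
    (by exact_mod_cast part_pos _ _)).1 hfin

/-- RZ-C4.  PROOF.  `part_ge` and `gp_total (γ / 2)` with `m x y`; the number of primes of `m x y` is at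
most that of `rad (T t) ≤ Z` (if `S` is not empty), so `pow_omega` bounds `K ^ (ω + 1)` by
`C Z ^ ε`. -/
theorem fibre_count (γ ε : ℝ) (hγ : 0 < γ) (hγ1 : γ ≤ 1) (hε : 0 < ε) : ∃ C : ℝ, 1 ≤ C ∧
    ∀ (Z m k x y : ℕ) (Λ H τ : ℝ) (f e g : Fin 3), 1 ≤ Z → 1 ≤ Λ → τ ≤ γ / 2 → f ≠ e → g ≠ f →
      g ≠ e → ∀ (S : Finset (ℕ × ℕ)) (w : ℕ × ℕ → ℕ → ℕ),
      (∀ t ∈ S, Cop t ∧ rad (T t) ≤ Z ∧ Real.log (c t) ≤ Λ ∧ m ∣ rad (T t) ∧
        TyW Z γ H τ k m f (w t) t ∧ XX f e m (w t) t = x ∧ XX f g m (w t) t = y) →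
      (S.card : ℝ) ≤ C * (Z : ℝ) ^ ε * (1 + Real.log Λ) := by
  classical
  obtain ⟨K, hK1, hK⟩ := gp_total (γ / 2) (by linarith) (by linarith)
  obtain ⟨C, hC1, hC⟩ := pow_omega K ε hK1 hε
  refine ⟨K * C, by nlinarith, ?_⟩
  intro Z m k x y Λ H τ f e g hZ hΛ hτ h1 h2 h3 S w hS
  have hL : 0 ≤ 1 + Real.log Λ := by have := Real.log_nonneg hΛ; linarith
  rcases S.eq_empty_or_nonempty with rfl | ⟨t0, ht0⟩
  · simp only [Finset.card_empty, Nat.cast_zero]
    have : 0 ≤ (Z : ℝ) ^ ε := Real.rpow_nonneg (Nat.cast_nonneg _) _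
    have hKC : 0 ≤ K * C := by nlinarith
    positivity
  have hkey := hK (m * x * y) Λ hΛ S fun t ht => by
    obtain ⟨a1, a2, a3, a4, a5, a6, a7⟩ := hS t ht
    refine ⟨a1, a3, ?_⟩
    have := (part_ge t a1 h1 h2 h3 Z m k γ H τ hτ a4 (w t) a5).2
    rwa [a6, a7] at this
  refine hkey.trans ?_
  refine mul_le_mul_of_nonneg_right ?_ hL
  obtain ⟨a1, a2, a3, a4, a5, a6, a7⟩ := hS t0 ht0
  have hsub := (part_ge t0 a1 h1 h2 h3 Z m k γ H τ hτ a4 (w t0) a5).1
  rw [a6, a7] at hsub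
  have hcard : (m * x * y).primeFactors.card ≤ (rad (T t0)).primeFactors.card := by
    rw [rad_primeFactors]
    exact Finset.card_le_card hsub
  have hr := hC (rad (T t0)) (rad_pos _).ne'
  have hZr : ((rad (T t0) : ℕ) : ℝ) ^ ε ≤ (Z : ℝ) ^ ε :=
    Real.rpow_le_rpow (Nat.cast_nonneg _) (by exact_mod_cast a2) hε.le
  have hC0 : 0 ≤ C := by linarith
  have hK0 : 0 ≤ K := by linarith
  calc K ^ ((m * x * y).primeFactors.card + 1) = K * K ^ (m * x * y).primeFactors.card := by ring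
    _ ≤ K * K ^ (rad (T t0)).primeFactors.card :=
        mul_le_mul_of_nonneg_left (pow_le_pow_right₀ hK1 hcard) hK0
    _ ≤ K * (C * ((rad (T t0) : ℕ) : ℝ) ^ ε) := mul_le_mul_of_nonneg_left hr hK0
    _ ≤ K * (C * (Z : ℝ) ^ ε) :=
        mul_le_mul_of_nonneg_left (mul_le_mul_of_nonneg_left hZr hC0) hK0
    _ = K * C * (Z : ℝ) ^ ε := by ring

end Pool.Agent.Helper63.AZ
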