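import Mathlib
import Pool.Agent.Helper42.RO.Defs

/-! Project RZ: members of the family of the key proposition. -/

set_option autoImplicit false

open Finset
open Pool.Agent.Helper42.RO

namespace Pool.Agent.Helper63.AZ

/-- A member of the family: `X ^ k V Q0 ≡ s Y ^ k U Q1 (mod D)`. -/
structure Mem (D Q0 Q1 k : ℕ) (s : ℤ) (Z : ℕ) (h τ : ℝ) (X Y U V : ℕ) : Prop where
  pos : 0 < X ∧ 0 < Y ∧ 0 < U ∧ 0 < V
  copD : X.Coprime D ∧ Y.Coprime D ∧ U.Coprime D ∧ V.Coprime D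
  copXY : X.Coprime Y
  rad_le : rad (X * Y) ≤ Z
  logXY : Real.log X ≤ h ∧ Real.log Y ≤ h
  logUV : Real.log U ≤ τ ∧ Real.log V ≤ τ
  rel : ((X : ℤ) ^ k * V * Q0) ≡ s * ((Y : ℤ) ^ k * U * Q1) [ZMOD D]

end Pool.Agent.Helper63.AZ
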