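import Mathlib
import Pool.Agent.Helper63.AZ.CDefs
import Pool.Agent.Helper63.AZ.KMem

/-! Project RZ: a triple of type (B') is a member of the family (piece C2a). -/

set_option autoImplicit false

open Finset
open Pool.Agent.Helper42.RO Pool.Agent.Helper44.RO2

namespace Pool.Agent.Helper63.AZ

/-- RZ-C2a0.  The congruence with the right sign: `a ≡ -b (mod c)`, `c ≡ b (mod a)`, `c ≡ a (mod b)`. -/
theorem ent_modEq (t : ℕ × ℕ) {f e g : Fin 3} (h1 : f ≠ e) (h2 : g ≠ f) (h3 : g ≠ e) :
    ((ent t e : ℤ)) ≡ sg f * (ent t g : ℤ) [ZMOD (ent t f : ℤ)] := by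
  rw [Int.modEq_iff_dvd]
  fin_cases f <;> fin_cases e <;> fin_cases g <;>
    first
    | exact absurd rfl h1
    | exact absurd rfl h2
    | exact absurd rfl h3
    | skip
  · refine ⟨1, ?_⟩
    simp [sg, ent]
  · refine ⟨-1, ?_⟩
    simp [sg, ent]
  · refine ⟨1, ?_⟩
    simp [sg, ent]
  · refine ⟨-1, ?_⟩
    simp [sg, ent]
  · refine ⟨-1, ?_⟩
    simp [sg, ent]
    ring
  · refine ⟨-1, ?_⟩
    simp [sg, ent]
    ring

private lemma CMem_as {t : ℕ × ℕ} (ht : Cop t) {p : ℕ} (hp : p.Prime) {i j : Fin 3}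
    (hi : p ∣ ent t i) (hj : p ∣ ent t j) : i = j := by
  by_contra h
  exact not_dvd_ent ht h hp hi hj

private lemma CMem_Fr {f : Fin 3} {m : ℕ} {t : ℕ × ℕ} {p : ℕ} (h : p ∈ Fr f m t) :
    p.Prime ∧ p ∣ T t ∧ ¬ p ∣ ent t f ∧ ¬ p ∣ m := by
  rw [Fr, mem_filter] at h
  exact ⟨Nat.prime_of_mem_primeFactors h.1, Nat.dvd_of_mem_primeFactors h.1, h.2.1, h.2.2⟩

private lemma CMem_split {t : ℕ × ℕ} (ht : Cop t) {f j : Fin 3} (hj : j ≠ f) {m : ℕ}
    (hm : m ≠ 0) (as : ℕ → Fin 3) (hcell : ∀ p ∈ m.primeFactors, p ∣ ent t (as p)) :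
    (ent t j).primeFactors = (Fr f m t).filter (fun p => p ∣ ent t j) ∪
      m.primeFactors.filter (fun p => as p = j) := by
  ext p
  simp only [mem_union, mem_filter]
  constructor
  · intro h
    have hp := Nat.prime_of_mem_primeFactors h
    have hd := Nat.dvd_of_mem_primeFactors h
    by_cases hpm : p ∣ m
    · right
      have hpm' : p ∈ m.primeFactors := Nat.mem_primeFactors.2 ⟨hp, hpm, hm⟩
      exact ⟨hpm', CMem_as ht hp (hcell p hpm') hd⟩
    · left
      refine ⟨?_, hd⟩
      rw [Fr, mem_filter]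
      exact ⟨Nat.mem_primeFactors.2 ⟨hp, hd.trans (ent_dvd_T t j), ht.T_ne⟩,
        not_dvd_ent ht hj hp hd, hpm⟩
  · rintro (⟨h, hd⟩ | ⟨h, hd⟩)
    · exact Nat.mem_primeFactors.2 ⟨(CMem_Fr h).1, hd, ent_ne ht j⟩
    · have := hcell p h
      rw [hd] at this
      exact Nat.mem_primeFactors.2 ⟨Nat.prime_of_mem_primeFactors h, this, ent_ne ht j⟩

private lemma CMem_ent {t : ℕ × ℕ} (ht : Cop t) (j : Fin 3) :
    ent t j = ∏ p ∈ (ent t j).primeFactors, p ^ (T t).factorization p := by
  conv_lhs => rw [← Nat.prod_factorization_pow_eq_self (ent_ne ht j)]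
  rw [Finsupp.prod, Nat.support_factorization]
  refine prod_congr rfl fun p hp => ?_
  rw [fact_T ht (Nat.prime_of_mem_primeFactors hp) (Nat.dvd_of_mem_primeFactors hp)]

/-- RZ-C2a1.  An entry `j ≠ f` in terms of its primes.  PROOF.  `ent t j = ∏ p ^ v_p` over its primes
(`fact_T`); a prime of `ent t j` divides `m` (then `as p = j`, as the entries are coprime) or is in
`(Fr f m t).filter (· ∣ ent t j)`; conversely.  With `v = k w + (v - k w) - (k w - v)` in the
exponents (natural subtractions). -/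
theorem ent_prod (t : ℕ × ℕ) (ht : Cop t) {f j : Fin 3} (hj : j ≠ f) (m k : ℕ)
    (hm : m ∣ rad (T t)) (vs : ℕ → ℕ) (as : ℕ → Fin 3)
    (hcell : ∀ p ∈ m.primeFactors, vs p ≤ (T t).factorization p ∧ p ∣ ent t (as p))
    (w : ℕ → ℕ) :
    ent t j * (∏ p ∈ (Fr f m t).filter (fun p => p ∣ ent t j), p ^ (k * w p - (T t).factorization p)) =
      (XX f j m w t) ^ k *
        (∏ p ∈ (Fr f m t).filter (fun p => p ∣ ent t j), p ^ ((T t).factorization p - k * w p)) *
        (∏ p ∈ m.primeFactors.filter (fun p => as p = j), p ^ ((T t).factorization p - vs p)) *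
        QQ m vs as j := by
  have hm0 : m ≠ 0 := by
    rintro rfl
    exact (rad_pos (T t)).ne' (Nat.eq_zero_of_zero_dvd hm)
  have hdisj : Disjoint ((Fr f m t).filter (fun p => p ∣ ent t j))
      (m.primeFactors.filter (fun p => as p = j)) := by
    rw [Finset.disjoint_left]
    intro p hp hp'
    rw [mem_filter] at hp hp'
    exact (CMem_Fr hp.1).2.2.2 (Nat.dvd_of_mem_primeFactors hp'.1)
  have hE : ent t j = (∏ p ∈ (Fr f m t).filter (fun p => p ∣ ent t j), p ^ (T t).factorization p) *
      ∏ p ∈ m.primeFactors.filter (fun p => as p = j), p ^ (T t).factorization p := by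
    rw [← prod_union hdisj, ← CMem_split ht hj hm0 as (fun p hp => (hcell p hp).2)]
    exact CMem_ent ht j
  have hA : (∏ p ∈ (Fr f m t).filter (fun p => p ∣ ent t j), p ^ (T t).factorization p) *
      (∏ p ∈ (Fr f m t).filter (fun p => p ∣ ent t j), p ^ (k * w p - (T t).factorization p)) =
      (XX f j m w t) ^ k *
      ∏ p ∈ (Fr f m t).filter (fun p => p ∣ ent t j), p ^ ((T t).factorization p - k * w p) := by
    rw [XX, ← prod_pow, ← prod_mul_distrib, ← prod_mul_distrib]
    refine prod_congr rfl fun p _ => ?_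
    rw [← pow_mul, ← pow_add, ← pow_add]
    congr 1
    rw [mul_comm (w p) k]
    omega
  have hB : (∏ p ∈ m.primeFactors.filter (fun p => as p = j), p ^ (T t).factorization p) =
      (∏ p ∈ m.primeFactors.filter (fun p => as p = j), p ^ ((T t).factorization p - vs p)) *
      QQ m vs as j := by
    rw [QQ, ← prod_mul_distrib]
    refine prod_congr rfl fun p hp => ?_
    rw [← pow_add]
    congr 1
    have := (hcell p (mem_filter.1 hp).1).1
    omega
  calc _ = ((∏ p ∈ (Fr f m t).filter (fun p => p ∣ ent t j), p ^ (T t).factorization p) *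
      ∏ p ∈ m.primeFactors.filter (fun p => as p = j), p ^ (T t).factorization p) *
      (∏ p ∈ (Fr f m t).filter (fun p => p ∣ ent t j), p ^ (k * w p - (T t).factorization p)) :=
        congrArg (fun x => x *
          (∏ p ∈ (Fr f m t).filter (fun p => p ∣ ent t j), p ^ (k * w p - (T t).factorization p))) hE
    _ = ((∏ p ∈ (Fr f m t).filter (fun p => p ∣ ent t j), p ^ (T t).factorization p) *
      (∏ p ∈ (Fr f m t).filter (fun p => p ∣ ent t j), p ^ (k * w p - (T t).factorization p))) *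
      (∏ p ∈ m.primeFactors.filter (fun p => as p = j), p ^ (T t).factorization p) := by ring
    _ = _ := by rw [hA, hB]; ring

private lemma CMem_QQ_dvd {t : ℕ × ℕ} (ht : Cop t) (f : Fin 3) {m : ℕ} (vs : ℕ → ℕ) (as : ℕ → Fin 3)
    (hcell : ∀ p ∈ m.primeFactors, vs p ≤ (T t).factorization p ∧ p ∣ ent t (as p)) :
    QQ m vs as f ∣ ent t f := by
  rw [QQ]
  refine (?_ : _ ∣ ∏ p ∈ m.primeFactors.filter (fun p => as p = f), p ^ (T t).factorization p).trans ?_
  · refine prod_dvd_prod_of_dvd _ _ fun p hp => ?_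
    exact pow_dvd_pow _ (hcell p (mem_filter.1 hp).1).1
  · conv_rhs => rw [CMem_ent ht f]
    refine prod_dvd_prod_of_subset _ _ _ fun p hp => ?_
    rw [mem_filter] at hp
    have := (hcell p hp.1).2
    rw [hp.2] at this
    exact Nat.mem_primeFactors.2 ⟨Nat.prime_of_mem_primeFactors hp.1, this, ent_ne ht f⟩

private lemma CMem_cop {N : ℕ} (S : Finset ℕ) (a : ℕ → ℕ) (h : ∀ p ∈ S, p.Coprime N) :
    (∏ p ∈ S, p ^ a p).Coprime N :=
  Nat.Coprime.prod_left fun p hp => Nat.Coprime.pow_left _ (h p hp)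

private lemma CMem_cop_of {t : ℕ × ℕ} (ht : Cop t) {i f : Fin 3} (hif : i ≠ f) {p D : ℕ}
    (hp : p.Prime) (hpi : p ∣ ent t i) (hD : D ∣ ent t f) : p.Coprime D := by
  refine Nat.Coprime.coprime_dvd_right hD ?_
  exact (hp.coprime_iff_not_dvd).2 (not_dvd_ent ht hif hp hpi)

private lemma CMem_log (S : Finset ℕ) (a : ℕ → ℕ) (h : ∀ p ∈ S, p.Prime) :
    Real.log ((∏ p ∈ S, p ^ a p : ℕ) : ℝ) = ∑ p ∈ S, (a p : ℝ) * Real.log p := by
  push_cast
  rw [Real.log_prod]
  · exact sum_congr rfl fun p _ => by rw [Real.log_pow]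
  · intro p hp
    exact pow_ne_zero _ (by exact_mod_cast (h p hp).ne_zero)

private lemma CMem_sub_le (a b : ℕ) : ((a - b : ℕ) : ℝ) ≤ |(a : ℝ) - b| := by
  rcases le_total b a with h | h
  · rw [Nat.cast_sub h]
    exact le_abs_self _
  · rw [Nat.sub_eq_zero_of_le h]
    simp

/-- RZ-C2a.  PROOF.  Multiply the congruence `ent_modEq` (valid modulo `QQ m vs as f ∣ ent t f`) by
`W = ∏ p ∈ Fr f m t, p ^ (k w p - v_p)` (the product over the two entries `e`, `g`) and insert
`ent_prod`:
`V = (∏ over Fr, p ∣ ent t e, p ^ (v - k w)) (∏ over Fr, p ∣ ent t g, p ^ (k w - v))`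
`(∏ p ∣ m, as p = e, p ^ (v - vs))`, `U` with `e` and `g` exchanged.  Everything is made of primes
of `ent t e * ent t g`, so coprime to `QQ m vs as f` (made of primes of `ent t f`).  Sizes:
`log U, log V ≤ ∑_Fr |v - k w| log p + ∑_(p ∣ m) (v - vs) log p ≤ (τ + θ) log c`. -/
theorem mem_of (t : ℕ × ℕ) (ht : Cop t) {f e g : Fin 3} (h1 : f ≠ e) (h2 : g ≠ f) (h3 : g ≠ e)
    (Z m k : ℕ) (γ H τ θ : ℝ) (hZ : rad (T t) ≤ Z) (hm : m ∣ rad (T t)) (w : ℕ → ℕ)
    (hw : TyW Z γ H τ k m f w t) (vs : ℕ → ℕ) (as : ℕ → Fin 3) (hc : InCell θ m vs as t) :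
    ∃ U V : ℕ, Mem (QQ m vs as f) (QQ m vs as e) (QQ m vs as g) k (sg f) Z (H * Real.log Z)
      ((τ + θ) * Real.log (c t)) (XX f e m w t) (XX f g m w t) U V := by
  obtain ⟨_, hw2, hw3⟩ := hw
  obtain ⟨hc1, hc2⟩ := hc
  have hDf : QQ m vs as f ∣ ent t f := CMem_QQ_dvd ht f vs as hc1
  have hFr : ∀ p ∈ Fr f m t, p.Prime := fun p hp => (CMem_Fr hp).1
  have hmP : ∀ p ∈ m.primeFactors, p.Prime := fun p hp => Nat.prime_of_mem_primeFactors hp
  -- size of a product of the two kinds
  have key : ∀ (i l : Fin 3), i ≠ f → l ≠ f → i ≠ l → ∀ P : ℕ,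
      P = (∏ p ∈ (Fr f m t).filter (fun p => p ∣ ent t i), p ^ ((T t).factorization p - k * w p)) *
        (∏ p ∈ (Fr f m t).filter (fun p => p ∣ ent t l), p ^ (k * w p - (T t).factorization p)) *
        (∏ p ∈ m.primeFactors.filter (fun p => as p = i), p ^ ((T t).factorization p - vs p)) →
      0 < P ∧ P.Coprime (QQ m vs as f) ∧ Real.log P ≤ (τ + θ) * Real.log (c t) := by
    intro i l hi hl hil P hP
    have p1 : 0 < ∏ p ∈ (Fr f m t).filter (fun p => p ∣ ent t i),
        p ^ ((T t).factorization p - k * w p) :=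
      prod_pos fun p hp => pow_pos (hFr p (mem_filter.1 hp).1).pos _
    have p2 : 0 < ∏ p ∈ (Fr f m t).filter (fun p => p ∣ ent t l),
        p ^ (k * w p - (T t).factorization p) :=
      prod_pos fun p hp => pow_pos (hFr p (mem_filter.1 hp).1).pos _
    have p3 : 0 < ∏ p ∈ m.primeFactors.filter (fun p => as p = i),
        p ^ ((T t).factorization p - vs p) :=
      prod_pos fun p hp => pow_pos (hmP p (mem_filter.1 hp).1).pos _
    refine ⟨?_, ?_, ?_⟩
    · rw [hP]; positivity
    · rw [hP]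
      refine Nat.Coprime.mul_left (Nat.Coprime.mul_left ?_ ?_) ?_
      · exact CMem_cop _ _ fun p hp => by
          rw [mem_filter] at hp
          exact CMem_cop_of ht hi (hFr p hp.1) hp.2 hDf
      · exact CMem_cop _ _ fun p hp => by
          rw [mem_filter] at hp
          exact CMem_cop_of ht hl (hFr p hp.1) hp.2 hDf
      · exact CMem_cop _ _ fun p hp => by
          rw [mem_filter] at hp
          have := (hc1 p hp.1).2
          rw [hp.2] at this
          exact CMem_cop_of ht hi (hmP p hp.1) this hDf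
    · have hlog0 : ∀ p : ℕ, p.Prime → 0 ≤ Real.log p := fun p hp =>
        Real.log_nonneg (by exact_mod_cast hp.one_lt.le)
      have e1 := CMem_log ((Fr f m t).filter (fun p => p ∣ ent t i))
        (fun p => (T t).factorization p - k * w p) fun p hp => hFr p (mem_filter.1 hp).1
      have e2 := CMem_log ((Fr f m t).filter (fun p => p ∣ ent t l))
        (fun p => k * w p - (T t).factorization p) fun p hp => hFr p (mem_filter.1 hp).1
      have e3 := CMem_log (m.primeFactors.filter (fun p => as p = i))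
        (fun p => (T t).factorization p - vs p) fun p hp => hmP p (mem_filter.1 hp).1
      rw [hP, Nat.cast_mul, Nat.cast_mul, Real.log_mul, Real.log_mul, e1, e2, e3]
      rotate_left
      · exact_mod_cast p1.ne'
      · exact_mod_cast p2.ne'
      · exact mul_ne_zero (by exact_mod_cast p1.ne') (by exact_mod_cast p2.ne')
      · exact_mod_cast p3.ne'
      have i1 : (∑ p ∈ (Fr f m t).filter (fun p => p ∣ ent t i),
            (((T t).factorization p - k * w p : ℕ) : ℝ) * Real.log p) ≤
          ∑ p ∈ (Fr f m t).filter (fun p => p ∣ ent t i),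
            |((T t).factorization p : ℝ) - k * w p| * Real.log p := by
        refine sum_le_sum fun p hp => ?_
        refine mul_le_mul_of_nonneg_right ?_ (hlog0 p (hFr p (mem_filter.1 hp).1))
        have := CMem_sub_le ((T t).factorization p) (k * w p)
        push_cast at this
        exact this
      have i2 : (∑ p ∈ (Fr f m t).filter (fun p => p ∣ ent t l),
            ((k * w p - (T t).factorization p : ℕ) : ℝ) * Real.log p) ≤
          ∑ p ∈ (Fr f m t).filter (fun p => p ∣ ent t l),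
            |((T t).factorization p : ℝ) - k * w p| * Real.log p := by
        refine sum_le_sum fun p hp => ?_
        refine mul_le_mul_of_nonneg_right ?_ (hlog0 p (hFr p (mem_filter.1 hp).1))
        have := CMem_sub_le (k * w p) ((T t).factorization p)
        rw [abs_sub_comm] at this
        push_cast at this
        exact this
      have hd : Disjoint ((Fr f m t).filter (fun p => p ∣ ent t i))
          ((Fr f m t).filter (fun p => p ∣ ent t l)) := by
        rw [Finset.disjoint_left]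
        intro p hp hp'
        rw [mem_filter] at hp hp'
        exact hil (CMem_as ht (hFr p hp.1) hp.2 hp'.2)
      have i12 : (∑ p ∈ (Fr f m t).filter (fun p => p ∣ ent t i),
            |((T t).factorization p : ℝ) - k * w p| * Real.log p) +
          (∑ p ∈ (Fr f m t).filter (fun p => p ∣ ent t l),
            |((T t).factorization p : ℝ) - k * w p| * Real.log p) ≤
          ∑ p ∈ Fr f m t, |((T t).factorization p : ℝ) - k * w p| * Real.log p := by
        rw [← sum_union hd]
        refine sum_le_sum_of_subset_of_nonneg ?_ ?_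
        · exact union_subset (filter_subset _ _) (filter_subset _ _)
        · intro p hp _
          exact mul_nonneg (abs_nonneg _) (hlog0 p (hFr p hp))
      have i3 : (∑ p ∈ m.primeFactors.filter (fun p => as p = i),
            (((T t).factorization p - vs p : ℕ) : ℝ) * Real.log p) ≤
          ∑ p ∈ m.primeFactors, (((T t).factorization p : ℝ) - vs p) * Real.log p := by
        have j1 : (∑ p ∈ m.primeFactors.filter (fun p => as p = i),
            (((T t).factorization p - vs p : ℕ) : ℝ) * Real.log p) =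
            ∑ p ∈ m.primeFactors.filter (fun p => as p = i),
            (((T t).factorization p : ℝ) - vs p) * Real.log p := by
          refine sum_congr rfl fun p hp => ?_
          rw [Nat.cast_sub (hc1 p (mem_filter.1 hp).1).1]
        rw [j1]
        refine sum_le_sum_of_subset_of_nonneg (filter_subset _ _) ?_
        intro p hp _
        refine mul_nonneg ?_ (hlog0 p (hmP p hp))
        have := (hc1 p hp).1
        have : (vs p : ℝ) ≤ (T t).factorization p := by exact_mod_cast this
        linarith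
      calc _ ≤ τ * Real.log (c t) + θ * Real.log (c t) := by linarith
        _ = _ := by ring
  have kX : ∀ i : Fin 3, i ≠ f → 0 < XX f i m w t ∧ (XX f i m w t).Coprime (QQ m vs as f) ∧
      Real.log (XX f i m w t) ≤ H * Real.log Z := by
    intro i hi
    refine ⟨?_, ?_, ?_⟩
    · exact prod_pos fun p hp => pow_pos (hFr p (mem_filter.1 hp).1).pos _
    · rw [XX]
      exact CMem_cop _ _ fun p hp => by
        rw [mem_filter] at hp
        exact CMem_cop_of ht hi (hFr p hp.1) hp.2 hDf
    · rw [XX, CMem_log _ _ fun p hp => hFr p (mem_filter.1 hp).1]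
      refine le_trans ?_ hw3
      refine sum_le_sum_of_subset_of_nonneg (filter_subset _ _) ?_
      intro p hp _
      exact mul_nonneg (Nat.cast_nonneg _)
        (Real.log_nonneg (by exact_mod_cast (hFr p hp).one_lt.le))
  obtain ⟨V0, V1, V2⟩ := key e g h1.symm h2 (Ne.symm h3) _ rfl
  obtain ⟨U0, U1, U2⟩ := key g e h2 h1.symm h3 _ rfl
  obtain ⟨X0, X1, X2⟩ := kX e h1.symm
  obtain ⟨Y0, Y1, Y2⟩ := kX g h2
  refine ⟨_, _, ⟨X0, Y0, U0, V0⟩, ⟨X1, Y1, U1, V1⟩, ?_, ?_, ⟨X2, Y2⟩, ⟨U2, V2⟩, ?_⟩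
  · rw [XX, XX]
    refine CMem_cop _ _ fun p hp => ?_
    refine Nat.Coprime.prod_right fun q hq => Nat.Coprime.pow_right _ ?_
    rw [mem_filter] at hp hq
    rw [Nat.coprime_primes (hFr p hp.1) (hFr q hq.1)]
    rintro rfl
    exact h3 (CMem_as ht (hFr p hq.1) hq.2 hp.2)
  · refine le_trans ?_ hZ
    unfold rad
    refine Nat.le_of_dvd (prod_pos fun p hp => (Nat.prime_of_mem_primeFactors hp).pos) ?_
    refine prod_dvd_prod_of_subset _ _ _ ?_
    intro p hp
    rw [Nat.primeFactors_mul X0.ne' Y0.ne', mem_union] at hp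
    have hX : ∀ i : Fin 3, p ∈ (XX f i m w t).primeFactors → p ∈ (T t).primeFactors := by
      intro i hpi
      have hpp := Nat.prime_of_mem_primeFactors hpi
      have hd := Nat.dvd_of_mem_primeFactors hpi
      rw [XX, Prime.dvd_finsetProd_iff hpp.prime] at hd
      obtain ⟨q, hq, hpq⟩ := hd
      rw [mem_filter] at hq
      have hqp := hFr q hq.1
      have : p = q := (Nat.prime_dvd_prime_iff_eq hpp hqp).1 (hpp.dvd_of_dvd_pow hpq)
      rw [this]
      exact Nat.mem_primeFactors.2 ⟨hqp, (CMem_Fr hq.1).2.1, ht.T_ne⟩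
    rcases hp with hp | hp
    · exact hX e hp
    · exact hX g hp
  · have E1 := ent_prod t ht h1.symm m k hm vs as hc1 w
    have E2 := ent_prod t ht h2 m k hm vs as hc1 w
    have hmod : ((ent t e : ℤ)) ≡ sg f * (ent t g : ℤ) [ZMOD (QQ m vs as f : ℤ)] :=
      (ent_modEq t h1 h2 h3).of_dvd (by exact_mod_cast hDf)
    set We := ∏ p ∈ (Fr f m t).filter (fun p => p ∣ ent t e), p ^ (k * w p - (T t).factorization p)
      with hWe
    set Wg := ∏ p ∈ (Fr f m t).filter (fun p => p ∣ ent t g), p ^ (k * w p - (T t).factorization p)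
      with hWg
    set Ee := ∏ p ∈ (Fr f m t).filter (fun p => p ∣ ent t e), p ^ ((T t).factorization p - k * w p)
      with hEe
    set Eg := ∏ p ∈ (Fr f m t).filter (fun p => p ∣ ent t g), p ^ ((T t).factorization p - k * w p)
      with hEg
    set Me := ∏ p ∈ m.primeFactors.filter (fun p => as p = e), p ^ ((T t).factorization p - vs p)
      with hMe
    set Mg := ∏ p ∈ m.primeFactors.filter (fun p => as p = g), p ^ ((T t).factorization p - vs p)
      with hMg
    have E1' : ((ent t e : ℤ)) * We = (XX f e m w t : ℤ) ^ k * Ee * Me * (QQ m vs as e : ℤ) := by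
      exact_mod_cast E1
    have E2' : ((ent t g : ℤ)) * Wg = (XX f g m w t : ℤ) ^ k * Eg * Mg * (QQ m vs as g : ℤ) := by
      exact_mod_cast E2
    have h := hmod.mul_right ((We : ℤ) * Wg)
    have l1 : ((XX f e m w t : ℤ) ^ k * ((Ee * Wg * Me : ℕ) : ℤ) * (QQ m vs as e : ℤ)) =
        (ent t e : ℤ) * ((We : ℤ) * Wg) := by
      push_cast
      linear_combination (-(Wg : ℤ)) * E1'
    have l2 : sg f * ((XX f g m w t : ℤ) ^ k * ((Eg * We * Mg : ℕ) : ℤ) * (QQ m vs as g : ℤ)) =
        sg f * (ent t g : ℤ) * ((We : ℤ) * Wg) := by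
      push_cast
      linear_combination (-(sg f * We : ℤ)) * E2'
    rw [l1, l2]
    exact h

/-- RZ-C2b.  The common divisor is large: `log (part m (ent t f)) = ∑ v_p log p` over the `p ∣ m` with
`as p = f`. -/
theorem log_QQ_ge (t : ℕ × ℕ) (ht : Cop t) (f : Fin 3) (m : ℕ) (hm : m ∣ rad (T t)) (γ θ : ℝ)
    (hγ : (c t) ^ γ ≤ (part m (ent t f) : ℝ)) (vs : ℕ → ℕ) (as : ℕ → Fin 3)
    (hc : InCell θ m vs as t) : (γ - θ) * Real.log (c t) ≤ Real.log (QQ m vs as f) := by
  obtain ⟨hc1, hc2⟩ := hc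
  have hmP : ∀ p ∈ m.primeFactors, p.Prime := fun p hp => Nat.prime_of_mem_primeFactors hp
  have hlog0 : ∀ p : ℕ, p.Prime → 0 ≤ Real.log p := fun p hp =>
    Real.log_nonneg (by exact_mod_cast hp.one_lt.le)
  have h1 : γ * Real.log (c t) ≤ Real.log (part m (ent t f)) := by
    rw [← Real.log_rpow ht.c_pos]
    exact Real.log_le_log (Real.rpow_pos_of_pos ht.c_pos _) hγ
  have h2 : Real.log (part m (ent t f)) =
      ∑ p ∈ m.primeFactors, ((ent t f).factorization p : ℝ) * Real.log p := by
    rw [part, CMem_log _ _ hmP]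
  have h3 : ∑ p ∈ m.primeFactors, ((ent t f).factorization p : ℝ) * Real.log p =
      ∑ p ∈ m.primeFactors.filter (fun p => as p = f), ((T t).factorization p : ℝ) * Real.log p := by
    rw [sum_filter]
    refine sum_congr rfl fun p hp => ?_
    split_ifs with h
    · have := (hc1 p hp).2
      rw [h] at this
      rw [fact_T ht (hmP p hp) this]
    · have : ¬ p ∣ ent t f := fun h' => h (CMem_as ht (hmP p hp) (hc1 p hp).2 h')
      rw [Nat.factorization_eq_zero_of_not_dvd this]
      simp
  have h4 : Real.log (QQ m vs as f) =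
      ∑ p ∈ m.primeFactors.filter (fun p => as p = f), (vs p : ℝ) * Real.log p := by
    rw [QQ, CMem_log _ _ fun p hp => hmP p (mem_filter.1 hp).1]
  have h5 : (∑ p ∈ m.primeFactors.filter (fun p => as p = f),
      (((T t).factorization p : ℝ) - vs p) * Real.log p) ≤
      ∑ p ∈ m.primeFactors, (((T t).factorization p : ℝ) - vs p) * Real.log p := by
    refine sum_le_sum_of_subset_of_nonneg (filter_subset _ _) ?_
    intro p hp _
    refine mul_nonneg ?_ (hlog0 p (hmP p hp))
    have : (vs p : ℝ) ≤ (T t).factorization p := by exact_mod_cast (hc1 p hp).1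
    linarith
  have h6 : (∑ p ∈ m.primeFactors.filter (fun p => as p = f),
      (((T t).factorization p : ℝ) - vs p) * Real.log p) =
      (∑ p ∈ m.primeFactors.filter (fun p => as p = f), ((T t).factorization p : ℝ) * Real.log p) -
      ∑ p ∈ m.primeFactors.filter (fun p => as p = f), (vs p : ℝ) * Real.log p := by
    rw [← sum_sub_distrib]
    exact sum_congr rfl fun p _ => by ring
  rw [h4]
  rw [h2, h3] at h1
  linarith

/-- RZ-C2c.  Small facts on `QQ`. -/
theorem QQ_facts (t : ℕ × ℕ) (ht : Cop t) {f j : Fin 3} (hj : j ≠ f) (Z m : ℕ) (hZ : rad (T t) ≤ Z)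
    (hm : m ∣ rad (T t)) (vs : ℕ → ℕ) (as : ℕ → Fin 3) (θ : ℝ) (hc : InCell θ m vs as t) :
    QQ m vs as f ≠ 0 ∧ rad (QQ m vs as f) ≤ Z ∧ (QQ m vs as j).Coprime (QQ m vs as f) := by
  obtain ⟨hc1, _⟩ := hc
  have hDf : QQ m vs as f ∣ ent t f := CMem_QQ_dvd ht f vs as hc1
  have hDj : QQ m vs as j ∣ ent t j := CMem_QQ_dvd ht j vs as hc1
  refine ⟨fun h => ent_ne ht f (Nat.eq_zero_of_zero_dvd (h ▸ hDf)), ?_, ?_⟩
  · refine le_trans ?_ hZ
    unfold rad
    refine Nat.le_of_dvd (prod_pos fun p hp => (Nat.prime_of_mem_primeFactors hp).pos) ?_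
    refine prod_dvd_prod_of_subset _ _ _ ?_
    exact Nat.primeFactors_mono (hDf.trans (ent_dvd_T t f)) ht.T_ne
  · exact Nat.Coprime.coprime_dvd_left hDj (Nat.Coprime.coprime_dvd_right hDf (ent_coprime ht hj))

end Pool.Agent.Helper63.AZ
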