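import Mathlib
import Pool.Agent.Helper44.RA.L1

/-! Project RZ: the relation and the lifting of the exponent (piece K6). -/

set_option autoImplicit false

open Finset

namespace Pool.Agent.Helper63.AZ

/-- A relation with natural exponents, in the units modulo `D`. -/
private theorem kcontra_nat (D n d m m' : ℕ) (hn : n.Coprime D) (hd : d.Coprime D)
    (hm : m.Coprime D) (hm' : m'.Coprime D) (hd0 : 0 < d) (hm0 : 0 < m') (α β : ℕ)
    (h : ((n : ℚ) / d) ^ α * ((m : ℚ) / m') ^ β = 1) :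
    (ZMod.unitOfCoprime n hn / ZMod.unitOfCoprime d hd) ^ α *
      (ZMod.unitOfCoprime m hm / ZMod.unitOfCoprime m' hm') ^ β = 1 := by
  have hdq : (d : ℚ) ≠ 0 := by positivity
  have hmq : (m' : ℚ) ≠ 0 := by positivity
  have h1 : ((n : ℚ) ^ α * (m : ℚ) ^ β) = (d : ℚ) ^ α * (m' : ℚ) ^ β := by
    rw [div_pow, div_pow, div_mul_div_comm, div_eq_one_iff_eq (by positivity)] at h
    exact h
  have h2 : n ^ α * m ^ β = d ^ α * m' ^ β := by exact_mod_cast h1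
  have h3 : ZMod.unitOfCoprime n hn ^ α * ZMod.unitOfCoprime m hm ^ β =
      ZMod.unitOfCoprime d hd ^ α * ZMod.unitOfCoprime m' hm' ^ β := by
    refine Units.ext ?_
    rw [Units.val_mul, Units.val_pow_eq_pow_val, Units.val_pow_eq_pow_val, Units.val_mul,
      Units.val_pow_eq_pow_val, Units.val_pow_eq_pow_val, ZMod.coe_unitOfCoprime,
      ZMod.coe_unitOfCoprime, ZMod.coe_unitOfCoprime, ZMod.coe_unitOfCoprime]
    exact_mod_cast congrArg (Nat.cast : ℕ → ZMod D) h2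
  rw [div_pow, div_pow, div_mul_div_comm, h3, div_self']

/-- A relation with integer exponents, in the units modulo `D`. -/
private theorem kcontra_int (D n d m m' : ℕ) (hn : n.Coprime D) (hd : d.Coprime D)
    (hm : m.Coprime D) (hm' : m'.Coprime D) (hn0 : 0 < n) (hd0 : 0 < d) (hm1 : 0 < m)
    (hm0 : 0 < m') (a b : ℤ) (h : ((n : ℚ) / d) ^ a * ((m : ℚ) / m') ^ b = 1) :
    (ZMod.unitOfCoprime n hn / ZMod.unitOfCoprime d hd) ^ a *
      (ZMod.unitOfCoprime m hm / ZMod.unitOfCoprime m' hm') ^ b = 1 := by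
  obtain ⟨α, rfl | rfl⟩ := a.eq_nat_or_neg <;> obtain ⟨β, rfl | rfl⟩ := b.eq_nat_or_neg
  · rw [zpow_natCast, zpow_natCast] at h ⊢
    exact kcontra_nat D n d m m' hn hd hm hm' hd0 hm0 α β h
  · rw [zpow_natCast, zpow_neg, zpow_natCast, ← inv_pow, inv_div] at h ⊢
    exact kcontra_nat D n d m' m hn hd hm' hm hd0 hm1 α β h
  · rw [zpow_natCast, zpow_neg, zpow_natCast, ← inv_pow, inv_div] at h ⊢
    exact kcontra_nat D d n m m' hd hn hm hm' hn0 hm0 α β h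
  · rw [zpow_neg, zpow_natCast, ← inv_pow, inv_div, zpow_neg, zpow_natCast, ← inv_pow,
      inv_div] at h ⊢
    exact kcontra_nat D d n m' m hd hn hm' hm hn0 hm1 α β h

/-- The relation modulo `D` in the group of units. -/
private theorem kcontra_unit (D k : ℕ) (x y u v q0 q1 : ℕ) (s : ℤ) (S : (ZMod D)ˣ)
    (hS : ((S : (ZMod D)ˣ) : ZMod D) = (s : ZMod D))
    (hx : x.Coprime D) (hy : y.Coprime D) (hu : u.Coprime D) (hv : v.Coprime D)
    (h0 : q0.Coprime D) (h1 : q1.Coprime D)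
    (hr : ((x : ℤ) ^ k * v * q0) ≡ s * ((y : ℤ) ^ k * u * q1) [ZMOD D]) :
    ZMod.unitOfCoprime x hx ^ k * ZMod.unitOfCoprime v hv * ZMod.unitOfCoprime q0 h0 =
      S * (ZMod.unitOfCoprime y hy ^ k * ZMod.unitOfCoprime u hu * ZMod.unitOfCoprime q1 h1) := by
  have h2 := (ZMod.intCast_eq_intCast_iff _ _ D).2 hr
  refine Units.ext ?_
  push_cast at h2
  simp only [Units.val_mul, Units.val_pow_eq_pow_val, ZMod.coe_unitOfCoprime, hS]
  exact h2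

/-- RZ-K6.  PROOF.  Put `N = x₁ y₂`, `D' = x₂ y₁` (positive, coprime to `D`, `N ≡ D' mod P`,
`N ≠ D'`).  The two relations give `u₁ v₂ * unit`: modulo `D`,
`(x₁ y₂) ^ k v₁ u₂ ≡ (x₂ y₁) ^ k v₂ u₁` (cross multiply, cancel `s q0 q1` and so on: all are units
modulo `D`).  From `hone`, clearing denominators: `N ^ a (u₁ v₂) ^ b = D' ^ a (u₂ v₁) ^ b` (with
`a, b` possibly negative: as elements of `(ZMod D)ˣ` the units `ρ = N / D'`, `ε = u₁ v₂ / (u₂ v₁)`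
satisfy `ρ ^ a ε ^ b = 1` and `ε = ρ ^ k`), so `ρ ^ (a + k b) = 1` in `(ZMod D)ˣ`, hence
`D ∣ N ^ d - D' ^ d`, `d = |a + k b|`, `d ≠ 0` (if `b = 0` then `a ≠ 0`; if `b ≠ 0` then
`|k b| ≥ k > A ≥ |a|`).  For each prime `p ∣ P`, with `i = v_p (P ^ J)`: `p ^ 2 ∣ P ∣ N - D'`,
`p ^ i ∣ D ∣ N ^ d - D' ^ d`, so `p ^ i ∣ d (N - D')` by `Pool.RA.lte_dvd`; hence
`P ^ J ∣ d (N - D') ≠ 0` and `J log P ≤ log d + log |N - D'| ≤ log (A + k B) + 2 h`. -/
theorem rel_contra (P D k A B J : ℕ) (hPD : P ^ J ∣ D) (hD : D ≠ 0)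
    (hp2 : ∀ p : ℕ, p.Prime → p ∣ P → p ^ 2 ∣ P)
    (x₁ y₁ u₁ v₁ x₂ y₂ u₂ v₂ : ℕ) (q0 q1 : ℕ) (s : ℤ) (hs : s = 1 ∨ s = -1)
    (hpos : 0 < x₁ ∧ 0 < y₁ ∧ 0 < u₁ ∧ 0 < v₁ ∧ 0 < x₂ ∧ 0 < y₂ ∧ 0 < u₂ ∧ 0 < v₂)
    (hc₁ : x₁.Coprime D ∧ y₁.Coprime D ∧ u₁.Coprime D ∧ v₁.Coprime D)
    (hc₂ : x₂.Coprime D ∧ y₂.Coprime D ∧ u₂.Coprime D ∧ v₂.Coprime D)
    (hq : q0.Coprime D ∧ q1.Coprime D)
    (hr₁ : ((x₁ : ℤ) ^ k * v₁ * q0) ≡ s * ((y₁ : ℤ) ^ k * u₁ * q1) [ZMOD D])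
    (hr₂ : ((x₂ : ℤ) ^ k * v₂ * q0) ≡ s * ((y₂ : ℤ) ^ k * u₂ * q1) [ZMOD D])
    (hcl : ((x₁ : ℤ) * y₂) ≡ (x₂ : ℤ) * y₁ [ZMOD P]) (hne : x₁ * y₂ ≠ x₂ * y₁)
    (a b : ℤ) (hab : a ≠ 0 ∨ b ≠ 0) (ha : |a| ≤ A) (hb : |b| ≤ B) (hAk : A < k)
    (hone : (((x₁ : ℚ) / y₁) / ((x₂ : ℚ) / y₂)) ^ a * (((u₁ : ℚ) / v₁) / ((u₂ : ℚ) / v₂)) ^ b = 1)
    (h : ℝ) (hx₁ : Real.log x₁ ≤ h) (hy₁ : Real.log y₁ ≤ h) (hx₂ : Real.log x₂ ≤ h)
    (hy₂ : Real.log y₂ ≤ h) :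
    (J : ℝ) * Real.log P ≤ 2 * h + Real.log ((A : ℝ) + k * B) := by
  obtain ⟨px1, py1, pu1, pv1, px2, py2, pu2, pv2⟩ := hpos
  obtain ⟨cx1, cy1, cu1, cv1⟩ := hc₁
  obtain ⟨cx2, cy2, cu2, cv2⟩ := hc₂
  obtain ⟨cq0, cq1⟩ := hq
  have hA0 : (0 : ℤ) ≤ A := by positivity
  have hk0 : 0 < k := by omega
  -- the number `d`
  set d : ℕ := (a + k * b).natAbs with hd
  have hAk' : (A : ℤ) < k := by exact_mod_cast hAk
  have hd0 : d ≠ 0 := by
    rw [hd, Ne, Int.natAbs_eq_zero]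
    intro h0
    by_cases hb0 : b = 0
    · rw [hb0, mul_zero, add_zero] at h0
      rcases hab with h1 | h1
      · exact h1 h0
      · exact h1 hb0
    · have h1 : a = -(k * b) := by linarith
      have h2 : |a| = k * |b| := by
        rw [h1, abs_neg, abs_mul, Nat.abs_cast]
      have h3 : 1 ≤ |b| := Int.one_le_abs hb0
      nlinarith [abs_nonneg a]
  have hdle : (d : ℝ) ≤ (A : ℝ) + k * B := by
    have h1 : ((d : ℕ) : ℤ) ≤ A + k * B := by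
      rw [hd, Int.natCast_natAbs]
      calc |a + k * b| ≤ |a| + |k * b| := abs_add_le _ _
        _ = |a| + k * |b| := by rw [abs_mul, Nat.abs_cast]
        _ ≤ A + k * B := by
            have : (k : ℤ) * |b| ≤ k * B := mul_le_mul_of_nonneg_left hb (by positivity)
            linarith
    exact_mod_cast h1
  have hd1 : (1 : ℝ) ≤ d := by exact_mod_cast Nat.one_le_iff_ne_zero.2 hd0
  -- units
  have cN : (x₁ * y₂).Coprime D := Nat.Coprime.mul_left cx1 cy2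
  have cN' : (x₂ * y₁).Coprime D := Nat.Coprime.mul_left cx2 cy1
  have cM : (u₁ * v₂).Coprime D := Nat.Coprime.mul_left cu1 cv2
  have cM' : (u₂ * v₁).Coprime D := Nat.Coprime.mul_left cu2 cv1
  have hone' : (((x₁ * y₂ : ℕ) : ℚ) / ((x₂ * y₁ : ℕ) : ℚ)) ^ a *
      (((u₁ * v₂ : ℕ) : ℚ) / ((u₂ * v₁ : ℕ) : ℚ)) ^ b = 1 := by
    have e1 : (((x₁ * y₂ : ℕ) : ℚ) / ((x₂ * y₁ : ℕ) : ℚ)) = ((x₁ : ℚ) / y₁) / ((x₂ : ℚ) / y₂) := by
      push_cast
      have h1 : (x₂ : ℚ) ≠ 0 := by positivity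
      have h2 : (y₁ : ℚ) ≠ 0 := by positivity
      have h3 : (y₂ : ℚ) ≠ 0 := by positivity
      field_simp
    have e2 : (((u₁ * v₂ : ℕ) : ℚ) / ((u₂ * v₁ : ℕ) : ℚ)) = ((u₁ : ℚ) / v₁) / ((u₂ : ℚ) / v₂) := by
      push_cast
      have h1 : (u₂ : ℚ) ≠ 0 := by positivity
      have h2 : (v₁ : ℚ) ≠ 0 := by positivity
      have h3 : (v₂ : ℚ) ≠ 0 := by positivity
      field_simp
    rw [e1, e2]
    exact hone
  have hrel := kcontra_int D _ _ _ _ cN cN' cM cM' (by positivity) (by positivity) (by positivity)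
    (by positivity) a b hone'
  set N := ZMod.unitOfCoprime (x₁ * y₂) cN with hN
  set N' := ZMod.unitOfCoprime (x₂ * y₁) cN' with hN'
  set M := ZMod.unitOfCoprime (u₁ * v₂) cM with hM
  set M' := ZMod.unitOfCoprime (u₂ * v₁) cM' with hM'
  have mulu : ∀ (p q : ℕ) (hp : p.Coprime D) (hq : q.Coprime D) (hpq : (p * q).Coprime D),
      ZMod.unitOfCoprime (p * q) hpq = ZMod.unitOfCoprime p hp * ZMod.unitOfCoprime q hq := by
    intro p q hp hq hpq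
    refine Units.ext ?_
    rw [Units.val_mul, ZMod.coe_unitOfCoprime, ZMod.coe_unitOfCoprime, ZMod.coe_unitOfCoprime]
    push_cast
    rfl
  have hS : ∃ S : (ZMod D)ˣ, ((S : (ZMod D)ˣ) : ZMod D) = (s : ZMod D) := by
    rcases hs with rfl | rfl
    · exact ⟨1, by simp⟩
    · exact ⟨-1, by simp⟩
  obtain ⟨S, hS⟩ := hS
  have E1 := kcontra_unit D k x₁ y₁ u₁ v₁ q0 q1 s S hS cx1 cy1 cu1 cv1 cq0 cq1 hr₁
  have E2 := kcontra_unit D k x₂ y₂ u₂ v₂ q0 q1 s S hS cx2 cy2 cu2 cv2 cq0 cq1 hr₂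
  have hkey : (N / N') ^ k = M / M' := by
    rw [hN, hN', hM, hM', mulu _ _ cx1 cy2 cN, mulu _ _ cx2 cy1 cN', mulu _ _ cu1 cv2 cM,
      mulu _ _ cu2 cv1 cM']
    set X1 := ZMod.unitOfCoprime x₁ cx1
    set Y1 := ZMod.unitOfCoprime y₁ cy1
    set U1 := ZMod.unitOfCoprime u₁ cu1
    set V1 := ZMod.unitOfCoprime v₁ cv1
    set X2 := ZMod.unitOfCoprime x₂ cx2
    set Y2 := ZMod.unitOfCoprime y₂ cy2
    set U2 := ZMod.unitOfCoprime u₂ cu2
    set V2 := ZMod.unitOfCoprime v₂ cv2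
    set Q0 := ZMod.unitOfCoprime q0 cq0
    set Q1 := ZMod.unitOfCoprime q1 cq1
    rw [div_pow, div_eq_div_iff_mul_eq_mul]
    have h1 : (X1 * Y2) ^ k * (U2 * V1) * (Q0 * (S * Q1)) =
        (U1 * V2) * (X2 * Y1) ^ k * (Q0 * (S * Q1)) := by
      calc (X1 * Y2) ^ k * (U2 * V1) * (Q0 * (S * Q1))
          = (X1 ^ k * V1 * Q0) * (S * (Y2 ^ k * U2 * Q1)) := by
            rw [mul_pow]
            simp only [mul_comm, mul_left_comm, mul_assoc]
        _ = (S * (Y1 ^ k * U1 * Q1)) * (X2 ^ k * V2 * Q0) := by rw [E1, E2]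
        _ = (U1 * V2) * (X2 * Y1) ^ k * (Q0 * (S * Q1)) := by
            rw [mul_pow]
            simp only [mul_comm, mul_left_comm, mul_assoc]
    exact mul_right_cancel h1
  have hpow : (N / N') ^ d = 1 := by
    have h1 : (N / N') ^ (a + k * b) = 1 := by
      rw [zpow_add, zpow_mul, zpow_natCast, hkey]
      exact hrel
    rcases Int.natAbs_eq (a + k * b) with h2 | h2
    · rw [h2, zpow_natCast] at h1
      exact h1
    · rw [h2, zpow_neg, zpow_natCast, inv_eq_one] at h1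
      exact h1
  have hdvd : ((D : ℕ) : ℤ) ∣ ((x₁ : ℤ) * y₂) ^ d - ((x₂ : ℤ) * y₁) ^ d := by
    rw [div_pow, div_eq_one] at hpow
    have h1 := congrArg (fun t : (ZMod D)ˣ => (t : ZMod D)) hpow
    simp only [Units.val_pow_eq_pow_val] at h1
    rw [hN, hN', ZMod.coe_unitOfCoprime, ZMod.coe_unitOfCoprime] at h1
    rw [← ZMod.intCast_zmod_eq_zero_iff_dvd]
    push_cast
    push_cast at h1
    rw [h1, sub_self]
  -- divisibility by `P ^ J`
  have hPJ : (((P ^ J : ℕ) : ℕ) : ℤ) ∣ (d : ℤ) * ((x₁ : ℤ) * y₂ - (x₂ : ℤ) * y₁) := by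
    have hnat : P ^ J ∣ ((d : ℤ) * ((x₁ : ℤ) * y₂ - (x₂ : ℤ) * y₁)).natAbs := by
      rw [Nat.dvd_iff_prime_pow_dvd_dvd]
      intro p i hp hpi
      rw [← Int.natCast_dvd]
      rcases Nat.eq_zero_or_pos i with hi | hi
      · subst hi
        simp
      have hpP : p ∣ P := by
        have h1 : p ∣ P ^ J := (dvd_pow_self p (by omega)).trans hpi
        exact hp.dvd_of_dvd_pow h1
      have hpD : p ∣ D := ((dvd_pow_self p (by omega : i ≠ 0)).trans hpi).trans hPD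
      push_cast
      refine Pool.RA.lte_dvd p hp _ _ d i hd0 ?_ ?_ ?_
      · have h1 : ((p ^ 2 : ℕ) : ℤ) ∣ ((P : ℕ) : ℤ) := Int.natCast_dvd_natCast.2 (hp2 p hp hpP)
        push_cast at h1
        exact h1.trans (Int.ModEq.dvd hcl.symm)
      · intro h1
        have h2 : p ∣ x₁ * y₂ := by exact_mod_cast h1
        exact Nat.not_coprime_of_dvd_of_dvd hp.one_lt h2 hpD cN
      · have h1 : ((p ^ i : ℕ) : ℤ) ∣ ((D : ℕ) : ℤ) := Int.natCast_dvd_natCast.2 (hpi.trans hPD)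
        push_cast at h1
        exact h1.trans hdvd
    exact Int.natCast_dvd.2 hnat
  -- sizes
  have hx1 : (0 : ℝ) < x₁ := by exact_mod_cast px1
  have hy1 : (0 : ℝ) < y₁ := by exact_mod_cast py1
  have hx2 : (0 : ℝ) < x₂ := by exact_mod_cast px2
  have hy2 : (0 : ℝ) < y₂ := by exact_mod_cast py2
  have b1 : (x₁ : ℝ) * y₂ ≤ Real.exp (2 * h) := by
    rw [← Real.log_le_iff_le_exp (by positivity), Real.log_mul hx1.ne' hy2.ne']
    linarith
  have b2 : (x₂ : ℝ) * y₁ ≤ Real.exp (2 * h) := by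
    rw [← Real.log_le_iff_le_exp (by positivity), Real.log_mul hx2.ne' hy1.ne']
    linarith
  have b3 : |(x₁ : ℝ) * y₂ - (x₂ : ℝ) * y₁| ≤ Real.exp (2 * h) := by
    rw [abs_le]
    constructor
    · have : (0 : ℝ) < x₁ * y₂ := by positivity
      linarith
    · have : (0 : ℝ) < x₂ * y₁ := by positivity
      linarith
  have hne' : (d : ℤ) * ((x₁ : ℤ) * y₂ - (x₂ : ℤ) * y₁) ≠ 0 := by
    refine mul_ne_zero (by exact_mod_cast hd0) ?_
    rw [sub_ne_zero]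
    exact_mod_cast hne
  have hle := Int.natAbs_le_of_dvd_ne_zero hPJ hne'
  have hle2 : ((P ^ J : ℕ) : ℝ) ≤ d * Real.exp (2 * h) := by
    have h1 : (((((P ^ J : ℕ) : ℤ)).natAbs : ℕ) : ℝ) ≤
        ((((d : ℤ) * ((x₁ : ℤ) * y₂ - (x₂ : ℤ) * y₁)).natAbs : ℕ) : ℝ) := by exact_mod_cast hle
    rw [Nat.cast_natAbs, Nat.cast_natAbs] at h1
    rw [abs_of_nonneg (by positivity : (0 : ℤ) ≤ ((P ^ J : ℕ) : ℤ))] at h1
    rw [abs_mul] at h1
    push_cast at h1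
    rw [Nat.abs_cast] at h1
    push_cast
    refine h1.trans ?_
    exact mul_le_mul_of_nonneg_left b3 (by positivity)
  have hA1 : (0 : ℝ) < (A : ℝ) + k * B := by linarith
  rcases Nat.eq_zero_or_pos J with hJ | hJ
  · subst hJ
    rw [pow_zero, Nat.cast_one] at hle2
    rw [Nat.cast_zero, zero_mul]
    have h0 : (0 : ℝ) ≤ h := (Real.log_nonneg (by exact_mod_cast px1)).trans hx₁
    have h1 : 0 ≤ Real.log ((A : ℝ) + k * B) := Real.log_nonneg (by linarith)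
    linarith
  · have hP0 : P ≠ 0 := by
      rintro rfl
      rw [zero_pow (by omega)] at hPD
      exact hD (Nat.eq_zero_of_zero_dvd hPD)
    have h3 : (J : ℝ) * Real.log P = Real.log ((P ^ J : ℕ) : ℝ) := by
      push_cast
      rw [Real.log_pow]
    rw [h3]
    have hPpos : (0 : ℝ) < ((P ^ J : ℕ) : ℝ) := by
      exact_mod_cast Nat.pos_of_ne_zero (pow_ne_zero J hP0)
    calc Real.log ((P ^ J : ℕ) : ℝ) ≤ Real.log (d * Real.exp (2 * h)) :=
          Real.log_le_log hPpos hle2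
      _ = Real.log d + 2 * h := by
          rw [Real.log_mul (by positivity) (Real.exp_pos _).ne', Real.log_exp]
      _ ≤ 2 * h + Real.log ((A : ℝ) + k * B) := by
          have := Real.log_le_log (by linarith : (0 : ℝ) < d) hdle
          linarith

end Pool.Agent.Helper63.AZ
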