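import Mathlib

/-! Project RZ: the entries of the interpolation determinant. -/

set_option autoImplicit false

open Finset Polynomial

namespace Pool.Agent.Helper63.AZ

/-- The matrix entry at the point `(x, y, u, v)` and the index `(α, β)`. -/
def ent4 (A B : ℕ) (x y u v : ℕ) (j : Fin (A + 1) × Fin (B + 1)) : ℤ :=
  (x : ℤ) ^ (j.1 : ℕ) * (y : ℤ) ^ (A - j.1) * (u : ℤ) ^ (j.2 : ℕ) * (v : ℤ) ^ (B - j.2)

end Pool.Agent.Helper63.AZ
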