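import Mathlib
import Pool.Agent.Helper44.RA.D3
import Pool.Agent.Helper63.AZ.KDetD

/-! Project RZ: divisibility of the determinant (piece K4a). -/

set_option autoImplicit false

open Finset Polynomial

namespace Pool.Agent.Helper63.AZ

private theorem KDetA_inv (a : ℤ) (M : ℤ) (h : IsCoprime a M) : ∃ c : ℤ, a * c ≡ 1 [ZMOD M] := by
  obtain ⟨u, v, huv⟩ := h
  refine ⟨u, ?_⟩
  rw [Int.modEq_iff_dvd]
  exact ⟨v, by linear_combination (-1 : ℤ) * huv⟩

private theorem KDetA_cancel (a b c M : ℤ) (h : IsCoprime a M) (h' : a * b ≡ a * c [ZMOD M]) :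
    b ≡ c [ZMOD M] := by
  rw [Int.modEq_iff_dvd] at h' ⊢
  rw [← mul_sub] at h'
  exact h.symm.dvd_of_dvd_mul_left h'

private theorem KDetA_sum (n : ℕ) : ∑ l ∈ range n, (n - l) = (n + 1) * n / 2 := by
  have h1 : ∑ l ∈ range n, (n - l) = ∑ l ∈ range n, (l + 1) := by
    rw [← Finset.sum_range_reflect (fun l => l + 1) n]
    refine Finset.sum_congr rfl fun l hl => ?_
    rw [mem_range] at hl
    omega
  have h2 : ∑ l ∈ range n, (l + 1) = ∑ l ∈ range (n + 1), l := by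
    rw [Finset.sum_range_succ' (fun l => l) n, add_zero]
  rw [h1, h2, Finset.sum_range_id, Nat.add_sub_cancel]

private theorem KDetA_pow (z : ℤ) (n M : ℕ) (h : n < M) :
    (1 + z) ^ n = ∑ m ∈ range M, z ^ m * (n.choose m : ℤ) := by
  rw [add_comm, add_pow]
  refine Finset.sum_subset_zero_on_sdiff (fun m hm => ?_) (fun m hm => ?_) (fun m _ => ?_)
  · rw [mem_range] at hm ⊢
    omega
  · rw [mem_sdiff, mem_range, mem_range] at hm
    rw [Nat.choose_eq_zero_of_lt (by omega), Nat.cast_zero, mul_zero]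
  · rw [one_pow, mul_one]

/-- RZ-K4a.  Divisibility.  PROOF.  `T = (A + 1) (B + 1)`, `M = P ^ T ∣ D` (and `P`, `M` positive; if
`P = 0` or `P = 1` treat separately: `P = 0` gives `D = 0`, all is `≡` an equality, excluded by
`hP : 1 < P`).  All of `x, y, u, v, q0, q1, x0, y0` are units modulo `M` (coprime to `D` resp. `P`;
a number coprime to `P` is coprime to `P ^ T`).  Choose for each `w` an integer `ξ w` with
`x w * y0 ≡ x0 * y w * (1 + P ξ w) (mod M)` (possible: the quotient is `≡ 1 mod P`), and integers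
`r0` (inverse of `y0` times `x0`), `e0` with `e0 * q1 ≡ s * q0` (mod M)` (a unit).  Then
`x ≡ y r0 (1 + P ξ)`, `u ≡ v e0 (r0 (1 + P ξ)) ^ k` modulo `M`, so the entry is
`≡ y ^ A v ^ B r0 ^ α e0 ^ β r0 ^ (k β) (1 + P ξ) ^ (α + k β)`
`= ∑_m (y ^ A v ^ B ξ ^ m) (r0 ^ (α + k β) e0 ^ β C(α + k β, m) P ^ m)`, and `Pool.RA.det_core` with
`q = P`, `A := 0`, `N = T - 1`... applies: it needs `#κ = 0 + 1 + T'` with `T' = T - 1`,
`N = T'`, `q ^ (min N (m - 0)) ∣ mu m j`, error `P ^ T er` (write `P ^ T er = P ^ T' (P er)`), and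
`∑_(l < T') (T' - l) = T (T - 1) / 2`. -/
theorem det_dvd {Pt : Type} (P D k A B : ℕ) (hP : 1 < P) (hPD : P ^ ((A + 1) * (B + 1)) ∣ D)
    (x y u v : Pt → ℕ) (q0 q1 : ℕ) (s : ℤ) (hs : s = 1 ∨ s = -1)
    (hcop : ∀ w, (x w).Coprime D ∧ (y w).Coprime D ∧ (u w).Coprime D ∧ (v w).Coprime D)
    (hq : q0.Coprime D ∧ q1.Coprime D)
    (hrel : ∀ w, ((x w : ℤ) ^ k * v w * q0) ≡ s * ((y w : ℤ) ^ k * u w * q1) [ZMOD D])
    (x0 y0 : ℕ) (h0 : x0.Coprime P ∧ y0.Coprime P)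
    (hcl : ∀ w, ((x w : ℤ) * y0) ≡ (x0 : ℤ) * y w [ZMOD P])
    (pt : Fin (A + 1) × Fin (B + 1) → Pt) :
    (P : ℤ) ^ ((A + 1) * (B + 1) * ((A + 1) * (B + 1) - 1) / 2) ∣
      (Matrix.of fun i j => ent4 A B (x (pt i)) (y (pt i)) (u (pt i)) (v (pt i)) j).det := by
  classical
  set T : ℕ := (A + 1) * (B + 1) with hT
  have hT1 : 1 ≤ T := Nat.mul_pos (Nat.succ_pos A) (Nat.succ_pos B)
  set M : ℤ := (P : ℤ) ^ T with hM
  have hMD : M ∣ (D : ℤ) := by
    rw [hM, ← Nat.cast_pow]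
    exact Int.natCast_dvd_natCast.2 hPD
  have hPM : (P : ℤ) ∣ M := dvd_pow_self _ (by omega)
  have hcD : ∀ a : ℕ, a.Coprime D → IsCoprime (a : ℤ) M := by
    intro a ha
    have h1 : a.Coprime (P ^ T) := Nat.Coprime.coprime_dvd_right hPD ha
    rw [hM, ← Nat.cast_pow]
    exact Nat.isCoprime_iff_coprime.2 h1
  have hcP : ∀ a : ℕ, a.Coprime P → IsCoprime (a : ℤ) M := by
    intro a ha
    rw [hM]
    exact (Nat.isCoprime_iff_coprime.2 ha).pow_right
  -- the numbers `r0`, `e0`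
  obtain ⟨y0', hy0'⟩ := KDetA_inv y0 M (hcP y0 h0.2)
  obtain ⟨q1', hq1'⟩ := KDetA_inv q1 M (hcD q1 hq.2)
  set r0 : ℤ := x0 * y0' with hr0
  set e0 : ℤ := s * q0 * q1' with he0
  have hr : (y0 : ℤ) * r0 ≡ x0 [ZMOD M] := by
    calc (y0 : ℤ) * r0 = x0 * (y0 * y0') := by rw [hr0]; ring
      _ ≡ x0 * 1 [ZMOD M] := Int.ModEq.mul_left _ hy0'
      _ = x0 := mul_one _
  have he : (q1 : ℤ) * e0 ≡ s * q0 [ZMOD M] := by
    calc (q1 : ℤ) * e0 = s * q0 * (q1 * q1') := by rw [he0]; ring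
      _ ≡ s * q0 * 1 [ZMOD M] := Int.ModEq.mul_left _ hq1'
      _ = s * q0 := mul_one _
  have hr0c : IsCoprime r0 M := by
    have h1 : IsCoprime ((y0 : ℤ) * r0) M := by
      have h2 := hcP x0 h0.1
      obtain ⟨c, hc⟩ := (Int.modEq_iff_dvd.1 hr)
      have h3 : (y0 : ℤ) * r0 = x0 + M * (-c) := by linear_combination (-1 : ℤ) * hc
      rw [h3]
      exact (IsCoprime.add_mul_left_left h2 (-c))
    exact h1.of_mul_left_right
  -- the numbers `ξ`
  have hxi : ∀ w, ∃ z : ℤ, (x w : ℤ) ≡ y w * r0 * (1 + P * z) [ZMOD M] := by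
    intro w
    have hyc : IsCoprime ((y w : ℤ) * r0) M := (hcD _ (hcop w).2.1).mul_left hr0c
    obtain ⟨c, hc⟩ := KDetA_inv _ M hyc
    have h1 : (x w : ℤ) ≡ y w * r0 [ZMOD P] := by
      refine KDetA_cancel y0 _ _ P (Nat.isCoprime_iff_coprime.2 h0.2) ?_
      calc (y0 : ℤ) * x w = x w * y0 := mul_comm _ _
        _ ≡ x0 * y w [ZMOD P] := hcl w
        _ ≡ (y0 * r0) * y w [ZMOD P] := Int.ModEq.mul_right _ (hr.symm.of_dvd hPM)
        _ = y0 * (y w * r0) := by ring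
    obtain ⟨z, hz⟩ := Int.modEq_iff_dvd.1 h1.symm
    refine ⟨c * z, ?_⟩
    have h2 : (x w : ℤ) = y w * r0 + P * z := by linear_combination hz
    calc (x w : ℤ) = y w * r0 + P * z * 1 := by rw [h2]; ring
      _ ≡ y w * r0 + P * z * (y w * r0 * c) [ZMOD M] :=
          Int.ModEq.add_left _ (Int.ModEq.mul_left _ hc.symm)
      _ = y w * r0 * (1 + P * (c * z)) := by ring
  choose ξ hξ using hxi
  have hu : ∀ w, (u w : ℤ) ≡ v w * e0 * (r0 * (1 + P * ξ w)) ^ k [ZMOD M] := by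
    intro w
    have hyk : IsCoprime ((y w : ℤ) ^ k) M := (hcD _ (hcop w).2.1).pow_left
    have h1 : ((y w : ℤ) ^ k) * ((r0 * (1 + P * ξ w)) ^ k * v w * q0) ≡
        (y w : ℤ) ^ k * (s * (u w * q1)) [ZMOD M] := by
      calc ((y w : ℤ) ^ k) * ((r0 * (1 + P * ξ w)) ^ k * v w * q0)
          = (y w * r0 * (1 + P * ξ w)) ^ k * (v w * q0) := by
            rw [mul_assoc (y w : ℤ) r0, mul_pow (y w : ℤ)]
            ring
        _ ≡ (x w : ℤ) ^ k * (v w * q0) [ZMOD M] :=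
            Int.ModEq.mul_right _ ((hξ w).symm.pow k)
        _ = (x w : ℤ) ^ k * v w * q0 := by ring
        _ ≡ s * ((y w : ℤ) ^ k * u w * q1) [ZMOD M] := (hrel w).of_dvd hMD
        _ = (y w : ℤ) ^ k * (s * (u w * q1)) := by ring
    have h2 := KDetA_cancel _ _ _ M hyk h1
    have hss : s * s = 1 := by
      rcases hs with h | h <;> rw [h] <;> norm_num
    refine KDetA_cancel q1 _ _ M (hcD q1 hq.2) ?_
    calc (q1 : ℤ) * u w = s * (s * (u w * q1)) := by linear_combination (-(u w * q1 : ℤ)) * hss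
      _ ≡ s * ((r0 * (1 + P * ξ w)) ^ k * v w * q0) [ZMOD M] := Int.ModEq.mul_left _ h2.symm
      _ = (s * q0) * (v w * (r0 * (1 + P * ξ w)) ^ k) := by ring
      _ ≡ (q1 * e0) * (v w * (r0 * (1 + P * ξ w)) ^ k) [ZMOD M] := Int.ModEq.mul_right _ he.symm
      _ = q1 * (v w * e0 * (r0 * (1 + P * ξ w)) ^ k) := by ring
  -- the entries
  have hent : ∀ (i j : Fin (A + 1) × Fin (B + 1)), ∃ er : ℤ,
      ent4 A B (x (pt i)) (y (pt i)) (u (pt i)) (v (pt i)) j =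
        (∑ m ∈ range (A + k * B + 1),
          ((y (pt i) : ℤ) ^ A * (v (pt i) : ℤ) ^ B * ξ (pt i) ^ m) *
            (r0 ^ ((j.1 : ℕ) + k * j.2) * e0 ^ (j.2 : ℕ) *
              (((j.1 : ℕ) + k * j.2).choose m : ℤ) * (P : ℤ) ^ m)) + (P : ℤ) ^ (T - 1) * er := by
    intro i j
    set w := pt i
    set α : ℕ := (j.1 : ℕ) with hα
    set β : ℕ := (j.2 : ℕ) with hβ
    have hαA : α ≤ A := by omega
    have hβB : β ≤ B := by omega
    have h1 : ent4 A B (x w) (y w) (u w) (v w) j ≡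
        (y w : ℤ) ^ A * (v w : ℤ) ^ B * (r0 ^ (α + k * β) * e0 ^ β) *
          (1 + P * ξ w) ^ (α + k * β) [ZMOD M] := by
      unfold ent4
      calc (x w : ℤ) ^ α * (y w : ℤ) ^ (A - α) * (u w : ℤ) ^ β * (v w : ℤ) ^ (B - β)
          ≡ (y w * r0 * (1 + P * ξ w)) ^ α * (y w : ℤ) ^ (A - α) *
            (v w * e0 * (r0 * (1 + P * ξ w)) ^ k) ^ β * (v w : ℤ) ^ (B - β) [ZMOD M] :=
            Int.ModEq.mul_right _ (Int.ModEq.mul (Int.ModEq.mul_right _ ((hξ w).pow α))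
              ((hu w).pow β))
        _ = ((y w : ℤ) ^ α * (y w : ℤ) ^ (A - α)) * ((v w : ℤ) ^ β * (v w : ℤ) ^ (B - β)) *
            (r0 ^ (α + k * β) * e0 ^ β) * (1 + P * ξ w) ^ (α + k * β) := by
            rw [pow_add, pow_add, pow_mul, pow_mul]
            simp only [mul_pow]
            ring
        _ = _ := by
            rw [← pow_add, ← pow_add, Nat.add_sub_cancel' hαA, Nat.add_sub_cancel' hβB]
    have h2 : (y w : ℤ) ^ A * (v w : ℤ) ^ B * (r0 ^ (α + k * β) * e0 ^ β) *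
          (1 + P * ξ w) ^ (α + k * β) = ∑ m ∈ range (A + k * B + 1),
          ((y w : ℤ) ^ A * (v w : ℤ) ^ B * ξ w ^ m) *
            (r0 ^ (α + k * β) * e0 ^ β * ((α + k * β).choose m : ℤ) * (P : ℤ) ^ m) := by
      rw [KDetA_pow (P * ξ w) (α + k * β) (A + k * B + 1) (by
        have := Nat.mul_le_mul_left k hβB
        omega), mul_sum]
      refine Finset.sum_congr rfl fun m _ => ?_
      rw [mul_pow]
      ring
    obtain ⟨c, hc⟩ := Int.modEq_iff_dvd.1 h1.symm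
    refine ⟨P * c, ?_⟩
    rw [← h2]
    have h3 : (P : ℤ) ^ (T - 1) * (P * c) = M * c := by
      rw [hM, ← mul_assoc, ← pow_succ, Nat.sub_add_cancel hT1]
    rw [h3, ← hc]
    ring
  choose er her using hent
  have hcore := Pool.RA.det_core (κ := Fin (A + 1) × Fin (B + 1)) (P : ℤ) 0 (T - 1) (T - 1)
    (A + k * B + 1) (by
      rw [Fintype.card_prod, Fintype.card_fin, Fintype.card_fin]
      omega)
    (fun i m => (y (pt i) : ℤ) ^ A * (v (pt i) : ℤ) ^ B * ξ (pt i) ^ m)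
    (fun m j => r0 ^ ((j.1 : ℕ) + k * j.2) * e0 ^ (j.2 : ℕ) *
              (((j.1 : ℕ) + k * j.2).choose m : ℤ) * (P : ℤ) ^ m) er
    (fun m j => (pow_dvd_pow _ (min_le_right _ _)).trans (by
      rw [Nat.sub_zero]
      exact dvd_mul_left _ _))
  rw [KDetA_sum, Nat.sub_add_cancel hT1] at hcore
  have hmat : (Matrix.of fun i j => ent4 A B (x (pt i)) (y (pt i)) (u (pt i)) (v (pt i)) j) =
      (Matrix.of fun i j => (∑ m ∈ range (A + k * B + 1),
          ((y (pt i) : ℤ) ^ A * (v (pt i) : ℤ) ^ B * ξ (pt i) ^ m) *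
            (r0 ^ ((j.1 : ℕ) + k * j.2) * e0 ^ (j.2 : ℕ) *
              (((j.1 : ℕ) + k * j.2).choose m : ℤ) * (P : ℤ) ^ m)) +
                (P : ℤ) ^ (T - 1) * er i j) := by
    ext i j
    exact her i j
  rw [hmat]
  exact hcore

end Pool.Agent.Helper63.AZ
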