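import Mathlib
import Pool.Agent.Helper63.AZ.KDetD

/-! Project RZ: size of the determinant (piece K4b). -/

set_option autoImplicit false

open Finset Polynomial

namespace Pool.Agent.Helper63.AZ

private theorem KDetB_pow_le {a : ℕ} {b : ℝ} (ha : 0 < a) (hb : Real.log a ≤ b) (n : ℕ) :
    (a : ℝ) ^ n ≤ Real.exp (n * b) := by
  have h0 : (0 : ℝ) < a := by exact_mod_cast ha
  rw [Real.exp_nat_mul]
  refine pow_le_pow_left₀ h0.le ?_ n
  rw [← Real.exp_log h0]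
  exact Real.exp_le_exp.2 hb

/-- RZ-K4b.  The size of the determinant: every entry is at most `exp (A h + B τ)` in absolute value
(`x ^ α y ^ (A - α) ≤ exp (A h)`), so `|det| ≤ T! exp (T (A h + B τ))`
(`Matrix.det_apply`, `Fintype.card_perm`; cf. `Matrix.det_le`). -/
theorem det_size {Pt : Type} (A B : ℕ) (x y u v : Pt → ℕ) (h τ : ℝ) (hh : 0 ≤ h) (hτ : 0 ≤ τ)
    (hpos : ∀ w, 0 < x w ∧ 0 < y w ∧ 0 < u w ∧ 0 < v w)
    (hsz : ∀ w, Real.log (x w) ≤ h ∧ Real.log (y w) ≤ h ∧ Real.log (u w) ≤ τ ∧ Real.log (v w) ≤ τ)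
    (pt : Fin (A + 1) × Fin (B + 1) → Pt) :
    |(((Matrix.of fun i j => ent4 A B (x (pt i)) (y (pt i)) (u (pt i)) (v (pt i)) j).det : ℤ) : ℝ)| ≤
      (((A + 1) * (B + 1)).factorial : ℝ) * Real.exp ((A + 1) * (B + 1) * (A * h + B * τ)) := by
  classical
  set M : Matrix (Fin (A + 1) × Fin (B + 1)) (Fin (A + 1) × Fin (B + 1)) ℤ :=
    Matrix.of fun i j => ent4 A B (x (pt i)) (y (pt i)) (u (pt i)) (v (pt i)) j with hM
  have h1 : ((M.det : ℤ) : ℝ) = (M.map (Int.castRingHom ℝ)).det := by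
    have := (Int.castRingHom ℝ).map_det M
    simpa using this
  have h2 : ∀ i j, AbsoluteValue.abs ((M.map (Int.castRingHom ℝ)) i j) ≤ Real.exp (A * h + B * τ) := by
    intro i j
    have hx := KDetB_pow_le (hpos (pt i)).1 (hsz (pt i)).1 (j.1 : ℕ)
    have hy := KDetB_pow_le (hpos (pt i)).2.1 (hsz (pt i)).2.1 (A - (j.1 : ℕ))
    have hu := KDetB_pow_le (hpos (pt i)).2.2.1 (hsz (pt i)).2.2.1 (j.2 : ℕ)
    have hv := KDetB_pow_le (hpos (pt i)).2.2.2 (hsz (pt i)).2.2.2 (B - (j.2 : ℕ))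
    have hA : ((j.1 : ℕ) : ℝ) + ((A - (j.1 : ℕ) : ℕ) : ℝ) = A := by
      have : (j.1 : ℕ) ≤ A := Nat.lt_succ_iff.1 j.1.2
      rw [Nat.cast_sub this]
      ring
    have hB : ((j.2 : ℕ) : ℝ) + ((B - (j.2 : ℕ) : ℕ) : ℝ) = B := by
      have : (j.2 : ℕ) ≤ B := Nat.lt_succ_iff.1 j.2.2
      rw [Nat.cast_sub this]
      ring
    have e1 : AbsoluteValue.abs ((M.map (Int.castRingHom ℝ)) i j) =
        (x (pt i) : ℝ) ^ (j.1 : ℕ) * (y (pt i) : ℝ) ^ (A - (j.1 : ℕ)) * (u (pt i) : ℝ) ^ (j.2 : ℕ) *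
          (v (pt i) : ℝ) ^ (B - (j.2 : ℕ)) := by
      rw [AbsoluteValue.abs_apply, Matrix.map_apply, hM, Matrix.of_apply]
      unfold ent4
      rw [eq_intCast]
      push_cast
      exact abs_of_nonneg (by positivity)
    rw [e1]
    calc (x (pt i) : ℝ) ^ (j.1 : ℕ) * (y (pt i) : ℝ) ^ (A - (j.1 : ℕ)) * (u (pt i) : ℝ) ^ (j.2 : ℕ) *
          (v (pt i) : ℝ) ^ (B - (j.2 : ℕ))
        ≤ Real.exp ((j.1 : ℕ) * h) * Real.exp ((A - (j.1 : ℕ) : ℕ) * h) * Real.exp ((j.2 : ℕ) * τ) *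
          Real.exp ((B - (j.2 : ℕ) : ℕ) * τ) := by gcongr
      _ = Real.exp (A * h + B * τ) := by
        rw [← Real.exp_add, ← Real.exp_add, ← Real.exp_add]
        congr 1
        rw [← hA, ← hB]
        ring
  have h3 := Matrix.det_le h2
  rw [AbsoluteValue.abs_apply] at h3
  rw [h1]
  refine h3.trans (le_of_eq ?_)
  rw [nsmul_eq_mul, Fintype.card_prod, Fintype.card_fin, Fintype.card_fin, ← Real.exp_nat_mul]
  push_cast
  ring_nf

end Pool.Agent.Helper63.AZ
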