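import Mathlib
import Pool.Agent.Helper44.RA.R1
import Pool.Agent.Helper63.AZ.KDetA
import Pool.Agent.Helper63.AZ.KDetB

/-! Project RZ: the polynomial (piece K4c). -/

set_option autoImplicit false

open Finset Polynomial

namespace Pool.Agent.Helper63.AZ

/-- RZ-K4c.  The polynomial.  PROOF.  By `det_dvd`, `det_size` and `hnum` all determinants vanish (a
nonzero integer divisible by `P ^ E` is at least `P ^ E` in absolute value).  `Pool.RA.rank_rel`
with `F w j = (ent4 ... : ℚ)` gives `q : Fin (A + 1) × Fin (B + 1) → ℚ`, `q ≠ 0`.  Put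
`Ψ = ∑ j, C (C (q j) * X ^ j.1) * X ^ j.2` (`Polynomial.monomial j.2 (monomial j.1 (q j))`); divide
the relation by `y ^ A v ^ B`. -/
theorem det_rel {Pt : Type} (P D k A B : ℕ) (hP : 1 < P) (hPD : P ^ ((A + 1) * (B + 1)) ∣ D)
    (x y u v : Pt → ℕ) (q0 q1 : ℕ) (s : ℤ) (hs : s = 1 ∨ s = -1)
    (hpos : ∀ w, 0 < x w ∧ 0 < y w ∧ 0 < u w ∧ 0 < v w)
    (hcop : ∀ w, (x w).Coprime D ∧ (y w).Coprime D ∧ (u w).Coprime D ∧ (v w).Coprime D)
    (hq : q0.Coprime D ∧ q1.Coprime D)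
    (hrel : ∀ w, ((x w : ℤ) ^ k * v w * q0) ≡ s * ((y w : ℤ) ^ k * u w * q1) [ZMOD D])
    (x0 y0 : ℕ) (h0 : x0.Coprime P ∧ y0.Coprime P)
    (hcl : ∀ w, ((x w : ℤ) * y0) ≡ (x0 : ℤ) * y w [ZMOD P])
    (h τ : ℝ) (hh : 0 ≤ h) (hτ : 0 ≤ τ)
    (hsz : ∀ w, Real.log (x w) ≤ h ∧ Real.log (y w) ≤ h ∧ Real.log (u w) ≤ τ ∧ Real.log (v w) ≤ τ)
    (hnum : Real.log (((A + 1) * (B + 1)).factorial : ℝ) + (A + 1) * (B + 1) * (A * h + B * τ) <
      (((A + 1) * (B + 1) * ((A + 1) * (B + 1) - 1) / 2 : ℕ) : ℝ) * Real.log P) :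
    ∃ Ψ : Polynomial (Polynomial ℚ), Ψ ≠ 0 ∧ Ψ.natDegree ≤ B ∧ (∀ j, (Ψ.coeff j).natDegree ≤ A) ∧
      ∀ w, Polynomial.evalEval ((x w : ℚ) / y w) ((u w : ℚ) / v w) Ψ = 0 := by
  classical
  set E : ℕ := (A + 1) * (B + 1) * ((A + 1) * (B + 1) - 1) / 2 with hE
  have hPr : (1 : ℝ) < P := by exact_mod_cast hP
  have hdet0 : ∀ pt : Fin (A + 1) × Fin (B + 1) → Pt,
      (Matrix.of fun i j => ent4 A B (x (pt i)) (y (pt i)) (u (pt i)) (v (pt i)) j).det = 0 := by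
    intro pt
    by_contra hne
    have hd := det_dvd P D k A B hP hPD x y u v q0 q1 s hs hcop hq hrel x0 y0 h0 hcl pt
    have hz := det_size A B x y u v h τ hh hτ hpos hsz pt
    rw [← hE] at hd
    set d := (Matrix.of fun i j => ent4 A B (x (pt i)) (y (pt i)) (u (pt i)) (v (pt i)) j).det
      with hdd
    have h1 : (P : ℤ) ^ E ≤ |d| := Int.le_of_dvd (abs_pos.2 hne) ((dvd_abs _ _).2 hd)
    have h2 : (P : ℝ) ^ E ≤ |((d : ℤ) : ℝ)| := by exact_mod_cast h1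
    have h3 := h2.trans hz
    have h4 : (E : ℝ) * Real.log P ≤ Real.log (((A + 1) * (B + 1)).factorial : ℝ) +
        (A + 1) * (B + 1) * (A * h + B * τ) := by
      have h5 : (0 : ℝ) < (((A + 1) * (B + 1)).factorial : ℝ) := by
        exact_mod_cast Nat.factorial_pos _
      have h6 := Real.log_le_log (by positivity) h3
      rw [Real.log_pow, Real.log_mul h5.ne' (Real.exp_pos _).ne', Real.log_exp] at h6
      exact h6
    linarith
  let F : Pt → Fin (A + 1) × Fin (B + 1) → ℚ := fun w j =>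
    ((ent4 A B (x w) (y w) (u w) (v w) j : ℤ) : ℚ)
  have hdetQ : ∀ pt : Fin (A + 1) × Fin (B + 1) → Pt,
      (Matrix.of fun i j => F (pt i) j).det = 0 := by
    intro pt
    have h1 := hdet0 pt
    have h2 := (Int.castRingHom ℚ).map_det
      (Matrix.of fun i j => ent4 A B (x (pt i)) (y (pt i)) (u (pt i)) (v (pt i)) j)
    rw [h1, map_zero] at h2
    exact h2.symm
  obtain ⟨q, hq0, hqw⟩ := Pool.RA.rank_rel F hdetQ
  set Ψ : Polynomial (Polynomial ℚ) :=
    ∑ j : Fin (A + 1) × Fin (B + 1), monomial (j.2 : ℕ) (monomial (j.1 : ℕ) (q j)) with hΨ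
  have hcoef : ∀ j : Fin (A + 1) × Fin (B + 1), (Ψ.coeff (j.2 : ℕ)).coeff (j.1 : ℕ) = q j := by
    intro j
    rw [hΨ, finsetSum_coeff, finsetSum_coeff, Finset.sum_eq_single j]
    · rw [coeff_monomial, if_pos rfl, coeff_monomial, if_pos rfl]
    · intro i _ hij
      rw [coeff_monomial]
      split_ifs with h1
      · rw [coeff_monomial, if_neg]
        intro h2
        exact hij (Prod.ext (Fin.ext h2) (Fin.ext h1))
      · rw [coeff_zero]
    · intro h1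
      exact absurd (Finset.mem_univ j) h1
  refine ⟨Ψ, ?_, ?_, ?_, ?_⟩
  · intro h1
    apply hq0
    funext j
    rw [← hcoef j, h1, coeff_zero, coeff_zero]
    rfl
  · rw [hΨ]
    refine natDegree_sum_le_of_forall_le _ _ fun j _ => ?_
    exact (natDegree_monomial_le _).trans (Nat.lt_succ_iff.1 j.2.isLt)
  · intro i
    rw [hΨ, finsetSum_coeff]
    refine natDegree_sum_le_of_forall_le _ _ fun j _ => ?_
    rw [coeff_monomial]
    split_ifs with h1
    · exact (natDegree_monomial_le _).trans (Nat.lt_succ_iff.1 j.1.isLt)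
    · rw [natDegree_zero]
      exact Nat.zero_le _
  · intro w
    obtain ⟨_, hy, _, hv⟩ := hpos w
    have hy' : (y w : ℚ) ≠ 0 := by exact_mod_cast hy.ne'
    have hv' : (v w : ℚ) ≠ 0 := by exact_mod_cast hv.ne'
    have h1 : Polynomial.evalEval ((x w : ℚ) / y w) ((u w : ℚ) / v w) Ψ =
        ∑ j : Fin (A + 1) × Fin (B + 1),
          q j * ((x w : ℚ) / y w) ^ (j.1 : ℕ) * ((u w : ℚ) / v w) ^ (j.2 : ℕ) := by
      rw [hΨ, evalEval_finsetSum]
      refine Finset.sum_congr rfl fun j _ => ?_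
      rw [evalEval, eval_monomial, eval_mul, eval_monomial, ← C_pow, eval_C]
    have h2 : ∀ j : Fin (A + 1) × Fin (B + 1),
        q j * ((x w : ℚ) / y w) ^ (j.1 : ℕ) * ((u w : ℚ) / v w) ^ (j.2 : ℕ) =
          q j * F w j * (((y w : ℚ) ^ A * (v w : ℚ) ^ B)⁻¹) := by
      intro j
      show _ = q j * ((ent4 A B (x w) (y w) (u w) (v w) j : ℤ) : ℚ) * _
      have hA : A = (j.1 : ℕ) + (A - (j.1 : ℕ)) := by
        have := j.1.isLt
        omega
      have hB : B = (j.2 : ℕ) + (B - (j.2 : ℕ)) := by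
        have := j.2.isLt
        omega
      have hyA : (y w : ℚ) ^ A = (y w : ℚ) ^ (j.1 : ℕ) * (y w : ℚ) ^ (A - (j.1 : ℕ)) := by
        rw [← pow_add, ← hA]
      have hvB : (v w : ℚ) ^ B = (v w : ℚ) ^ (j.2 : ℕ) * (v w : ℚ) ^ (B - (j.2 : ℕ)) := by
        rw [← pow_add, ← hB]
      unfold ent4
      push_cast
      rw [hyA, hvB, div_pow, div_pow]
      have e1 := pow_ne_zero (j.1 : ℕ) hy'
      have e2 := pow_ne_zero (A - (j.1 : ℕ)) hy'
      have e3 := pow_ne_zero (j.2 : ℕ) hv'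
      have e4 := pow_ne_zero (B - (j.2 : ℕ)) hv'
      field_simp
    rw [h1, Finset.sum_congr rfl fun j _ => h2 j, ← Finset.sum_mul, hqw w, zero_mul]

end Pool.Agent.Helper63.AZ
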