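import Mathlib

/-! Project RZ: multiplicities of products of tuples (piece K7a). -/

set_option autoImplicit false

open Finset

namespace Pool.Agent.Helper63.AZ

/-- RZ-K7a.  PROOF.  If the filtered set is not empty take `f0` in it.  By `hcop` the fractions
`∏ X (f i) / ∏ Y (f i)` are in lowest terms (the products are coprime:
`Nat.Coprime.prod_left`, `Nat.Coprime.prod_right`), so equal fractions have equal numerators and
denominators (cross multiplication and `Nat.Coprime`).  So `X (f i) ∣ x0 := ∏ X (f0 i)` and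
`Y (f i) ∣ y0` for all `i` and all `f` in the set; the map
`f ↦ fun i => (X (f i), Y (f i))` into
`Fintype.piFinset (fun _ => x0.divisors ×ˢ y0.divisors)` is injective on the set by `hinj`. -/
theorem tuple_mult {ι : Type} [DecidableEq ι] (n : ℕ) (J : Finset ι) (X Y : ι → ℕ)
    (hpos : ∀ i ∈ J, 0 < X i ∧ 0 < Y i) (hcop : ∀ i ∈ J, ∀ j ∈ J, (X i).Coprime (Y j))
    (hinj : Set.InjOn (fun i => (X i, Y i)) (J : Set ι)) (G : ℕ)
    (hG : ∀ f ∈ Fintype.piFinset (fun _ : Fin n => J),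
      (∏ i, X (f i)).divisors.card ≤ G ∧ (∏ i, Y (f i)).divisors.card ≤ G) (x : ℚ) :
    ((Fintype.piFinset (fun _ : Fin n => J)).filter
      (fun f => ((∏ i, X (f i) : ℕ) : ℚ) / ((∏ i, Y (f i) : ℕ) : ℚ) = x)).card ≤ (G * G) ^ n := by
  classical
  set T := (Fintype.piFinset (fun _ : Fin n => J)).filter
      (fun f => ((∏ i, X (f i) : ℕ) : ℚ) / ((∏ i, Y (f i) : ℕ) : ℚ) = x) with hT
  rcases T.eq_empty_or_nonempty with h0 | ⟨f0, hf0⟩
  · rw [h0, card_empty]
    exact Nat.zero_le _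
  have hmem : ∀ f ∈ T, (∀ i, f i ∈ J) ∧
      ((∏ i, X (f i) : ℕ) : ℚ) / ((∏ i, Y (f i) : ℕ) : ℚ) = x := by
    intro f hf
    rw [hT, mem_filter, Fintype.mem_piFinset] at hf
    exact hf
  have hpX : ∀ f ∈ T, 0 < ∏ i, X (f i) := fun f hf =>
    Finset.prod_pos fun i _ => (hpos _ ((hmem f hf).1 i)).1
  have hpY : ∀ f ∈ T, 0 < ∏ i, Y (f i) := fun f hf =>
    Finset.prod_pos fun i _ => (hpos _ ((hmem f hf).1 i)).2
  have hc : ∀ f ∈ T, (∏ i, X (f i)).Coprime (∏ i, Y (f i)) := fun f hf =>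
    Nat.Coprime.prod_left fun i _ => Nat.Coprime.prod_right fun j _ =>
      hcop _ ((hmem f hf).1 i) _ ((hmem f hf).1 j)
  have heq : ∀ f ∈ T, (∏ i, X (f i)) = ∏ i, X (f0 i) ∧ (∏ i, Y (f i)) = ∏ i, Y (f0 i) := by
    intro f hf
    have h1 := (hmem f hf).2
    have h2 := (hmem f0 hf0).2
    rw [← h2] at h1
    have hy : ((∏ i, Y (f i) : ℕ) : ℚ) ≠ 0 := by exact_mod_cast (hpY f hf).ne'
    have hy0 : ((∏ i, Y (f0 i) : ℕ) : ℚ) ≠ 0 := by exact_mod_cast (hpY f0 hf0).ne'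
    rw [div_eq_div_iff hy hy0] at h1
    have h3 : (∏ i, X (f i)) * (∏ i, Y (f0 i)) = (∏ i, X (f0 i)) * ∏ i, Y (f i) := by
      exact_mod_cast h1
    have a1 : (∏ i, X (f i)) ∣ ∏ i, X (f0 i) :=
      (hc f hf).dvd_of_dvd_mul_right (Dvd.intro _ h3)
    have a2 : (∏ i, X (f0 i)) ∣ ∏ i, X (f i) :=
      (hc f0 hf0).dvd_of_dvd_mul_right (Dvd.intro _ h3.symm)
    have h4 := Nat.dvd_antisymm a1 a2
    refine ⟨h4, ?_⟩
    rw [h4] at h3
    exact (Nat.eq_of_mul_eq_mul_left (hpX f0 hf0) h3).symm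
  have hdiv : ∀ f ∈ T, (fun i => (X (f i), Y (f i))) ∈ Fintype.piFinset (fun _ : Fin n =>
      (∏ i, X (f0 i)).divisors ×ˢ (∏ i, Y (f0 i)).divisors) := by
    intro f hf
    rw [Fintype.mem_piFinset]
    intro i
    rw [mem_product, Nat.mem_divisors, Nat.mem_divisors]
    refine ⟨⟨?_, (hpX f0 hf0).ne'⟩, ?_, (hpY f0 hf0).ne'⟩
    · rw [← (heq f hf).1]
      exact Finset.dvd_prod_of_mem (fun i => X (f i)) (mem_univ i)
    · rw [← (heq f hf).2]
      exact Finset.dvd_prod_of_mem (fun i => Y (f i)) (mem_univ i)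
  have hin : Set.InjOn (fun f : Fin n → ι => (fun i => (X (f i), Y (f i)))) (T : Set (Fin n → ι)) := by
    intro f hf f' hf' h
    funext i
    exact hinj ((hmem f hf).1 i) ((hmem f' hf').1 i) (congrFun h i)
  have h5 := Finset.card_le_card_of_injOn _ hdiv hin
  refine h5.trans ?_
  rw [Fintype.card_piFinset_const, card_product]
  have h6 := hG f0 (by
    rw [Fintype.mem_piFinset]
    exact (hmem f0 hf0).1)
  exact Nat.pow_le_pow_left (Nat.mul_le_mul h6.1 h6.2) n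

end Pool.Agent.Helper63.AZ
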