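import Mathlib

/-! Project RZ: the parameters (piece K7b). -/

set_option autoImplicit false

open Finset

namespace Pool.Agent.Helper63.AZ

/-- Bound of the logarithm of a factorial. -/
private theorem kNum_fact (T : ℕ) : Real.log (T.factorial : ℝ) ≤ T * Real.log T := by
  have h1 : ((T.factorial : ℕ) : ℝ) ≤ (T : ℝ) ^ T := by exact_mod_cast Nat.factorial_le_pow T
  have h2 : (0 : ℝ) < (T.factorial : ℝ) := by exact_mod_cast Nat.factorial_pos T
  calc Real.log (T.factorial : ℝ) ≤ Real.log ((T : ℝ) ^ T) := Real.log_le_log h2 h1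
    _ = T * Real.log T := by rw [Real.log_pow]

/-- The determinant inequality. -/
private theorem kNum_det (n A B : ℕ) (c' H ν z lam Lp LP : ℝ) (hH : 1 ≤ H) (hν : 0 < ν)
    (hnν : 36 ≤ (n : ℝ) * ν) (hz : 6 ≤ z) (hA : 192 * c' * lam ≤ (A + 1) * (H * ν * z))
    (hB : 96 * H ≤ B * ν) (hB1 : 1 ≤ B) (hLp : Lp = n * ν * z / 12) (hLP : Lp ≤ LP) :
    Real.log (((A + 1) * (B + 1)).factorial : ℝ) +
            (A + 1) * (B + 1) * (A * (2 * n * H * z) + B * (2 * n * (c' * lam / H))) <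
            (((A + 1) * (B + 1) * ((A + 1) * (B + 1) - 1) / 2 : ℕ) : ℝ) * LP := by
  have hn0 : (0 : ℝ) ≤ n := Nat.cast_nonneg n
  have hA0 : (0 : ℝ) ≤ A := Nat.cast_nonneg A
  have hB1' : (1 : ℝ) ≤ B := by exact_mod_cast hB1
  have hz0 : 0 < z := by linarith
  have hH0 : 0 < H := by linarith
  have hn0' : (0 : ℝ) < n := by
    rcases hn0.lt_or_eq with h | h
    · exact h
    · rw [← h] at hnν
      norm_num at hnν
  -- the binomial coefficient
  have hT : (((A + 1) * (B + 1) * ((A + 1) * (B + 1) - 1) / 2 : ℕ) : ℝ) =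
      ((A : ℝ) + 1) * (B + 1) * ((A + 1) * (B + 1) - 1) / 2 := by
    have h1 : 1 ≤ (A + 1) * (B + 1) := Nat.one_le_iff_ne_zero.2 (by positivity)
    have h2 : 2 ∣ (A + 1) * (B + 1) * ((A + 1) * (B + 1) - 1) :=
      (Nat.even_mul_pred_self _).two_dvd
    rw [Nat.cast_div h2 (by norm_num)]
    push_cast [Nat.cast_sub h1]
    ring
  set T : ℝ := ((A : ℝ) + 1) * (B + 1) with hTd
  have hT1 : 1 ≤ T := by nlinarith
  have hT2 : T ≤ 2 * ((A + 1) * B) := by rw [hTd]; nlinarith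
  have hT3 : ((A : ℝ) + 1) * B ≤ T - 1 := by rw [hTd]; nlinarith
  have hlog : Real.log (((A + 1) * (B + 1)).factorial : ℝ) ≤ T * Real.log T := by
    have := kNum_fact ((A + 1) * (B + 1))
    push_cast at this
    exact this
  have hlogT : Real.log T < 2 * ((A + 1) * B) := by
    have := Real.log_le_sub_one_of_pos (show (0 : ℝ) < T by linarith)
    linarith
  have hq : 0 < ((A : ℝ) + 1) * B := by positivity
  -- the three pieces
  have p1 : (A : ℝ) * (2 * n * H * z) ≤ (A + 1) * B * (n * ν * z) / 48 := by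
    have h1 : (n : ℝ) * z * (A * (96 * H)) ≤ n * z * ((A + 1) * (B * ν)) := by
      apply mul_le_mul_of_nonneg_left _ (by positivity)
      apply mul_le_mul (by linarith) hB (by positivity) (by positivity)
    nlinarith
  have p2 : (B : ℝ) * (2 * n * (c' * lam / H)) ≤ (A + 1) * B * (n * ν * z) / 96 := by
    have h1 : c' * lam / H ≤ (A + 1) * (ν * z) / 192 := by
      rw [div_le_iff₀ hH0]
      nlinarith
    have h2 : (B : ℝ) * (2 * n) * (c' * lam / H) ≤ B * (2 * n) * ((A + 1) * (ν * z) / 192) :=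
      mul_le_mul_of_nonneg_left h1 (by positivity)
    nlinarith
  have p3 : Real.log T < (A + 1) * B * (n * ν * z) / 96 := by
    have h1 : 192 ≤ (n : ℝ) * ν * z := by nlinarith
    have h2 : ((A : ℝ) + 1) * B * 192 ≤ (A + 1) * B * (n * ν * z) :=
      mul_le_mul_of_nonneg_left h1 hq.le
    linarith
  have hLp0 : 0 < Lp := by rw [hLp]; positivity
  rw [hT]
  have hR : T * (((A : ℝ) + 1) * B) / 2 * Lp ≤ T * (T - 1) / 2 * LP := by
    apply mul_le_mul _ hLP hLp0.le _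
    · have : T * (((A : ℝ) + 1) * B) ≤ T * (T - 1) := mul_le_mul_of_nonneg_left hT3 (by linarith)
      linarith
    · have : 0 ≤ T * (T - 1) := mul_nonneg (by linarith) (by linarith)
      linarith
  have hsum : Real.log T + ((A : ℝ) * (2 * n * H * z) + B * (2 * n * (c' * lam / H))) <
      (A + 1) * B * (n * ν * z) / 24 := by linarith
  have hsum2 : T * (Real.log T + ((A : ℝ) * (2 * n * H * z) + B * (2 * n * (c' * lam / H)))) <
      T * ((A + 1) * B * (n * ν * z) / 24) := mul_lt_mul_of_pos_left hsum (by linarith)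
  calc Real.log (((A + 1) * (B + 1)).factorial : ℝ) +
            T * (A * (2 * n * H * z) + B * (2 * n * (c' * lam / H)))
      ≤ T * Real.log T + T * (A * (2 * n * H * z) + B * (2 * n * (c' * lam / H))) := by linarith
    _ = T * (Real.log T + ((A : ℝ) * (2 * n * H * z) + B * (2 * n * (c' * lam / H)))) := by ring
    _ < T * ((A + 1) * B * (n * ν * z) / 24) := hsum2
    _ = T * (((A : ℝ) + 1) * B) / 2 * Lp := by rw [hLp]; ring
    _ ≤ T * (T - 1) / 2 * LP := hR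

/-- The size inequality. -/
private theorem kNum_size (n A B Z : ℕ) (ν z Lp : ℝ) (hz : z = Real.log Z)
    (hnν : 36 ≤ (n : ℝ) * ν) (hZ : 17 ≤ Z) (hAZ : A ≤ Z) (hBZ : B ≤ Z)
    (hLp : Lp = n * ν * z / 12) :
    ((A : ℝ) + B) ^ 2 * (1 + 2 * A * B + A) * Z * Real.exp (3 * Lp) ^ 2 < ((Z : ℝ) ^ ν) ^ n := by
  have hZ' : (17 : ℝ) ≤ Z := by exact_mod_cast hZ
  have hZ0 : (0 : ℝ) < Z := by linarith
  have hz0 : 0 < z := by rw [hz]; exact Real.log_pos (by linarith)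
  have hA : (A : ℝ) ≤ Z := by exact_mod_cast hAZ
  have hB : (B : ℝ) ≤ Z := by exact_mod_cast hBZ
  have hA0 : (0 : ℝ) ≤ A := Nat.cast_nonneg A
  have hB0 : (0 : ℝ) ≤ B := Nat.cast_nonneg B
  have h1 : ((A : ℝ) + B) ^ 2 ≤ (2 * Z) ^ 2 :=
    pow_le_pow_left₀ (by positivity) (by linarith) 2
  have hAB : (A : ℝ) * B ≤ Z * Z := mul_le_mul hA hB hB0 hZ0.le
  have h2 : 1 + 2 * (A : ℝ) * B + A ≤ 4 * Z ^ 2 := by nlinarith
  have h3 : ((A : ℝ) + B) ^ 2 * (1 + 2 * A * B + A) * Z ≤ (2 * Z) ^ 2 * (4 * Z ^ 2) * Z := by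
    apply mul_le_mul_of_nonneg_right _ hZ0.le
    exact mul_le_mul h1 h2 (by positivity) (by positivity)
  have h4 : ((2 : ℝ) * Z) ^ 2 * (4 * Z ^ 2) * Z < (Z : ℝ) ^ 6 := by
    have : (0 : ℝ) < (Z : ℝ) ^ 5 := by positivity
    nlinarith
  have h5 : (Z : ℝ) ^ 6 ≤ Real.exp (n * ν * z / 2) := by
    have : (Z : ℝ) ^ 6 = Real.exp (6 * z) := by
      rw [hz, mul_comm, Real.exp_mul, Real.exp_log hZ0]
      norm_cast
    rw [this]
    apply Real.exp_le_exp.2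
    nlinarith
  have h6 : Real.exp (3 * Lp) ^ 2 = Real.exp (n * ν * z / 2) := by
    rw [← Real.exp_nat_mul, hLp]
    congr 1
    push_cast
    ring
  have h7 : ((Z : ℝ) ^ ν) ^ n = Real.exp (n * ν * z / 2) * Real.exp (n * ν * z / 2) := by
    rw [← Real.exp_add, Real.rpow_def_of_pos hZ0, ← Real.exp_nat_mul, hz]
    congr 1
    ring
  rw [h6, h7]
  exact mul_lt_mul_of_pos_right (by linarith) (Real.exp_pos _)

/-- RZ-K7b.  PROOF.  `n = ⌈36 / ν⌉₊`, `c' = min (γ ν / (37632 n)) (ν / 3072)`;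
`B = ⌈96 H / ν⌉₊`, `A = ⌊192 c' lam / (H ν z)⌋₊` (`z = log Z`), `Lp = n ν z / 12` (so
`Lp ≥ 3 z`), `J = ⌊LD / (2 Lp)⌋₊`.  `T = (A + 1) (B + 1)`, `B + 1 ≤ 98 H / ν`.
(1) `T ≤ (192 c' lam / (H ν z) + 1) (98 H / ν) = 18816 c' lam / (ν ^ 2 z) + 98 H / ν`
`≤ γ lam / (2 n ν z) + 98 H / ν`, and `J ≥ γ lam / (2 Lp) - 1 = 6 γ lam / (n ν z) - 1`: `T ≤ J` and
`2 ≤ J` as soon as `lam / z ≥ A0` with `A0` large.
(2) determinant: `log T! ≤ T log T ≤ T * T`... use `log (T !) ≤ T log T` and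
`log T ≤ T ≤ 2 (A + 1) B`; `T - 1 ≥ (A + 1) B`, so the right side is at least
`T (A + 1) B n ν z / 24`; `A (2 n H z) ≤ (A + 1) B n ν z / 48` as `B ≥ 96 H / ν`;
`B (2 n c' lam / H) ≤ (A + 1) B n ν z / 96` as `A + 1 ≥ 192 c' lam / (H ν z)`;
`log T ≤ 2 (A + 1) B < (A + 1) B n ν z / 96` for `z > 192 / 36` (`n ν ≥ 36`).
(3) `J Lp ≥ LD / 2 - Lp ≥ γ lam / 2 - n ν z / 12`; `2 n H z ≤ γ lam / 16`,
`log (A + k B) ≤ log (lam (A0' + B))`... `≤ γ lam / 16` for `lam` large.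
(4) `k ≥ lam / (4 H z) > 192 c' lam / (H ν z) ≥ A` as `c' ≤ ν / 3072`.
(5) `exp (3 Lp) ^ 2 = Z ^ (n ν / 2)`; `A, B ≤ Z` so
`(A + B) ^ 2 (1 + 2 A B + A) Z ≤ 4 Z ^ 2 * 4 Z ^ 2 * Z = 16 Z ^ 5 < Z ^ 6 ≤ Z ^ (n ν / 2)`
(`n ν / 2 ≥ 18`) for `Z > 16`. -/
theorem kp_num (γ ν : ℝ) (hγ : 0 < γ) (hγ1 : γ ≤ 1) (hν : 0 < ν) (hν1 : ν ≤ 1) :
    ∃ (n : ℕ) (c' : ℝ), 1 ≤ n ∧ 0 < c' ∧ ∀ H : ℝ, 1 ≤ H → ∃ (A0 : ℝ) (Z0 : ℕ), 1 ≤ A0 ∧ 2 ≤ Z0 ∧
      ∀ (Z : ℕ) (lam : ℝ), Z0 ≤ Z → A0 * Real.log Z ≤ lam → lam ≤ Z →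
      ∃ (A B : ℕ) (Lp : ℝ), 3 * Real.log Z ≤ Lp ∧ 0 < Lp ∧
        (∀ k : ℕ, lam / Real.log Z ≤ 4 * H * k → A < k) ∧
        (((A : ℝ) + B) ^ 2 * (1 + 2 * A * B + A) * Z * Real.exp (3 * Lp) ^ 2 <
          ((Z : ℝ) ^ ν) ^ n) ∧
        ∀ LD : ℝ, γ * lam ≤ LD → ∃ J : ℕ, 2 ≤ J ∧ 2 * Lp * J ≤ LD ∧ LD ≤ 2 * Lp * (J + 1) ∧
          (A + 1) * (B + 1) ≤ J ∧
          (∀ LP : ℝ, Lp ≤ LP → Real.log (((A + 1) * (B + 1)).factorial : ℝ) +
            (A + 1) * (B + 1) * (A * (2 * n * H * Real.log Z) + B * (2 * n * (c' * lam / H))) <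
            (((A + 1) * (B + 1) * ((A + 1) * (B + 1) - 1) / 2 : ℕ) : ℝ) * LP) ∧
          (∀ k : ℕ, 1 ≤ k → (k : ℝ) ≤ lam →
            2 * (n * H * Real.log Z) + Real.log ((A : ℝ) + k * B) < J * Lp) := by
  obtain ⟨n, hn⟩ : ∃ n : ℕ, n = ⌈36 / ν⌉₊ := ⟨_, rfl⟩
  have hnν : 36 ≤ (n : ℝ) * ν := by
    have h := Nat.le_ceil (36 / ν)
    rw [← hn] at h
    rwa [div_le_iff₀ hν] at h
  have hn0 : (0 : ℝ) ≤ n := Nat.cast_nonneg n
  have hn1 : 1 ≤ n := by
    rcases Nat.eq_zero_or_pos n with h | h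
    · rw [h] at hnν
      norm_num at hnν
    · exact h
  have hn1' : (1 : ℝ) ≤ n := by exact_mod_cast hn1
  have hn0' : (0 : ℝ) < n := by linarith
  obtain ⟨c', hc'⟩ : ∃ c' : ℝ, c' = min (γ * ν / (37632 * n)) (ν / 3072) := ⟨_, rfl⟩
  have hc0 : 0 < c' := by
    rw [hc']
    exact lt_min (by positivity) (by positivity)
  have hc1 : c' * (37632 * n) ≤ γ * ν := by
    have h : c' ≤ γ * ν / (37632 * n) := by rw [hc']; exact min_le_left _ _
    rwa [le_div_iff₀ (by positivity)] at h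
  have hc2 : c' * 3072 ≤ ν := by
    have h : c' ≤ ν / 3072 := by rw [hc']; exact min_le_right _ _
    linarith
  refine ⟨n, c', hn1, hc0, fun H hH => ⟨32 * n * H / γ, max ⌈98 * H / ν⌉₊ ⌈Real.exp 6⌉₊, ?_, ?_, ?_⟩⟩
  · rw [le_div_iff₀ hγ]
    nlinarith
  · have h1 : (2 : ℝ) ≤ Real.exp 6 := by
      have := Real.add_one_le_exp (6 : ℝ)
      linarith
    have h2 : (2 : ℝ) ≤ (⌈Real.exp 6⌉₊ : ℝ) := h1.trans (Nat.le_ceil _)
    have h3 : 2 ≤ ⌈Real.exp 6⌉₊ := by exact_mod_cast h2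
    exact h3.trans (le_max_right _ _)
  intro Z lam hZ0 hlam0 hlamZ
  have hH0 : 0 < H := by linarith
  have hZ1 : 98 * H / ν ≤ (Z : ℝ) :=
    (Nat.le_ceil _).trans (by exact_mod_cast (le_max_left _ _).trans hZ0)
  have hZ1' : 98 * H ≤ Z * ν := by rwa [div_le_iff₀ hν] at hZ1
  have hZ2 : Real.exp 6 ≤ (Z : ℝ) :=
    (Nat.le_ceil _).trans (by exact_mod_cast (le_max_right _ _).trans hZ0)
  have hZpos : (0 : ℝ) < Z := (Real.exp_pos 6).trans_le hZ2
  obtain ⟨z, hzd⟩ : ∃ z : ℝ, z = Real.log Z := ⟨_, rfl⟩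
  rw [← hzd] at hlam0 ⊢
  have hz : 6 ≤ z := by
    rw [hzd, Real.le_log_iff_exp_le hZpos]
    exact hZ2
  have hz0 : 0 < z := by linarith
  have hlam : 32 * n * H * z ≤ γ * lam := by
    have h := hlam0
    rw [div_mul_eq_mul_div, div_le_iff₀ hγ] at h
    linarith
  have hnH : 1 ≤ n * H := by nlinarith
  have hnHz : 0 < n * H * z := by positivity
  have hlam1 : 0 < lam := by
    have h : 0 < γ * lam := by nlinarith
    exact pos_of_mul_pos_right h hγ.le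
  have hx0 : 0 ≤ 192 * c' * lam / (H * ν * z) := by positivity
  obtain ⟨A, hA⟩ : ∃ A : ℕ, A = ⌊192 * c' * lam / (H * ν * z)⌋₊ := ⟨_, rfl⟩
  obtain ⟨B, hB⟩ : ∃ B : ℕ, B = ⌈96 * H / ν⌉₊ := ⟨_, rfl⟩
  have hA1 : (A : ℝ) * (H * ν * z) ≤ 192 * c' * lam := by
    have h := Nat.floor_le hx0
    rw [← hA] at h
    rwa [le_div_iff₀ (by positivity)] at h
  have hA2 : 192 * c' * lam ≤ (A + 1) * (H * ν * z) := by
    have h := Nat.lt_floor_add_one (192 * c' * lam / (H * ν * z))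
    rw [← hA] at h
    rw [div_lt_iff₀ (by positivity)] at h
    exact h.le
  have hB1 : 96 * H ≤ B * ν := by
    have h := Nat.le_ceil (96 * H / ν)
    rw [← hB] at h
    rwa [div_le_iff₀ hν] at h
  have hB2 : (B + 1) * ν ≤ 98 * H := by
    have h := Nat.ceil_lt_add_one (show 0 ≤ 96 * H / ν by positivity)
    rw [← hB] at h
    have h' : (B : ℝ) * ν < (96 * H / ν + 1) * ν := mul_lt_mul_of_pos_right h hν
    have h'' : (96 * H / ν + 1) * ν = 96 * H + ν := by field_simp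
    rw [h''] at h'
    nlinarith
  have hA0 : (0 : ℝ) ≤ A := Nat.cast_nonneg A
  have hB0 : (0 : ℝ) ≤ B := Nat.cast_nonneg B
  have hBpos : 1 ≤ B := by
    rcases Nat.eq_zero_or_pos B with h | h
    · rw [h] at hB1
      norm_num at hB1
      linarith
    · exact h
  -- `A H z ≤ lam / 16`
  have hA3 : (A : ℝ) * (H * z) ≤ lam / 16 := by
    have h1 : 192 * c' * lam ≤ ν * lam / 16 := by nlinarith
    have h2 : ν * ((A : ℝ) * (H * z)) ≤ ν * (lam / 16) := by nlinarith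
    exact le_of_mul_le_mul_left h2 hν
  -- `n A H z ≤ γ lam / 196`
  have hA4 : (n : ℝ) * (A * (H * z)) ≤ γ * lam / 196 := by
    have h1 : 192 * (n * c') * lam ≤ γ * ν * lam / 196 := by nlinarith
    have h2 : ν * ((n : ℝ) * (A * (H * z))) ≤ ν * (γ * lam / 196) := by nlinarith
    exact le_of_mul_le_mul_left h2 hν
  have hAlam : (A : ℝ) ≤ lam := by
    have h1 : (A : ℝ) * 1 ≤ A * (H * z) := mul_le_mul_of_nonneg_left (by nlinarith) hA0
    linarith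
  have hAZ : (A : ℝ) ≤ Z := hAlam.trans hlamZ
  have hBZ : (B : ℝ) + 1 ≤ Z := by
    have h : ((B : ℝ) + 1) * ν ≤ Z * ν := hB2.trans hZ1'
    exact le_of_mul_le_mul_right h hν
  have hZ17 : 17 ≤ Z := by
    have h1 : (B : ℝ) ≥ 96 := by
      have : 96 * 1 ≤ (B : ℝ) * ν := by linarith
      nlinarith
    have h2 : (17 : ℝ) ≤ Z := by linarith
    exact_mod_cast h2
  obtain ⟨Lp, hLp⟩ : ∃ Lp : ℝ, Lp = n * ν * z / 12 := ⟨_, rfl⟩
  have hLp3 : 3 * z ≤ Lp := by rw [hLp]; nlinarith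
  have hLp0 : 0 < Lp := by linarith
  refine ⟨A, B, Lp, hLp3, hLp0, ?_, ?_, ?_⟩
  · intro k hk
    rw [div_le_iff₀ hz0] at hk
    by_contra hcon
    have hkA : (k : ℝ) ≤ A := by exact_mod_cast not_lt.1 hcon
    have h1 : 4 * H * k * z ≤ 4 * H * A * z := by
      have : (4 * H * z) * k ≤ (4 * H * z) * A := mul_le_mul_of_nonneg_left hkA (by positivity)
      nlinarith
    nlinarith
  · exact kNum_size n A B Z ν z Lp hzd hnν hZ17 (by exact_mod_cast hAZ)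
      (by exact_mod_cast (show (B : ℝ) ≤ Z by linarith)) hLp
  · intro LD hLD
    have h2Lp : 0 < 2 * Lp := by linarith
    have hLD0 : 0 ≤ LD := by nlinarith
    have hq0 : 0 ≤ LD / (2 * Lp) := by positivity
    obtain ⟨J, hJ⟩ : ∃ J : ℕ, J = ⌊LD / (2 * Lp)⌋₊ := ⟨_, rfl⟩
    have hJ1 : 2 * Lp * J ≤ LD := by
      have h := Nat.floor_le hq0
      rw [← hJ] at h
      rw [le_div_iff₀ h2Lp] at h
      linarith
    have hJ2 : LD ≤ 2 * Lp * (J + 1) := by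
      have h := Nat.lt_floor_add_one (LD / (2 * Lp))
      rw [← hJ] at h
      rw [div_lt_iff₀ h2Lp] at h
      linarith
    have hLpH : Lp ≤ n * H * z / 12 := by
      rw [hLp]
      have : (n : ℝ) * z * ν ≤ n * z * H := mul_le_mul_of_nonneg_left (by linarith) (by positivity)
      linarith
    refine ⟨J, ?_, hJ1, hJ2, ?_, ?_, ?_⟩
    · rw [hJ]
      apply Nat.le_floor
      rw [le_div_iff₀ h2Lp]
      push_cast
      linarith
    · rw [hJ]
      apply Nat.le_floor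
      rw [le_div_iff₀ h2Lp]
      push_cast
      have h1 : ((B : ℝ) + 1) * ν * ((A + 1) * (n * z)) ≤ 98 * H * ((A + 1) * (n * z)) :=
        mul_le_mul_of_nonneg_right hB2 (by positivity)
      rw [hLp]
      have h2 : 98 * H * (((A : ℝ) + 1) * (n * z)) =
        98 * ((n : ℝ) * (A * (H * z))) + 98 * (n * H * z) := by ring
      rw [h2] at h1
      have h3 : ((A : ℝ) + 1) * (B + 1) * (2 * (n * ν * z / 12)) =
        ((B : ℝ) + 1) * ν * ((A + 1) * (n * z)) / 6 := by ring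
      rw [h3]
      linarith
    · intro LP hLP
      exact kNum_det n A B c' H ν z lam Lp LP hH hν hnν hz hA2 hB1 hBpos hLp hLP
    · intro k hk1 hk
      have hk1' : (1 : ℝ) ≤ k := by exact_mod_cast hk1
      have hB96 : (1 : ℝ) ≤ B := by exact_mod_cast hBpos
      have hkB : (0 : ℝ) < (A : ℝ) + k * B := by
        have : (1 : ℝ) * 1 ≤ k * B := mul_le_mul hk1' hB96 (by norm_num) (by linarith)
        linarith
      have hup : (A : ℝ) + k * B ≤ (Z : ℝ) * Z := by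
        have h1 : (k : ℝ) * B ≤ lam * B := mul_le_mul_of_nonneg_right hk hB0
        have h2 : lam * ((B : ℝ) + 1) ≤ Z * Z := mul_le_mul hlamZ hBZ (by linarith) hZpos.le
        linarith
      have hlog : Real.log ((A : ℝ) + k * B) ≤ 2 * z := by
        calc Real.log ((A : ℝ) + k * B) ≤ Real.log ((Z : ℝ) * Z) := Real.log_le_log hkB hup
          _ = 2 * z := by
            rw [Real.log_mul hZpos.ne' hZpos.ne', hzd]
            ring
      have hz1 : z ≤ n * H * z := by nlinarith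
      linarith

end Pool.Agent.Helper63.AZ
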