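import Mathlib
import Pool.Agent.Helper42.RO.Defs

/-! Project RZ: the modulus `P` (piece K2). -/

set_option autoImplicit false

open Finset
open Pool.Agent.Helper42.RO

namespace Pool.Agent.Helper63.AZ

/-- RZ-K2.  PROOF.  Let `A = {p ∣ D : 2 J ≤ v_p(D)}` and `P = ∏ p ∈ A, p ^ (v_p(D) / J)` (natural
division).  `P ^ J ∣ D` as `J * (v / J) ≤ v`; `v / J ≥ 2` for `p ∈ A`, so `p ^ 2 ∣ P` for `p ∣ P`.
With `z = log Z ≥ log (rad D)`:
`log P ≥ ∑_A (v_p / J - 1) log p ≥ (log D - ∑_(v_p < 2 J) v_p log p) / J - z ≥ log D / J - 3 z` and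
`log D / J ≥ 2 Lp`, so `log P ≥ 2 Lp - 3 z ≥ Lp`... (use `3 z ≤ Lp`).  Upper bound:
`log P ≤ log D / J ≤ 2 Lp (J + 1) / J ≤ 3 Lp`. -/
theorem exists_P (D Z J : ℕ) (hD : D ≠ 0) (hZ : 1 ≤ Z) (hr : rad D ≤ Z) (Lp : ℝ)
    (hL : 3 * Real.log Z ≤ Lp) (hLp : 0 < Lp) (hJ : 2 ≤ J) (hJ1 : 2 * Lp * J ≤ Real.log D)
    (hJ2 : Real.log D ≤ 2 * Lp * (J + 1)) :
    ∃ P : ℕ, P ^ J ∣ D ∧ (∀ p : ℕ, p.Prime → p ∣ P → p ^ 2 ∣ P) ∧ Lp ≤ Real.log P ∧
      Real.log P ≤ 3 * Lp := by
  classical
  have hJ0 : 0 < J := by omega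
  have hJR : (0 : ℝ) < J := by exact_mod_cast hJ0
  have hz : 0 ≤ Real.log Z := Real.log_natCast_nonneg Z
  have hAp : ∀ p ∈ D.primeFactors, p.Prime := fun p hp => Nat.prime_of_mem_primeFactors hp
  have hlogD : Real.log D = ∑ p ∈ D.primeFactors, (D.factorization p : ℝ) * Real.log p := by
    conv_lhs => rw [← Nat.prod_factorization_pow_eq_self hD]
    rw [Finsupp.prod, Nat.support_factorization, Nat.cast_prod, Real.log_prod]
    · refine sum_congr rfl fun p hp => ?_
      rw [Nat.cast_pow, Real.log_pow]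
    · intro p hp
      have := (hAp p hp).pos
      positivity
  have hlogr : ∑ p ∈ D.primeFactors, Real.log (p : ℝ) ≤ Real.log Z := by
    have h1 : Real.log (rad D : ℕ) = ∑ p ∈ D.primeFactors, Real.log (p : ℝ) := by
      rw [rad, Nat.cast_prod, Real.log_prod]
      intro p hp
      have := (hAp p hp).pos
      positivity
    rw [← h1]
    exact Real.log_le_log (by exact_mod_cast rad_pos D) (by exact_mod_cast hr)
  set A := D.primeFactors.filter (fun p => 2 * J ≤ D.factorization p) with hA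
  have hAp2 : ∀ p ∈ A, p.Prime := fun p hp => hAp p (mem_filter.1 hp).1
  have hlogP : Real.log ((∏ p ∈ A, p ^ (D.factorization p / J) : ℕ) : ℝ) =
      ∑ p ∈ A, ((D.factorization p / J : ℕ) : ℝ) * Real.log p := by
    rw [Nat.cast_prod, Real.log_prod]
    · refine sum_congr rfl fun p hp => ?_
      rw [Nat.cast_pow, Real.log_pow]
    · intro p hp
      have := (hAp2 p hp).pos
      positivity
  have hlogp : ∀ p ∈ D.primeFactors, 0 ≤ Real.log (p : ℝ) := fun p _ => Real.log_natCast_nonneg p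
  refine ⟨∏ p ∈ A, p ^ (D.factorization p / J), ?_, ?_, ?_, ?_⟩
  · rw [← Finset.prod_pow]
    have h1 : ∏ p ∈ A, (p ^ (D.factorization p / J)) ^ J ∣ ∏ p ∈ A, p ^ D.factorization p := by
      refine Finset.prod_dvd_prod_of_dvd _ _ fun p _ => ?_
      rw [← pow_mul]
      exact pow_dvd_pow _ (Nat.div_mul_le_self _ _)
    have h2 : ∏ p ∈ A, p ^ D.factorization p ∣ ∏ p ∈ D.primeFactors, p ^ D.factorization p :=
      Finset.prod_dvd_prod_of_subset _ _ _ (filter_subset _ _)
    have h3 : ∏ p ∈ D.primeFactors, p ^ D.factorization p = D := by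
      conv_rhs => rw [← Nat.prod_factorization_pow_eq_self hD]
      rw [Finsupp.prod, Nat.support_factorization]
    exact (h1.trans h2).trans (dvd_of_eq h3)
  · intro p hp hpd
    obtain ⟨q, hq, hpq⟩ := (hp.prime.dvd_finsetProd_iff _).1 hpd
    have h1 : p = q := (Nat.prime_dvd_prime_iff_eq hp (hAp2 q hq)).1 (hp.dvd_of_dvd_pow hpq)
    subst h1
    have h2 : 2 ≤ D.factorization p / J := by
      rw [Nat.le_div_iff_mul_le hJ0]
      exact (mem_filter.1 hq).2
    exact (pow_dvd_pow _ h2).trans (Finset.dvd_prod_of_mem (fun p => p ^ (D.factorization p / J)) hq)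
  · rw [hlogP]
    have h1 : ∑ p ∈ D.primeFactors, ((D.factorization p : ℝ) - 2 * J) * Real.log p ≤
        (J : ℝ) * ∑ p ∈ A, ((D.factorization p / J : ℕ) : ℝ) * Real.log p := by
      rw [hA, sum_filter, mul_sum]
      refine sum_le_sum fun p hp => ?_
      split_ifs with h
      · rw [← mul_assoc]
        refine mul_le_mul_of_nonneg_right ?_ (hlogp p hp)
        have h2 : D.factorization p ≤ J * (D.factorization p / J) + J := by
          have := Nat.div_add_mod (D.factorization p) J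
          have := Nat.mod_lt (D.factorization p) hJ0
          omega
        have h3 : (D.factorization p : ℝ) ≤ (J : ℝ) * ((D.factorization p / J : ℕ) : ℝ) + J := by
          exact_mod_cast h2
        linarith
      · rw [mul_zero]
        refine mul_nonpos_of_nonpos_of_nonneg ?_ (hlogp p hp)
        have h2 : (D.factorization p : ℝ) ≤ 2 * J := by
          have : D.factorization p ≤ 2 * J := by omega
          exact_mod_cast this
        linarith
    have h2 : ∑ p ∈ D.primeFactors, ((D.factorization p : ℝ) - 2 * J) * Real.log p =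
        Real.log D - 2 * J * ∑ p ∈ D.primeFactors, Real.log (p : ℝ) := by
      rw [hlogD, mul_sum, ← sum_sub_distrib]
      refine sum_congr rfl fun p _ => ?_
      ring
    rw [h2] at h1
    have h3 : 2 * (J : ℝ) * ∑ p ∈ D.primeFactors, Real.log (p : ℝ) ≤ 2 * J * Real.log Z :=
      mul_le_mul_of_nonneg_left hlogr (by positivity)
    have h4 : (J : ℝ) * (2 * Real.log Z) ≤ J * Lp :=
      mul_le_mul_of_nonneg_left (by linarith) hJR.le
    refine le_of_mul_le_mul_left ?_ hJR
    nlinarith [h1, h3, h4, hJ1]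
  · rw [hlogP]
    have h1 : (J : ℝ) * ∑ p ∈ A, ((D.factorization p / J : ℕ) : ℝ) * Real.log p ≤
        Real.log D := by
      rw [hlogD, mul_sum]
      refine (sum_le_sum fun p hp => ?_).trans
        (sum_le_sum_of_subset_of_nonneg (filter_subset _ _) fun p hp _ =>
          mul_nonneg (Nat.cast_nonneg _) (hlogp p hp))
      rw [← mul_assoc]
      refine mul_le_mul_of_nonneg_right ?_ (hlogp p (mem_filter.1 hp).1)
      exact_mod_cast Nat.mul_div_le _ _
    have hJ2R : (2 : ℝ) ≤ J := by exact_mod_cast hJ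
    refine le_of_mul_le_mul_left ?_ hJR
    nlinarith [h1, hJ2, mul_le_mul_of_nonneg_left hJ2R hLp.le]

end Pool.Agent.Helper63.AZ
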