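import Mathlib

/-! Project RZ: bivariate polynomials, definitions. -/

set_option autoImplicit false

open Finset Polynomial

namespace Pool.Agent.Helper63.AZ

/-- Bidegree at most `(A, B)`: degree `≤ A` in the inner, `≤ B` in the outer variable. -/
def Bi (A B : ℕ) (p : Polynomial (Polynomial ℚ)) : Prop :=
  p.natDegree ≤ B ∧ ∀ j, (p.coeff j).natDegree ≤ A

/-- The polynomial `p (r x, e y)`. -/
noncomputable def tw (r e : ℚ) : Polynomial (Polynomial ℚ) →+* Polynomial (Polynomial ℚ) :=
  (Polynomial.compRingHom (C (C e) * X)).comp (Polynomial.mapRingHom (Polynomial.compRingHom (C r * X)))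

end Pool.Agent.Helper63.AZ
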