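import Mathlib
import Pool.Agent.Helper63.AZ.KDefs

/-! Project RZ: degrees of factors (piece K5a0). -/

set_option autoImplicit false

open Finset Polynomial

namespace Pool.Agent.Helper63.AZ

private theorem KBi_coeff_swap (p : Polynomial (Polynomial ℚ)) (i j : ℕ) :
    ((Polynomial.Bivariate.swap p).coeff i).coeff j = (p.coeff j).coeff i := by
  induction p using Polynomial.induction_on' with
  | add p q hp hq => rw [map_add, coeff_add, coeff_add, coeff_add, coeff_add, hp, hq]
  | monomial n f =>
    induction f using Polynomial.induction_on' with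
    | add f g hf hg =>
      rw [map_add, map_add, coeff_add, coeff_add, coeff_add, coeff_add, hf, hg]
    | monomial m r =>
      rw [Polynomial.Bivariate.swap_monomial_monomial, coeff_monomial, coeff_monomial]
      by_cases h1 : m = i
      · by_cases h2 : n = j
        · simp [h1, h2]
        · simp [h1, h2, coeff_monomial]
      · by_cases h2 : n = j
        · simp [h1, h2, coeff_monomial]
        · simp [h1, h2]

private theorem KBi_inner (p : Polynomial (Polynomial ℚ)) (j : ℕ) :
    (p.coeff j).natDegree ≤ (Polynomial.Bivariate.swap p).natDegree := by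
  rw [Polynomial.natDegree_le_iff_coeff_eq_zero]
  intro i hi
  rw [← KBi_coeff_swap, coeff_eq_zero_of_natDegree_lt hi, coeff_zero]

/-- RZ-K5a0.  A divisor of a nonzero polynomial of bidegree `≤ (A, B)` has bidegree `≤ (A, B)`; more
precisely the degrees are additive.  PROOF.  Outer degree: `Polynomial.natDegree_mul` in a domain.
Inner degree: `Polynomial.Bivariate.swap` (an automorphism) exchanges the two degrees
(`natDegree (swap p)` is the maximum of the `(p.coeff j).natDegree`), or directly: the sum of the
leading coefficients. -/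
theorem bi_mul {A B : ℕ} {p q : Polynomial (Polynomial ℚ)} (hp : p ≠ 0) (hq : q ≠ 0)
    (h : Bi A B (p * q)) : ∃ a b a' b' : ℕ, Bi a b p ∧ Bi a' b' q ∧ a + a' ≤ A ∧ b + b' ≤ B := by
  have hp' : Polynomial.Bivariate.swap p ≠ 0 := by
    rw [Ne, map_eq_zero_iff _ (AlgEquiv.injective _)]; exact hp
  have hq' : Polynomial.Bivariate.swap q ≠ 0 := by
    rw [Ne, map_eq_zero_iff _ (AlgEquiv.injective _)]; exact hq
  refine ⟨(Polynomial.Bivariate.swap p).natDegree, p.natDegree,
    (Polynomial.Bivariate.swap q).natDegree, q.natDegree,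
    ⟨le_rfl, KBi_inner p⟩, ⟨le_rfl, KBi_inner q⟩, ?_, ?_⟩
  · rw [← natDegree_mul hp' hq', ← map_mul, Polynomial.natDegree_le_iff_coeff_eq_zero]
    intro i hi
    ext j
    rw [KBi_coeff_swap, coeff_zero]
    exact coeff_eq_zero_of_natDegree_lt (lt_of_le_of_lt (h.2 j) hi)
  · rw [← natDegree_mul hp hq]
    exact h.1

end Pool.Agent.Helper63.AZ
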