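import Mathlib
import Pool.Agent.Helper63.AZ.KBi

/-! Project RZ: an irreducible factor with many zeros (piece K5a). -/

set_option autoImplicit false

open Finset Polynomial

namespace Pool.Agent.Helper63.AZ

theorem KFac_isUnit {p : Polynomial (Polynomial ℚ)} (hp : p ≠ 0) (h : Bi 0 0 p) : IsUnit p := by
  obtain ⟨h1, h2⟩ := h
  have e1 : p = C (p.coeff 0) := Polynomial.eq_C_of_natDegree_le_zero h1
  have e2 : p.coeff 0 = C ((p.coeff 0).coeff 0) := Polynomial.eq_C_of_natDegree_le_zero (h2 0)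
  have hc : (p.coeff 0).coeff 0 ≠ 0 := by
    intro hc
    apply hp
    rw [e1, e2, hc, C_0, C_0]
  rw [e1, e2]
  exact Polynomial.isUnit_C.2 (Polynomial.isUnit_C.2 (isUnit_iff_ne_zero.2 hc))

theorem KFac_unit_ne {p : Polynomial (Polynomial ℚ)} (hp : IsUnit p) (x y : ℚ) :
    evalEval x y p ≠ 0 := by
  have h := hp.map (Polynomial.evalEvalRingHom x y)
  have h' := h.ne_zero
  simpa using h'

theorem KFac_mono {a b A B : ℕ} {p : Polynomial (Polynomial ℚ)} (h : Bi a b p) (ha : a ≤ A)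
    (hb : b ≤ B) : Bi A B p :=
  ⟨h.1.trans hb, fun j => (h.2 j).trans ha⟩

theorem KFac_step {κ : Type} (A B N : ℕ) (𝒰 : Finset κ) (x y : κ → ℚ)
    (hN : ∀ Φ : Polynomial (Polynomial ℚ), Irreducible Φ → Bi A B Φ → ∀ 𝒱 ⊆ 𝒰,
      (∀ u ∈ 𝒱, evalEval (x u) (y u) Φ = 0) → (A + B) * 𝒱.card ≤ N)
    (Ψ : Polynomial (Polynomial ℚ)) (hΨ : Ψ ≠ 0) :
    ∀ A' B' : ℕ, A' ≤ A → B' ≤ B → Bi A' B' Ψ → ∀ 𝒱 ⊆ 𝒰,
      (∀ u ∈ 𝒱, evalEval (x u) (y u) Ψ = 0) → (A + B) * 𝒱.card ≤ (A' + B') * N := by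
  classical
  revert hΨ
  refine WfDvdMonoid.induction_on_irreducible
    (motive := fun Ψ : Polynomial (Polynomial ℚ) => Ψ ≠ 0 →
      ∀ A' B' : ℕ, A' ≤ A → B' ≤ B → Bi A' B' Ψ → ∀ 𝒱 ⊆ 𝒰,
      (∀ u ∈ 𝒱, evalEval (x u) (y u) Ψ = 0) → (A + B) * 𝒱.card ≤ (A' + B') * N) Ψ ?_ ?_ ?_
  · intro h
    exact absurd rfl h
  · intro p hp _ A' B' _ _ _ 𝒱 _ hz
    have he : 𝒱 = ∅ := by
      rw [Finset.eq_empty_iff_forall_notMem]
      intro u hu
      exact KFac_unit_ne hp _ _ (hz u hu)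
    rw [he, Finset.card_empty, mul_zero]
    exact Nat.zero_le _
  · intro Ψ' Φ hΨ' hΦ ih _ A' B' hA hB hbi 𝒱 h𝒱 hz
    obtain ⟨a, b, a', b', h1, h2, h3, h4⟩ := bi_mul hΦ.ne_zero hΨ' hbi
    have hab : 1 ≤ a + b := by
      by_contra hcon
      have ha : a = 0 := by omega
      have hb : b = 0 := by omega
      subst ha
      subst hb
      exact hΦ.not_isUnit (KFac_isUnit hΦ.ne_zero h1)
    have k1 := hN Φ hΦ (KFac_mono h1 (by omega) (by omega))
      (𝒱.filter fun u => evalEval (x u) (y u) Φ = 0) ((Finset.filter_subset _ _).trans h𝒱)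
      (fun u hu => (Finset.mem_filter.1 hu).2)
    have k2 := ih hΨ' a' b' (by omega) (by omega) h2
      (𝒱.filter fun u => ¬ evalEval (x u) (y u) Φ = 0) ((Finset.filter_subset _ _).trans h𝒱)
      (by
        intro u hu
        obtain ⟨hu1, hu2⟩ := Finset.mem_filter.1 hu
        have h5 := hz u hu1
        have h6 : evalEval (x u) (y u) (Φ * Ψ') =
            evalEval (x u) (y u) Φ * evalEval (x u) (y u) Ψ' := by
          simp only [evalEval, eval_mul]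
        rw [h6] at h5
        exact (mul_eq_zero.1 h5).resolve_left hu2)
    have k3 := Finset.card_filter_add_card_filter_not (s := 𝒱)
      (fun u => evalEval (x u) (y u) Φ = 0)
    calc (A + B) * 𝒱.card = (A + B) * (𝒱.filter fun u => evalEval (x u) (y u) Φ = 0).card +
          (A + B) * (𝒱.filter fun u => ¬ evalEval (x u) (y u) Φ = 0).card := by
            rw [← mul_add, k3]
      _ ≤ N + (a' + b') * N := add_le_add k1 k2
      _ ≤ (a + b) * N + (a' + b') * N := by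
            refine Nat.add_le_add_right ?_ _
            exact Nat.le_mul_of_pos_left N hab
      _ = (a + b + (a' + b')) * N := by ring
      _ ≤ (A' + B') * N := Nat.mul_le_mul_right N (by omega)

/-- RZ-K5a.  An irreducible factor with many zeros.  PROOF.  Induction on the number of factors
(`WfDvdMonoid.induction_on_irreducible` or `UniqueFactorizationMonoid`), with the statement
`#𝒰 ≤ (a + b) * n` if every irreducible factor of `Ψ` has at most `n` zeros in `𝒰` and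
`Bi a b Ψ`.  A unit has no zeros (it is `C (C c)`, `c ≠ 0`); for `Ψ = Φ * Ψ'` use `bi_mul`, where
the irreducible `Φ` has `Bi a b Φ` only for `a + b ≥ 1` (otherwise it is a constant, a unit). -/
theorem exists_factor {κ : Type} (A B : ℕ) (Ψ : Polynomial (Polynomial ℚ)) (hΨ : Ψ ≠ 0)
    (hbi : Bi A B Ψ) (𝒰 : Finset κ) (hne : 𝒰.Nonempty) (x y : κ → ℚ)
    (hz : ∀ u ∈ 𝒰, evalEval (x u) (y u) Ψ = 0) :
    ∃ Φ : Polynomial (Polynomial ℚ), Irreducible Φ ∧ Bi A B Φ ∧ ∃ 𝒱 ⊆ 𝒰,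
      𝒰.card ≤ (A + B) * 𝒱.card ∧ ∀ u ∈ 𝒱, evalEval (x u) (y u) Φ = 0 := by
  classical
  by_contra hcon
  have hN : ∀ Φ : Polynomial (Polynomial ℚ), Irreducible Φ → Bi A B Φ → ∀ 𝒱 ⊆ 𝒰,
      (∀ u ∈ 𝒱, evalEval (x u) (y u) Φ = 0) → (A + B) * 𝒱.card ≤ 𝒰.card - 1 := by
    intro Φ h1 h2 𝒱 h3 h4
    by_contra h5
    exact hcon ⟨Φ, h1, h2, 𝒱, h3, by omega, h4⟩
  have hpos : 0 < 𝒰.card := hne.card_pos
  rcases Nat.eq_zero_or_pos (A + B) with h0 | h0
  · have hA : A = 0 := by omega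
    have hB : B = 0 := by omega
    subst hA
    subst hB
    obtain ⟨u, hu⟩ := hne
    exact KFac_unit_ne (KFac_isUnit hΨ hbi) _ _ (hz u hu)
  · have h := KFac_step A B (𝒰.card - 1) 𝒰 x y hN Ψ hΨ A B le_rfl le_rfl hbi 𝒰
      (Finset.Subset.refl _) hz
    have h' := Nat.le_of_mul_le_mul_left h h0
    omega

end Pool.Agent.Helper63.AZ
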