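import Mathlib
import Pool.Agent.Helper63.AZ.KDefs

/-! Project RZ: few common zeros (piece K5b). -/

set_option autoImplicit false

open Finset Polynomial

namespace Pool.Agent.Helper63.AZ

/-- A determinant of polynomials of small degree has small degree. -/
theorem KFew_natDegree_det_le {n A : ℕ} (M : Matrix (Fin n) (Fin n) (Polynomial ℚ))
    (h : ∀ i j, (M i j).natDegree ≤ A) : M.det.natDegree ≤ n * A := by
  rw [Matrix.det_apply]
  refine Polynomial.natDegree_sum_le_of_forall_le _ _ fun σ _ => ?_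
  refine (Polynomial.natDegree_smul_le _ _).trans ?_
  refine (Polynomial.natDegree_prod_le _ _).trans ?_
  refine (sum_le_sum fun i _ => h (σ i) i).trans ?_
  rw [sum_const, card_univ, Fintype.card_fin, smul_eq_mul]

/-- The case of outer degree `0`. -/
theorem KFew_const (A B : ℕ) (Φ₁ : Polynomial (Polynomial ℚ)) (h₁ : Irreducible Φ₁) (hb₁ : Bi A B Φ₁)
    (h0 : Φ₁.natDegree = 0) (S : Finset ℚ) (hS : ∀ x ∈ S, ∃ y, evalEval x y Φ₁ = 0) :
    S.card ≤ 2 * A * B + A := by
  obtain ⟨φ, hφ⟩ := Polynomial.natDegree_eq_zero.1 h0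
  have hφ0 : φ ≠ 0 := by
    rintro rfl
    rw [C_0] at hφ
    exact h₁.ne_zero hφ.symm
  have hdeg : φ.natDegree ≤ A := by
    have := hb₁.2 0
    rwa [← hφ, coeff_C_zero] at this
  have hsub : S ⊆ φ.roots.toFinset := by
    intro x hx
    obtain ⟨y, hy⟩ := hS x hx
    rw [← hφ, evalEval_C] at hy
    rw [Multiset.mem_toFinset, mem_roots hφ0]
    exact hy
  have h2 := (card_le_card hsub).trans ((Multiset.toFinset_card_le _).trans (card_roots' φ))
  omega

/-- RZ-K5b.  Two irreducible polynomials which are not associated have few common zeros.  PROOF.  If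
`Φ₁` has outer degree `0`, it is `C φ` with `φ ≠ 0` of degree `≤ A`, and the first coordinates of
the zeros are roots of `φ`.  Same for `Φ₂`.  If both have positive outer degree they are primitive
(`Irreducible.isPrimitive`), irreducible over `K = FractionRing ℚ[X]`
(`Polynomial.IsPrimitive.irreducible_iff_irreducible_map_fraction_map`), and not associated there
(`Polynomial.IsPrimitive.dvd_of_fraction_map_dvd_fraction_map`), so coprime there, and the resultant
`R = resultant Φ₁ Φ₂ ∈ ℚ[X]` is not zero (`Polynomial.resultant_map_map`, `natDegree_map` for the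
injective map, `Polynomial.resultant_eq_zero_iff` over `K`).  By
`Polynomial.exists_mul_add_mul_eq_C_resultant` `R` vanishes at the first coordinate of every common
zero, and `R` is a determinant of size `≤ 2 B` with entries of degree `≤ A`. -/
theorem few_common {κ : Type} (A B : ℕ) (Φ₁ Φ₂ : Polynomial (Polynomial ℚ)) (h₁ : Irreducible Φ₁)
    (h₂ : Irreducible Φ₂) (hb₁ : Bi A B Φ₁) (hb₂ : Bi A B Φ₂) (hna : ¬ Associated Φ₁ Φ₂)
    (S : Finset ℚ) (hS : ∀ x ∈ S, ∃ y, evalEval x y Φ₁ = 0 ∧ evalEval x y Φ₂ = 0) :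
    S.card ≤ 2 * A * B + A := by
  by_cases hd1 : Φ₁.natDegree = 0
  · exact KFew_const A B Φ₁ h₁ hb₁ hd1 S fun x hx => by
      obtain ⟨y, hy, -⟩ := hS x hx
      exact ⟨y, hy⟩
  by_cases hd2 : Φ₂.natDegree = 0
  · exact KFew_const A B Φ₂ h₂ hb₂ hd2 S fun x hx => by
      obtain ⟨y, -, hy⟩ := hS x hx
      exact ⟨y, hy⟩
  letI : NormalizedGCDMonoid (Polynomial ℚ) := Classical.choice (inferInstance : Nonempty (NormalizedGCDMonoid (Polynomial ℚ)))
  have hp1 : Φ₁.IsPrimitive := h₁.isPrimitive hd1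
  have hp2 : Φ₂.IsPrimitive := h₂.isPrimitive hd2
  set K := FractionRing (Polynomial ℚ)
  have hi1 : Irreducible (Φ₁.map (algebraMap (Polynomial ℚ) K)) :=
    (hp1.irreducible_iff_irreducible_map_fraction_map).1 h₁
  have hnd : ¬ Φ₁.map (algebraMap (Polynomial ℚ) K) ∣ Φ₂.map (algebraMap (Polynomial ℚ) K) := by
    intro h
    have h3 : Φ₁ ∣ Φ₂ := hp1.dvd_of_fraction_map_dvd_fraction_map h
    exact hna (h₁.associated_of_dvd h₂ h3)
  have hcop : IsCoprime (Φ₁.map (algebraMap (Polynomial ℚ) K)) (Φ₂.map (algebraMap (Polynomial ℚ) K)) :=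
    (hi1.coprime_iff_not_dvd).2 hnd
  have hinj : Function.Injective (algebraMap (Polynomial ℚ) K) := IsFractionRing.injective _ _
  have hres : resultant Φ₁ Φ₂ ≠ 0 := by
    intro h
    have h3 : resultant (Φ₁.map (algebraMap (Polynomial ℚ) K)) (Φ₂.map (algebraMap (Polynomial ℚ) K)) = 0 := by
      rw [natDegree_map_eq_of_injective hinj, natDegree_map_eq_of_injective hinj, resultant_map_map, h, map_zero]
    rw [resultant_eq_zero_iff] at h3
    exact h3.2 hcop
  obtain ⟨p, q, -, -, hpq⟩ := exists_mul_add_mul_eq_C_resultant (m := Φ₁.natDegree) (n := Φ₂.natDegree) Φ₁ Φ₂ le_rfl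
    le_rfl (Or.inl hd1)
  have hsub : S ⊆ (resultant Φ₁ Φ₂).roots.toFinset := by
    intro x hx
    obtain ⟨y, hy1, hy2⟩ := hS x hx
    rw [Multiset.mem_toFinset, mem_roots hres, IsRoot]
    have h3 := congrArg (evalEval x y) hpq
    rw [evalEval_C, evalEval_add, evalEval_mul, evalEval_mul, hy1, hy2, zero_mul, zero_mul, add_zero] at h3
    exact h3.symm
  have hdeg : (resultant Φ₁ Φ₂).natDegree ≤ (Φ₁.natDegree + Φ₂.natDegree) * A := by
    unfold resultant
    refine KFew_natDegree_det_le _ fun i j => ?_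
    unfold sylvester
    rw [Matrix.of_apply]
    refine Fin.addCases (fun j₁ => ?_) (fun j₁ => ?_) j
    · rw [Fin.addCases_left]
      split_ifs
      · exact hb₂.2 _
      · rw [natDegree_zero]
        exact Nat.zero_le _
    · rw [Fin.addCases_right]
      split_ifs
      · exact hb₁.2 _
      · rw [natDegree_zero]
        exact Nat.zero_le _
  have h4 := (card_le_card hsub).trans ((Multiset.toFinset_card_le _).trans ((card_roots' _).trans hdeg))
  have h5 : (Φ₁.natDegree + Φ₂.natDegree) * A ≤ (B + B) * A := Nat.mul_le_mul_right _ (Nat.add_le_add hb₁.1 hb₂.1)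
  calc S.card ≤ _ := h4
    _ ≤ _ := h5
    _ = 2 * A * B := by ring
    _ ≤ _ := Nat.le_add_right _ _

end Pool.Agent.Helper63.AZ
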