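import Mathlib
import Pool.Agent.Helper63.AZ.KDefs

/-! Project RZ: twisted polynomials (piece K5c). -/

set_option autoImplicit false

open Finset Polynomial

namespace Pool.Agent.Helper63.AZ

/-- RZ-K5c1. -/
theorem tw_coeff (r e : ℚ) (p : Polynomial (Polynomial ℚ)) (i j : ℕ) :
    ((tw r e p).coeff j).coeff i = r ^ i * e ^ j * (p.coeff j).coeff i := by
  have h1 : tw r e p = (p.map (Polynomial.compRingHom (C r * X))).comp (C (C e) * X) := rfl
  rw [h1, Polynomial.comp_C_mul_X_coeff, Polynomial.coeff_map, Polynomial.coe_compRingHom_apply,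
    ← C_pow, Polynomial.coeff_mul_C, Polynomial.comp_C_mul_X_coeff]
  ring

/-- RZ-K5c2. -/
theorem tw_eval (r e : ℚ) (p : Polynomial (Polynomial ℚ)) (x y : ℚ) :
    evalEval x y (tw r e p) = evalEval (r * x) (e * y) p := by
  have h : (evalEvalRingHom x y).comp (tw r e) = evalEvalRingHom (r * x) (e * y) := by
    refine Polynomial.ringHom_ext' ?_ ?_
    · refine Polynomial.ringHom_ext' (RingHom.ext_rat _ _) ?_
      simp [tw]
    · simp [tw]
  have h2 := RingHom.congr_fun h p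
  exact h2

/-- RZ-K5c3. -/
theorem tw_bi (r e : ℚ) {A B : ℕ} {p : Polynomial (Polynomial ℚ)} (h : Bi A B p) :
    Bi A B (tw r e p) := by
  refine ⟨?_, fun j => ?_⟩
  · rw [Polynomial.natDegree_le_iff_coeff_eq_zero]
    intro N hN
    ext i
    rw [tw_coeff, Polynomial.coeff_eq_zero_of_natDegree_lt (lt_of_le_of_lt h.1 hN)]
    simp
  · rw [Polynomial.natDegree_le_iff_coeff_eq_zero]
    intro N hN
    rw [tw_coeff, Polynomial.coeff_eq_zero_of_natDegree_lt (lt_of_le_of_lt (h.2 j) hN), mul_zero]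

/-- RZ-K5c4.  `tw r e` is bijective with inverse `tw r⁻¹ e⁻¹` (by `tw_coeff`). -/
theorem tw_irreducible (r e : ℚ) (hr : r ≠ 0) (he : e ≠ 0) {p : Polynomial (Polynomial ℚ)}
    (h : Irreducible p) : Irreducible (tw r e p) := by
  have key : ∀ (a b : ℚ), a ≠ 0 → b ≠ 0 → (tw a b).comp (tw a⁻¹ b⁻¹) = RingHom.id _ := by
    intro a b ha hb
    refine Polynomial.ringHom_ext' ?_ ?_
    · refine Polynomial.ringHom_ext' (RingHom.ext_rat _ _) ?_
      · ext j i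
        simp only [RingHom.comp_apply, RingHom.id_apply, tw_coeff]
        rw [← mul_assoc, inv_pow, inv_pow]
        have h1 : a ^ i ≠ 0 := pow_ne_zero _ ha
        have h2 : b ^ j ≠ 0 := pow_ne_zero _ hb
        field_simp
    · ext j i
      simp only [RingHom.comp_apply, RingHom.id_apply, tw_coeff]
      rw [← mul_assoc, inv_pow, inv_pow]
      have h1 : a ^ i ≠ 0 := pow_ne_zero _ ha
      have h2 : b ^ j ≠ 0 := pow_ne_zero _ hb
      field_simp
  have k1 := key r e hr he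
  have k2 := key r⁻¹ e⁻¹ (inv_ne_zero hr) (inv_ne_zero he)
  rw [inv_inv, inv_inv] at k2
  exact (MulEquiv.irreducible_iff (RingEquiv.ofRingHom (tw r e) (tw r⁻¹ e⁻¹) k1 k2)).2 h

/-- RZ-K5c5.  The relation.  PROOF.  `tw r₁ e₁ Φ = tw r₂ e₂ Φ * C (C c)`, `c ≠ 0` (units of
`ℚ[X][Y]`).  `Φ` has two different nonzero coefficients `(i, j)`, `(i', j')`, otherwise
`evalEval x y Φ = a x ^ i y ^ j ≠ 0`.  Compare coefficients with `tw_coeff`:
`r₁ ^ i e₁ ^ j = c r₂ ^ i e₂ ^ j`, same for `(i', j')`; take `a = i - i'`, `b = j - j'`. -/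
theorem relation (A B : ℕ) (Φ : Polynomial (Polynomial ℚ)) (hΦ : Φ ≠ 0) (hb : Bi A B Φ)
    (x y : ℚ) (hx : x ≠ 0) (hy : y ≠ 0) (hz : evalEval x y Φ = 0) (r₁ e₁ r₂ e₂ : ℚ) (hr₁ : r₁ ≠ 0)
    (he₁ : e₁ ≠ 0) (hr₂ : r₂ ≠ 0) (he₂ : e₂ ≠ 0) (has : Associated (tw r₁ e₁ Φ) (tw r₂ e₂ Φ)) :
    ∃ a b : ℤ, (a ≠ 0 ∨ b ≠ 0) ∧ |a| ≤ A ∧ |b| ≤ B ∧ (r₁ / r₂) ^ a * (e₁ / e₂) ^ b = 1 := by
  obtain ⟨u, hu⟩ := has
  obtain ⟨u1, hu1, hu2⟩ := Polynomial.isUnit_iff.1 u.isUnit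
  obtain ⟨c, hc1, hc2⟩ := Polynomial.isUnit_iff.1 hu1
  have hc0 : c ≠ 0 := hc1.ne_zero
  rw [← hu2, ← hc2] at hu
  -- comparison of the coefficients
  have hco : ∀ i j, (Φ.coeff j).coeff i ≠ 0 → r₁ ^ i * e₁ ^ j * c = r₂ ^ i * e₂ ^ j := by
    intro i j hij
    have h1 := congrArg (fun q => (q.coeff j).coeff i) hu
    simp only [Polynomial.coeff_mul_C, tw_coeff] at h1
    apply mul_right_cancel₀ hij
    linear_combination h1
  -- a nonzero coefficient
  obtain ⟨j₀, hj₀⟩ : ∃ j, Φ.coeff j ≠ 0 := by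
    by_contra hcon
    push Not at hcon
    exact hΦ (Polynomial.ext fun j => by rw [hcon j, Polynomial.coeff_zero])
  obtain ⟨i₀, hi₀⟩ : ∃ i, (Φ.coeff j₀).coeff i ≠ 0 := by
    by_contra hcon
    push Not at hcon
    exact hj₀ (Polynomial.ext fun i => by rw [hcon i, Polynomial.coeff_zero])
  -- a second one
  obtain ⟨i₁, j₁, hne, hi₁⟩ : ∃ i j, (i, j) ≠ (i₀, j₀) ∧ (Φ.coeff j).coeff i ≠ 0 := by
    by_contra hcon
    push Not at hcon
    have hΦ' : Φ = C (C ((Φ.coeff j₀).coeff i₀) * X ^ i₀) * X ^ j₀ := by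
      ext j i
      rw [Polynomial.coeff_C_mul_X_pow]
      by_cases hj : j = j₀
      · rw [if_pos hj, Polynomial.coeff_C_mul_X_pow, hj]
        by_cases hi : i = i₀
        · rw [if_pos hi, hi]
        · rw [if_neg hi]
          exact hcon i j₀ (fun h => hi (Prod.ext_iff.1 h).1)
      · rw [if_neg hj, Polynomial.coeff_zero]
        exact hcon i j (fun h => hj (Prod.ext_iff.1 h).2)
    rw [hΦ'] at hz
    simp only [evalEval, Polynomial.eval_mul, Polynomial.eval_C, Polynomial.eval_pow,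
      Polynomial.eval_X, mul_eq_zero, pow_eq_zero_iff', ne_eq] at hz
    rcases hz with (h | h) | h
    · exact hi₀ h
    · exact hx h.1
    · exact hy h.1
  have hA : ∀ i j, (Φ.coeff j).coeff i ≠ 0 → i ≤ A ∧ j ≤ B := by
    intro i j hij
    constructor
    · exact (Polynomial.le_natDegree_of_ne_zero hij).trans (hb.2 j)
    · refine (Polynomial.le_natDegree_of_ne_zero (n := j) ?_).trans hb.1
      intro h
      rw [h, Polynomial.coeff_zero] at hij
      exact hij rfl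
  have e0 := hco i₀ j₀ hi₀
  have e1 := hco i₁ j₁ hi₁
  have b0 := hA i₀ j₀ hi₀
  have b1 := hA i₁ j₁ hi₁
  have hr : r₁ / r₂ ≠ 0 := div_ne_zero hr₁ hr₂
  have he : e₁ / e₂ ≠ 0 := div_ne_zero he₁ he₂
  have f : ∀ i j : ℕ, r₁ ^ i * e₁ ^ j * c = r₂ ^ i * e₂ ^ j →
      (r₁ / r₂) ^ i * (e₁ / e₂) ^ j = c⁻¹ := by
    intro i j h
    have h1 : r₂ ^ i ≠ 0 := pow_ne_zero _ hr₂
    have h2 : e₂ ^ j ≠ 0 := pow_ne_zero _ he₂
    rw [div_pow, div_pow]
    field_simp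
    linear_combination h
  refine ⟨(i₀ : ℤ) - i₁, (j₀ : ℤ) - j₁, ?_, ?_, ?_, ?_⟩
  · by_contra hcon
    push Not at hcon
    apply hne
    have h1 := hcon.1
    have h2 := hcon.2
    exact Prod.ext (by simp only; omega) (by simp only; omega)
  · rw [abs_le]; constructor <;> omega
  · rw [abs_le]; constructor <;> omega
  · rw [zpow_sub₀ hr, zpow_sub₀ he, zpow_natCast, zpow_natCast, zpow_natCast, zpow_natCast]
    have g0 := f i₀ j₀ e0
    have g1 := f i₁ j₁ e1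
    have h1 : (r₁ / r₂) ^ i₁ ≠ 0 := pow_ne_zero _ hr
    have h2 : (e₁ / e₂) ^ j₁ ≠ 0 := pow_ne_zero _ he
    rw [div_mul_div_comm, div_eq_one_iff_eq (mul_ne_zero h1 h2), g0, g1]

end Pool.Agent.Helper63.AZ
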