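import Mathlib
import Pool.Agent.Helper63.AZ.KFac
import Pool.Agent.Helper63.AZ.KFew
import Pool.Agent.Helper63.AZ.KTw

/-! Project RZ: two translates of a curve (piece K5). -/

set_option autoImplicit false

open Finset Polynomial

namespace Pool.Agent.Helper63.AZ

/-- RZ-K5.  PROOF.  `Φ`, `𝒱` from `exists_factor` (`𝒰` is not empty by `hbig`), `#𝒰 ≤ (A + B) #𝒱`.
For `f₃ ∈ F` let `d f₃ = #{f₁ : (f₁, f₃) ∈ 𝒱}`; `∑ d = #𝒱`, so by Cauchy - Schwarz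
`#𝒱 ^ 2 ≤ #F ∑ d ^ 2` (`Finset.inner_mul_le_norm_mul_norm` or `sq_sum_le_card_mul_sum_sq`), and
`∑ d ^ 2` is the number of triples `(f₁, f₂, f₃) ∈ F ^ 3` with `(f₁, f₃), (f₂, f₃) ∈ 𝒱`.  Suppose
the claim is false.  Every triple has `r f₁ = r f₂` (at most `#F * m * #F` triples: `f₃`, `f₁`, then
`f₂`), or `tw (r f₁) (e f₁) Φ`, `tw (r f₂) (e f₂) Φ` are not associated (`relation` at the point
`(r f₃, e f₃)`... use `Φ` and the zero `(r f₁ r f₃, e f₁ e f₃)` of `Φ`), and then `r f₃` is the first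
coordinate of a common zero `(r f₃, e f₃)` of these two irreducible polynomials, so it has at most
`2 A B + A` values (`few_common`) and `f₃` at most `(2 A B + A) m` values: at most
`#F ^ 2 (2 A B + A) m` triples.  So `#𝒰 ^ 2 ≤ (A + B) ^ 2 #F (#F ^ 2 m (1 + 2 A B + A))`. -/
theorem curve_pairs {ι : Type} [DecidableEq ι] (A B m : ℕ) (Ψ : Polynomial (Polynomial ℚ))
    (hΨ : Ψ ≠ 0) (hbi : Bi A B Ψ) (F : Finset ι) (r e : ι → ℚ) (hr : ∀ i ∈ F, r i ≠ 0)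
    (he : ∀ i ∈ F, e i ≠ 0) (𝒰 : Finset (ι × ι)) (h𝒰 : 𝒰 ⊆ F ×ˢ F)
    (hz : ∀ u ∈ 𝒰, evalEval (r u.1 * r u.2) (e u.1 * e u.2) Ψ = 0)
    (hm : ∀ x : ℚ, (F.filter (fun i => r i = x)).card ≤ m)
    (hbig : (A + B) ^ 2 * (1 + 2 * A * B + A) * m * F.card ^ 3 < 𝒰.card ^ 2) :
    ∃ f₁ ∈ F, ∃ f₂ ∈ F, ∃ f₃ ∈ F, (f₁, f₃) ∈ 𝒰 ∧ (f₂, f₃) ∈ 𝒰 ∧ r f₁ ≠ r f₂ ∧
      ∃ a b : ℤ, (a ≠ 0 ∨ b ≠ 0) ∧ |a| ≤ A ∧ |b| ≤ B ∧ (r f₁ / r f₂) ^ a * (e f₁ / e f₂) ^ b = 1 := by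
  classical
  by_contra hcon
  have hpos : 0 < 𝒰.card := by
    rcases Nat.eq_zero_or_pos 𝒰.card with h | h
    · rw [h] at hbig
      exact absurd hbig (by simp)
    · exact h
  obtain ⟨Φ, hirr, hΦbi, 𝒱, h𝒱, hcard, hzero⟩ := exists_factor A B Ψ hΨ hbi 𝒰
    (Finset.card_pos.1 hpos) (fun u => r u.1 * r u.2) (fun u => e u.1 * e u.2) hz
  have hF : ∀ u ∈ 𝒱, u.1 ∈ F ∧ u.2 ∈ F := fun u hu => Finset.mem_product.1 (h𝒰 (h𝒱 hu))
  -- one pair with different first coordinates has few companions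
  have hpair : ∀ f₁ ∈ F, ∀ f₂ ∈ F, r f₁ ≠ r f₂ →
      (F.filter fun f₃ => (f₁, f₃) ∈ 𝒱 ∧ (f₂, f₃) ∈ 𝒱).card ≤ m * (2 * A * B + A) := by
    intro f₁ h1 f₂ h2 h12
    rcases Finset.eq_empty_or_nonempty (F.filter fun f₃ => (f₁, f₃) ∈ 𝒱 ∧ (f₂, f₃) ∈ 𝒱) with
      hG | ⟨f₃, hf₃⟩
    · rw [hG, Finset.card_empty]
      exact Nat.zero_le _
    · have hna : ¬ Associated (tw (r f₁) (e f₁) Φ) (tw (r f₂) (e f₂) Φ) := by
        intro has
        obtain ⟨h3, h13, h23⟩ := Finset.mem_filter.1 hf₃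
        apply hcon
        refine ⟨f₁, h1, f₂, h2, f₃, h3, h𝒱 h13, h𝒱 h23, h12, ?_⟩
        exact relation A B Φ hirr.ne_zero hΦbi (r f₁ * r f₃) (e f₁ * e f₃)
          (mul_ne_zero (hr _ h1) (hr _ h3)) (mul_ne_zero (he _ h1) (he _ h3)) (hzero _ h13)
          (r f₁) (e f₁) (r f₂) (e f₂) (hr _ h1) (he _ h1) (hr _ h2) (he _ h2) has
      have hS := few_common (κ := ι) A B (tw (r f₁) (e f₁) Φ) (tw (r f₂) (e f₂) Φ)
        (tw_irreducible _ _ (hr _ h1) (he _ h1) hirr) (tw_irreducible _ _ (hr _ h2) (he _ h2) hirr)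
        (tw_bi _ _ hΦbi) (tw_bi _ _ hΦbi) hna
        ((F.filter fun f₃ => (f₁, f₃) ∈ 𝒱 ∧ (f₂, f₃) ∈ 𝒱).image r) (by
          intro x hx
          obtain ⟨f, hf, rfl⟩ := Finset.mem_image.1 hx
          obtain ⟨_, h13, h23⟩ := Finset.mem_filter.1 hf
          refine ⟨e f, ?_, ?_⟩
          · rw [tw_eval]
            exact hzero _ h13
          · rw [tw_eval]
            exact hzero _ h23)
      refine (Finset.card_le_mul_card_image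
        (F.filter fun f₃ => (f₁, f₃) ∈ 𝒱 ∧ (f₂, f₃) ∈ 𝒱) m (f := r) ?_).trans
        (Nat.mul_le_mul_left m hS)
      intro a _
      refine le_trans (Finset.card_le_card ?_) (hm a)
      intro i hi
      obtain ⟨hi1, hi2⟩ := Finset.mem_filter.1 hi
      exact Finset.mem_filter.2 ⟨(Finset.mem_filter.1 hi1).1, hi2⟩
  -- the degrees
  have hV : 𝒱.card = ∑ f₃ ∈ F, ∑ f₁ ∈ F, (if (f₁, f₃) ∈ 𝒱 then 1 else 0) := by
    rw [Finset.card_eq_sum_card_fiberwise (f := Prod.snd) (t := F) (fun u hu => (hF u hu).2)]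
    refine Finset.sum_congr rfl fun f₃ _ => ?_
    rw [← Finset.card_filter]
    refine Finset.card_bij (fun u _ => u.1) ?_ ?_ ?_
    · intro u hu
      obtain ⟨hu1, hu2⟩ := Finset.mem_filter.1 hu
      refine Finset.mem_filter.2 ⟨(hF u hu1).1, ?_⟩
      rw [← hu2]
      exact hu1
    · intro u hu v hv huv
      exact Prod.ext huv ((Finset.mem_filter.1 hu).2.trans (Finset.mem_filter.1 hv).2.symm)
    · intro f hf
      exact ⟨(f, f₃), Finset.mem_filter.2 ⟨(Finset.mem_filter.1 hf).2, rfl⟩, rfl⟩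
  have hCS : 𝒱.card ^ 2 ≤ F.card *
      ∑ f₃ ∈ F, (∑ f₁ ∈ F, (if (f₁, f₃) ∈ 𝒱 then 1 else 0)) ^ 2 := by
    rw [hV]
    exact sq_sum_le_card_mul_sum_sq
  have hsq : ∀ f₃ ∈ F, (∑ f₁ ∈ F, (if (f₁, f₃) ∈ 𝒱 then 1 else 0)) ^ 2 ≤
      ∑ f₁ ∈ F, ∑ f₂ ∈ F, ((if r f₂ = r f₁ then 1 else 0) +
        (if r f₁ ≠ r f₂ ∧ (f₁, f₃) ∈ 𝒱 ∧ (f₂, f₃) ∈ 𝒱 then 1 else 0)) := by
    intro f₃ _
    rw [sq, Finset.sum_mul_sum]
    refine Finset.sum_le_sum fun f₁ _ => Finset.sum_le_sum fun f₂ _ => ?_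
    by_cases h1 : (f₁, f₃) ∈ 𝒱
    · by_cases h2 : (f₂, f₃) ∈ 𝒱
      · by_cases h3 : r f₁ = r f₂
        · simp [h1, h2, h3]
        · simp [h1, h2, h3]
      · simp [h1, h2]
    · simp [h1]
  have hsum : ∑ f₃ ∈ F, (∑ f₁ ∈ F, (if (f₁, f₃) ∈ 𝒱 then 1 else 0)) ^ 2 ≤
      F.card ^ 2 * m * (1 + 2 * A * B + A) := by
    refine (Finset.sum_le_sum hsq).trans ?_
    simp only [Finset.sum_add_distrib]
    have g1 : ∑ f₃ ∈ F, ∑ f₁ ∈ F, ∑ f₂ ∈ F, (if r f₂ = r f₁ then 1 else 0) ≤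
        F.card * (F.card * m) := by
      refine (Finset.sum_le_card_nsmul F _ (F.card * m) fun f₃ _ => ?_).trans (by simp)
      refine (Finset.sum_le_card_nsmul F _ m fun f₁ _ => ?_).trans (by simp)
      rw [← Finset.card_filter]
      exact hm (r f₁)
    have g2 : ∑ f₃ ∈ F, ∑ f₁ ∈ F, ∑ f₂ ∈ F,
        (if r f₁ ≠ r f₂ ∧ (f₁, f₃) ∈ 𝒱 ∧ (f₂, f₃) ∈ 𝒱 then 1 else 0) ≤
        F.card * (F.card * (m * (2 * A * B + A))) := by
      rw [Finset.sum_comm]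
      refine (Finset.sum_le_card_nsmul F _ (F.card * (m * (2 * A * B + A)))
        fun f₁ h1 => ?_).trans (by simp)
      rw [Finset.sum_comm]
      refine (Finset.sum_le_card_nsmul F _ (m * (2 * A * B + A)) fun f₂ h2 => ?_).trans (by simp)
      rw [← Finset.card_filter]
      by_cases h12 : r f₁ = r f₂
      · rw [Finset.filter_false_of_mem (fun f₃ _ h => h.1 h12), Finset.card_empty]
        exact Nat.zero_le _
      · refine le_trans (Finset.card_le_card ?_) (hpair f₁ h1 f₂ h2 h12)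
        intro f hf
        obtain ⟨hf1, hf2⟩ := Finset.mem_filter.1 hf
        exact Finset.mem_filter.2 ⟨hf1, hf2.2⟩
    refine (Nat.add_le_add g1 g2).trans (le_of_eq ?_)
    ring
  have hfin : 𝒰.card ^ 2 ≤ (A + B) ^ 2 * (1 + 2 * A * B + A) * m * F.card ^ 3 := by
    calc 𝒰.card ^ 2 ≤ ((A + B) * 𝒱.card) ^ 2 := Nat.pow_le_pow_left hcard 2
      _ = (A + B) ^ 2 * 𝒱.card ^ 2 := by ring
      _ ≤ (A + B) ^ 2 * (F.card * (F.card ^ 2 * m * (1 + 2 * A * B + A))) :=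
          Nat.mul_le_mul_left _ (hCS.trans (Nat.mul_le_mul_left _ hsum))
      _ = (A + B) ^ 2 * (1 + 2 * A * B + A) * m * F.card ^ 3 := by ring
  exact absurd hbig (not_lt.2 hfin)

end Pool.Agent.Helper63.AZ
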