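import Mathlib

/-! Project RZ: splitting a family of coprime pairs (piece K1). -/

set_option autoImplicit false

open Finset

namespace Pool.Agent.Helper63.AZ

private lemma kpart_count (Q PX PY : Finset ℕ) (hd : Disjoint PX PY) (hX : PX ⊆ Q) (hY : PY ⊆ Q) :
    2 ^ Q.card ≤ 2 ^ (PX ∪ PY).card *
      (Q.powerset.filter (fun S => PX ⊆ S ∧ Disjoint PY S)).card := by
  have hsub : PX ∪ PY ⊆ Q := union_subset hX hY
  have h1 : (Q \ (PX ∪ PY)).powerset.card ≤
      (Q.powerset.filter (fun S => PX ⊆ S ∧ Disjoint PY S)).card := by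
    refine card_le_card_of_injOn (fun S => PX ∪ S) ?_ ?_
    · intro S hS
      have hS' : S ⊆ Q \ (PX ∪ PY) := mem_powerset.1 (mem_coe.1 hS)
      rw [mem_coe, mem_filter, mem_powerset]
      refine ⟨union_subset hX (hS'.trans sdiff_subset), subset_union_left, ?_⟩
      rw [disjoint_union_right]
      refine ⟨hd.symm, ?_⟩
      rw [Finset.disjoint_left]
      intro p hp hpS
      exact (mem_sdiff.1 (hS' hpS)).2 (mem_union_right _ hp)
    · intro S hS T hT hST
      have hS' : S ⊆ Q \ (PX ∪ PY) := mem_powerset.1 (mem_coe.1 hS)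
      have hT' : T ⊆ Q \ (PX ∪ PY) := mem_powerset.1 (mem_coe.1 hT)
      have key : ∀ U V : Finset ℕ, U ⊆ Q \ (PX ∪ PY) → PX ∪ U = PX ∪ V → U ⊆ V := by
        intro U V hU hUV p hp
        have h2 : p ∈ PX ∪ V := hUV ▸ mem_union_right _ hp
        rcases mem_union.1 h2 with h3 | h3
        · exact absurd (mem_union_left _ h3) (mem_sdiff.1 (hU hp)).2
        · exact h3
      exact Subset.antisymm (key S T hS' hST) (key T S hT' hST.symm)
  rw [card_powerset, card_sdiff_of_subset hsub] at h1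
  calc 2 ^ Q.card = 2 ^ (PX ∪ PY).card * 2 ^ (Q.card - (PX ∪ PY).card) := by
        rw [← pow_add, Nat.add_sub_cancel' (card_le_card hsub)]
    _ ≤ _ := Nat.mul_le_mul_left _ h1

/-- RZ-K1.  PROOF.  Let `𝒫` be the (finite) set of all primes dividing some `X i * Y i`, `i ∈ I`.
Count the pairs `(S, i)`, `S ⊆ 𝒫`, `i ∈ I`, with `(X i).primeFactors ⊆ S` and
`Disjoint (Y i).primeFactors S`.  For fixed `i` there are
`2 ^ (#𝒫 - #(X i * Y i).primeFactors) ≥ 2 ^ #𝒫 / 2 ^ W` such `S` (the two sets of prime factors are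
disjoint; `S = primes of X i ∪ S'`, `S' ⊆ 𝒫 \ primes of X i * Y i`).  So some `S` has at least
`#I / 2 ^ W` such `i`; they form `J`.  If `p ∣ X i`, `p ∣ Y j`, `i, j ∈ J`, then `p ∈ S` and
`p ∉ S`. -/
theorem part_trick {ι : Type} (I : Finset ι) (X Y : ι → ℕ) (W : ℕ)
    (h : ∀ i ∈ I, X i ≠ 0 ∧ Y i ≠ 0 ∧ (X i).Coprime (Y i) ∧ (X i * Y i).primeFactors.card ≤ W) :
    ∃ J ⊆ I, I.card ≤ 2 ^ W * J.card ∧ ∀ i ∈ J, ∀ j ∈ J, (X i).Coprime (Y j) := by
  classical
  set Q : Finset ℕ := I.biUnion (fun i => (X i * Y i).primeFactors) with hQ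
  let J : Finset ℕ → Finset ι := fun S =>
    I.filter (fun i => (X i).primeFactors ⊆ S ∧ Disjoint (Y i).primeFactors S)
  have hsum : ∑ S ∈ Q.powerset, (J S).card =
      ∑ i ∈ I, (Q.powerset.filter
        (fun S => (X i).primeFactors ⊆ S ∧ Disjoint (Y i).primeFactors S)).card := by
    simp only [J, card_filter]
    exact sum_comm
  have hi : ∀ i ∈ I, 2 ^ Q.card ≤ 2 ^ W * (Q.powerset.filter
      (fun S => (X i).primeFactors ⊆ S ∧ Disjoint (Y i).primeFactors S)).card := by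
    intro i hiI
    obtain ⟨h1, h2, h3, h4⟩ := h i hiI
    have h5 : (X i * Y i).primeFactors = (X i).primeFactors ∪ (Y i).primeFactors :=
      Nat.primeFactors_mul h1 h2
    have h6 : (X i * Y i).primeFactors ⊆ Q :=
      subset_biUnion_of_mem (fun i => (X i * Y i).primeFactors) hiI
    rw [h5] at h4 h6
    refine (kpart_count Q _ _ ((Nat.disjoint_primeFactors h1 h2).2 h3)
      (subset_union_left.trans h6) (subset_union_right.trans h6)).trans ?_
    exact Nat.mul_le_mul_right _ (Nat.pow_le_pow_right (by norm_num) h4)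
  have hle : ∑ _S ∈ Q.powerset, I.card ≤ ∑ S ∈ Q.powerset, 2 ^ W * (J S).card := by
    rw [sum_const, card_powerset, smul_eq_mul, ← mul_sum, hsum, mul_sum]
    calc 2 ^ Q.card * I.card = ∑ _i ∈ I, 2 ^ Q.card := by
          rw [sum_const, smul_eq_mul, mul_comm]
      _ ≤ _ := sum_le_sum hi
  obtain ⟨S, -, hS⟩ := exists_le_of_sum_le (powerset_nonempty Q) hle
  refine ⟨J S, filter_subset _ _, hS, ?_⟩
  intro i hiJ j hjJ
  obtain ⟨hi1, hi2, -⟩ := mem_filter.1 hiJ
  obtain ⟨hj1, -, hj2⟩ := mem_filter.1 hjJ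
  rw [← Nat.disjoint_primeFactors (h i hi1).1 (h j hj1).2.1]
  exact Finset.disjoint_of_subset_left hi2 hj2.symm

end Pool.Agent.Helper63.AZ
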