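import Mathlib
import Pool.Agent.Helper42.RO.A3
import Pool.Agent.Helper63.AZ.KPart
import Pool.Agent.Helper63.AZ.KP
import Pool.Agent.Helper63.AZ.KDetC
import Pool.Agent.Helper63.AZ.KPairs
import Pool.Agent.Helper63.AZ.KContra
import Pool.Agent.Helper63.AZ.KMult
import Pool.Agent.Helper63.AZ.KNum
import Pool.Agent.Helper63.AZ.KMem
import Pool.Agent.Helper94.Abc.Basic

/-! Project RZ: the key proposition (piece K8). -/

set_option autoImplicit false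

open Finset
open Pool.Agent.Helper42.RO

namespace Pool.Agent.Helper63.AZ

/-- The logarithm of a product. -/
private theorem kmain_log {ι : Type} (n : ℕ) (f : Fin n → ι) (X : ι → ℕ) (h : ℝ) (hpos : ∀ i, 0 < X (f i))
    (hl : ∀ i, Real.log (X (f i)) ≤ h) : Real.log ((∏ i, X (f i) : ℕ) : ℝ) ≤ n * h := by
  rw [Nat.cast_prod, Real.log_prod (fun i _ => by
    have := hpos i
    positivity)]
  calc ∑ i, Real.log (X (f i) : ℝ) ≤ ∑ _i : Fin n, h := sum_le_sum fun i _ => hl i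
    _ = n * h := by rw [sum_const, card_univ, Fintype.card_fin, nsmul_eq_mul]

/-- The relation for products. -/
private theorem kmain_rel {ι : Type} (D Q0 Q1 k : ℕ) (s : ℤ) (X Y U V : ι → ℕ) (n : ℕ) (f : Fin n → ι)
    (hr : ∀ i, ((X (f i) : ℤ) ^ k * V (f i) * Q0) ≡ s * ((Y (f i) : ℤ) ^ k * U (f i) * Q1) [ZMOD D]) :
    (((∏ i, X (f i) : ℕ) : ℤ) ^ k * ((∏ i, V (f i) : ℕ) : ℤ) * ((Q0 ^ n : ℕ) : ℤ)) ≡
      s ^ n * (((∏ i, Y (f i) : ℕ) : ℤ) ^ k * ((∏ i, U (f i) : ℕ) : ℤ) * ((Q1 ^ n : ℕ) : ℤ)) [ZMOD D] := by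
  rw [← ZMod.intCast_eq_intCast_iff]
  have h1 : ∀ i, ((X (f i) : ZMod D) ^ k * V (f i) * Q0) = (s : ZMod D) * ((Y (f i) : ZMod D) ^ k * U (f i) * Q1) := by
    intro i
    have h2 := (ZMod.intCast_eq_intCast_iff _ _ D).2 (hr i)
    push_cast at h2
    exact h2
  have h3 := Finset.prod_congr (rfl : (univ : Finset (Fin n)) = univ) fun i _ => h1 i
  simp only [prod_mul_distrib, prod_pow, prod_const, card_univ, Fintype.card_fin] at h3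
  push_cast
  exact h3

/-- Pigeonhole for the classes modulo `P`. -/
private theorem kmain_fibre {α : Type} [DecidableEq α] (F : Finset α) (P : ℕ) (hP : 0 < P) (x y : α → ℕ)
    (hy : ∀ f ∈ F, (y f).Coprime P) :
    ∃ 𝒰 ⊆ F ×ˢ F, F.card ^ 2 ≤ P * 𝒰.card ∧ ∀ u ∈ 𝒰, ∀ w ∈ 𝒰,
      ((x u.1 * x u.2 : ℕ) : ZMod P) * ((y w.1 * y w.2 : ℕ) : ZMod P) =
        ((x w.1 * x w.2 : ℕ) : ZMod P) * ((y u.1 * y u.2 : ℕ) : ZMod P) := by
  have : NeZero P := ⟨hP.ne'⟩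
  let κ : α × α → ZMod P := fun u => ((x u.1 * x u.2 : ℕ) : ZMod P) * ((y u.1 * y u.2 : ℕ) : ZMod P)⁻¹
  obtain ⟨c, hc⟩ : ∃ c : ZMod P, F.card ^ 2 ≤ P * ((F ×ˢ F).filter (fun u => κ u = c)).card := by
    by_contra hno
    push Not at hno
    have h1 : (F ×ˢ F).card = ∑ c : ZMod P, ((F ×ˢ F).filter (fun u => κ u = c)).card :=
      card_eq_sum_card_fiberwise fun _ _ => by simp
    have h2 : ∑ c : ZMod P, P * ((F ×ˢ F).filter (fun u => κ u = c)).card < ∑ _c : ZMod P, F.card ^ 2 :=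
      sum_lt_sum_of_nonempty ⟨0, mem_univ _⟩ fun c _ => hno c
    rw [← mul_sum, ← h1, sum_const, card_univ, ZMod.card, card_product, smul_eq_mul, sq] at h2
    exact lt_irrefl _ h2
  refine ⟨_, filter_subset _ _, hc, fun u hu w hw => ?_⟩
  rw [mem_filter, mem_product] at hu hw
  have hu1 : (y u.1 * y u.2).Coprime P := Nat.Coprime.mul_left (hy _ hu.1.1) (hy _ hu.1.2)
  have hw1 : (y w.1 * y w.2).Coprime P := Nat.Coprime.mul_left (hy _ hw.1.1) (hy _ hw.1.2)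
  have h3 : κ u = κ w := hu.2.trans hw.2.symm
  have h4 := ZMod.coe_mul_inv_eq_one _ hu1
  have h5 := ZMod.coe_mul_inv_eq_one _ hw1
  have h6 : κ u = ((x u.1 * x u.2 : ℕ) : ZMod P) * ((y u.1 * y u.2 : ℕ) : ZMod P)⁻¹ := rfl
  have h7 : κ w = ((x w.1 * x w.2 : ℕ) : ZMod P) * ((y w.1 * y w.2 : ℕ) : ZMod P)⁻¹ := rfl
  rw [h6, h7] at h3
  generalize ((x u.1 * x u.2 : ℕ) : ZMod P) = a at *
  generalize ((y u.1 * y u.2 : ℕ) : ZMod P) = b at *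
  generalize ((x w.1 * x w.2 : ℕ) : ZMod P) = a' at *
  generalize ((y w.1 * y w.2 : ℕ) : ZMod P) = b' at *
  calc a * b' = a * b' * (b * b⁻¹) := by rw [h4, mul_one]
    _ = (a * b⁻¹) * (b * b') := by ring
    _ = (a' * b'⁻¹) * (b * b') := by rw [h3]
    _ = a' * b * (b' * b'⁻¹) := by ring
    _ = a' * b := by rw [h5, mul_one]

/-- A large subfamily with coprime numerators and denominators. -/
private theorem kmain_split {ι : Type} (D Q0 Q1 k : ℕ) (s : ℤ) (Z : ℕ) (h τ : ℝ) (I : Finset ι)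
    (X Y U V : ι → ℕ) (hmem : ∀ i ∈ I, Mem D Q0 Q1 k s Z h τ (X i) (Y i) (U i) (V i)) (ν C : ℝ) (hν : 0 < ν)
    (hC1 : 1 ≤ C) (hC : ∀ m : ℕ, m ≠ 0 → (2 : ℝ) ^ m.primeFactors.card ≤ C * (m : ℝ) ^ (ν / 2)) (hZ1 : 1 ≤ Z)
    (hZ : C ≤ (Z : ℝ) ^ (ν / 2)) (hI : (Z : ℝ) ^ (2 * ν) < I.card) :
    ∃ J ⊆ I, (Z : ℝ) ^ ν ≤ J.card ∧ ∀ i ∈ J, ∀ j ∈ J, (X i).Coprime (Y j) := by
  have hZ0 : (0 : ℝ) < Z := by exact_mod_cast hZ1
  have hne : I.Nonempty := by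
    rw [← card_pos]
    have h1 : (0 : ℝ) < (I.card : ℝ) := lt_of_le_of_lt (Real.rpow_nonneg hZ0.le _) hI
    exact_mod_cast h1
  obtain ⟨i0, hi0, hmax⟩ := exists_max_image I (fun i => (X i * Y i).primeFactors.card) hne
  set W := (X i0 * Y i0).primeFactors.card with hW
  have h2W : (2 : ℝ) ^ W ≤ C * (Z : ℝ) ^ (ν / 2) := by
    have h1 := hC (rad (X i0 * Y i0)) (by
      rw [rad]
      exact (Finset.prod_pos fun p hp => (Nat.prime_of_mem_primeFactors hp).pos).ne')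
    rw [rad_primeFactors, ← hW] at h1
    refine h1.trans (mul_le_mul_of_nonneg_left ?_ (by linarith))
    exact Real.rpow_le_rpow (by positivity) (by exact_mod_cast (hmem i0 hi0).rad_le) (by positivity)
  obtain ⟨J, hJ, hcard, hcop⟩ := part_trick I X Y W fun i hi =>
    ⟨(hmem i hi).pos.1.ne', (hmem i hi).pos.2.1.ne', (hmem i hi).copXY, hmax i hi⟩
  refine ⟨J, hJ, ?_, hcop⟩
  have h3 : (I.card : ℝ) ≤ 2 ^ W * J.card := by exact_mod_cast hcard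
  have h4 : (Z : ℝ) ^ (2 * ν) ≤ ((Z : ℝ) ^ (ν / 2) * (Z : ℝ) ^ (ν / 2)) * J.card := by
    refine hI.le.trans (h3.trans (mul_le_mul_of_nonneg_right (h2W.trans ?_) (Nat.cast_nonneg _)))
    exact mul_le_mul_of_nonneg_right hZ (Real.rpow_nonneg hZ0.le _)
  rw [← Real.rpow_add hZ0, add_halves, two_mul, Real.rpow_add hZ0] at h4
  exact le_of_mul_le_mul_left h4 (Real.rpow_pos_of_pos hZ0 _)

/-- Large `Z`. -/
private theorem kmain_Z0 (ν C1 C2 : ℝ) (n : ℕ) (hν : 0 < ν) : ∃ Z2 : ℕ, ∀ Z : ℕ, Z2 ≤ Z →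
    C1 ≤ (Z : ℝ) ^ (ν / 2) ∧ C2 ^ (2 * n) ≤ (Z : ℝ) ^ ((1 : ℝ) / 2) := by
  have h1 := (tendsto_rpow_atTop (by positivity : 0 < ν / 2)).comp tendsto_natCast_atTop_atTop
  have h2 := (tendsto_rpow_atTop (by norm_num : (0 : ℝ) < 1 / 2)).comp tendsto_natCast_atTop_atTop
  obtain ⟨Z2, hZ2⟩ := Filter.eventually_atTop.1 ((h1.eventually_ge_atTop C1).and (h2.eventually_ge_atTop (C2 ^ (2 * n))))
  exact ⟨Z2, fun Z hZ => hZ2 Z hZ⟩

/-- The number of divisors. -/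
private theorem kmain_div (C2 H : ℝ) (n : ℕ) (hn : 1 ≤ n) (hH : 1 ≤ H) (hC2 : 1 ≤ C2)
    (hC : ∀ m : ℕ, m ≠ 0 → (m.divisors.card : ℝ) ≤ C2 * (m : ℝ) ^ (1 / (4 * (n : ℝ) ^ 2 * H))) (Z : ℕ) (hZ1 : 1 ≤ Z)
    (hZ : C2 ^ (2 * n) ≤ (Z : ℝ) ^ ((1 : ℝ) / 2)) :
    ∃ G : ℕ, (((G * G) ^ n : ℕ) : ℝ) ≤ Z ∧ ∀ m : ℕ, 0 < m → Real.log m ≤ n * (H * Real.log Z) →
      m.divisors.card ≤ G := by
  have hZ0 : (0 : ℝ) < Z := by exact_mod_cast hZ1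
  have hn0 : (0 : ℝ) < n := by exact_mod_cast hn
  refine ⟨⌊C2 * (Z : ℝ) ^ (1 / (4 * (n : ℝ)))⌋₊, ?_, fun m hm hl => ?_⟩
  · have h1 : ((⌊C2 * (Z : ℝ) ^ (1 / (4 * (n : ℝ)))⌋₊ : ℕ) : ℝ) ≤ C2 * (Z : ℝ) ^ (1 / (4 * (n : ℝ))) :=
      Nat.floor_le (by positivity)
    push_cast
    calc (((⌊C2 * (Z : ℝ) ^ (1 / (4 * (n : ℝ)))⌋₊ : ℕ) : ℝ) * (⌊C2 * (Z : ℝ) ^ (1 / (4 * (n : ℝ)))⌋₊ : ℕ)) ^ n
        ≤ ((C2 * (Z : ℝ) ^ (1 / (4 * (n : ℝ)))) * (C2 * (Z : ℝ) ^ (1 / (4 * (n : ℝ))))) ^ n :=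
          pow_le_pow_left₀ (by positivity) (mul_le_mul h1 h1 (by positivity) (by positivity)) n
      _ = C2 ^ (2 * n) * ((Z : ℝ) ^ (1 / (4 * (n : ℝ)))) ^ (2 * n) := by ring
      _ = C2 ^ (2 * n) * (Z : ℝ) ^ ((1 : ℝ) / 2) := by
          rw [← Real.rpow_natCast ((Z : ℝ) ^ (1 / (4 * (n : ℝ)))), ← Real.rpow_mul hZ0.le]
          congr 2
          push_cast
          field_simp
          norm_num
      _ ≤ (Z : ℝ) ^ ((1 : ℝ) / 2) * (Z : ℝ) ^ ((1 : ℝ) / 2) := mul_le_mul_of_nonneg_right hZ (by positivity)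
      _ = Z := by
          rw [← Real.rpow_add hZ0, add_halves, Real.rpow_one]
  · refine Nat.le_floor ((hC m hm.ne').trans (mul_le_mul_of_nonneg_left ?_ (by linarith)))
    have hm0 : (0 : ℝ) < m := by exact_mod_cast hm
    rw [Real.rpow_def_of_pos hm0, Real.rpow_def_of_pos hZ0]
    refine Real.exp_le_exp.2 ?_
    calc Real.log m * (1 / (4 * (n : ℝ) ^ 2 * H)) ≤ (n * (H * Real.log Z)) * (1 / (4 * (n : ℝ) ^ 2 * H)) :=
          mul_le_mul_of_nonneg_right hl (by positivity)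
      _ = Real.log Z * (1 / (4 * (n : ℝ))) := by
          field_simp

/-- RZ-K8.  The key proposition.  PROOF.  W.l.o.g. `μ ≤ 1`, `γ ≤ 1`.  `ν = μ / 2`, `n`, `c'` from
`kp_num`.  Suppose `#I > Z ^ μ`.  `part_trick` with `W` the maximal number of prime factors of
`X i * Y i` (`2 ^ W ≤ C Z ^ (μ / 4)` by `pow_omega` applied to `rad (X i * Y i)`) gives `I'` with
`M = #I' ≥ Z ^ ν` for `Z ≥ Z0`.  `A, B, Lp, J` from `kp_num` with `LD = log D`; `P` from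
`exists_P`.  `F = piFinset (fun _ : Fin n => I')`, `#F = M ^ n`; `x f = ∏ X (f i)`, etc., and the
products satisfy the relation with `Q0 ^ n`, `Q1 ^ n`, `s ^ n`.  The map
`(f', f'') ↦ x f' x f'' (y f' y f'')⁻¹ ∈ ZMod P` takes at most `P` values, so a fibre
`𝒰 ⊆ F × F` has `#𝒰 * P ≥ #F ^ 2`; fix an element of it for `x0, y0`.  `det_rel` (with `Pt = 𝒰`,
`h = 2 n H z`, `τ = 2 n c' lam / H`, `q0 = Q0 ^ (2 n)`, `s = (s ^ n) ^ 2`..., `P ^ T ∣ P ^ J ∣ D`)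
gives `Ψ`.  `curve_pairs` with `r f = x f / y f`, `e f = u f / v f`,
`m = (G * G) ^ n ≤ Z` where `G` bounds the number of divisors of the `x f`, `y f ≤ Z ^ (n H)`
(`Pool.Agent.Helper94.Abc.divisor_bound` with exponent `1 / (4 n ^ 2 H)`) and `tuple_mult`;
`hbig` from `kp_num` (`#F ≥ (Z ^ ν) ^ n`, `P ≤ exp (3 Lp)`, `#𝒰 ≥ #F ^ 2 / P`).  The output
contradicts `rel_contra` with `h = n H z` (the classes of `(f₁, f₃)`, `(f₂, f₃)` agree, so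
`x f₁ y f₂ ≡ x f₂ y f₁ mod P`). -/
theorem kp (γ μ : ℝ) (hγ : 0 < γ) (hμ : 0 < μ) : ∃ c' : ℝ, 0 < c' ∧ ∀ H : ℝ, 1 ≤ H →
    ∃ (A0 : ℝ) (Z0 : ℕ), 1 ≤ A0 ∧ 2 ≤ Z0 ∧ ∀ (Z : ℕ) (lam : ℝ), Z0 ≤ Z →
      A0 * Real.log Z ≤ lam → lam ≤ Z →
      ∀ (D Q0 Q1 k : ℕ) (s : ℤ), D ≠ 0 → rad D ≤ Z → γ * lam ≤ Real.log D → Q0.Coprime D →
      Q1.Coprime D → (s = 1 ∨ s = -1) → lam / Real.log Z ≤ 4 * H * k → (k : ℝ) ≤ lam →
      ∀ (ι : Type) (I : Finset ι) (X Y U V : ι → ℕ),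
        (∀ i ∈ I, Mem D Q0 Q1 k s Z (H * Real.log Z) (c' * lam / H) (X i) (Y i) (U i) (V i)) →
        Set.InjOn (fun i => (X i, Y i)) (I : Set ι) → (I.card : ℝ) ≤ (Z : ℝ) ^ μ := by
  classical
  have hγ1 : 0 < min γ 1 := lt_min hγ one_pos
  have hμ1 : 0 < min μ 1 := lt_min hμ one_pos
  obtain ⟨ν, hν⟩ : ∃ ν, ν = min μ 1 / 2 := ⟨_, rfl⟩
  have hν0 : 0 < ν := by
    rw [hν]
    exact half_pos hμ1
  have hν1 : ν ≤ 1 := by
    rw [hν]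
    have : min μ 1 ≤ 1 := min_le_right _ _
    linarith
  have h2ν : 2 * ν ≤ μ := by
    rw [hν]
    have : min μ 1 ≤ μ := min_le_left _ _
    linarith
  obtain ⟨n, c', hn, hc', hnum⟩ := kp_num (min γ 1) ν hγ1 (min_le_right _ _) hν0 hν1
  refine ⟨c', hc', fun H hH => ?_⟩
  obtain ⟨A0, Z1, hA0, hZ1, hnum⟩ := hnum H hH
  have hn0 : (0 : ℝ) < n := by exact_mod_cast hn
  obtain ⟨C1, hC1, hpow⟩ := pow_omega 2 (ν / 2) (by norm_num) (by positivity)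
  obtain ⟨C2, hC2, hdiv⟩ := Pool.Agent.Helper94.Abc.divisor_bound (ε := 1 / (4 * (n : ℝ) ^ 2 * H)) (by positivity)
  obtain ⟨Z2, hZ2⟩ := kmain_Z0 ν C1 C2 n hν0
  refine ⟨A0, max Z1 Z2, hA0, hZ1.trans (le_max_left _ _), ?_⟩
  intro Z lam hZ hlam hlamZ D Q0 Q1 k s hD hrD hγD hQ0 hQ1 hs hk hklam ι I X Y U V hmem hinj
  have hZZ1 : Z1 ≤ Z := (le_max_left _ _).trans hZ
  obtain ⟨hZC1, hZC2⟩ := hZ2 Z ((le_max_right _ _).trans hZ)
  have hZ2' : 2 ≤ Z := hZ1.trans hZZ1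
  have hZ1' : 1 ≤ Z := by omega
  have hZr : (1 : ℝ) ≤ Z := by exact_mod_cast hZ1'
  have hz : 0 < Real.log Z := Real.log_pos (by exact_mod_cast (by omega : 1 < Z))
  by_contra hcon
  push Not at hcon
  have hI : (Z : ℝ) ^ (2 * ν) < I.card :=
    lt_of_le_of_lt (Real.rpow_le_rpow_of_exponent_le hZr h2ν) hcon
  obtain ⟨I', hI'I, hI'card, hI'cop⟩ := kmain_split D Q0 Q1 k s Z _ _ I X Y U V hmem ν C1 hν0 hC1 hpow hZ1' hZC1 hI
  obtain ⟨G, hG, hGd⟩ := kmain_div C2 H n hn hH hC2 hdiv Z hZ1' hZC2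
  obtain ⟨A, B, Lp, hLp3, hLp0, hAk, hbig, hJ⟩ := hnum Z lam hZZ1 hlam hlamZ
  have hlam0 : 0 ≤ lam := by
    have : 0 ≤ A0 * Real.log Z := by positivity
    linarith
  have hγD' : min γ 1 * lam ≤ Real.log D :=
    (mul_le_mul_of_nonneg_right (min_le_left _ _) hlam0).trans hγD
  obtain ⟨J, hJ2, hJ1, hJ3, hABJ, hdet, hrc⟩ := hJ (Real.log D) hγD'
  obtain ⟨P, hPD, hp2, hP1, hP3⟩ := exists_P D Z J hD hZ1' hrD Lp hLp3 hLp0 hJ2 hJ1 hJ3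
  have hPlog : 0 < Real.log P := hLp0.trans_le hP1
  have hPgt : 1 < P := by
    by_contra h1
    have h2 : P = 0 ∨ P = 1 := by omega
    rcases h2 with rfl | rfl
    · rw [Nat.cast_zero, Real.log_zero] at hPlog
      exact lt_irrefl _ hPlog
    · rw [Nat.cast_one, Real.log_one] at hPlog
      exact lt_irrefl _ hPlog
  have hPdvd : P ∣ D := (dvd_pow_self P (by omega)).trans hPD
  have hAk' : A < k := hAk k hk
  have hk1 : 1 ≤ k := by omega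
  -- the tuples
  have hmem' : ∀ i ∈ I', Mem D Q0 Q1 k s Z (H * Real.log Z) (c' * lam / H) (X i) (Y i) (U i) (V i) :=
    fun i hi => hmem i (hI'I hi)
  obtain ⟨F, hF⟩ : ∃ F : Finset (Fin n → ι), F = Fintype.piFinset (fun _ : Fin n => I') := ⟨_, rfl⟩
  have hFmem : ∀ f ∈ F, ∀ i, f i ∈ I' := fun f hf i => by
    rw [hF, Fintype.mem_piFinset] at hf
    exact hf i
  have hFcard : (F.card : ℝ) = (I'.card : ℝ) ^ n := by
    rw [hF, Fintype.card_piFinset, prod_const, card_univ, Fintype.card_fin]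
    push_cast
    rfl
  obtain ⟨x, hx⟩ : ∃ x : (Fin n → ι) → ℕ, ∀ f, x f = ∏ i, X (f i) := ⟨_, fun _ => rfl⟩
  obtain ⟨y, hy⟩ : ∃ y : (Fin n → ι) → ℕ, ∀ f, y f = ∏ i, Y (f i) := ⟨_, fun _ => rfl⟩
  obtain ⟨u, hu⟩ : ∃ u : (Fin n → ι) → ℕ, ∀ f, u f = ∏ i, U (f i) := ⟨_, fun _ => rfl⟩
  obtain ⟨v, hv⟩ : ∃ v : (Fin n → ι) → ℕ, ∀ f, v f = ∏ i, V (f i) := ⟨_, fun _ => rfl⟩
  have px : ∀ f ∈ F, 0 < x f := fun f hf => by
    rw [hx]
    exact prod_pos fun i _ => (hmem' _ (hFmem f hf i)).pos.1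
  have py : ∀ f ∈ F, 0 < y f := fun f hf => by
    rw [hy]
    exact prod_pos fun i _ => (hmem' _ (hFmem f hf i)).pos.2.1
  have pu : ∀ f ∈ F, 0 < u f := fun f hf => by
    rw [hu]
    exact prod_pos fun i _ => (hmem' _ (hFmem f hf i)).pos.2.2.1
  have pv : ∀ f ∈ F, 0 < v f := fun f hf => by
    rw [hv]
    exact prod_pos fun i _ => (hmem' _ (hFmem f hf i)).pos.2.2.2
  have cx : ∀ f ∈ F, (x f).Coprime D := fun f hf => by
    rw [hx]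
    exact Nat.Coprime.prod_left fun i _ => (hmem' _ (hFmem f hf i)).copD.1
  have cy : ∀ f ∈ F, (y f).Coprime D := fun f hf => by
    rw [hy]
    exact Nat.Coprime.prod_left fun i _ => (hmem' _ (hFmem f hf i)).copD.2.1
  have cu : ∀ f ∈ F, (u f).Coprime D := fun f hf => by
    rw [hu]
    exact Nat.Coprime.prod_left fun i _ => (hmem' _ (hFmem f hf i)).copD.2.2.1
  have cv : ∀ f ∈ F, (v f).Coprime D := fun f hf => by
    rw [hv]
    exact Nat.Coprime.prod_left fun i _ => (hmem' _ (hFmem f hf i)).copD.2.2.2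
  have lx : ∀ f ∈ F, Real.log (x f) ≤ n * (H * Real.log Z) := fun f hf => by
    rw [hx]
    exact kmain_log n f X _ (fun i => (hmem' _ (hFmem f hf i)).pos.1) fun i => (hmem' _ (hFmem f hf i)).logXY.1
  have ly : ∀ f ∈ F, Real.log (y f) ≤ n * (H * Real.log Z) := fun f hf => by
    rw [hy]
    exact kmain_log n f Y _ (fun i => (hmem' _ (hFmem f hf i)).pos.2.1) fun i => (hmem' _ (hFmem f hf i)).logXY.2
  have lu : ∀ f ∈ F, Real.log (u f) ≤ n * (c' * lam / H) := fun f hf => by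
    rw [hu]
    exact kmain_log n f U _ (fun i => (hmem' _ (hFmem f hf i)).pos.2.2.1) fun i => (hmem' _ (hFmem f hf i)).logUV.1
  have lv : ∀ f ∈ F, Real.log (v f) ≤ n * (c' * lam / H) := fun f hf => by
    rw [hv]
    exact kmain_log n f V _ (fun i => (hmem' _ (hFmem f hf i)).pos.2.2.2) fun i => (hmem' _ (hFmem f hf i)).logUV.2
  have rf : ∀ f ∈ F, (((x f : ℕ) : ℤ) ^ k * ((v f : ℕ) : ℤ) * ((Q0 ^ n : ℕ) : ℤ)) ≡
      s ^ n * (((y f : ℕ) : ℤ) ^ k * ((u f : ℕ) : ℤ) * ((Q1 ^ n : ℕ) : ℤ)) [ZMOD D] := fun f hf => by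
    rw [hx, hy, hu, hv]
    exact kmain_rel D Q0 Q1 k s X Y U V n f fun i => (hmem' _ (hFmem f hf i)).rel
  have hsn : s ^ n = 1 ∨ s ^ n = -1 := by
    rcases hs with rfl | rfl
    · left
      exact one_pow n
    · exact neg_one_pow_eq_or ℤ n
  -- the classes
  obtain ⟨𝒰, h𝒰F, h𝒰card, h𝒰cl⟩ := kmain_fibre F P (by omega) x y fun f hf => (cy f hf).coprime_dvd_right hPdvd
  have hZν : (1 : ℝ) ≤ (Z : ℝ) ^ ν := Real.one_le_rpow hZr hν0.le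
  have hI'1 : (1 : ℝ) ≤ I'.card := hZν.trans hI'card
  have hF1 : (1 : ℝ) ≤ F.card := by
    rw [hFcard]
    exact one_le_pow₀ hI'1
  have h𝒰1 : 𝒰.Nonempty := by
    rw [← card_pos]
    by_contra h0
    have h1 : 𝒰.card = 0 := by omega
    rw [h1, mul_zero] at h𝒰card
    have h2 : 1 ≤ F.card := by exact_mod_cast hF1
    have h3 : 1 ≤ F.card ^ 2 := Nat.one_le_pow _ _ h2
    omega
  obtain ⟨w0, hw0⟩ := h𝒰1
  have hUF : ∀ w ∈ 𝒰, w.1 ∈ F ∧ w.2 ∈ F := fun w hw => by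
    have := h𝒰F hw
    rwa [mem_product] at this
  have hw0F := hUF w0 hw0
  -- the polynomial
  obtain ⟨Ψ, hΨ0, hΨB, hΨA, hΨz⟩ := det_rel (Pt := {w // w ∈ 𝒰}) P D k A B hPgt
    ((pow_dvd_pow P hABJ).trans hPD) (fun w => x w.1.1 * x w.1.2) (fun w => y w.1.1 * y w.1.2)
    (fun w => u w.1.1 * u w.1.2) (fun w => v w.1.1 * v w.1.2) (Q0 ^ n * Q0 ^ n) (Q1 ^ n * Q1 ^ n) 1 (Or.inl rfl)
    (fun w => ⟨Nat.mul_pos (px _ (hUF _ w.2).1) (px _ (hUF _ w.2).2), Nat.mul_pos (py _ (hUF _ w.2).1) (py _ (hUF _ w.2).2),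
      Nat.mul_pos (pu _ (hUF _ w.2).1) (pu _ (hUF _ w.2).2), Nat.mul_pos (pv _ (hUF _ w.2).1) (pv _ (hUF _ w.2).2)⟩)
    (fun w => ⟨Nat.Coprime.mul_left (cx _ (hUF _ w.2).1) (cx _ (hUF _ w.2).2),
      Nat.Coprime.mul_left (cy _ (hUF _ w.2).1) (cy _ (hUF _ w.2).2),
      Nat.Coprime.mul_left (cu _ (hUF _ w.2).1) (cu _ (hUF _ w.2).2),
      Nat.Coprime.mul_left (cv _ (hUF _ w.2).1) (cv _ (hUF _ w.2).2)⟩)
    ⟨Nat.Coprime.mul_left (hQ0.pow_left n) (hQ0.pow_left n), Nat.Coprime.mul_left (hQ1.pow_left n) (hQ1.pow_left n)⟩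
    (fun w => by
      have h1 := (rf _ (hUF _ w.2).1).mul (rf _ (hUF _ w.2).2)
      have h2 : s ^ n * s ^ n = 1 := by
        rcases hsn with h | h
        · rw [h, one_mul]
        · rw [h]
          norm_num
      have e1 : (((x w.1.1 * x w.1.2 : ℕ) : ℤ) ^ k * ((v w.1.1 * v w.1.2 : ℕ) : ℤ) * ((Q0 ^ n * Q0 ^ n : ℕ) : ℤ)) =
          (((x w.1.1 : ℕ) : ℤ) ^ k * ((v w.1.1 : ℕ) : ℤ) * ((Q0 ^ n : ℕ) : ℤ)) *
          (((x w.1.2 : ℕ) : ℤ) ^ k * ((v w.1.2 : ℕ) : ℤ) * ((Q0 ^ n : ℕ) : ℤ)) := by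
        push_cast
        ring
      have e2 : (1 : ℤ) * (((y w.1.1 * y w.1.2 : ℕ) : ℤ) ^ k * ((u w.1.1 * u w.1.2 : ℕ) : ℤ) *
            ((Q1 ^ n * Q1 ^ n : ℕ) : ℤ)) =
          (s ^ n * (((y w.1.1 : ℕ) : ℤ) ^ k * ((u w.1.1 : ℕ) : ℤ) * ((Q1 ^ n : ℕ) : ℤ))) *
          (s ^ n * (((y w.1.2 : ℕ) : ℤ) ^ k * ((u w.1.2 : ℕ) : ℤ) * ((Q1 ^ n : ℕ) : ℤ))) := by
        rw [← h2]
        push_cast
        ring
      rw [e1, e2]
      exact h1)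
    (x w0.1 * x w0.2) (y w0.1 * y w0.2)
    ⟨(Nat.Coprime.mul_left (cx _ hw0F.1) (cx _ hw0F.2)).coprime_dvd_right hPdvd,
      (Nat.Coprime.mul_left (cy _ hw0F.1) (cy _ hw0F.2)).coprime_dvd_right hPdvd⟩
    (fun w => by
      rw [← ZMod.intCast_eq_intCast_iff]
      have h1 := h𝒰cl w.1 w.2 w0 hw0
      push_cast at h1 ⊢
      exact h1)
    (2 * n * H * Real.log Z) (2 * n * (c' * lam / H)) (by positivity) (by positivity)
    (fun w => by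
      have q1 : (0 : ℝ) < x w.1.1 := by exact_mod_cast px _ (hUF _ w.2).1
      have q2 : (0 : ℝ) < x w.1.2 := by exact_mod_cast px _ (hUF _ w.2).2
      have q3 : (0 : ℝ) < y w.1.1 := by exact_mod_cast py _ (hUF _ w.2).1
      have q4 : (0 : ℝ) < y w.1.2 := by exact_mod_cast py _ (hUF _ w.2).2
      have q5 : (0 : ℝ) < u w.1.1 := by exact_mod_cast pu _ (hUF _ w.2).1
      have q6 : (0 : ℝ) < u w.1.2 := by exact_mod_cast pu _ (hUF _ w.2).2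
      have q7 : (0 : ℝ) < v w.1.1 := by exact_mod_cast pv _ (hUF _ w.2).1
      have q8 : (0 : ℝ) < v w.1.2 := by exact_mod_cast pv _ (hUF _ w.2).2
      push_cast
      rw [Real.log_mul q1.ne' q2.ne', Real.log_mul q3.ne' q4.ne', Real.log_mul q5.ne' q6.ne',
        Real.log_mul q7.ne' q8.ne']
      have l1 := lx _ (hUF _ w.2).1
      have l2 := lx _ (hUF _ w.2).2
      have l3 := ly _ (hUF _ w.2).1
      have l4 := ly _ (hUF _ w.2).2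
      have l5 := lu _ (hUF _ w.2).1
      have l6 := lu _ (hUF _ w.2).2
      have l7 := lv _ (hUF _ w.2).1
      have l8 := lv _ (hUF _ w.2).2
      refine ⟨?_, ?_, ?_, ?_⟩ <;> linarith)
    (hdet (Real.log P) hP1)
  -- the pairs
  have hexp : (P : ℝ) ≤ Real.exp (3 * Lp) := by
    rw [← Real.log_le_iff_le_exp (by exact_mod_cast (by omega : 0 < P))]
    exact hP3
  have hbigN : (A + B) ^ 2 * (1 + 2 * A * B + A) * (G * G) ^ n * F.card ^ 3 < 𝒰.card ^ 2 := by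
    have hU2 : (F.card : ℝ) ^ 2 ≤ Real.exp (3 * Lp) * 𝒰.card := by
      have h1 : ((F.card ^ 2 : ℕ) : ℝ) ≤ ((P * 𝒰.card : ℕ) : ℝ) := by exact_mod_cast h𝒰card
      push_cast at h1
      exact h1.trans (mul_le_mul_of_nonneg_right hexp (Nat.cast_nonneg _))
    have hFZ : ((Z : ℝ) ^ ν) ^ n ≤ F.card := by
      rw [hFcard]
      exact pow_le_pow_left₀ (by positivity) hI'card n
    have hF3 : (0 : ℝ) < (F.card : ℝ) ^ 3 := by positivity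
    have hE0 : 0 < Real.exp (3 * Lp) := Real.exp_pos _
    have h2 : ((A : ℝ) + B) ^ 2 * (1 + 2 * A * B + A) * (((G * G) ^ n : ℕ) : ℝ) * (F.card : ℝ) ^ 3 *
        Real.exp (3 * Lp) ^ 2 < (𝒰.card : ℝ) ^ 2 * Real.exp (3 * Lp) ^ 2 := by
      calc ((A : ℝ) + B) ^ 2 * (1 + 2 * A * B + A) * (((G * G) ^ n : ℕ) : ℝ) * (F.card : ℝ) ^ 3 *
            Real.exp (3 * Lp) ^ 2
          ≤ ((A : ℝ) + B) ^ 2 * (1 + 2 * A * B + A) * Z * (F.card : ℝ) ^ 3 * Real.exp (3 * Lp) ^ 2 := by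
            refine mul_le_mul_of_nonneg_right (mul_le_mul_of_nonneg_right
              (mul_le_mul_of_nonneg_left hG (by positivity)) hF3.le) (by positivity)
        _ = (((A : ℝ) + B) ^ 2 * (1 + 2 * A * B + A) * Z * Real.exp (3 * Lp) ^ 2) * (F.card : ℝ) ^ 3 := by ring
        _ < ((Z : ℝ) ^ ν) ^ n * (F.card : ℝ) ^ 3 := mul_lt_mul_of_pos_right hbig hF3
        _ ≤ F.card * (F.card : ℝ) ^ 3 := mul_le_mul_of_nonneg_right hFZ hF3.le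
        _ = ((F.card : ℝ) ^ 2) ^ 2 := by ring
        _ ≤ (Real.exp (3 * Lp) * 𝒰.card) ^ 2 := pow_le_pow_left₀ (by positivity) hU2 2
        _ = (𝒰.card : ℝ) ^ 2 * Real.exp (3 * Lp) ^ 2 := by ring
    have h3 := lt_of_mul_lt_mul_right h2 (by positivity)
    exact_mod_cast h3
  obtain ⟨f₁, hf₁, f₂, hf₂, f₃, hf₃, h13, h23, hrne, a, b, hab, ha, hb, hone⟩ :=
    curve_pairs A B ((G * G) ^ n) Ψ hΨ0 ⟨hΨB, hΨA⟩ F (fun f => (x f : ℚ) / y f) (fun f => (u f : ℚ) / v f)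
    (fun f hf => div_ne_zero (by exact_mod_cast (px f hf).ne') (by exact_mod_cast (py f hf).ne'))
    (fun f hf => div_ne_zero (by exact_mod_cast (pu f hf).ne') (by exact_mod_cast (pv f hf).ne'))
    𝒰 h𝒰F (fun w hw => by
      have h1 := hΨz ⟨w, hw⟩
      push_cast at h1
      rw [mul_div_mul_comm, mul_div_mul_comm] at h1
      exact h1)
    (fun q => by
      have h1 := tuple_mult n I' X Y (fun i hi => ⟨(hmem' i hi).pos.1, (hmem' i hi).pos.2.1⟩) hI'cop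
        (fun i hi j hj hij => hinj (hI'I hi) (hI'I hj) hij) G (fun f hf => by
          rw [← hF] at hf
          refine ⟨?_, ?_⟩
          · have h2 := hGd (x f) (px f hf) (lx f hf)
            rwa [hx] at h2
          · have h2 := hGd (y f) (py f hf) (ly f hf)
            rwa [hy] at h2) q
      rw [← hF] at h1
      refine le_trans (card_le_card fun f hf => ?_) h1
      rw [mem_filter] at hf ⊢
      refine ⟨hf.1, ?_⟩
      rw [← hx, ← hy]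
      exact hf.2) hbigN
  -- the contradiction
  have hne : x f₁ * y f₂ ≠ x f₂ * y f₁ := by
    intro h1
    apply hrne
    have q1 : (y f₁ : ℚ) ≠ 0 := by exact_mod_cast (py f₁ hf₁).ne'
    have q2 : (y f₂ : ℚ) ≠ 0 := by exact_mod_cast (py f₂ hf₂).ne'
    show (x f₁ : ℚ) / y f₁ = (x f₂ : ℚ) / y f₂
    rw [div_eq_div_iff q1 q2]
    exact_mod_cast h1
  have hcl : ((x f₁ : ℤ) * y f₂) ≡ (x f₂ : ℤ) * y f₁ [ZMOD P] := by
    have h1 := h𝒰cl _ h13 _ h23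
    rw [← ZMod.intCast_eq_intCast_iff]
    have e3 := ZMod.coe_mul_inv_eq_one (x f₃) ((cx f₃ hf₃).coprime_dvd_right hPdvd)
    have e4 := ZMod.coe_mul_inv_eq_one (y f₃) ((cy f₃ hf₃).coprime_dvd_right hPdvd)
    push_cast at h1 ⊢
    generalize (x f₁ : ZMod P) = a1 at *
    generalize (x f₂ : ZMod P) = a2 at *
    generalize (x f₃ : ZMod P) = a3 at *
    generalize (y f₁ : ZMod P) = b1 at *
    generalize (y f₂ : ZMod P) = b2 at *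
    generalize (y f₃ : ZMod P) = b3 at *
    calc a1 * b2 = a1 * b2 * (a3 * a3⁻¹) * (b3 * b3⁻¹) := by rw [e3, e4, mul_one, mul_one]
      _ = (a1 * a3 * (b2 * b3)) * (a3⁻¹ * b3⁻¹) := by ring
      _ = (a2 * a3 * (b1 * b3)) * (a3⁻¹ * b3⁻¹) := by rw [h1]
      _ = a2 * b1 * (a3 * a3⁻¹) * (b3 * b3⁻¹) := by ring
      _ = a2 * b1 := by rw [e3, e4, mul_one, mul_one]
  have hfin := rel_contra P D k A B J hPD hD hp2 (x f₁) (y f₁) (u f₁) (v f₁) (x f₂) (y f₂) (u f₂) (v f₂)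
    (Q0 ^ n) (Q1 ^ n) (s ^ n) hsn
    ⟨px _ hf₁, py _ hf₁, pu _ hf₁, pv _ hf₁, px _ hf₂, py _ hf₂, pu _ hf₂, pv _ hf₂⟩
    ⟨cx _ hf₁, cy _ hf₁, cu _ hf₁, cv _ hf₁⟩ ⟨cx _ hf₂, cy _ hf₂, cu _ hf₂, cv _ hf₂⟩
    ⟨hQ0.pow_left n, hQ1.pow_left n⟩ (rf _ hf₁) (rf _ hf₂) hcl hne a b hab ha hb hAk' hone
    (n * (H * Real.log Z)) (lx _ hf₁) (ly _ hf₁) (lx _ hf₂) (ly _ hf₂)
  have hrc' := hrc k hk1 hklam
  have hJP : (J : ℝ) * Lp ≤ J * Real.log P := mul_le_mul_of_nonneg_left hP1 (Nat.cast_nonneg _)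
  have e5 : 2 * ((n : ℝ) * H * Real.log Z) = 2 * (n * (H * Real.log Z)) := by ring
  rw [e5] at hrc'
  linarith

end Pool.Agent.Helper63.AZ
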