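import Mathlib
import Pool.Agent.Helper63.AZ.CMem
import Pool.Agent.Helper63.AZ.KMain

/-! Project RZ: few pairs `(X, Y)` in a cell (piece C3). -/

set_option autoImplicit false

open Finset
open Pool.Agent.Helper42.RO Pool.Agent.Helper44.RO2

namespace Pool.Agent.Helper63.AZ

/-- RZ-C3.  PROOF.  `c₁` from `kp (γ / 4) μ`, `c' = min (c₁ / 8) (γ / 4)`.  For `H` take `A0`, `Z0`
from `kp` (times 2).  In the cell put `lam = ℓ`, `D = QQ m vs as f`, `Q0 = QQ .. e`, `Q1 = QQ .. g`,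
`s = sg f` (nothing to prove for `S = ∅`).  `mem_of` with `τ = θ = c' / H`:
`2 c' / H * log (c t) ≤ 2 c' / H * (ℓ + 1) ≤ 4 c' ℓ / H ≤ c₁ ℓ / H`.
`log_QQ_ge`: `(γ - θ) log c ≥ (γ / 4) ℓ`.  Let `I = S.image (fun t => (XX f e m (w t) t,
XX f g m (w t) t)) : Finset (ℕ × ℕ)` and choose `U, V` for a preimage of each pair; apply `kp` with
`ι = ℕ × ℕ`, `X = Prod.fst`, `Y = Prod.snd`. -/
theorem pairs_count (γ μ : ℝ) (hγ : 0 < γ) (hγ1 : γ ≤ 1) (hμ : 0 < μ) : ∃ c' : ℝ, 0 < c' ∧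
    c' ≤ γ / 4 ∧ ∀ H : ℝ, 1 ≤ H → ∃ (A0 : ℝ) (Z0 : ℕ), 1 ≤ A0 ∧ 2 ≤ Z0 ∧
    ∀ (Z m k ℓ : ℕ) (f e g : Fin 3), Z0 ≤ Z → f ≠ e → g ≠ f → g ≠ e → A0 * Real.log Z ≤ ℓ →
      ℓ ≤ Z → k ≤ ℓ → ∀ (vs : ℕ → ℕ) (as : ℕ → Fin 3) (S : Finset (ℕ × ℕ)) (w : ℕ × ℕ → ℕ → ℕ),
      (∀ t ∈ S, Cop t ∧ rad (T t) ≤ Z ∧ (ℓ : ℝ) ≤ Real.log (c t) ∧ Real.log (c t) < ℓ + 1 ∧
        m ∣ rad (T t) ∧ Real.log (c t) / Real.log Z ≤ 4 * H * k ∧
        TyW Z γ H (c' / H) k m f (w t) t ∧ InCell (c' / H) m vs as t) →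
      ((S.image (fun t => (XX f e m (w t) t, XX f g m (w t) t))).card : ℝ) ≤ (Z : ℝ) ^ μ := by
  classical
  obtain ⟨c₁, hc₁, hkp⟩ := kp (γ / 4) μ (by linarith) hμ
  refine ⟨min (c₁ / 8) (γ / 4), lt_min (by linarith) (by linarith), min_le_right _ _, ?_⟩
  set c' : ℝ := min (c₁ / 8) (γ / 4) with hc'
  have hc'0 : 0 < c' := lt_min (by linarith) (by linarith)
  have hc'1 : c' ≤ c₁ / 8 := min_le_left _ _
  have hc'2 : c' ≤ γ / 4 := min_le_right _ _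
  intro H hH
  obtain ⟨A0, Z0, hA0, hZ0, hk⟩ := hkp H hH
  refine ⟨A0, Z0, hA0, hZ0, ?_⟩
  intro Z m k ℓ f e g hZ h1 h2 h3 hℓ hℓZ hkℓ vs as S w hS
  have hZ2 : 2 ≤ Z := le_trans hZ0 hZ
  have hZr : (2 : ℝ) ≤ (Z : ℝ) := by exact_mod_cast hZ2
  have hlogZ : 0 < Real.log Z := Real.log_pos (by linarith)
  have hH0 : 0 < H := by linarith
  have hℓ0 : 0 < (ℓ : ℝ) := lt_of_lt_of_le (by positivity) hℓ
  have hℓ1 : (1 : ℝ) ≤ (ℓ : ℝ) := by
    have : 0 < ℓ := by exact_mod_cast hℓ0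
    exact_mod_cast this
  rcases S.eq_empty_or_nonempty with hE | ⟨t0, ht0⟩
  · subst hE
    simp only [Finset.image_empty, Finset.card_empty, Nat.cast_zero]
    positivity
  -- facts from one element of `S`
  obtain ⟨hcop0, hrad0, hlc0, hlc0', hm0, hk0, hty0, hcell0⟩ := hS t0 ht0
  have hfe : e ≠ f := Ne.symm h1
  obtain ⟨hD, hradD, hco0⟩ := QQ_facts t0 hcop0 hfe Z m hrad0 hm0 vs as (c' / H) hcell0
  obtain ⟨-, -, hco1⟩ := QQ_facts t0 hcop0 h2 Z m hrad0 hm0 vs as (c' / H) hcell0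
  have hlogD : γ / 4 * (ℓ : ℝ) ≤ Real.log (QQ m vs as f) := by
    have h := log_QQ_ge t0 hcop0 f m hm0 γ (c' / H) hty0.1 vs as hcell0
    have h4 : c' / H ≤ γ / 4 := by
      refine le_trans (div_le_self hc'0.le hH) hc'2
    have h5 : γ / 4 ≤ γ - c' / H := by linarith
    calc γ / 4 * (ℓ : ℝ) ≤ (γ - c' / H) * Real.log (c t0) := by
          apply mul_le_mul h5 hlc0 hℓ0.le
          linarith
      _ ≤ _ := h
  have hsg : sg f = 1 ∨ sg f = -1 := by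
    unfold sg
    split_ifs
    · exact Or.inr rfl
    · exact Or.inl rfl
  have hkH : (ℓ : ℝ) / Real.log Z ≤ 4 * H * k :=
    le_trans (div_le_div_of_nonneg_right hlc0 hlogZ.le) hk0
  -- the members
  have hmem : ∀ i ∈ S.image (fun t => (XX f e m (w t) t, XX f g m (w t) t)), ∃ U V : ℕ,
      Mem (QQ m vs as f) (QQ m vs as e) (QQ m vs as g) k (sg f) Z (H * Real.log Z)
        (c₁ * (ℓ : ℝ) / H) i.1 i.2 U V := by
    intro i hi
    obtain ⟨t, ht, rfl⟩ := Finset.mem_image.1 hi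
    obtain ⟨hcop, hrad, hlc, hlc', hm, hk', hty, hcell⟩ := hS t ht
    obtain ⟨U, V, hM⟩ := mem_of t hcop h1 h2 h3 Z m k γ H (c' / H) (c' / H) hrad hm (w t) hty vs as
      hcell
    refine ⟨U, V, ⟨hM.pos, hM.copD, hM.copXY, hM.rad_le, hM.logXY, ?_, hM.rel⟩⟩
    have hle : (c' / H + c' / H) * Real.log (c t) ≤ c₁ * (ℓ : ℝ) / H := by
      have e1 : (c' / H + c' / H) * Real.log (c t) = (2 * c' * Real.log (c t)) / H := by ring
      rw [e1]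
      apply div_le_div_of_nonneg_right _ hH0.le
      have h6 : Real.log (c t) ≤ 2 * (ℓ : ℝ) := by linarith
      calc 2 * c' * Real.log (c t) ≤ 2 * c' * (2 * (ℓ : ℝ)) :=
            mul_le_mul_of_nonneg_left h6 (by positivity)
        _ = 4 * c' * (ℓ : ℝ) := by ring
        _ ≤ c₁ * (ℓ : ℝ) := by
            apply mul_le_mul_of_nonneg_right _ hℓ0.le
            linarith
    exact ⟨le_trans hM.logUV.1 hle, le_trans hM.logUV.2 hle⟩
  choose! U V hUV using hmem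
  exact hk Z (ℓ : ℝ) hZ hℓ (by exact_mod_cast hℓZ) (QQ m vs as f) (QQ m vs as e) (QQ m vs as g) k
    (sg f) hD hradD hlogD hco0 hco1 hsg hkH (by exact_mod_cast hkℓ) (ℕ × ℕ)
    (S.image (fun t => (XX f e m (w t) t, XX f g m (w t) t))) Prod.fst Prod.snd U V hUV
    (fun x _ y _ hxy => by
      simpa using hxy)

end Pool.Agent.Helper63.AZ
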