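import Mathlib
import Pool.Agent.Helper63.AZ.CCell
import Pool.Agent.Helper63.AZ.CPairs
import Pool.Agent.Helper63.AZ.CFib

/-! Project RZ: the number of triples of type (B') (piece C5). -/

set_option autoImplicit false

open Finset
open Pool.Agent.Helper42.RO Pool.Agent.Helper44.RO2

namespace Pool.Agent.Helper63.AZ

private lemma CCount_fib {α β : Type*} [DecidableEq β] (S : Finset α) (g : α → β) (F : ℝ)
    (h : ∀ b ∈ S.image g, ((S.filter fun a => g a = b).card : ℝ) ≤ F) :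
    (S.card : ℝ) ≤ (S.image g).card * F := by
  rw [Finset.card_eq_sum_card_image g S, Nat.cast_sum]
  calc ∑ b ∈ S.image g, ((S.filter fun a => g a = b).card : ℝ)
      ≤ ∑ _b ∈ S.image g, F := Finset.sum_le_sum h
    _ = (S.image g).card * F := by rw [Finset.sum_const, nsmul_eq_mul]

private lemma CCount_union {α κ : Type*} [DecidableEq α] (S : Finset α) (I : Finset κ)
    (P : κ → α → Prop) [∀ i, DecidablePred (P i)] (F : κ → ℝ)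
    (hcov : ∀ a ∈ S, ∃ i ∈ I, P i a)
    (h : ∀ i ∈ I, ((S.filter (P i)).card : ℝ) ≤ F i) :
    (S.card : ℝ) ≤ ∑ i ∈ I, F i := by
  have h1 : S ⊆ I.biUnion fun i => S.filter (P i) := by
    intro a ha
    obtain ⟨i, hi, hp⟩ := hcov a ha
    exact Finset.mem_biUnion.2 ⟨i, hi, Finset.mem_filter.2 ⟨ha, hp⟩⟩
  have h2 : S.card ≤ ∑ i ∈ I, (S.filter (P i)).card :=
    (Finset.card_le_card h1).trans Finset.card_biUnion_le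
  calc (S.card : ℝ) ≤ ((∑ i ∈ I, (S.filter (P i)).card : ℕ) : ℝ) := by exact_mod_cast h2
    _ = ∑ i ∈ I, ((S.filter (P i)).card : ℝ) := by push_cast; rfl
    _ ≤ ∑ i ∈ I, F i := Finset.sum_le_sum h

private lemma CCount_cell (γ μ : ℝ) (hγ : 0 < γ) (hγ1 : γ ≤ 1) (hμ : 0 < μ) :
    ∃ c' : ℝ, 0 < c' ∧ c' ≤ γ / 4 ∧ ∀ H : ℝ, 1 ≤ H → ∃ (C A0 : ℝ) (Z0 : ℕ), 1 ≤ C ∧ 1 ≤ A0 ∧
    2 ≤ Z0 ∧ ∀ (Z m k ℓ : ℕ) (Λ : ℝ) (f : Fin 3), Z0 ≤ Z → 1 ≤ Λ → m ≠ 0 → m ≤ Z →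
      A0 * Real.log Z ≤ ℓ → ℓ ≤ Z → k ≤ ℓ → ∀ S : Finset (ℕ × ℕ),
      (∀ t ∈ S, Cop t ∧ rad (T t) ≤ Z ∧ (ℓ : ℝ) ≤ Real.log (c t) ∧ Real.log (c t) < ℓ + 1 ∧
        Real.log (c t) ≤ Λ ∧ m ∣ rad (T t) ∧ Real.log (c t) / Real.log Z ≤ 4 * H * k ∧
        ∃ w : ℕ → ℕ, TyW Z γ H (c' / H) k m f w t) →
      (S.card : ℝ) ≤ C * (Z : ℝ) ^ μ * Λ := by
  classical
  obtain ⟨c', hc0, hc1, hpairs⟩ := pairs_count γ (μ / 2) hγ hγ1 (by positivity)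
  refine ⟨c', hc0, hc1, fun H hH => ?_⟩
  have hH0 : 0 < H := by linarith
  obtain ⟨A0, Z0, hA0, hZ0, hp⟩ := hpairs H hH
  have hτ : c' / H ≤ c' := div_le_self hc0.le hH
  obtain ⟨C1, hC1, hfib⟩ := fibre_count γ (μ / 8) hγ hγ1 (by positivity)
  obtain ⟨K, hK, hcells⟩ := cellsC (c' / H) (by positivity) (by linarith)
  obtain ⟨C2, hC2, hom⟩ := pow_omega K (μ / 8) hK (by positivity)
  refine ⟨C1 * C2, A0, Z0, by nlinarith, hA0, hZ0, ?_⟩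
  intro Z m k ℓ Λ f hZ hΛ hm hmZ hℓ hℓZ hkℓ S hS
  have hZ2 : (2 : ℝ) ≤ Z := by exact_mod_cast hZ0.trans hZ
  have hZ1 : (1 : ℝ) ≤ Z := by linarith
  have hZ0' : (0 : ℝ) < Z := by linarith
  have hlogZ : 0 < Real.log Z := Real.log_pos (by linarith)
  have hℓ0 : (0 : ℝ) < ℓ := lt_of_lt_of_le (by positivity) hℓ
  have hℓ1 : 1 ≤ ℓ := by
    have : 0 < ℓ := by exact_mod_cast hℓ0
    omega
  obtain ⟨e, he⟩ := exists_other f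
  obtain ⟨g, hg1, hg2⟩ := exists_third f e he
  choose! w hw using fun t (ht : t ∈ S) => (hS t ht).2.2.2.2.2.2.2
  obtain ⟨𝒬, hQ1, hQ2⟩ := hcells m ℓ hm hℓ1 S (fun t ht =>
    ⟨(hS t ht).1, (hS t ht).2.2.2.2.2.1, (hS t ht).2.2.1, (hS t ht).2.2.2.1⟩)
  have hlogΛ : 0 ≤ Real.log Λ := Real.log_nonneg hΛ
  have hΛl : 1 + Real.log Λ ≤ Λ := by
    have := Real.log_le_sub_one_of_pos (x := Λ) (by linarith)
    linarith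
  -- one cell
  have hcell : ∀ q ∈ 𝒬, ((S.filter fun t => InCell (c' / H) m q.1 q.2 t).card : ℝ) ≤
      (Z : ℝ) ^ (μ / 2) * (C1 * (Z : ℝ) ^ (μ / 8) * (1 + Real.log Λ)) := by
    intro q _
    set Sq := S.filter fun t => InCell (c' / H) m q.1 q.2 t with hSq
    have h1 := CCount_fib Sq (fun t => (XX f e m (w t) t, XX f g m (w t) t))
      (C1 * (Z : ℝ) ^ (μ / 8) * (1 + Real.log Λ)) (fun b _ => by
        refine hfib Z m k b.1 b.2 Λ H (c' / H) f e g (by omega) hΛ (by linarith) he hg1 hg2 _ w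
          (fun t ht => ?_)
        obtain ⟨ht1, ht2⟩ := Finset.mem_filter.1 ht
        have ht3 := (Finset.mem_filter.1 ht1).1
        obtain ⟨h2, h3, h4, h5, h6, h7, h8, h9⟩ := hS t ht3
        exact ⟨h2, h3, h6, h7, hw t ht3, congrArg Prod.fst ht2, congrArg Prod.snd ht2⟩)
    have h2 := hp Z m k ℓ f e g hZ he hg1 hg2 hℓ hℓZ hkℓ q.1 q.2 Sq w (fun t ht => by
      obtain ⟨ht1, ht2⟩ := Finset.mem_filter.1 ht
      obtain ⟨h2, h3, h4, h5, h6, h7, h8, h9⟩ := hS t ht1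
      exact ⟨h2, h3, h4, h5, h7, h8, hw t ht1, ht2⟩)
    exact h1.trans (mul_le_mul_of_nonneg_right h2 (by positivity))
  have h1 := CCount_union S 𝒬 (fun q t => InCell (c' / H) m q.1 q.2 t) _
    (fun t ht => hQ2 t ht) hcell
  rw [Finset.sum_const, nsmul_eq_mul] at h1
  have h2 : (𝒬.card : ℝ) ≤ C2 * (Z : ℝ) ^ (μ / 8) := by
    refine (hQ1.trans (hom m hm)).trans ?_
    refine mul_le_mul_of_nonneg_left ?_ (by linarith)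
    exact Real.rpow_le_rpow (Nat.cast_nonneg _) (by exact_mod_cast hmZ) (by positivity)
  have h3 : (Z : ℝ) ^ (μ / 8) * (Z : ℝ) ^ (μ / 2) * (Z : ℝ) ^ (μ / 8) ≤ (Z : ℝ) ^ μ := by
    rw [← Real.rpow_add hZ0', ← Real.rpow_add hZ0']
    exact Real.rpow_le_rpow_of_exponent_le hZ1 (by linarith)
  calc (S.card : ℝ) ≤ 𝒬.card *
        ((Z : ℝ) ^ (μ / 2) * (C1 * (Z : ℝ) ^ (μ / 8) * (1 + Real.log Λ))) := h1
    _ ≤ (C2 * (Z : ℝ) ^ (μ / 8)) *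
        ((Z : ℝ) ^ (μ / 2) * (C1 * (Z : ℝ) ^ (μ / 8) * Λ)) := by
        gcongr
    _ = C1 * C2 * ((Z : ℝ) ^ (μ / 8) * (Z : ℝ) ^ (μ / 2) * (Z : ℝ) ^ (μ / 8)) * Λ := by ring
    _ ≤ C1 * C2 * (Z : ℝ) ^ μ * Λ := by
        gcongr

/-- RZ-C5.  PROOF.  `c'` from `pairs_count γ (μ / 2)`.  `S` is the union over `m ∈ [1, M0]` (`m ≤ Z`),
`f : Fin 3`, `k ≤ Λ` and `ℓ = ⌊log (c t)⌋₊ ≤ Λ` of the sets of the `t` with these parameters (the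
`w` of `t` is chosen; for each `f` fix one choice of `e`, `g`), at most
`M0 * 3 * (Λ + 1) ^ 2 ≤ 12 M0 Λ ^ 2` sets.  Each is cut in `K ^ ω(m)` cells (`cellsC`,
`θ = min 1 (c' / H)`.. here `c' / H ≤ 1`), each cell has at most `Z ^ (μ / 2)` pairs (`pairs_count`,
`A0` increased by `1`), each pair at most `C Z ^ (μ / 8) (1 + log Λ)` triples (`fibre_count`), and
`K ^ ω(m) ≤ C Z ^ (μ / 8)` (`pow_omega`), `1 + log Λ ≤ 1 + Λ ≤ 2 Λ`. -/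
theorem countBp (γ μ : ℝ) (hγ : 0 < γ) (hγ1 : γ ≤ 1) (hμ : 0 < μ) : ∃ c' : ℝ, 0 < c' ∧ c' ≤ 1 ∧
    ∀ H : ℝ, 1 ≤ H → ∃ (C A0 : ℝ) (Z0 : ℕ), 1 ≤ C ∧ 1 ≤ A0 ∧ 2 ≤ Z0 ∧
    ∀ (Z : ℕ) (M0 Λ : ℝ), Z0 ≤ Z → 0 ≤ M0 → 1 ≤ Λ → Λ ≤ Z → ∀ S : Finset (ℕ × ℕ),
    (∀ t ∈ S, Cop t ∧ rad (T t) ≤ Z ∧ A0 * Real.log Z ≤ Real.log (c t) ∧ Real.log (c t) ≤ Λ ∧
      ∃ (k m : ℕ) (f : Fin 3) (w : ℕ → ℕ), m ∣ rad (T t) ∧ (m : ℝ) ≤ M0 ∧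
        (k : ℝ) ≤ Real.log (c t) ∧ Real.log (c t) / Real.log Z ≤ 4 * H * k ∧
        TyW Z γ H (c' / H) k m f w t) →
    (S.card : ℝ) ≤ C * M0 * (Z : ℝ) ^ μ * Λ ^ 3 := by
  classical
  obtain ⟨c', hc0, hc1, hcell⟩ := CCount_cell γ μ hγ hγ1 hμ
  refine ⟨c', hc0, by linarith, fun H hH => ?_⟩
  obtain ⟨C, A0, Z0, hC, hA0, hZ0, hcl⟩ := hcell H hH
  refine ⟨12 * C, A0 + 2, Z0, by linarith, by linarith, hZ0, ?_⟩
  intro Z M0 Λ hZ hM0 hΛ hΛZ S hS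
  have hZ2 : (2 : ℝ) ≤ Z := by exact_mod_cast hZ0.trans hZ
  have hlogZ : (1 : ℝ) / 2 ≤ Real.log Z := by
    have h1 := Real.log_two_gt_d9
    have h2 := Real.log_le_log (by norm_num) hZ2
    linarith
  -- the parameters
  let I : Finset (ℕ × Fin 3 × ℕ × ℕ) := Finset.Icc 1 ⌊M0⌋₊ ×ˢ
    (Finset.univ ×ˢ (Finset.range (⌊Λ⌋₊ + 1) ×ˢ Finset.range (⌊Λ⌋₊ + 1)))
  let P : (ℕ × Fin 3 × ℕ × ℕ) → (ℕ × ℕ) → Prop := fun i t =>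
    i.1 ∣ rad (T t) ∧ (i.2.2.1 : ℝ) ≤ Real.log (c t) ∧
      Real.log (c t) / Real.log Z ≤ 4 * H * i.2.2.1 ∧ ⌊Real.log (c t)⌋₊ = i.2.2.2 ∧
      ∃ w : ℕ → ℕ, TyW Z γ H (c' / H) i.2.2.1 i.1 i.2.1 w t
  have hlc0 : ∀ t ∈ S, 0 ≤ Real.log (c t) := by
    intro t ht
    have h1 := (hS t ht).2.2.1
    have h2 : 0 ≤ (A0 + 2) * Real.log Z := by positivity
    linarith
  have hcov : ∀ t ∈ S, ∃ i ∈ I, P i t := by
    intro t ht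
    obtain ⟨h1, h2, h3, h4, k, m, f, w, h5, h6, h7, h8, h9⟩ := hS t ht
    have hl0 := hlc0 t ht
    refine ⟨(m, f, k, ⌊Real.log (c t)⌋₊), ?_, h5, h7, h8, rfl, w, h9⟩
    simp only [I, Finset.mem_product, Finset.mem_Icc, Finset.mem_univ, true_and,
      Finset.mem_range]
    have hm0 : m ≠ 0 := by
      rintro rfl
      exact (rad_pos (T t)).ne' (Nat.eq_zero_of_zero_dvd h5)
    refine ⟨⟨by omega, Nat.le_floor h6⟩, ?_, ?_⟩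
    · have : k ≤ ⌊Λ⌋₊ := Nat.le_floor (h7.trans h4)
      omega
    · have : ⌊Real.log (c t)⌋₊ ≤ ⌊Λ⌋₊ := Nat.floor_mono h4
      omega
  have hone : ∀ i ∈ I, ((S.filter (P i)).card : ℝ) ≤ C * (Z : ℝ) ^ μ * Λ := by
    intro i hi
    rcases (S.filter (P i)).eq_empty_or_nonempty with hE | ⟨t0, ht0⟩
    · rw [hE, Finset.card_empty, Nat.cast_zero]
      positivity
    obtain ⟨ht1, ht2⟩ := Finset.mem_filter.1 ht0
    obtain ⟨h1, h2, h3, h4, -⟩ := hS t0 ht1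
    obtain ⟨h5, h6, h7, h8, -⟩ := ht2
    have hi' := hi
    simp only [I, Finset.mem_product, Finset.mem_Icc, Finset.mem_univ, true_and,
      Finset.mem_range] at hi'
    have hl0 := hlc0 t0 ht1
    have hfl : Real.log (c t0) < i.2.2.2 + 1 := by
      rw [← h8]
      exact Nat.lt_floor_add_one _
    have hfl2 : (i.2.2.2 : ℝ) ≤ Real.log (c t0) := by
      rw [← h8]
      exact Nat.floor_le hl0
    refine hcl Z i.1 i.2.2.1 i.2.2.2 Λ i.2.1 hZ hΛ (by omega)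
      ((Nat.le_of_dvd (rad_pos _) h5).trans h2) (by nlinarith) ?_ ?_ _ ?_
    · have : (i.2.2.2 : ℝ) ≤ Z := by linarith
      exact_mod_cast this
    · rw [← h8]
      exact Nat.le_floor h6
    · intro t ht
      obtain ⟨ht3, ht4⟩ := Finset.mem_filter.1 ht
      obtain ⟨g1, g2, g3, g4, -⟩ := hS t ht3
      obtain ⟨g5, g6, g7, g8, w, g9⟩ := ht4
      have hl1 := hlc0 t ht3
      refine ⟨g1, g2, ?_, ?_, g4, g5, g7, w, g9⟩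
      · rw [← g8]
        exact Nat.floor_le hl1
      · rw [← g8]
        exact Nat.lt_floor_add_one _
  have h1 := CCount_union S I P (fun _ => C * (Z : ℝ) ^ μ * Λ) hcov hone
  rw [Finset.sum_const, nsmul_eq_mul] at h1
  have hIcard : (I.card : ℝ) ≤ M0 * (3 * ((Λ + 1) * (Λ + 1))) := by
    have h2 : I.card = ⌊M0⌋₊ * (3 * ((⌊Λ⌋₊ + 1) * (⌊Λ⌋₊ + 1))) := by
      simp only [I, Finset.card_product, Nat.card_Icc, Finset.card_univ, Fintype.card_fin,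
        Finset.card_range, Nat.add_sub_cancel]
    rw [h2]
    push_cast
    have h3 : (⌊M0⌋₊ : ℝ) ≤ M0 := Nat.floor_le hM0
    have h4 : (⌊Λ⌋₊ : ℝ) ≤ Λ := Nat.floor_le (by linarith)
    gcongr
  have h5 : (Λ + 1) * (Λ + 1) ≤ 4 * Λ ^ 2 := by nlinarith
  calc (S.card : ℝ) ≤ I.card * (C * (Z : ℝ) ^ μ * Λ) := h1
    _ ≤ (M0 * (3 * ((Λ + 1) * (Λ + 1)))) * (C * (Z : ℝ) ^ μ * Λ) := by
        gcongr
    _ ≤ (M0 * (3 * (4 * Λ ^ 2))) * (C * (Z : ℝ) ^ μ * Λ) := by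
        gcongr
    _ = 12 * C * M0 * (Z : ℝ) ^ μ * Λ ^ 3 := by ring

/-- RZ-C6.  The union over finitely many `H = 2 h / ξ`, `h ≤ hmax`.  PROOF.  `countBp` for each `h`; add
the constants `C`, take the maximum of the `A0`, `Z0` (`Finset.sup'` or sums). -/
theorem countBh (γ μ : ℝ) (hγ : 0 < γ) (hγ1 : γ ≤ 1) (hμ : 0 < μ) : ∃ c' : ℝ, 0 < c' ∧ c' ≤ 1 ∧
    ∀ (ξ : ℝ) (hmax : ℕ), 0 < ξ → ξ ≤ 1 → 1 ≤ hmax → ∃ (C A0 : ℝ) (Z0 : ℕ), 1 ≤ C ∧ 1 ≤ A0 ∧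
    2 ≤ Z0 ∧ ∀ (Z : ℕ) (M0 Λ : ℝ), Z0 ≤ Z → 0 ≤ M0 → 1 ≤ Λ → Λ ≤ Z → ∀ S : Finset (ℕ × ℕ),
    (∀ t ∈ S, Cop t ∧ rad (T t) ≤ Z ∧ A0 * Real.log Z ≤ Real.log (c t) ∧ Real.log (c t) ≤ Λ ∧
      ∃ (h k m : ℕ) (f : Fin 3) (w : ℕ → ℕ), 1 ≤ h ∧ h ≤ hmax ∧ m ∣ rad (T t) ∧ (m : ℝ) ≤ M0 ∧
        (k : ℝ) ≤ Real.log (c t) ∧ Real.log (c t) / Real.log Z ≤ 4 * (2 * h / ξ) * k ∧
        TyW Z γ (2 * h / ξ) (c' / (2 * h / ξ)) k m f w t) →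
    (S.card : ℝ) ≤ C * M0 * (Z : ℝ) ^ μ * Λ ^ 3 := by
  classical
  obtain ⟨c', hc0, hc1, hcount⟩ := countBp γ μ hγ hγ1 hμ
  refine ⟨c', hc0, hc1, fun ξ hmax hξ hξ1 hmax1 => ?_⟩
  have hHh : ∀ h : ℕ, 1 ≤ h → (1 : ℝ) ≤ 2 * h / ξ := by
    intro h hh
    have h1 : (1 : ℝ) ≤ h := by exact_mod_cast hh
    rw [le_div_iff₀ hξ]
    linarith
  choose! C A0 Z0 hC hA0 hZ0 hcnt using fun (h : ℕ) (hh : 1 ≤ h) => hcount (2 * h / ξ) (hHh h hh)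
  have hmem : ∀ h ∈ Finset.Icc 1 hmax, 1 ≤ h := fun h hh => (Finset.mem_Icc.1 hh).1
  have h1mem : 1 ∈ Finset.Icc 1 hmax := Finset.mem_Icc.2 ⟨le_rfl, hmax1⟩
  have hAle : ∀ h ∈ Finset.Icc 1 hmax, A0 h ≤ ∑ i ∈ Finset.Icc 1 hmax, A0 i := fun h hh =>
    Finset.single_le_sum (f := A0) (fun i hi => by
      have := hA0 i (hmem i hi)
      linarith) hh
  have hCle : ∀ h ∈ Finset.Icc 1 hmax, C h ≤ ∑ i ∈ Finset.Icc 1 hmax, C i := fun h hh =>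
    Finset.single_le_sum (f := C) (fun i hi => by
      have := hC i (hmem i hi)
      linarith) hh
  have hZle : ∀ h ∈ Finset.Icc 1 hmax, Z0 h ≤ ∑ i ∈ Finset.Icc 1 hmax, Z0 i := fun h hh =>
    Finset.single_le_sum (f := Z0) (fun i _ => Nat.zero_le _) hh
  refine ⟨∑ i ∈ Finset.Icc 1 hmax, C i, ∑ i ∈ Finset.Icc 1 hmax, A0 i,
    ∑ i ∈ Finset.Icc 1 hmax, Z0 i, (hC 1 le_rfl).trans (hCle 1 h1mem),
    (hA0 1 le_rfl).trans (hAle 1 h1mem), (hZ0 1 le_rfl).trans (hZle 1 h1mem), ?_⟩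
  intro Z M0 Λ hZ hM0 hΛ hΛZ S hS
  have hZ2 : 2 ≤ Z := ((hZ0 1 le_rfl).trans (hZle 1 h1mem)).trans hZ
  have hlogZ : 0 ≤ Real.log Z := Real.log_natCast_nonneg Z
  have h1 := CCount_union S (Finset.Icc 1 hmax) (fun h t =>
    ∃ (k m : ℕ) (f : Fin 3) (w : ℕ → ℕ), m ∣ rad (T t) ∧ (m : ℝ) ≤ M0 ∧
        (k : ℝ) ≤ Real.log (c t) ∧ Real.log (c t) / Real.log Z ≤ 4 * (2 * (h : ℝ) / ξ) * k ∧
        TyW Z γ (2 * (h : ℝ) / ξ) (c' / (2 * (h : ℝ) / ξ)) k m f w t)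
    (fun h => C h * M0 * (Z : ℝ) ^ μ * Λ ^ 3)
    (fun t ht => by
      obtain ⟨-, -, -, -, h, k, m, f, w, g1, g2, g3⟩ := hS t ht
      exact ⟨h, Finset.mem_Icc.2 ⟨g1, g2⟩, k, m, f, w, g3⟩)
    (fun h hh => by
      refine hcnt h (hmem h hh) Z M0 Λ ((hZle h hh).trans hZ) hM0 hΛ hΛZ _ (fun t ht => ?_)
      obtain ⟨ht1, ht2⟩ := Finset.mem_filter.1 ht
      obtain ⟨g1, g2, g3, g4, -⟩ := hS t ht1
      refine ⟨g1, g2, le_trans ?_ g3, g4, ht2⟩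
      exact mul_le_mul_of_nonneg_right (hAle h hh) hlogZ)
  refine h1.trans (le_of_eq ?_)
  rw [Finset.sum_mul, Finset.sum_mul, Finset.sum_mul]

end Pool.Agent.Helper63.AZ
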