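import Mathlib
import Pool.Agent.Helper44.RO2.RLem
import Pool.Agent.Helper63.AZ.CDefs

/-! Project RZ: a few primes of an entry with a part of it (piece V2). -/

set_option autoImplicit false

open Finset
open Pool.Agent.Helper42.RO Pool.Agent.Helper44.RO2

namespace Pool.Agent.Helper63.AZ

private lemma VR_log_prod {A : Finset ℕ} (hA : ∀ p ∈ A, p.Prime) :
    Real.log ((∏ p ∈ A, p : ℕ) : ℝ) = ∑ p ∈ A, Real.log p := by
  rw [Nat.cast_prod, Real.log_prod]
  intro p hp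
  exact_mod_cast (hA p hp).ne_zero

private lemma VR_log_prod_pow {A : Finset ℕ} (hA : ∀ p ∈ A, p.Prime) (f : ℕ → ℕ) :
    Real.log ((∏ p ∈ A, p ^ f p : ℕ) : ℝ) = ∑ p ∈ A, (f p : ℝ) * Real.log p := by
  rw [Nat.cast_prod, Real.log_prod]
  · refine Finset.sum_congr rfl fun p _ => ?_
    rw [Nat.cast_pow, Real.log_pow]
  · intro p hp
    exact_mod_cast pow_ne_zero _ (hA p hp).ne_zero

/-- RZ-V2.  PROOF.  `rlemma` with `E = ent t j`, `cc = E ^ 2`, `η = γ₁`, `Z = Z`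
(`rad (ent t j) ≤ rad (T t) ≤ Z`); take logarithms; `fact_T`. -/
theorem r_entry (t : ℕ × ℕ) (ht : Cop t) (j : Fin 3) (γ₁ : ℝ) (h0 : 0 < γ₁) (h1 : γ₁ ≤ 1 / 4)
    (Z : ℕ) (hZ : rad (T t) ≤ Z) (hE : 1 < ent t j) :
    ∃ R : Finset ℕ, R ⊆ (ent t j).primeFactors ∧ ∃ p0 ∈ R,
      2 * γ₁ * Real.log (ent t j) ≤ ∑ p ∈ R, ((T t).factorization p : ℝ) * Real.log p ∧
      ∑ p ∈ R, Real.log p ≤ Real.log p0 + 4 * γ₁ * Real.log Z := by
  have hER : (1 : ℝ) < (ent t j : ℝ) := by exact_mod_cast hE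
  have hE0 : (0 : ℝ) < (ent t j : ℝ) := by linarith
  have hsub : (ent t j).primeFactors ⊆ (T t).primeFactors :=
    Nat.primeFactors_mono (ent_dvd_T t j) ht.T_ne
  have hrad : rad (ent t j) ≤ Z := by
    refine le_trans ?_ hZ
    exact Nat.le_of_dvd (rad_pos _) (prod_dvd_of_subset hsub)
  have hZ1 : 0 < Z := lt_of_lt_of_le (rad_pos _) hrad
  have hZR : (0 : ℝ) < (Z : ℝ) := by exact_mod_cast hZ1
  obtain ⟨R, hR, p0, hp0, hbig, hsmall⟩ := rlemma (ent t j) hE ((ent t j : ℝ) ^ (2 : ℕ))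
    (one_lt_pow₀ hER two_ne_zero) γ₁ h0 h1
    (by
      rw [← Real.rpow_natCast, ← Real.rpow_mul hE0.le]
      norm_num) (Z : ℝ) (by exact_mod_cast hrad)
  have hRpr : ∀ p ∈ R, p.Prime := fun p hp => Nat.prime_of_mem_primeFactors (hR hp)
  refine ⟨R, hR, p0, hp0, ?_, ?_⟩
  · have h2 := Real.log_le_log (by positivity) hbig
    rw [Real.log_rpow (by positivity), Real.log_pow, VR_log_prod_pow hRpr] at h2
    have h3 : ∑ p ∈ R, ((T t).factorization p : ℝ) * Real.log p =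
        ∑ p ∈ R, ((ent t j).factorization p : ℝ) * Real.log p := by
      refine sum_congr rfl fun p hp => ?_
      rw [fact_T ht (hRpr p hp) (Nat.dvd_of_mem_primeFactors (hR hp))]
    rw [h3]
    refine le_trans (le_of_eq ?_) h2
    push_cast
    ring
  · have hprod : (0 : ℝ) < ((∏ p ∈ R, p : ℕ) : ℝ) := by
      exact_mod_cast Finset.prod_pos fun p hp => (hRpr p hp).pos
    have hp00 : (0 : ℝ) < (p0 : ℝ) := by exact_mod_cast (hRpr p0 hp0).pos
    have h2 := Real.log_le_log hprod hsmall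
    rw [Real.log_mul hp00.ne' (Real.rpow_pos_of_pos hZR _).ne', Real.log_rpow hZR,
      VR_log_prod hRpr] at h2
    exact h2

/-- RZ-V2b.  The product `m` of a set `M` of primes of `T t`: its part of the entry `f` is at least the
product over the subset `R`. -/
theorem prod_facts (t : ℕ × ℕ) (ht : Cop t) (f : Fin 3) (M R : Finset ℕ)
    (hM : M ⊆ (T t).primeFactors) (hR : R ⊆ M) (hRf : R ⊆ (ent t f).primeFactors) (γ : ℝ)
    (hγ : γ * Real.log (c t) ≤ ∑ p ∈ R, ((T t).factorization p : ℝ) * Real.log p) :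
    (∏ p ∈ M, p) ∣ rad (T t) ∧ (∏ p ∈ M, p).primeFactors = M ∧
      Real.log ((∏ p ∈ M, p : ℕ) : ℝ) = ∑ p ∈ M, Real.log p ∧
      (c t) ^ γ ≤ (part (∏ p ∈ M, p) (ent t f) : ℝ) := by
  have hMpr : ∀ p ∈ M, p.Prime := fun p hp => Nat.prime_of_mem_primeFactors (hM hp)
  refine ⟨prod_dvd_of_subset hM, primeFactors_prod_id hMpr, VR_log_prod hMpr, ?_⟩
  rw [part_prod hMpr]
  have hpos : (0 : ℝ) < ((∏ p ∈ M, p ^ (ent t f).factorization p : ℕ) : ℝ) := by
    exact_mod_cast Finset.prod_pos fun p hp => pow_pos (hMpr p hp).pos _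
  rw [← Real.log_le_log_iff (Real.rpow_pos_of_pos ht.c_pos _) hpos, Real.log_rpow ht.c_pos,
    VR_log_prod_pow hMpr]
  refine hγ.trans ?_
  have h3 : ∑ p ∈ R, ((T t).factorization p : ℝ) * Real.log p =
      ∑ p ∈ R, ((ent t f).factorization p : ℝ) * Real.log p := by
    refine sum_congr rfl fun p hp => ?_
    rw [fact_T ht (hMpr p (hR hp)) (Nat.dvd_of_mem_primeFactors (hRf hp))]
  rw [h3]
  refine sum_le_sum_of_subset_of_nonneg hR fun p hp _ => ?_
  exact mul_nonneg (Nat.cast_nonneg _)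
    (Real.log_nonneg (by exact_mod_cast (hMpr p hp).one_lt.le))

end Pool.Agent.Helper63.AZ
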