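import Mathlib
import Pool.Agent.Helper63.AZ.VR

/-! Project RZ: covering, cases I and II (pieces V3, V4). -/

set_option autoImplicit false

open Finset
open Pool.Agent.Helper42.RO Pool.Agent.Helper44.RO2

namespace Pool.Agent.Helper63.AZ

/-- The small primes contribute this. -/
private noncomputable def VCov_s (b : ℝ) (E : ℕ) : ℝ :=
  ∑ p ∈ E.primeFactors, if Real.log (p : ℝ) < b then Real.log (p : ℝ) else 0

/-- The large primes contribute this. -/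
private noncomputable def VCov_l (b : ℝ) (E : ℕ) : ℝ :=
  ∑ p ∈ E.primeFactors, if b ≤ Real.log (p : ℝ) then Real.log (p : ℝ) else 0

private lemma VCov_log_nonneg {p E : ℕ} (hp : p ∈ E.primeFactors) : 0 ≤ Real.log (p : ℝ) :=
  Real.log_nonneg (by exact_mod_cast (Nat.prime_of_mem_primeFactors hp).one_lt.le)

private lemma VCov_s_nonneg (b : ℝ) (E : ℕ) : 0 ≤ VCov_s b E := by
  refine sum_nonneg fun p hp => ?_
  split_ifs
  · exact VCov_log_nonneg hp
  · exact le_rfl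

private lemma VCov_l_nonneg (b : ℝ) (E : ℕ) : 0 ≤ VCov_l b E := by
  refine sum_nonneg fun p hp => ?_
  split_ifs
  · exact VCov_log_nonneg hp
  · exact le_rfl

private lemma VCov_add (b : ℝ) (E : ℕ) :
    VCov_s b E + VCov_l b E = ∑ p ∈ E.primeFactors, Real.log (p : ℝ) := by
  unfold VCov_s VCov_l
  rw [← sum_add_distrib]
  refine sum_congr rfl fun p _ => ?_
  by_cases h : Real.log (p : ℝ) < b
  · rw [if_pos h, if_neg (not_le.2 h), add_zero]
  · rw [if_neg h, if_pos (not_lt.1 h), zero_add]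

private lemma VCov_split {t : ℕ × ℕ} (ht : Cop t) (F : ℕ → ℝ) :
    ∑ p ∈ (T t).primeFactors, F p = ∑ j : Fin 3, ∑ p ∈ (ent t j).primeFactors, F p := by
  have h1 : (T t).primeFactors = univ.biUnion fun j : Fin 3 => (ent t j).primeFactors := by
    ext p
    rw [mem_biUnion]
    constructor
    · intro hp
      have hpp := Nat.prime_of_mem_primeFactors hp
      obtain ⟨j, hj⟩ := prime_dvd_T hpp (Nat.dvd_of_mem_primeFactors hp)
      exact ⟨j, mem_univ _, Nat.mem_primeFactors.2 ⟨hpp, hj, ent_ne ht j⟩⟩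
    · rintro ⟨j, _, hj⟩
      exact Nat.primeFactors_mono (ent_dvd_T t j) ht.T_ne hj
  rw [h1, sum_biUnion]
  intro j _ k _ hjk
  exact (ent_coprime ht hjk).disjoint_primeFactors

private lemma VCov_total {t : ℕ × ℕ} (ht : Cop t) (b : ℝ) (Z : ℕ) (hr : rad (T t) ≤ Z) :
    ∑ j : Fin 3, (VCov_s b (ent t j) + VCov_l b (ent t j)) ≤ Real.log Z := by
  simp_rw [VCov_add]
  rw [← VCov_split ht fun p => Real.log (p : ℝ)]
  have h1 : ∑ p ∈ (T t).primeFactors, Real.log (p : ℝ) = Real.log (rad (T t) : ℝ) := by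
    unfold rad
    rw [Nat.cast_prod, Real.log_prod]
    intro p hp
    exact_mod_cast (Nat.prime_of_mem_primeFactors hp).ne_zero
  rw [h1]
  exact Real.log_le_log (by exact_mod_cast rad_pos _) (by exact_mod_cast hr)

private lemma VCov_p0 {b : ℝ} (hb : 0 ≤ b) {E p0 : ℕ} (hp0 : p0 ∈ E.primeFactors) :
    Real.log (p0 : ℝ) ≤ b + VCov_l b E := by
  by_cases h : Real.log (p0 : ℝ) < b
  · have := VCov_l_nonneg b E
    linarith
  · have h1 : (if b ≤ Real.log (p0 : ℝ) then Real.log (p0 : ℝ) else 0) ≤ VCov_l b E := by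
      unfold VCov_l
      refine single_le_sum (f := fun p : ℕ => if b ≤ Real.log (p : ℝ) then Real.log (p : ℝ) else 0)
        (fun p hp => ?_) hp0
      split_ifs
      · exact VCov_log_nonneg hp
      · exact le_rfl
    rw [if_pos (not_lt.1 h)] at h1
    linarith

private lemma VCov_union {A B : Finset ℕ} {a b : ℝ} (hA : ∑ p ∈ A, Real.log (p : ℝ) ≤ a)
    (hB : ∑ p ∈ B, Real.log (p : ℝ) ≤ b) (hpr : ∀ p ∈ A ∪ B, p.Prime) :
    ∑ p ∈ A ∪ B, Real.log (p : ℝ) ≤ a + b := by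
  have h1 := sum_union_inter (s₁ := A) (s₂ := B) (f := fun p : ℕ => Real.log (p : ℝ))
  have h2 : 0 ≤ ∑ p ∈ A ∩ B, Real.log (p : ℝ) :=
    sum_nonneg fun p hp => Real.log_nonneg (by
      exact_mod_cast (hpr p (mem_union_left _ (mem_inter.1 hp).1)).one_lt.le)
  linarith

private lemma VCov_half {x y : ℕ} {cc : ℝ} (hx : 0 < x) (h : (x : ℝ) + y = cc)
    (hc : 4 ≤ cc) (hi : Real.log (x : ℝ) ≤ 1 / 2 * Real.log cc) :
    1 / 2 * Real.log cc ≤ Real.log (y : ℝ) := by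
  have hc0 : 0 ≤ cc := by linarith
  set s := Real.sqrt cc with hs
  have hs2 : s * s = cc := Real.mul_self_sqrt hc0
  have hs0 : 0 ≤ s := Real.sqrt_nonneg _
  have hs1 : 2 ≤ s := by
    rw [hs]
    apply Real.le_sqrt_of_sq_le
    norm_num
    linarith
  have hls : Real.log s = 1 / 2 * Real.log cc := by
    rw [← hs2, Real.log_mul (by linarith) (by linarith)]
    ring
  rw [← hls] at hi ⊢
  have hxs : (x : ℝ) ≤ s := (Real.log_le_log_iff (by exact_mod_cast hx) (by linarith)).1 hi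
  have hys : s ≤ (y : ℝ) := by nlinarith
  exact Real.log_le_log (by linarith) hys

/-- One candidate: the entry `f`, the set `R` together with the small primes `S`. -/
private lemma VCov_cand {t : ℕ × ℕ} (ht : Cop t) (f : Fin 3) (R S : Finset ℕ)
    (hR : R ⊆ (ent t f).primeFactors) (hS : S ⊆ (T t).primeFactors) (γ a b : ℝ)
    (hγ : γ * Real.log (c t) ≤ ∑ p ∈ R, ((T t).factorization p : ℝ) * Real.log p)
    (ha : ∑ p ∈ R, Real.log (p : ℝ) ≤ a) (hb : ∑ p ∈ S, Real.log (p : ℝ) ≤ b) :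
    ∃ m : ℕ, m ∣ rad (T t) ∧ Real.log m ≤ a + b ∧ (c t) ^ γ ≤ (part m (ent t f) : ℝ) ∧
      ∀ p ∈ Fr f m t, p ∉ S := by
  have hM : R ∪ S ⊆ (T t).primeFactors :=
    union_subset (hR.trans (Nat.primeFactors_mono (ent_dvd_T t f) ht.T_ne)) hS
  obtain ⟨h1, h2, h3, h4⟩ := prod_facts t ht f (R ∪ S) R hM subset_union_left hR γ hγ
  refine ⟨∏ p ∈ R ∪ S, p, h1, ?_, h4, ?_⟩
  · rw [h3]
    exact VCov_union ha hb fun p hp => Nat.prime_of_mem_primeFactors (hM hp)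
  · intro p hp hpS
    rw [Fr, mem_filter] at hp
    exact hp.2.2 (dvd_prod_of_mem _ (mem_union_right _ hpS))

private lemma VCov_gt_one {n : ℕ} (h : 0 < Real.log (n : ℝ)) : 1 < n := by
  by_contra hn
  have : n = 0 ∨ n = 1 := by omega
  rcases this with rfl | rfl
  · simp at h
  · simp at h

private lemma VCov_small_le (b : ℝ) (E : ℕ) :
    ∑ p ∈ E.primeFactors.filter (fun p : ℕ => Real.log (p : ℝ) < b), Real.log (p : ℝ)
      = VCov_s b E := by
  rw [sum_filter]; rfl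

/-- RZ-V3.  Case I, one entry `i` is negligible.  PROOF.  `i ≠ 2` as `log (ent t 2) = log c > 0`; the
two other entries `e, g` are at least `c / 2` (`ent t i ≤ c ^ (1 / 2) ≤ c / 2`), so
`log (ent t e) ≥ log c / 2`.  Let `Sm j = {p ∣ ent t j : log p < ξ z}` and `R_j`, `p_j` from
`r_entry`.  `M_e = R_e ∪ Sm g`, `M_g = R_g ∪ Sm e`.  `log p_j + ∑_(Sm j) log p ≤ ξ z +
log (rad (ent t j))` (if `p_j` is in `Sm j` then `log p_j < ξ z`, else it is another prime of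
`ent t j`), and `log rad (ent t e) + log rad (ent t g) ≤ z`.  So
`∑_(M_e) log p + ∑_(M_g) log p ≤ (1 + 2 ξ + 8 γ₁) z`, and one of them is at most half.  Take
`f = e`, `m = ∏ M_e` (or `g`), `prod_facts` with `γ = γ₁`; a prime in `Fr f m t` divides `ent t i`,
or is a prime of the other big entry outside `Sm`. -/
theorem caseI (γ₁ ξ : ℝ) (h0 : 0 < γ₁) (h1 : γ₁ ≤ 1 / 4) (hξ : 0 < ξ) (Z : ℕ) (hZ : 1 ≤ Z)
    (t : ℕ × ℕ) (ht : Cop t) (hr : rad (T t) ≤ Z) (hc : 4 ≤ c t) (i : Fin 3)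
    (hi : Real.log (ent t i) ≤ 1 / 2 * Real.log (c t)) :
    ∃ (f : Fin 3) (m : ℕ), m ∣ rad (T t) ∧
      Real.log m ≤ (1 / 2 + ξ + 4 * γ₁) * Real.log Z ∧ (c t) ^ γ₁ ≤ (part m (ent t f) : ℝ) ∧
      ∀ p ∈ Fr f m t, p ∈ (ent t i).primeFactors ∨ ξ * Real.log Z ≤ Real.log p := by
  classical
  have hz : 0 ≤ Real.log (Z : ℝ) := Real.log_nonneg (by exact_mod_cast hZ)
  have hlc : 0 < Real.log (c t) := Real.log_pos (by linarith)
  have hsum : ((t.1 : ℕ) : ℝ) + (t.2 : ℕ) = c t := by unfold c; push_cast; ring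
  have hc2 : (ent t 2 : ℝ) = c t := by simp [c]
  have hi2 : i ≠ 2 := by
    rintro rfl
    rw [hc2] at hi
    linarith
  have hbig : ∀ j, j ≠ i → 1 / 2 * Real.log (c t) ≤ Real.log (ent t j) := by
    intro j hj
    by_cases hj2 : j = 2
    · rw [hj2, hc2]
      linarith
    · have key : ∀ i j : Fin 3, i ≠ 2 → j ≠ i → j ≠ 2 → (i = 0 ∧ j = 1) ∨ (i = 1 ∧ j = 0) := by
        decide
      rcases key i j hi2 hj hj2 with ⟨rfl, rfl⟩ | ⟨rfl, rfl⟩
      · exact VCov_half ht.pos1 hsum hc hi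
      · exact VCov_half ht.pos2 (by rw [add_comm]; exact hsum) hc hi
  have hb : 0 ≤ ξ * Real.log (Z : ℝ) := mul_nonneg hξ.le hz
  obtain ⟨e, he⟩ := exists_other i
  obtain ⟨g, hg1, hg2⟩ := exists_third i e he
  have hE : ∀ j, j ≠ i → ∃ R : Finset ℕ, R ⊆ (ent t j).primeFactors ∧
      γ₁ * Real.log (c t) ≤ ∑ p ∈ R, ((T t).factorization p : ℝ) * Real.log p ∧
      ∑ p ∈ R, Real.log (p : ℝ) ≤ ξ * Real.log Z + VCov_l (ξ * Real.log Z) (ent t j) +
        4 * γ₁ * Real.log Z := by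
    intro j hj
    have h2 := hbig j hj
    obtain ⟨R, hR, p0, hp0, h3, h4⟩ := r_entry t ht j γ₁ h0 h1 Z hr
      (VCov_gt_one (by linarith))
    refine ⟨R, hR, ?_, ?_⟩
    · refine le_trans ?_ h3
      nlinarith
    · have h5 := VCov_p0 hb (hR hp0)
      linarith
  have hcand : ∀ j k, j ≠ i → k ≠ i → j ≠ k → ∃ m : ℕ, m ∣ rad (T t) ∧
      Real.log m ≤ ξ * Real.log Z + VCov_l (ξ * Real.log Z) (ent t j) +
        4 * γ₁ * Real.log Z + VCov_s (ξ * Real.log Z) (ent t k) ∧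
      (c t) ^ γ₁ ≤ (part m (ent t j) : ℝ) ∧
      ∀ p ∈ Fr j m t, p ∈ (ent t i).primeFactors ∨ ξ * Real.log Z ≤ Real.log p := by
    intro j k hj hk hjk
    obtain ⟨R, hR, h2, h3⟩ := hE j hj
    obtain ⟨m, m1, m2, m3, m4⟩ := VCov_cand ht j R
      ((ent t k).primeFactors.filter (fun p : ℕ => Real.log (p : ℝ) < ξ * Real.log Z)) hR
      ((filter_subset _ _).trans (Nat.primeFactors_mono (ent_dvd_T t k) ht.T_ne)) γ₁ _ _ h2 h3
      (VCov_small_le _ _).le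
    refine ⟨m, m1, m2, m3, ?_⟩
    intro p hp
    have h5 := m4 p hp
    rw [Fr, mem_filter] at hp
    obtain ⟨hpT, hpj, hpm⟩ := hp
    have hpp := Nat.prime_of_mem_primeFactors hpT
    obtain ⟨l, hl⟩ := prime_dvd_T hpp (Nat.dvd_of_mem_primeFactors hpT)
    rcases eq_of_three (k := j) (j := k) (l := i) (i := l) hjk (Ne.symm hj) (Ne.symm hk) with
      rfl | rfl | rfl
    · exact absurd hl hpj
    · right
      by_contra hlt
      exact h5 (mem_filter.2 ⟨Nat.mem_primeFactors.2 ⟨hpp, hl, ent_ne ht _⟩, not_le.1 hlt⟩)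
    · left
      exact Nat.mem_primeFactors.2 ⟨hpp, hl, ent_ne ht _⟩
  have htot := VCov_total ht (ξ * Real.log Z) Z hr
  have hsplit : ∀ F : Fin 3 → ℝ, ∑ j, F j = F i + F e + F g := by
    intro F
    rw [Fin.sum_univ_three]
    have key : ∀ i e g : Fin 3, i ≠ e → g ≠ i → g ≠ e →
        (i = 0 ∧ e = 1 ∧ g = 2) ∨ (i = 0 ∧ e = 2 ∧ g = 1) ∨ (i = 1 ∧ e = 0 ∧ g = 2) ∨
        (i = 1 ∧ e = 2 ∧ g = 0) ∨ (i = 2 ∧ e = 0 ∧ g = 1) ∨ (i = 2 ∧ e = 1 ∧ g = 0) := by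
      decide
    rcases key i e g he hg1 hg2 with ⟨rfl, rfl, rfl⟩ | ⟨rfl, rfl, rfl⟩ | ⟨rfl, rfl, rfl⟩ |
      ⟨rfl, rfl, rfl⟩ | ⟨rfl, rfl, rfl⟩ | ⟨rfl, rfl, rfl⟩ <;> ring
  rw [hsplit] at htot
  have n1 := VCov_s_nonneg (ξ * Real.log Z) (ent t i)
  have n2 := VCov_l_nonneg (ξ * Real.log Z) (ent t i)
  obtain ⟨m1, a1, a2, a3, a4⟩ := hcand e g (Ne.symm he) hg1 (Ne.symm hg2)
  obtain ⟨m2, b1, b2, b3, b4⟩ := hcand g e hg1 (Ne.symm he) hg2
  rcases le_total (VCov_l (ξ * Real.log Z) (ent t e) + VCov_s (ξ * Real.log Z) (ent t g))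
    (VCov_l (ξ * Real.log Z) (ent t g) + VCov_s (ξ * Real.log Z) (ent t e)) with hle | hle
  · refine ⟨e, m1, a1, ?_, a3, a4⟩
    nlinarith
  · refine ⟨g, m2, b1, ?_, b3, b4⟩
    nlinarith

/-- RZ-V4.  Case II, no entry is negligible and the large primes have mass `≥ 4 ξ`.  PROOF.  `R_j`,
`p_j` from `r_entry` for all three `j` (the entries are `> 1`); `M_j = R_j ∪ Sm j' ∪ Sm j''`
(`j', j''` the other two).  With `S_j = ∑_(Sm j) log p`, `L_j = ∑ log p` over the other primes of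
`ent t j`: `log p_j ≤ ξ z + L_j`, `∑ (S_j + L_j) = log (rad (T t)) ≤ z`, `∑ L_j ≥ 4 ξ z`, so
`∑_j ∑_(M_j) log p ≤ 12 γ₁ z + 3 ξ z + ∑ L_j + 2 ∑ S_j ≤ (2 + 12 γ₁ + 3 ξ) z - ∑ L_j
≤ (2 + 12 γ₁ - ξ) z`; take the smallest. -/
theorem caseII (γ₁ ξ g : ℝ) (h0 : 0 < γ₁) (h1 : γ₁ ≤ 1 / 4) (hξ : 0 < ξ) (hg : 0 < g) (Z : ℕ)
    (hZ : 1 ≤ Z) (t : ℕ × ℕ) (ht : Cop t) (hr : rad (T t) ≤ Z)
    (hi : ∀ i : Fin 3, g * Real.log (c t) ≤ Real.log (ent t i))
    (hL : 4 * ξ * Real.log Z ≤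
      ∑ p ∈ (T t).primeFactors.filter (fun p : ℕ => ξ * Real.log Z ≤ Real.log (p : ℝ)), Real.log (p : ℝ)) :
    ∃ (f : Fin 3) (m : ℕ), m ∣ rad (T t) ∧
      Real.log m ≤ (2 / 3 - ξ / 3 + 4 * γ₁) * Real.log Z ∧
      (c t) ^ (2 * γ₁ * g) ≤ (part m (ent t f) : ℝ) ∧
      ∀ p ∈ Fr f m t, ξ * Real.log Z ≤ Real.log p := by
  classical
  have hz : 0 ≤ Real.log (Z : ℝ) := Real.log_nonneg (by exact_mod_cast hZ)
  have hb : 0 ≤ ξ * Real.log (Z : ℝ) := mul_nonneg hξ.le hz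
  have hc1 : 1 < c t := by
    have h2 := ht.pos1
    have h3 := ht.pos2
    unfold c
    exact_mod_cast (show 1 < t.1 + t.2 by omega)
  have hlc : 0 < Real.log (c t) := Real.log_pos hc1
  have hglc : 0 < g * Real.log (c t) := mul_pos hg hlc
  have htot := VCov_total ht (ξ * Real.log Z) Z hr
  have hL' : 4 * ξ * Real.log Z ≤ ∑ j : Fin 3, VCov_l (ξ * Real.log Z) (ent t j) := by
    refine hL.trans (le_of_eq ?_)
    rw [sum_filter, VCov_split ht]
    rfl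
  have hS' : ∑ p ∈ (T t).primeFactors.filter (fun p : ℕ => Real.log (p : ℝ) < ξ * Real.log Z),
      Real.log (p : ℝ) = ∑ j : Fin 3, VCov_s (ξ * Real.log Z) (ent t j) := by
    rw [sum_filter, VCov_split ht]
    rfl
  have hcand : ∀ j, ∃ m : ℕ, m ∣ rad (T t) ∧
      Real.log m ≤ (ξ * Real.log Z + VCov_l (ξ * Real.log Z) (ent t j) +
        4 * γ₁ * Real.log Z) + ((∑ j : Fin 3, VCov_s (ξ * Real.log Z) (ent t j)) -
          VCov_s (ξ * Real.log Z) (ent t j)) ∧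
      (c t) ^ (2 * γ₁ * g) ≤ (part m (ent t j) : ℝ) ∧
      ∀ p ∈ Fr j m t, ξ * Real.log Z ≤ Real.log p := by
    intro j
    obtain ⟨R, hR, p0, hp0, h3, h4⟩ := r_entry t ht j γ₁ h0 h1 Z hr
      (VCov_gt_one (by have := hi j; linarith))
    have h5 := VCov_p0 hb (hR hp0)
    obtain ⟨m, m1, m2, m3, m4⟩ := VCov_cand ht j R
      ((T t).primeFactors.filter
        (fun p : ℕ => Real.log (p : ℝ) < ξ * Real.log Z ∧ ¬ p ∣ ent t j)) hR
      (filter_subset _ _) (2 * γ₁ * g) (ξ * Real.log Z + VCov_l (ξ * Real.log Z) (ent t j) +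
        4 * γ₁ * Real.log Z) ((∑ j : Fin 3, VCov_s (ξ * Real.log Z) (ent t j)) -
          VCov_s (ξ * Real.log Z) (ent t j)) (by
        refine le_trans ?_ h3
        have := hi j
        nlinarith) (by linarith) (by
        rw [← hS', le_sub_iff_add_le]
        have h6 : VCov_s (ξ * Real.log Z) (ent t j) = ∑ p ∈ (T t).primeFactors.filter
            (fun p : ℕ => Real.log (p : ℝ) < ξ * Real.log Z ∧ p ∣ ent t j), Real.log (p : ℝ) := by
          rw [← VCov_small_le]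
          refine sum_congr ?_ fun _ _ => rfl
          ext p
          rw [mem_filter, mem_filter]
          constructor
          · rintro ⟨k1, k2⟩
            exact ⟨Nat.primeFactors_mono (ent_dvd_T t j) ht.T_ne k1, k2,
              Nat.dvd_of_mem_primeFactors k1⟩
          · rintro ⟨k1, k2, k3⟩
            exact ⟨Nat.mem_primeFactors.2 ⟨Nat.prime_of_mem_primeFactors k1, k3, ent_ne ht j⟩, k2⟩
        rw [h6, ← filter_filter, ← filter_filter, add_comm, sum_filter_add_sum_filter_not])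
    refine ⟨m, m1, m2, m3, ?_⟩
    intro p hp
    have h6 := m4 p hp
    rw [Fr, mem_filter] at hp
    by_contra hlt
    exact h6 (mem_filter.2 ⟨hp.1, not_le.1 hlt, hp.2.1⟩)
  obtain ⟨m0, a1, a2, a3, a4⟩ := hcand 0
  obtain ⟨m1, b1, b2, b3, b4⟩ := hcand 1
  obtain ⟨m2, c1, c2, c3, c4⟩ := hcand 2
  rw [Fin.sum_univ_three] at htot hL' a2 b2 c2
  by_cases q0 : Real.log m0 ≤ (2 / 3 - ξ / 3 + 4 * γ₁) * Real.log Z
  · exact ⟨0, m0, a1, q0, a3, a4⟩
  by_cases q1 : Real.log m1 ≤ (2 / 3 - ξ / 3 + 4 * γ₁) * Real.log Z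
  · exact ⟨1, m1, b1, q1, b3, b4⟩
  refine ⟨2, m2, c1, ?_, c3, c4⟩
  push Not at q0 q1
  nlinarith

end Pool.Agent.Helper63.AZ
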