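import Mathlib
import Pool.Agent.Helper63.AZ.CDefs

/-! Project RZ: Dirichlet approximation of the exponents of the large primes (pieces V0, V1). -/

set_option autoImplicit false

open Finset
open Pool.Agent.Helper42.RO Pool.Agent.Helper44.RO2

namespace Pool.Agent.Helper63.AZ

private lemma vdir_rad {t : ℕ × ℕ} {Z : ℕ} (hrad : rad (T t) ≤ Z) (P : Finset ℕ)
    (hP : P ⊆ (T t).primeFactors) : ∑ p ∈ P, Real.log p ≤ Real.log Z := by
  have h1 : ∑ p ∈ (T t).primeFactors, Real.log p = Real.log ((rad (T t) : ℕ) : ℝ) := by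
    unfold rad
    rw [Nat.cast_prod, Real.log_prod]
    intro p hp
    have := (Nat.prime_of_mem_primeFactors hp).pos
    positivity
  have h2 : (0 : ℝ) < ((rad (T t) : ℕ) : ℝ) := by exact_mod_cast rad_pos (T t)
  refine le_trans (Finset.sum_le_sum_of_subset_of_nonneg hP fun p _ _ =>
    Real.log_natCast_nonneg p) ?_
  rw [h1]
  exact Real.log_le_log h2 (by exact_mod_cast hrad)

private lemma vdir_val {t : ℕ × ℕ} (ht : Cop t) {p : ℕ} (hp : p ∈ (T t).primeFactors) :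
    ((T t).factorization p : ℝ) * Real.log p ≤ Real.log (c t) := by
  have hpp := Nat.prime_of_mem_primeFactors hp
  obtain ⟨k, hk⟩ := prime_dvd_T hpp (Nat.dvd_of_mem_primeFactors hp)
  rw [fact_T ht hpp hk]
  have h1 : p ^ (ent t k).factorization p ≤ ent t k :=
    Nat.le_of_dvd (ent_pos ht k) (Nat.ordProj_dvd _ _)
  have h2 : ((p ^ (ent t k).factorization p : ℕ) : ℝ) ≤ c t :=
    le_trans (by exact_mod_cast h1) (ent_le_c t k)
  have h3 : (0 : ℝ) < ((p ^ (ent t k).factorization p : ℕ) : ℝ) := by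
    exact_mod_cast pow_pos hpp.pos _
  have h4 := Real.log_le_log h3 h2
  rwa [Nat.cast_pow, Real.log_pow] at h4

/-- RZ-V0.  Simultaneous approximation.  PROOF.  Box principle: the `Q ^ J0 + 1` vectors
`(⌊Q * Int.fract (j * x p)⌋₊)_(p ∈ P)`, `j ≤ Q ^ J0`, lie in a set of `Q ^ #P ≤ Q ^ J0` vectors, so
two agree, `j < j'`; `h = j' - j`, `w p = ⌊j' x p⌋₊ - ⌊j x p⌋₊`. -/
theorem dirichlet_sim (Q J0 : ℕ) (hQ : 1 ≤ Q) (P : Finset ℕ) (x : ℕ → ℝ) (hP : P.card ≤ J0)
    (hx : ∀ p ∈ P, 0 ≤ x p) : ∃ h : ℕ, 1 ≤ h ∧ h ≤ Q ^ J0 ∧ ∃ w : ℕ → ℕ, ∀ p ∈ P,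
      |(h : ℝ) * x p - w p| ≤ 1 / Q := by
  classical
  let fl : ℕ → ℕ → ℕ := fun j p => ⌊(j : ℝ) * x p⌋₊
  let fr : ℕ → ℕ → ℝ := fun j p => (j : ℝ) * x p - fl j p
  have hfr0 : ∀ j, ∀ p ∈ P, 0 ≤ fr j p := by
    intro j p hp
    have h1 : (fl j p : ℝ) ≤ (j : ℝ) * x p :=
      Nat.floor_le (mul_nonneg (Nat.cast_nonneg _) (hx p hp))
    show 0 ≤ (j : ℝ) * x p - fl j p
    linarith
  have hfr1 : ∀ j, ∀ p ∈ P, fr j p < 1 := by
    intro j p _
    have h1 : (j : ℝ) * x p < (fl j p : ℝ) + 1 := Nat.lt_floor_add_one _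
    show (j : ℝ) * x p - fl j p < 1
    linarith
  have hQ0 : (0 : ℝ) < Q := by exact_mod_cast hQ
  have hlt : ∀ j, ∀ p : P, ⌊(Q : ℝ) * fr j p⌋₊ < Q := by
    intro j p
    have h1 : (Q : ℝ) * fr j p < Q := by
      have := hfr1 j p p.2
      nlinarith
    rw [Nat.floor_lt (mul_nonneg hQ0.le (hfr0 j p p.2))]
    exact h1
  let F : Fin (Q ^ J0 + 1) → (P → Fin Q) := fun j p => ⟨⌊(Q : ℝ) * fr j p⌋₊, hlt j p⟩
  have hcard : Fintype.card (P → Fin Q) < Fintype.card (Fin (Q ^ J0 + 1)) := by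
    rw [Fintype.card_fun, Fintype.card_fin, Fintype.card_fin, Fintype.card_coe]
    exact Nat.lt_succ_of_le (Nat.pow_le_pow_right hQ hP)
  obtain ⟨j, j', hne, hF⟩ := Fintype.exists_ne_map_eq_of_card_lt F hcard
  -- the case of increasing indices
  have key : ∀ i i' : Fin (Q ^ J0 + 1), i < i' → F i = F i' → ∃ h : ℕ, 1 ≤ h ∧ h ≤ Q ^ J0 ∧
      ∃ w : ℕ → ℕ, ∀ p ∈ P, |(h : ℝ) * x p - w p| ≤ 1 / Q := by
    intro i i' hii hFi
    have hii' : i.val < i'.val := hii
    refine ⟨i'.val - i.val, by omega, by omega, fun p => fl i'.val p - fl i.val p, ?_⟩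
    intro p hp
    have h1 : ⌊(Q : ℝ) * fr i p⌋₊ = ⌊(Q : ℝ) * fr i' p⌋₊ := by
      have h2 := congrArg Fin.val (congrFun hFi ⟨p, hp⟩)
      exact h2
    have h3 : fl i.val p ≤ fl i'.val p := by
      refine Nat.floor_mono ?_
      exact mul_le_mul_of_nonneg_right (by exact_mod_cast hii'.le) (hx p hp)
    have h4 : ((i'.val - i.val : ℕ) : ℝ) * x p - ((fl i'.val p - fl i.val p : ℕ) : ℝ) =
        fr i' p - fr i p := by
      rw [Nat.cast_sub hii'.le, Nat.cast_sub h3]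
      show _ = ((i'.val : ℝ) * x p - fl i'.val p) - ((i.val : ℝ) * x p - fl i.val p)
      ring
    rw [h4]
    have a1 := Nat.floor_le (mul_nonneg hQ0.le (hfr0 i p hp))
    have a2 := Nat.lt_floor_add_one ((Q : ℝ) * fr i p)
    have b1 := Nat.floor_le (mul_nonneg hQ0.le (hfr0 i' p hp))
    have b2 := Nat.lt_floor_add_one ((Q : ℝ) * fr i' p)
    rw [h1] at a1 a2
    have h5 : |(Q : ℝ) * (fr i' p - fr i p)| ≤ 1 := by
      rw [abs_le]
      constructor <;> linarith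
    rw [abs_mul, abs_of_pos hQ0] at h5
    rw [le_div_iff₀ hQ0]
    linarith
  rcases lt_or_gt_of_ne hne with h | h
  · exact key j j' h hF
  · exact key j' j h hF.symm

/-- RZ-V1.  PROOF.  `z = log Z ≥ 1`, `lam = log (c t)`, `Q = ⌈8 / (c' ξ)⌉₊`, `J0 = ⌊1 / ξ⌋₊`,
`hmax = Q ^ J0`, `g = c' ξ / (8 hmax)`, `A0 = 4 (2 hmax / ξ) ^ 2 / c'` (at least `hmax`).  Let `P` be
the set of the `p ∈ Fr f m t` not in `N` (so `log p ≥ ξ z`); `∑_(p ∣ T t) log p = log (rad) ≤ z`, so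
`#P ≤ 1 / ξ`.  `x p = v_p z / lam ≤ 3 / ξ`... (in fact `v_p log p ≤ log (ent t j) ≤ lam`, as `p`
divides one entry only, so `x p ≤ z / log p ≤ 1 / ξ`).  `h, w` from `dirichlet_sim`; put `w p = 0`
outside `P`; `k = ⌊lam / (h z)⌋₊ ≥ lam / (2 h z)`.  With `H = 2 h / ξ`:
`w p ≤ h x p + 1 ≤ h / ξ + 1 ≤ H`, so `∑ w p log p ≤ H z`.  For `p ∈ P`:
`|v_p - k w p| ≤ (lam / (h z)) |h x p - w p| + w p |lam / (h z) - k| ≤ lam / (h z Q) + H`, so the
sum over `P` (weights `log p`, total `≤ z`) is at most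
`lam / (h Q) + H z ≤ c' lam / (4 H) + c' lam / (4 H)`; the sum over the `p` in `N` is at most
`g lam ≤ c' lam / (4 H)`. -/
theorem dir_type (ξ c' : ℝ) (hξ : 0 < ξ) (hξ1 : ξ ≤ 1) (hc' : 0 < c') (hc1 : c' ≤ 1) :
    ∃ (hmax : ℕ) (g A0 : ℝ), 1 ≤ hmax ∧ 0 < g ∧ g ≤ 1 / 2 ∧ 1 ≤ A0 ∧
    ∀ (Z : ℕ) (t : ℕ × ℕ) (f : Fin 3) (m : ℕ) (N : Finset ℕ), Cop t → 3 ≤ Z → rad (T t) ≤ Z →
      A0 * Real.log Z ≤ Real.log (c t) →
      (∑ p ∈ (Fr f m t).filter (fun p => p ∈ N), ((T t).factorization p : ℝ) * Real.log p) ≤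
        g * Real.log (c t) →
      (∀ p ∈ Fr f m t, p ∈ N ∨ ξ * Real.log Z ≤ Real.log p) →
      ∃ (h k : ℕ) (w : ℕ → ℕ), 1 ≤ h ∧ h ≤ hmax ∧ (k : ℝ) ≤ Real.log (c t) ∧
        Real.log (c t) / Real.log Z ≤ 4 * (2 * h / ξ) * k ∧
        (∑ p ∈ Fr f m t, |((T t).factorization p : ℝ) - k * w p| * Real.log p) ≤
          c' / (2 * h / ξ) * Real.log (c t) ∧
        (∑ p ∈ Fr f m t, (w p : ℝ) * Real.log p) ≤ 2 * h / ξ * Real.log Z := by
  classical
  obtain ⟨Q, hQdef⟩ : ∃ Q : ℕ, Q = ⌈8 / (c' * ξ)⌉₊ := ⟨_, rfl⟩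
  obtain ⟨J0, hJdef⟩ : ∃ J0 : ℕ, J0 = ⌊1 / ξ⌋₊ := ⟨_, rfl⟩
  have hcξ : 0 < c' * ξ := mul_pos hc' hξ
  have hcξ1 : c' * ξ ≤ 1 := by nlinarith
  have hQ8 : 8 / (c' * ξ) ≤ (Q : ℝ) := by rw [hQdef]; exact Nat.le_ceil _
  have hQ80 : (8 : ℝ) ≤ Q := by
    refine le_trans ?_ hQ8
    rw [le_div_iff₀ hcξ]
    linarith
  have hQ0 : (0 : ℝ) < Q := by linarith
  have hQ1 : 1 ≤ Q := by
    have : (1 : ℝ) ≤ Q := by linarith
    exact_mod_cast this
  have hQinv : 1 / (Q : ℝ) ≤ c' * ξ / 8 := by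
    rw [div_le_iff₀ hcξ] at hQ8
    rw [div_le_div_iff₀ hQ0 (by norm_num)]
    linarith
  obtain ⟨hmax, hmaxdef⟩ : ∃ hmax : ℕ, hmax = Q ^ J0 := ⟨_, rfl⟩
  have hmax1 : 1 ≤ hmax := by rw [hmaxdef]; exact Nat.one_le_pow _ _ hQ1
  have hmaxR : (1 : ℝ) ≤ hmax := by exact_mod_cast hmax1
  have hmax0 : (0 : ℝ) < hmax := by linarith
  have hM2 : (2 : ℝ) ≤ 2 * hmax / ξ := by
    rw [le_div_iff₀ hξ]
    linarith
  have hg1 : c' * ξ / (8 * hmax) ≤ 1 / 2 := by
    rw [div_le_div_iff₀ (by positivity) (by norm_num)]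
    linarith
  refine ⟨hmax, c' * ξ / (8 * hmax), 4 * (2 * hmax / ξ) ^ 2 / c', hmax1, by positivity, hg1, ?_, ?_⟩
  · rw [le_div_iff₀ hc']
    have h1 := pow_le_pow_left₀ (by norm_num) hM2 2
    linarith
  intro Z t f m N ht hZ hrad hA hN hlarge
  have hz1 : (1 : ℝ) ≤ Real.log Z := by
    rw [Real.le_log_iff_exp_le (by positivity)]
    have h3 : (3 : ℝ) ≤ Z := by exact_mod_cast hZ
    have := Real.exp_one_lt_d9
    linarith
  obtain ⟨z, hz⟩ : ∃ z : ℝ, z = Real.log Z := ⟨_, rfl⟩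
  obtain ⟨lam, hlam⟩ : ∃ lam : ℝ, lam = Real.log (c t) := ⟨_, rfl⟩
  rw [← hz] at hz1 hA hlarge
  rw [← hlam] at hA hN
  rw [← hz, ← hlam]
  have hz0 : 0 < z := by linarith
  have hlam0 : 0 < lam := by rw [hlam]; exact ht.log_c_pos
  set P : Finset ℕ := (Fr f m t).filter (fun p => p ∉ N) with hPdef
  have hPT : P ⊆ (T t).primeFactors := fun p hp => by
    have h1 := (Finset.mem_filter.1 hp).1
    unfold Fr at h1
    exact (Finset.mem_filter.1 h1).1
  have hPlarge : ∀ p ∈ P, ξ * z ≤ Real.log p := by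
    intro p hp
    obtain ⟨h1, h2⟩ := Finset.mem_filter.1 hp
    rcases hlarge p h1 with h3 | h3
    · exact absurd h3 h2
    · exact h3
  have hξz : 0 < ξ * z := mul_pos hξ hz0
  have hlogpos : ∀ p ∈ P, 0 < Real.log p := fun p hp => lt_of_lt_of_le hξz (hPlarge p hp)
  have hPsum : ∑ p ∈ P, Real.log p ≤ z := by
    rw [hz]
    exact vdir_rad hrad P hPT
  have hPcard : P.card ≤ J0 := by
    rw [hJdef]
    refine Nat.le_floor ?_
    rw [le_div_iff₀ hξ]
    have h1 : (P.card : ℝ) * (ξ * z) ≤ z := by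
      refine le_trans ?_ hPsum
      rw [← nsmul_eq_mul, ← Finset.sum_const]
      exact Finset.sum_le_sum hPlarge
    have h2 : (P.card : ℝ) * ξ * z ≤ 1 * z := by linarith
    exact le_of_mul_le_mul_right h2 hz0
  have hval : ∀ p ∈ P, ((T t).factorization p : ℝ) * Real.log p ≤ lam := fun p hp => by
    rw [hlam]
    exact vdir_val ht (hPT hp)
  obtain ⟨h, hh1, hh2, w0, hw0⟩ := dirichlet_sim Q J0 hQ1 P
    (fun p => ((T t).factorization p : ℝ) * z / lam) hPcard (fun p _ => by positivity)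
  rw [← hmaxdef] at hh2
  have hhR : (1 : ℝ) ≤ h := by exact_mod_cast hh1
  have hh0 : (0 : ℝ) < h := by linarith
  have hhmax : (h : ℝ) ≤ hmax := by exact_mod_cast hh2
  -- the number `H`
  obtain ⟨H, hH⟩ : ∃ H : ℝ, H = 2 * h / ξ := ⟨_, rfl⟩
  have hH2 : 2 ≤ H := by
    rw [hH, le_div_iff₀ hξ]
    linarith
  have hH0 : 0 < H := by linarith
  have hHM : H ≤ 2 * hmax / ξ := by
    rw [hH]
    exact div_le_div_of_nonneg_right (by linarith) hξ.le
  have hHξ : H * ξ = 2 * h := by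
    rw [hH]
    field_simp
  have hAH : 4 * H ^ 2 * z ≤ c' * lam := by
    have h1 : H ^ 2 ≤ (2 * hmax / ξ) ^ 2 := pow_le_pow_left₀ hH0.le hHM 2
    have h2 : 4 * (2 * hmax / ξ) ^ 2 * z ≤ c' * lam := by
      have h3 : 4 * (2 * hmax / ξ) ^ 2 / c' * z * c' = 4 * (2 * hmax / ξ) ^ 2 * z := by
        field_simp
      have h4 := mul_le_mul_of_nonneg_right hA hc'.le
      rw [h3] at h4
      linarith
    have h3 : 4 * H ^ 2 * z ≤ 4 * (2 * hmax / ξ) ^ 2 * z := by
      have := mul_le_mul_of_nonneg_right h1 hz0.le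
      linarith
    linarith
  have hhH : (h : ℝ) ≤ H := by
    rw [hH, le_div_iff₀ hξ]
    have h1 := mul_le_mul_of_nonneg_left hξ1 hh0.le
    linarith
  have hhz : (h : ℝ) * z ≤ lam := by
    have h2 : H * z ≤ 4 * H ^ 2 * z := by
      refine mul_le_mul_of_nonneg_right ?_ hz0.le
      have h5 := mul_le_mul_of_nonneg_left hH2 hH0.le
      rw [sq]
      linarith
    have h3 : (h : ℝ) * z ≤ H * z := mul_le_mul_of_nonneg_right hhH hz0.le
    have h4 := mul_le_mul_of_nonneg_right hc1 hlam0.le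
    linarith
  have hhz0 : 0 < (h : ℝ) * z := mul_pos hh0 hz0
  obtain ⟨y, hy⟩ : ∃ y : ℝ, y = lam / (h * z) := ⟨_, rfl⟩
  have hy1 : 1 ≤ y := by
    rw [hy, le_div_iff₀ hhz0]
    linarith
  obtain ⟨k, hk⟩ : ∃ k : ℕ, k = ⌊y⌋₊ := ⟨_, rfl⟩
  have hk1 : (k : ℝ) ≤ y := by rw [hk]; exact Nat.floor_le (by linarith)
  have hk2 : y < k + 1 := by rw [hk]; exact Nat.lt_floor_add_one y
  have hk3 : 1 ≤ k := by
    rw [hk]
    exact Nat.le_floor (by simpa using hy1)
  have hk3' : (1 : ℝ) ≤ k := by exact_mod_cast hk3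
  have hk4 : y ≤ 2 * k := by linarith
  have hyz : y * (h * z) = lam := by
    rw [hy]
    field_simp
  set w : ℕ → ℕ := fun p => if p ∈ P then w0 p else 0 with hw
  have hwP : ∀ p ∈ P, w p = w0 p := fun p hp => if_pos hp
  have hwN : ∀ p, p ∉ P → w p = 0 := fun p hp => if_neg hp
  have hx1 : ∀ p ∈ P, ((T t).factorization p : ℝ) * z / lam ≤ 1 / ξ := by
    intro p hp
    rw [div_le_div_iff₀ hlam0 hξ]
    have h1 := hval p hp
    have h2 := hPlarge p hp
    have h3 : ((T t).factorization p : ℝ) * (ξ * z) ≤ ((T t).factorization p : ℝ) * Real.log p :=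
      mul_le_mul_of_nonneg_left h2 (Nat.cast_nonneg _)
    linarith
  have hwH : ∀ p ∈ P, (w p : ℝ) ≤ H := by
    intro p hp
    rw [hwP p hp]
    have h1 := (abs_le.1 (hw0 p hp)).1
    have h2 : (h : ℝ) * (((T t).factorization p : ℝ) * z / lam) ≤ h * (1 / ξ) :=
      mul_le_mul_of_nonneg_left (hx1 p hp) hh0.le
    have h3 : 1 / (Q : ℝ) ≤ h / ξ := by
      have h4 : (1 : ℝ) ≤ h / ξ := by
        rw [le_div_iff₀ hξ]
        linarith
      have h5 : 1 / (Q : ℝ) ≤ 1 := by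
        rw [div_le_one hQ0]
        linarith
      linarith
    have h4 : (h : ℝ) * (1 / ξ) + h / ξ = H := by
      rw [hH]
      ring
    linarith
  have hsplit : ∀ F : ℕ → ℝ, ∑ p ∈ Fr f m t, F p =
      ∑ p ∈ (Fr f m t).filter (fun p => p ∈ N), F p + ∑ p ∈ P, F p := fun F =>
    (Finset.sum_filter_add_sum_filter_not _ _ _).symm
  have hNP : ∀ p ∈ (Fr f m t).filter (fun p => p ∈ N), p ∉ P := by
    intro p hp hp2
    exact (Finset.mem_filter.1 hp2).2 (Finset.mem_filter.1 hp).2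
  refine ⟨h, k, w, hh1, hh2, ?_, ?_, ?_, ?_⟩
  · have h1 : y ≤ lam := by
      rw [hy, div_le_iff₀ hhz0]
      have h2 : (1 : ℝ) ≤ h * z := one_le_mul_of_one_le_of_one_le hhR hz1
      have h3 := mul_le_mul_of_nonneg_left h2 hlam0.le
      linarith
    linarith
  · rw [← hH, div_le_iff₀ hz0]
    have h1 : lam ≤ 2 * k * (h * z) := by
      rw [← hyz]
      exact mul_le_mul_of_nonneg_right hk4 hhz0.le
    have h3 : 2 * (k : ℝ) * (h * z) ≤ 2 * k * (H * z) := by
      refine mul_le_mul_of_nonneg_left ?_ (by positivity)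
      exact mul_le_mul_of_nonneg_right hhH hz0.le
    have h4 : 0 ≤ (k : ℝ) * (H * z) := by positivity
    have h5 : 4 * H * (k : ℝ) * z = 4 * ((k : ℝ) * (H * z)) := by ring
    have h6 : 2 * (k : ℝ) * (H * z) = 2 * ((k : ℝ) * (H * z)) := by ring
    rw [h5]
    rw [h6] at h3
    linarith
  · rw [← hH, hsplit]
    have hH4 : c' / H * lam = 4 * (c' / (4 * H) * lam) := by
      field_simp
    have hq1 : c' / (4 * H) = c' * ξ / (8 * h) := by
      rw [div_eq_div_iff (by positivity) (by positivity)]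
      have : c' * (8 * h) = c' * 4 * (2 * h) := by ring
      rw [this, ← hHξ]
      ring
    have h1 : ∑ p ∈ (Fr f m t).filter (fun p => p ∈ N),
        |((T t).factorization p : ℝ) - k * w p| * Real.log p ≤ c' / (4 * H) * lam := by
      have h2 : ∑ p ∈ (Fr f m t).filter (fun p => p ∈ N),
          |((T t).factorization p : ℝ) - k * w p| * Real.log p =
          ∑ p ∈ (Fr f m t).filter (fun p => p ∈ N),
            ((T t).factorization p : ℝ) * Real.log p := by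
        refine Finset.sum_congr rfl fun p hp => ?_
        rw [hwN p (hNP p hp), Nat.cast_zero, mul_zero, sub_zero, abs_of_nonneg (Nat.cast_nonneg _)]
      rw [h2]
      refine hN.trans (mul_le_mul_of_nonneg_right ?_ hlam0.le)
      rw [hq1, div_le_div_iff₀ (by positivity) (by positivity)]
      have : c' * ξ * (8 * (h : ℝ)) ≤ c' * ξ * (8 * hmax) :=
        mul_le_mul_of_nonneg_left (by linarith) hcξ.le
      linarith
    have h2 : ∀ p ∈ P, |((T t).factorization p : ℝ) - k * w p| * Real.log p ≤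
        (y * (1 / Q) + H) * Real.log p := by
      intro p hp
      refine mul_le_mul_of_nonneg_right ?_ (hlogpos p hp).le
      have e1 : ((T t).factorization p : ℝ) =
          y * (h * (((T t).factorization p : ℝ) * z / lam)) := by
        have e2 : y * (h * (((T t).factorization p : ℝ) * z / lam)) =
            (y * (h * z)) / lam * ((T t).factorization p : ℝ) := by ring
        rw [e2, hyz, div_self hlam0.ne', one_mul]
      have e3 : ((T t).factorization p : ℝ) - k * w p =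
          y * (h * (((T t).factorization p : ℝ) * z / lam) - w p) + w p * (y - k) := by
        have : y * (h * (((T t).factorization p : ℝ) * z / lam) - w p) + w p * (y - k) =
            y * (h * (((T t).factorization p : ℝ) * z / lam)) - k * w p := by ring
        rw [this, ← e1]
      rw [e3]
      refine (abs_add_le _ _).trans (add_le_add ?_ ?_)
      · rw [abs_mul, abs_of_nonneg (by linarith : (0 : ℝ) ≤ y)]
        refine mul_le_mul_of_nonneg_left ?_ (by linarith)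
        rw [hwP p hp]
        exact hw0 p hp
      · rw [abs_mul, abs_of_nonneg (Nat.cast_nonneg _), abs_of_nonneg (by linarith : (0 : ℝ) ≤ y - k)]
        have h3 := hwH p hp
        have h4 : (w p : ℝ) * (y - k) ≤ w p * 1 :=
          mul_le_mul_of_nonneg_left (by linarith) (Nat.cast_nonneg _)
        linarith
    have h3 : ∑ p ∈ P, |((T t).factorization p : ℝ) - k * w p| * Real.log p ≤
        (y * (1 / Q) + H) * z := by
      refine (Finset.sum_le_sum h2).trans ?_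
      rw [← Finset.mul_sum]
      refine mul_le_mul_of_nonneg_left hPsum ?_
      have : 0 ≤ y * (1 / (Q : ℝ)) := by positivity
      linarith
    have h4 : y * (1 / Q) * z ≤ c' / (4 * H) * lam := by
      rw [hq1]
      have e1 : c' * ξ / (8 * h) * lam = c' * ξ / 8 * (y * z) := by
        rw [← hyz]
        field_simp
      rw [e1]
      have e2 : y * (1 / (Q : ℝ)) * z = 1 / Q * (y * z) := by ring
      rw [e2]
      exact mul_le_mul_of_nonneg_right hQinv (by positivity)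
    have h5 : H * z ≤ c' / (4 * H) * lam := by
      rw [div_mul_eq_mul_div, le_div_iff₀ (by positivity)]
      have e1 : H * z * (4 * H) = 4 * H ^ 2 * z := by ring
      rw [e1]
      exact hAH
    have h6 : 0 ≤ c' / (4 * H) * lam := by positivity
    have h7 : (y * (1 / Q) + H) * z = y * (1 / Q) * z + H * z := by ring
    rw [h7] at h3
    rw [hH4]
    linarith
  · rw [← hH, hsplit]
    have h1 : ∑ p ∈ (Fr f m t).filter (fun p => p ∈ N), (w p : ℝ) * Real.log p = 0 := by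
      refine Finset.sum_eq_zero fun p hp => ?_
      rw [hwN p (hNP p hp), Nat.cast_zero, zero_mul]
    rw [h1, zero_add]
    calc ∑ p ∈ P, (w p : ℝ) * Real.log p ≤ ∑ p ∈ P, H * Real.log p :=
          Finset.sum_le_sum fun p hp => mul_le_mul_of_nonneg_right (hwH p hp) (hlogpos p hp).le
      _ = H * ∑ p ∈ P, Real.log p := by rw [Finset.mul_sum]
      _ ≤ H * z := mul_le_mul_of_nonneg_left hPsum hH0.le

end Pool.Agent.Helper63.AZ
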