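import Mathlib

/-! Project RZ: covering, case III, the inequality (piece V5). -/

set_option autoImplicit false

open Finset

namespace Pool.Agent.Helper63.AZ

theorem VUni_max (P : Finset ℕ) (Q : Finset ℕ → Prop) (h0 : Q ∅) :
    ∃ A ⊆ P, Q A ∧ ∀ B ⊆ P, Q B → B.card ≤ A.card := by
  classical
  obtain ⟨A, hA, hmax⟩ := Finset.exists_max_image (P.powerset.filter Q) Finset.card
    ⟨∅, by
      rw [mem_filter]
      exact ⟨empty_mem_powerset _, h0⟩⟩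
  rw [mem_filter, mem_powerset] at hA
  refine ⟨A, hA.1, hA.2, fun B hB hQ => hmax B ?_⟩
  rw [mem_filter, mem_powerset]
  exact ⟨hB, hQ⟩

/-- RZ-V5.  PROOF.  `κ = min (ε / 100) (1 / 100)`.  Call `A ⊆ P` closed if `p ∈ A`, `q ∈ P`,
`d q < d p` imply `q ∈ A`.  Let `A` be a closed set of maximal cardinality with
`∑_A τ d ≤ 1 - κ` (`∅` is one); `A ≠ P` as `∑_P τ d ≥ 1`.  Let `q ∈ P \ A` have minimal `d q =: D`;
`insert q A` is closed, so `∑_A τ d + τ q * D > 1 - κ`, i.e. `∑_A τ d > 1 - κ - κ D`.  All `p ∈ A`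
have `d p ≤ D` (closedness and `q ∉ A`), all `p ∈ P \ A` have `d p ≥ D`.  If
`s := ∑_(P \ A) τ ≤ 2 / 3 - κ` the first alternative holds.  Otherwise, in this order:
(i) `D s ≤ ∑_(P \ A) τ d ≤ 3 - ∑_A τ d < 2 + κ + κ D`, so `D (2 / 3 - 2 κ) ≤ 2 + κ` and
`D ≤ 3 + 12 κ`; (ii) `∑_A τ ≤ 1 - s ≤ 1 / 3 + κ`, `1 - κ - κ D < ∑_A τ d ≤ D (1 / 3 + κ)`, so
`D ≥ (1 - κ) / (1 / 3 + 2 κ) ≥ 3 - 21 κ`; (iii) `∑_(P \ A) τ (d - D) ≤ 2 + κ + κ D - D s ≤ 23 κ`;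
(iv) `∑_A τ (D - d) ≤ D (1 / 3 + κ) - (1 - κ - κ D) ≤ 12 κ`.  Sum:
`∑ τ |d - 3| ≤ 35 κ + |D - 3| ≤ 56 κ`. -/
theorem near_uniform (ε : ℝ) (hε : 0 < ε) : ∃ κ : ℝ, 0 < κ ∧ κ ≤ 1 / 100 ∧
    ∀ (P : Finset ℕ) (τ d : ℕ → ℝ), (∀ p ∈ P, 0 ≤ τ p ∧ τ p ≤ κ ∧ 0 ≤ d p) →
      (∑ p ∈ P, τ p) ≤ 1 → (∑ p ∈ P, τ p * d p) ≤ 3 → 1 ≤ (∑ p ∈ P, τ p * d p) →
      (∃ A ⊆ P, (∑ p ∈ A, τ p * d p) ≤ 1 - κ ∧ (∑ p ∈ P \ A, τ p) ≤ 2 / 3 - κ) ∨
      (∑ p ∈ P, τ p * |d p - 3|) ≤ ε := by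
  classical
  have hmin : 0 < min (ε / 100) (1 / 100 : ℝ) := lt_min (by positivity) (by norm_num)
  refine ⟨min (ε / 100) (1 / 100), hmin, min_le_right _ _, ?_⟩
  have hκε : min (ε / 100) (1 / 100 : ℝ) ≤ ε / 100 := min_le_left _ _
  have hκ1 : min (ε / 100) (1 / 100 : ℝ) ≤ 1 / 100 := min_le_right _ _
  generalize min (ε / 100) (1 / 100 : ℝ) = κ at hmin hκε hκ1
  intro P τ d hP h1 h3 h2
  obtain ⟨A, hAP, ⟨hcl, ha1⟩, hmax⟩ := VUni_max P
    (fun A => (∀ p ∈ A, ∀ r ∈ P, d r < d p → r ∈ A) ∧ (∑ p ∈ A, τ p * d p) ≤ 1 - κ)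
    ⟨fun p hp => absurd hp (notMem_empty p), by
      rw [sum_empty]
      linarith⟩
  have hne : (P \ A).Nonempty := by
    rw [sdiff_nonempty]
    intro hPA
    have hEq : A = P := Subset.antisymm hAP hPA
    rw [hEq] at ha1
    linarith
  obtain ⟨q, hq, hqmin⟩ := Finset.exists_min_image (P \ A) d hne
  rw [mem_sdiff] at hq
  have hbig : 1 - κ < (∑ p ∈ A, τ p * d p) + τ q * d q := by
    by_contra hcon
    have hmem : (∀ p ∈ insert q A, ∀ r ∈ P, d r < d p → r ∈ insert q A) ∧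
        (∑ p ∈ insert q A, τ p * d p) ≤ 1 - κ := by
      constructor
      · intro p hp r hr hlt
        rw [mem_insert] at hp ⊢
        rcases hp with hp | hp
        · right
          by_contra hrA
          have := hqmin r (mem_sdiff.2 ⟨hr, hrA⟩)
          rw [hp] at hlt
          linarith
        · right
          exact hcl p hp r hr hlt
      · rw [sum_insert hq.2]
        linarith
    have := hmax _ (insert_subset hq.1 hAP) hmem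
    rw [card_insert_of_notMem hq.2] at this
    omega
  by_cases hs : (∑ p ∈ P \ A, τ p) ≤ 2 / 3 - κ
  · exact Or.inl ⟨A, hAP, ha1, hs⟩
  right
  rw [not_le] at hs
  obtain ⟨hq0, hqκ, hD0⟩ := hP q hq.1
  have hle : ∀ p ∈ A, d p ≤ d q := by
    intro p hp
    by_contra hcon
    rw [not_le] at hcon
    exact hq.2 (hcl p hp q hq.1 hcon)
  have hge : ∀ p ∈ P \ A, d q ≤ d p := hqmin
  have e1 : (∑ p ∈ P \ A, τ p) + ∑ p ∈ A, τ p = ∑ p ∈ P, τ p := sum_sdiff hAP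
  have e2 : (∑ p ∈ P \ A, τ p * d p) + ∑ p ∈ A, τ p * d p = ∑ p ∈ P, τ p * d p := sum_sdiff hAP
  have e3 : (∑ p ∈ P \ A, τ p * |d p - 3|) + ∑ p ∈ A, τ p * |d p - 3| =
    ∑ p ∈ P, τ p * |d p - 3| := sum_sdiff hAP
  have f1 : (∑ p ∈ P \ A, τ p) * d q ≤ ∑ p ∈ P \ A, τ p * d p := by
    rw [sum_mul]
    exact sum_le_sum fun p hp =>
      mul_le_mul_of_nonneg_left (hge p hp) (hP p (mem_sdiff.1 hp).1).1
  have f2 : (∑ p ∈ A, τ p * d p) ≤ (∑ p ∈ A, τ p) * d q := by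
    rw [sum_mul]
    exact sum_le_sum fun p hp => mul_le_mul_of_nonneg_left (hle p hp) (hP p (hAP hp)).1
  have f3 : (∑ p ∈ P \ A, τ p * |d p - 3|) ≤
      (∑ p ∈ P \ A, τ p * d p) - (∑ p ∈ P \ A, τ p) * d q +
        (∑ p ∈ P \ A, τ p) * |d q - 3| := by
    rw [sum_mul, sum_mul, ← sum_sub_distrib, ← sum_add_distrib]
    refine sum_le_sum fun p hp => ?_
    have g1 : |d p - 3| ≤ (d p - d q) + |d q - 3| := by
      have g2 : |d p - 3| ≤ |d p - d q| + |d q - 3| := abs_sub_le _ _ _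
      rwa [abs_of_nonneg (sub_nonneg.2 (hge p hp))] at g2
    have g3 := mul_le_mul_of_nonneg_left g1 (hP p (mem_sdiff.1 hp).1).1
    linarith
  have f4 : (∑ p ∈ A, τ p * |d p - 3|) ≤
      (∑ p ∈ A, τ p) * d q - (∑ p ∈ A, τ p * d p) + (∑ p ∈ A, τ p) * |d q - 3| := by
    rw [sum_mul, sum_mul, ← sum_sub_distrib, ← sum_add_distrib]
    refine sum_le_sum fun p hp => ?_
    have g1 : |d p - 3| ≤ (d q - d p) + |d q - 3| := by
      have g2 : |d p - 3| ≤ |d p - d q| + |d q - 3| := abs_sub_le _ _ _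
      rwa [abs_sub_comm (d p) (d q), abs_of_nonneg (sub_nonneg.2 (hle p hp))] at g2
    have g3 := mul_le_mul_of_nonneg_left g1 (hP p (hAP hp)).1
    linarith
  have hs0 : 0 ≤ ∑ p ∈ A, τ p := sum_nonneg fun p hp => (hP p (hAP hp)).1
  rw [← e3]
  generalize (∑ p ∈ P \ A, τ p * |d p - 3|) = U at f3 ⊢
  generalize (∑ p ∈ A, τ p * |d p - 3|) = V at f4 ⊢
  generalize (∑ p ∈ P \ A, τ p * d p) = b at *
  generalize (∑ p ∈ A, τ p * d p) = a at *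
  generalize (∑ p ∈ P \ A, τ p) = σ at *
  generalize (∑ p ∈ A, τ p) = α at *
  generalize (∑ p ∈ P, τ p * d p) = B at *
  generalize (∑ p ∈ P, τ p) = T at *
  generalize d q = D at *
  generalize τ q = t at *
  have k1 : t * D ≤ κ * D := mul_le_mul_of_nonneg_right hqκ hD0
  have k2 : (2 / 3 - κ) * D ≤ σ * D := mul_le_mul_of_nonneg_right hs.le hD0
  have hα : α ≤ 1 / 3 + κ := by linarith
  have k3 : α * D ≤ (1 / 3 + κ) * D := mul_le_mul_of_nonneg_right hα hD0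
  -- (i)
  have i1 : D ≤ 3 + 12 * κ := by
    by_contra hcon
    rw [not_le] at hcon
    have g : (3 + 12 * κ) * (2 / 3 - 2 * κ) ≤ D * (2 / 3 - 2 * κ) :=
      mul_le_mul_of_nonneg_right hcon.le (by linarith)
    nlinarith
  -- (ii)
  have i2 : 3 - 21 * κ ≤ D := by
    by_contra hcon
    rw [not_le] at hcon
    have g : D * (1 / 3 + 2 * κ) ≤ (3 - 21 * κ) * (1 / 3 + 2 * κ) :=
      mul_le_mul_of_nonneg_right hcon.le (by linarith)
    nlinarith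
  -- (iii)
  have i3 : b - σ * D ≤ 21 * κ := by
    have g : (3 - 21 * κ) * (2 / 3 - 2 * κ) ≤ D * (2 / 3 - 2 * κ) :=
      mul_le_mul_of_nonneg_right i2 (by linarith)
    nlinarith
  -- (iv)
  have i4 : α * D - a ≤ 12 * κ := by
    have g : D * (1 / 3 + 2 * κ) ≤ (3 + 12 * κ) * (1 / 3 + 2 * κ) :=
      mul_le_mul_of_nonneg_right i1 (by linarith)
    nlinarith
  have i5 : |D - 3| ≤ 21 * κ := by
    rw [abs_le]
    constructor <;> linarith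
  have i6 : σ * |D - 3| + α * |D - 3| ≤ 21 * κ := by
    rw [← add_mul, e1]
    calc T * |D - 3| ≤ 1 * |D - 3| := mul_le_mul_of_nonneg_right h1 (abs_nonneg _)
      _ ≤ 21 * κ := by rw [one_mul]; exact i5
  linarith

end Pool.Agent.Helper63.AZ
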