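import Mathlib
import Pool.Agent.Helper63.AZ.VR
import Pool.Agent.Helper63.AZ.VUni

/-! Project RZ: covering, case III (piece V6). -/

set_option autoImplicit false

open Finset
open Pool.Agent.Helper42.RO Pool.Agent.Helper44.RO2

namespace Pool.Agent.Helper63.AZ

/-- RZ-V6.  PROOF.  `κ` from `near_uniform ε`; `A0 = 1 / ε + 1`.  `z = log Z ≥ 3`, `lam = log (c t)`,
`P = (T t).primeFactors`, `τ p = log p / z`, `d p = v_p z / lam`: `∑ τ = log (rad (T t)) / z ≤ 1`,
`∑ τ d = log (T t) / lam ∈ [1, 3]` (`log_T_le`; `T t = a b c ≥ c`).  First alternative: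
`n1 = ∏ A`, `m = ∏ (P \ A)`.  Second alternative: `R` from `r_entry` with `j = 2`, `γ₁ = 1 / 200`,
`m = ∏ R` (`prod_facts`), `log m ≤ κ z + z / 50 ≤ z / 20`, `k = ⌊3 lam / z⌋₊ ≤ lam`, `w = 1`:
`∑_Fr |v - k| log p ≤ ∑_P |v - 3 lam / z| log p + z ≤ ε lam + ε lam`,
`∑_Fr log p ≤ z`, `lam / z ≤ 4 k` as `3 lam / z ≥ 3`. -/
theorem caseIII (ε : ℝ) (hε : 0 < ε) : ∃ κ A0 : ℝ, 0 < κ ∧ κ ≤ 1 / 100 ∧ 1 ≤ A0 ∧
    ∀ (Z : ℕ) (t : ℕ × ℕ), 21 ≤ Z → Cop t → rad (T t) ≤ Z → A0 * Real.log Z ≤ Real.log (c t) →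
      (∀ p ∈ (T t).primeFactors, Real.log p ≤ κ * Real.log Z) →
      (∃ m n1 : ℕ, rad (T t) = m * n1 ∧ Real.log m ≤ (2 / 3 - κ) * Real.log Z ∧
        (part n1 (T t) : ℝ) ≤ (c t) ^ (1 - κ)) ∨
      (∃ m k : ℕ, m ∣ rad (T t) ∧ Real.log m ≤ 1 / 20 * Real.log Z ∧
        (k : ℝ) ≤ Real.log (c t) ∧ Real.log (c t) / Real.log Z ≤ 4 * 1 * k ∧
        TyW Z (1 / 100) 1 (2 * ε) k m 2 (fun _ => 1) t) := by
  classical
  obtain ⟨κ, hκ0, hκ1, hU⟩ := near_uniform ε hε
  refine ⟨κ, 1 / ε + 1, hκ0, hκ1, by have := one_div_pos.2 hε; linarith, ?_⟩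
  intro Z t hZ ht hr hA hp
  have hZR : (21 : ℝ) ≤ (Z : ℝ) := by exact_mod_cast hZ
  have hz3 : 3 ≤ Real.log Z := by
    rw [Real.le_log_iff_exp_le (by linarith)]
    have h1 := Real.exp_one_lt_d9
    have h2 : Real.exp 3 = Real.exp 1 ^ 3 := by rw [← Real.exp_nat_mul]; norm_num
    have h3 : Real.exp 1 ^ 3 ≤ (2.7182818286 : ℝ) ^ 3 :=
      pow_le_pow_left₀ (Real.exp_pos 1).le h1.le 3
    rw [h2]
    refine h3.trans (le_trans ?_ hZR)
    norm_num
  set z : ℝ := Real.log Z with hzdef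
  set lam : ℝ := Real.log (c t) with hlamdef
  have hz0 : 0 < z := by linarith
  have hlam0 : 0 < lam := ht.log_c_pos
  have hlamz : z ≤ ε * lam := by
    have h1 : (1 / ε) * z ≤ lam := by
      have : (1 / ε + 1) * z = (1 / ε) * z + z := by ring
      linarith
    have h2 : z = ε * ((1 / ε) * z) := by field_simp
    rw [h2]
    exact mul_le_mul_of_nonneg_left h1 hε.le
  have hlamz' : z ≤ lam := by
    have h1 : (1 / ε + 1) * z = (1 / ε) * z + z := by ring
    have h2 : 0 ≤ (1 / ε) * z := mul_nonneg (one_div_pos.2 hε).le hz0.le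
    linarith
  set P : Finset ℕ := (T t).primeFactors with hP
  have hPpr : ∀ p ∈ P, p.Prime := fun p hp => Nat.prime_of_mem_primeFactors hp
  have hlogp : ∀ p ∈ P, 0 ≤ Real.log (p : ℝ) := fun p hp =>
    Real.log_nonneg (by exact_mod_cast (hPpr p hp).one_lt.le)
  have hrad : ∑ p ∈ P, Real.log (p : ℝ) ≤ z := by
    have h1 : Real.log ((rad (T t) : ℕ) : ℝ) = ∑ p ∈ P, Real.log (p : ℝ) := by
      unfold rad
      rw [Nat.cast_prod, Real.log_prod]
      intro p hp
      exact_mod_cast (hPpr p hp).ne_zero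
    rw [← h1]
    exact Real.log_le_log (by exact_mod_cast rad_pos _) (by exact_mod_cast hr)
  have hT : Real.log ((T t : ℕ) : ℝ) =
      ∑ p ∈ P, ((T t).factorization p : ℝ) * Real.log (p : ℝ) := by
    have h1 : T t = ∏ p ∈ P, p ^ (T t).factorization p :=
      (Nat.prod_factorization_pow_eq_self ht.T_ne).symm
    conv_lhs => rw [h1]
    rw [Nat.cast_prod, Real.log_prod]
    · refine Finset.sum_congr rfl fun p _ => ?_
      rw [Nat.cast_pow, Real.log_pow]
    · intro p hp
      exact_mod_cast pow_ne_zero _ (hPpr p hp).ne_zero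
  have hT3 : Real.log ((T t : ℕ) : ℝ) ≤ 3 * lam := log_T_le ht
  have hT1 : lam ≤ Real.log ((T t : ℕ) : ℝ) := by
    refine Real.log_le_log ht.c_pos ?_
    have h1 := ht.pos1
    have h2 := ht.pos2
    have h3 : t.1 + t.2 ≤ T t := by
      unfold T
      exact Nat.le_mul_of_pos_left _ (Nat.mul_pos h1 h2)
    unfold c
    exact_mod_cast h3
  have hτd : ∀ p : ℕ, Real.log (p : ℝ) / z * (((T t).factorization p : ℝ) * z / lam) =
      ((T t).factorization p : ℝ) * Real.log (p : ℝ) / lam := by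
    intro p
    field_simp
  have hsumτd : ∀ A : Finset ℕ, ∑ p ∈ A, Real.log (p : ℝ) / z *
      (((T t).factorization p : ℝ) * z / lam) =
      (∑ p ∈ A, ((T t).factorization p : ℝ) * Real.log (p : ℝ)) / lam := by
    intro A
    rw [Finset.sum_div]
    exact Finset.sum_congr rfl fun p _ => hτd p
  have key := hU P (fun p => Real.log (p : ℝ) / z)
    (fun p => ((T t).factorization p : ℝ) * z / lam)
    (by
      intro p hpP
      refine ⟨div_nonneg (hlogp p hpP) hz0.le, ?_, by positivity⟩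
      rw [div_le_iff₀ hz0]
      exact hp p hpP)
    (by
      rw [← Finset.sum_div, div_le_iff₀ hz0, one_mul]
      exact hrad)
    (by
      rw [hsumτd, div_le_iff₀ hlam0, ← hT]
      exact hT3)
    (by
      rw [hsumτd, le_div_iff₀ hlam0, ← hT, one_mul]
      exact hT1)
  rcases key with ⟨A, hAP, hA1, hA2⟩ | hnear
  · left
    refine ⟨∏ p ∈ P \ A, p, ∏ p ∈ A, p, ?_, ?_, ?_⟩
    · unfold rad
      exact (Finset.prod_sdiff hAP).symm
    · have h1 : Real.log ((∏ p ∈ P \ A, p : ℕ) : ℝ) = ∑ p ∈ P \ A, Real.log (p : ℝ) := by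
        rw [Nat.cast_prod, Real.log_prod]
        intro p hp
        exact_mod_cast (hPpr p (Finset.sdiff_subset hp)).ne_zero
      rw [h1]
      rw [← Finset.sum_div, div_le_iff₀ hz0] at hA2
      exact hA2
    · have hApr : ∀ p ∈ A, p.Prime := fun p hp => hPpr p (hAP hp)
      rw [part_prod hApr]
      have hpos : (0 : ℝ) < ((∏ p ∈ A, p ^ (T t).factorization p : ℕ) : ℝ) := by
        exact_mod_cast Finset.prod_pos fun p hp => pow_pos (hApr p hp).pos _
      rw [← Real.log_le_log_iff hpos (Real.rpow_pos_of_pos ht.c_pos _), Real.log_rpow ht.c_pos,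
        Nat.cast_prod, Real.log_prod]
      · have h1 : ∑ p ∈ A, Real.log (((p ^ (T t).factorization p : ℕ)) : ℝ) =
            ∑ p ∈ A, ((T t).factorization p : ℝ) * Real.log (p : ℝ) := by
          refine Finset.sum_congr rfl fun p _ => ?_
          rw [Nat.cast_pow, Real.log_pow]
        rw [h1]
        rw [hsumτd, div_le_iff₀ hlam0] at hA1
        exact hA1
      · intro p hp
        exact_mod_cast pow_ne_zero _ (hApr p hp).ne_zero
  · right
    have hE : 1 < ent t 2 := by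
      rw [ent_two]
      have h1 := ht.pos1
      have h2 := ht.pos2
      omega
    have hlog2 : Real.log ((ent t 2 : ℕ) : ℝ) = lam := by
      rw [ent_two, hlamdef]
      rfl
    obtain ⟨R, hR, p0, hp0, hR1, hR2⟩ :=
      r_entry t ht 2 (1 / 200) (by norm_num) (by norm_num) Z hr hE
    have hRP : R ⊆ P := hR.trans (Nat.primeFactors_mono (ent_dvd_T t 2) ht.T_ne)
    obtain ⟨hm1, hm2, hm3, hm4⟩ := prod_facts t ht 2 R R hRP (subset_refl _) hR (1 / 100)
      (by
        refine le_trans (le_of_eq ?_) hR1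
        rw [hlog2]
        ring)
    set x : ℝ := 3 * lam / z with hx
    have hx3 : 3 ≤ x := by
      rw [hx, le_div_iff₀ hz0]
      linarith
    have hk1 : ((⌊x⌋₊ : ℕ) : ℝ) ≤ x := Nat.floor_le (by linarith)
    have hk2 : x < ((⌊x⌋₊ : ℕ) : ℝ) + 1 := Nat.lt_floor_add_one x
    have hFr : Fr 2 (∏ p ∈ R, p) t ⊆ P := Finset.filter_subset _ _
    refine ⟨∏ p ∈ R, p, ⌊x⌋₊, hm1, ?_, ?_, ?_, hm4, ?_, ?_⟩
    · rw [hm3]
      have h1 := hp p0 (hRP hp0)
      have h2 : κ * z ≤ 1 / 100 * z := mul_le_mul_of_nonneg_right hκ1 hz0.le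
      change _ ≤ _ * z
      have h3 : 4 * (1 / 200 : ℝ) * z = 1 / 50 * z := by ring
      linarith
    · refine hk1.trans ?_
      rw [hx, div_le_iff₀ hz0]
      nlinarith
    · have h1 : lam / z = x / 3 := by rw [hx]; ring
      rw [h1]
      linarith
    · have h1 : ∀ p ∈ P, |((T t).factorization p : ℝ) - (⌊x⌋₊ : ℕ) * (1 : ℕ)| *
          Real.log (p : ℝ) ≤
          lam * (Real.log (p : ℝ) / z * |((T t).factorization p : ℝ) * z / lam - 3|) +
            Real.log (p : ℝ) := by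
        intro p hpP
        have h2 : |((T t).factorization p : ℝ) - (⌊x⌋₊ : ℕ) * (1 : ℕ)| ≤
            |((T t).factorization p : ℝ) - x| + 1 := by
          have h3 : ((T t).factorization p : ℝ) - (⌊x⌋₊ : ℕ) * (1 : ℕ) =
              (((T t).factorization p : ℝ) - x) + (x - (⌊x⌋₊ : ℕ)) := by
            push_cast
            ring
          rw [h3]
          refine (abs_add_le _ _).trans ?_
          have h4 : |x - ((⌊x⌋₊ : ℕ) : ℝ)| ≤ 1 := by
            rw [abs_le]
            constructor <;> linarith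
          linarith
        have h5 : ((T t).factorization p : ℝ) * z / lam - 3 =
            (z / lam) * (((T t).factorization p : ℝ) - x) := by
          rw [hx]
          field_simp
        have h6 : lam * (Real.log (p : ℝ) / z * |((T t).factorization p : ℝ) * z / lam - 3|) =
            |((T t).factorization p : ℝ) - x| * Real.log (p : ℝ) := by
          rw [h5, abs_mul, abs_of_pos (div_pos hz0 hlam0)]
          field_simp
        rw [h6]
        have h7 := mul_le_mul_of_nonneg_right h2 (hlogp p hpP)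
        linarith
      have h8 : ∑ p ∈ Fr 2 (∏ p ∈ R, p) t,
          |((T t).factorization p : ℝ) - (⌊x⌋₊ : ℕ) * (1 : ℕ)| * Real.log (p : ℝ) ≤
          ∑ p ∈ P, |((T t).factorization p : ℝ) - (⌊x⌋₊ : ℕ) * (1 : ℕ)| *
            Real.log (p : ℝ) :=
        Finset.sum_le_sum_of_subset_of_nonneg hFr fun p hpP _ =>
          mul_nonneg (abs_nonneg _) (hlogp p hpP)
      refine h8.trans ((Finset.sum_le_sum h1).trans ?_)
      rw [Finset.sum_add_distrib, ← Finset.mul_sum]
      have h9 := mul_le_mul_of_nonneg_left hnear hlam0.le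
      have h10 : 2 * ε * lam = lam * ε + ε * lam := by ring
      change _ ≤ 2 * ε * lam
      rw [h10]
      exact add_le_add h9 (hrad.trans hlamz)
    · have h1 : ∑ p ∈ Fr 2 (∏ p ∈ R, p) t, (((1 : ℕ)) : ℝ) * Real.log (p : ℝ) ≤
          ∑ p ∈ P, (((1 : ℕ)) : ℝ) * Real.log (p : ℝ) :=
        Finset.sum_le_sum_of_subset_of_nonneg hFr fun p hpP _ =>
          mul_nonneg (Nat.cast_nonneg _) (hlogp p hpP)
      refine h1.trans ?_
      simp only [Nat.cast_one, one_mul]
      exact hrad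

end Pool.Agent.Helper63.AZ
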