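import Mathlib
import Pool.Agent.Helper44.RO2.TypeAB
import Pool.Agent.Helper63.AZ.CCount
import Pool.Agent.Helper63.AZ.VDir
import Pool.Agent.Helper63.AZ.VCov
import Pool.Agent.Helper63.AZ.VIII

/-! Project RZ: the number of triples with large `c` (piece V7). -/

set_option autoImplicit false

open Finset
open Pool.Agent.Helper42.RO Pool.Agent.Helper44.RO2

namespace Pool.Agent.Helper63.AZ

/-- Bound of a natural number from its logarithm. -/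
lemma vMain_le_rpow {Z m : ℕ} {x : ℝ} (hZ : 1 ≤ Z) (hm : m ≠ 0)
    (h : Real.log m ≤ x * Real.log Z) : (m : ℝ) ≤ (Z : ℝ) ^ x := by
  have hZ0 : (0 : ℝ) < Z := by exact_mod_cast hZ
  have hm0 : (0 : ℝ) < m := by exact_mod_cast Nat.pos_of_ne_zero hm
  rw [Real.rpow_def_of_pos hZ0, ← Real.exp_log hm0]
  exact Real.exp_le_exp.2 (by rw [mul_comm]; exact h)

/-- Comparison of the exponents. -/
lemma vMain_exp {Z : ℕ} {C a b d Λ : ℝ} (hZ : 1 ≤ Z) (hC : 0 ≤ C) (hΛ : 0 ≤ Λ)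
    (h : a + b ≤ d) : C * (Z : ℝ) ^ a * (Z : ℝ) ^ b * Λ ≤ C * ((Z : ℝ) ^ d * Λ) := by
  have hZ1 : (1 : ℝ) ≤ Z := by exact_mod_cast hZ
  have hZ0 : (0 : ℝ) < Z := by linarith
  have h1 : (Z : ℝ) ^ a * (Z : ℝ) ^ b ≤ (Z : ℝ) ^ d := by
    rw [← Real.rpow_add hZ0]
    exact Real.rpow_le_rpow_of_exponent_le hZ1 h
  calc C * (Z : ℝ) ^ a * (Z : ℝ) ^ b * Λ = C * ((Z : ℝ) ^ a * (Z : ℝ) ^ b * Λ) := by ring
    _ ≤ C * ((Z : ℝ) ^ d * Λ) :=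
        mul_le_mul_of_nonneg_left (mul_le_mul_of_nonneg_right h1 hΛ) hC

/-- The primes of one entry. -/
lemma vMain_sum {t : ℕ × ℕ} (ht : Cop t) (i f : Fin 3) (m : ℕ) :
    (∑ p ∈ (Fr f m t).filter (fun p => p ∈ (ent t i).primeFactors),
      ((T t).factorization p : ℝ) * Real.log p) ≤ Real.log (ent t i) := by
  rw [Real.log_nat_eq_sum_factorization, Finsupp.sum, Nat.support_factorization]
  calc (∑ p ∈ (Fr f m t).filter (fun p => p ∈ (ent t i).primeFactors),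
        ((T t).factorization p : ℝ) * Real.log p)
      = ∑ p ∈ (Fr f m t).filter (fun p => p ∈ (ent t i).primeFactors),
        ((ent t i).factorization p : ℝ) * Real.log p := by
        refine sum_congr rfl fun p hp => ?_
        have h1 := (mem_filter.1 hp).2
        rw [fact_T ht (Nat.prime_of_mem_primeFactors h1) (Nat.dvd_of_mem_primeFactors h1)]
    _ ≤ _ := by
        refine sum_le_sum_of_subset_of_nonneg (fun p hp => (mem_filter.1 hp).2) ?_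
        intro p _ _
        exact mul_nonneg (Nat.cast_nonneg _) (Real.log_natCast_nonneg _)

/-- RZ-V7.  PROOF.  Order of constants: `c₃` from `countBp (1 / 100) (1 / 4)` (with `H = 1`);
`ε = c₃ / 2`; `κ`, `A₃` from `caseIII ε`; `ξ = κ / 4`, `μ = ξ / 16`, `γ₁ = ξ / 48`;
`c₁` from `countBh γ₁ μ`; `h₁, g₁, A₁` from `dir_type ξ c₁`; constants of `countBh` for `ξ, h₁`;
`γ₂ = 2 γ₁ g₁`, `c₂` from `countBh γ₂ μ`; `h₂, g₂, A₂` from `dir_type ξ c₂`; `δ = ξ / 8`.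
For `t ∈ S`: if `log (ent t i) ≤ g₁ log c` for some `i`: `caseI`, `dir_type` with
`N = (ent t i).primeFactors` (`∑_N v log p ≤ log (ent t i)`), so `t` is counted by `countBh` with
`M0 = Z ^ (1 / 2 + ξ + 4 γ₁)`.  Else, if the large primes have mass `≥ 4 ξ`: `caseII` with
`g = g₁`, `dir_type` with `N = ∅`, `M0 = Z ^ (2 / 3 - ξ / 3 + 4 γ₁)`.  Else every prime of `T t` has
`log p ≤ 4 ξ z = κ z` (a prime with `log p ≥ ξ z` is one term of the mass): `caseIII`; type (A):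
`typeA_count κ (κ / 2)` with `M0 = Z ^ (2 / 3 - κ)`, or `countBp` with `M0 = Z ^ (1 / 20)`.  Each of
the four counts is at most `C Z ^ (2 / 3 - δ) Λ ^ 3`. -/
theorem large_count : ∃ (δ A0 C : ℝ) (Z0 : ℕ), 0 < δ ∧ 1 ≤ A0 ∧ 1 ≤ C ∧ 2 ≤ Z0 ∧
    ∀ (Z : ℕ) (Λ : ℝ), Z0 ≤ Z → 1 ≤ Λ → Λ ≤ Z → ∀ S : Finset (ℕ × ℕ),
    (∀ t ∈ S, Cop t ∧ rad (T t) ≤ Z ∧ A0 * Real.log Z ≤ Real.log (c t) ∧
      Real.log (c t) ≤ Λ) →
    (S.card : ℝ) ≤ C * (Z : ℝ) ^ (2 / 3 - δ) * Λ ^ 3 := by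
  classical
  obtain ⟨c₃, hc₃, hc₃1, hB⟩ := countBp (1 / 100) (1 / 4) (by norm_num) (by norm_num) (by norm_num)
  obtain ⟨CB, AB, ZB, hCB, hAB, hZB, hB⟩ := hB 1 le_rfl
  obtain ⟨κ, A₃, hκ, hκ1, hA₃, hIII⟩ := caseIII (c₃ / 2) (by positivity)
  obtain ⟨ξ, hξd⟩ : ∃ ξ : ℝ, ξ = κ / 4 := ⟨_, rfl⟩
  have hξ : 0 < ξ := by rw [hξd]; positivity
  have hξ1 : ξ ≤ 1 / 400 := by rw [hξd]; linarith
  obtain ⟨γ₁, hγ₁d⟩ : ∃ γ₁ : ℝ, γ₁ = ξ / 48 := ⟨_, rfl⟩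
  have hγ₁ : 0 < γ₁ := by rw [hγ₁d]; positivity
  have hγ₁1 : γ₁ ≤ 1 / 4 := by rw [hγ₁d]; linarith
  obtain ⟨c₁, hc₁, hc₁1, hB1⟩ := countBh γ₁ (ξ / 16) hγ₁ (by linarith) (by positivity)
  obtain ⟨h₁, g₁, A₁, hh₁, hg₁, hg₁1, hA₁, hD1⟩ := dir_type ξ c₁ hξ (by linarith) hc₁ hc₁1
  obtain ⟨C1, A1, Z1, hC1, hA1, hZ1, hB1⟩ := hB1 ξ h₁ hξ (by linarith) hh₁
  have hγ₂ : 0 < 2 * γ₁ * g₁ := by positivity
  have hγ₂1 : 2 * γ₁ * g₁ ≤ 1 := by nlinarith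
  obtain ⟨c₂, hc₂, hc₂1, hB2⟩ := countBh (2 * γ₁ * g₁) (ξ / 16) hγ₂ hγ₂1 (by positivity)
  obtain ⟨h₂, g₂, A₂, hh₂, hg₂, hg₂1, hA₂, hD2⟩ := dir_type ξ c₂ hξ (by linarith) hc₂ hc₂1
  obtain ⟨C2, A2, Z2, hC2, hA2, hZ2, hB2⟩ := hB2 ξ h₂ hξ (by linarith) hh₂
  obtain ⟨CA, hCA, hA⟩ := typeA_count κ (κ / 2) hκ (by linarith) (by positivity)
  refine ⟨ξ / 8, AB + A₃ + A₁ + A1 + A₂ + A2, CB + CA + C1 + C2, ZB + Z1 + Z2 + 21,
    by positivity, by linarith, by linarith, by omega, ?_⟩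
  intro Z Λ hZ hΛ hΛZ S hS
  have hZB' : ZB ≤ Z := by omega
  have hZ1' : Z1 ≤ Z := by omega
  have hZ2' : Z2 ≤ Z := by omega
  have hZ21 : 21 ≤ Z := by omega
  have hZ01 : 1 ≤ Z := by omega
  have hlZ : 0 < Real.log Z := Real.log_pos (by exact_mod_cast (by omega : 1 < Z))
  have hZr : (0 : ℝ) ≤ Z := Nat.cast_nonneg _
  have hΛ3 : 0 ≤ Λ ^ 3 := by positivity
  -- consequences of the lower bound for `log c`
  have hcA : ∀ t ∈ S, ∀ A : ℝ, A ≤ AB + A₃ + A₁ + A1 + A₂ + A2 →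
      A * Real.log Z ≤ Real.log (c t) := fun t ht A hA =>
    (mul_le_mul_of_nonneg_right hA hlZ.le).trans (hS t ht).2.2.1
  -- the four types
  set P1 : ℕ × ℕ → Prop := fun t => ∃ (h k m : ℕ) (f : Fin 3) (w : ℕ → ℕ), 1 ≤ h ∧ h ≤ h₁ ∧
    m ∣ rad (T t) ∧ (m : ℝ) ≤ (Z : ℝ) ^ (1 / 2 + ξ + 4 * γ₁) ∧
    (k : ℝ) ≤ Real.log (c t) ∧ Real.log (c t) / Real.log Z ≤ 4 * (2 * h / ξ) * k ∧
    TyW Z γ₁ (2 * h / ξ) (c₁ / (2 * h / ξ)) k m f w t with hP1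
  set P2 : ℕ × ℕ → Prop := fun t => ∃ (h k m : ℕ) (f : Fin 3) (w : ℕ → ℕ), 1 ≤ h ∧ h ≤ h₂ ∧
    m ∣ rad (T t) ∧ (m : ℝ) ≤ (Z : ℝ) ^ (2 / 3 - ξ / 3 + 4 * γ₁) ∧
    (k : ℝ) ≤ Real.log (c t) ∧ Real.log (c t) / Real.log Z ≤ 4 * (2 * h / ξ) * k ∧
    TyW Z (2 * γ₁ * g₁) (2 * h / ξ) (c₂ / (2 * h / ξ)) k m f w t with hP2
  set P3 : ℕ × ℕ → Prop := fun t => ∃ m n1 : ℕ, rad (T t) = m * n1 ∧
    (m : ℝ) ≤ (Z : ℝ) ^ (2 / 3 - κ) ∧ (part n1 (T t) : ℝ) ≤ (c t) ^ (1 - κ) with hP3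
  set P4 : ℕ × ℕ → Prop := fun t => ∃ (k m : ℕ) (f : Fin 3) (w : ℕ → ℕ), m ∣ rad (T t) ∧
    (m : ℝ) ≤ (Z : ℝ) ^ (1 / 20 : ℝ) ∧ (k : ℝ) ≤ Real.log (c t) ∧
    Real.log (c t) / Real.log Z ≤ 4 * 1 * k ∧ TyW Z (1 / 100) 1 (c₃ / 1) k m f w t with hP4
  have hm0 : ∀ {m r : ℕ}, m ∣ rad r → m ≠ 0 := by
    intro m r h
    rintro rfl
    exact (rad_pos r).ne' (Nat.eq_zero_of_zero_dvd h)
  -- every element has one of the types
  have hcov : ∀ t ∈ S, P1 t ∨ P2 t ∨ P3 t ∨ P4 t := by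
    intro t ht
    obtain ⟨hct, hr, hl1, hl2⟩ := hS t ht
    have hc4 : 4 ≤ c t := by
      have h1 : 1 * Real.log Z ≤ Real.log (c t) := hcA t ht 1 (by linarith)
      rw [one_mul] at h1
      have h2 : (Z : ℝ) ≤ c t :=
        (Real.log_le_log_iff (by exact_mod_cast (by omega : 0 < Z)) hct.c_pos).1 h1
      have h3 : (21 : ℝ) ≤ Z := by exact_mod_cast hZ21
      linarith
    by_cases hI : ∃ i : Fin 3, Real.log (ent t i) ≤ g₁ * Real.log (c t)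
    · left
      obtain ⟨i, hi⟩ := hI
      have hi' : Real.log (ent t i) ≤ 1 / 2 * Real.log (c t) :=
        hi.trans (mul_le_mul_of_nonneg_right hg₁1 hct.log_c_pos.le)
      obtain ⟨f, m, hmr, hlm, hcp, hFr⟩ := caseI γ₁ ξ hγ₁ hγ₁1 hξ Z hZ01 t hct hr hc4 i hi'
      obtain ⟨h, k, w, e1, e2, e3, e4, e5, e6⟩ := hD1 Z t f m (ent t i).primeFactors hct
        (by omega) hr (hcA t ht A₁ (by linarith)) ((vMain_sum hct i f m).trans hi) hFr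
      exact ⟨h, k, m, f, w, e1, e2, hmr, vMain_le_rpow hZ01 (hm0 hmr) hlm, e3, e4, hcp, e5, e6⟩
    · right
      push Not at hI
      by_cases hII : 4 * ξ * Real.log Z ≤ ∑ p ∈ (T t).primeFactors.filter
          (fun p : ℕ => ξ * Real.log Z ≤ Real.log (p : ℝ)), Real.log (p : ℝ)
      · left
        obtain ⟨f, m, hmr, hlm, hcp, hFr⟩ := caseII γ₁ ξ g₁ hγ₁ hγ₁1 hξ hg₁ Z hZ01 t hct hr
          (fun i => (hI i).le) hII
        obtain ⟨h, k, w, e1, e2, e3, e4, e5, e6⟩ := hD2 Z t f m ∅ hct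
          (by omega) hr (hcA t ht A₂ (by linarith))
          (by
            simp only [notMem_empty, filter_false, sum_empty]
            exact mul_nonneg hg₂.le hct.log_c_pos.le)
          (fun p hp => Or.inr (hFr p hp))
        exact ⟨h, k, m, f, w, e1, e2, hmr, vMain_le_rpow hZ01 (hm0 hmr) hlm, e3, e4, hcp, e5, e6⟩
      · right
        push Not at hII
        have hsm : ∀ p ∈ (T t).primeFactors, Real.log p ≤ κ * Real.log Z := by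
          intro p hp
          have hκξ : κ = 4 * ξ := by rw [hξd]; ring
          by_cases hpl : ξ * Real.log Z ≤ Real.log (p : ℝ)
          · have h1 : Real.log (p : ℝ) ≤ ∑ p ∈ (T t).primeFactors.filter
                (fun p : ℕ => ξ * Real.log Z ≤ Real.log (p : ℝ)), Real.log (p : ℝ) :=
              single_le_sum (f := fun p : ℕ => Real.log (p : ℝ))
                (fun q _ => Real.log_natCast_nonneg q) (mem_filter.2 ⟨hp, hpl⟩)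
            rw [hκξ]
            linarith
          · push Not at hpl
            have h2 : 0 < ξ * Real.log Z := mul_pos hξ hlZ
            rw [hκξ]
            linarith
        rcases hIII Z t hZ21 hct hr (hcA t ht A₃ (by linarith)) hsm with h | h
        · left
          obtain ⟨m, n1, e1, e2, e3⟩ := h
          have hmd : m ∣ rad (T t) := ⟨n1, e1⟩
          exact ⟨m, n1, e1, vMain_le_rpow hZ01 (hm0 hmd) e2, e3⟩
        · right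
          obtain ⟨m, k, e1, e2, e3, e4, e5⟩ := h
          have hcc : 2 * (c₃ / 2) = c₃ / 1 := by ring
          rw [hcc] at e5
          exact ⟨k, m, 2, fun _ => 1, e1, vMain_le_rpow hZ01 (hm0 e1) e2, e3, e4, e5⟩
  -- the four counts
  have n1 : (((S.filter P1).card : ℕ) : ℝ) ≤ C1 * ((Z : ℝ) ^ (2 / 3 - ξ / 8) * Λ ^ 3) := by
    refine (hB1 Z ((Z : ℝ) ^ (1 / 2 + ξ + 4 * γ₁)) Λ hZ1' (Real.rpow_nonneg hZr _) hΛ hΛZ
      (S.filter P1) ?_).trans (vMain_exp hZ01 (by linarith) hΛ3 (by rw [hγ₁d]; linarith))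
    intro t ht
    rw [mem_filter] at ht
    obtain ⟨hct, hr, -, hl2⟩ := hS t ht.1
    exact ⟨hct, hr, hcA t ht.1 A1 (by linarith), hl2, ht.2⟩
  have n2 : (((S.filter P2).card : ℕ) : ℝ) ≤ C2 * ((Z : ℝ) ^ (2 / 3 - ξ / 8) * Λ ^ 3) := by
    refine (hB2 Z ((Z : ℝ) ^ (2 / 3 - ξ / 3 + 4 * γ₁)) Λ hZ2' (Real.rpow_nonneg hZr _) hΛ hΛZ
      (S.filter P2) ?_).trans (vMain_exp hZ01 (by linarith) hΛ3 (by rw [hγ₁d]; linarith))
    intro t ht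
    rw [mem_filter] at ht
    obtain ⟨hct, hr, -, hl2⟩ := hS t ht.1
    exact ⟨hct, hr, hcA t ht.1 A2 (by linarith), hl2, ht.2⟩
  have n3 : (((S.filter P3).card : ℕ) : ℝ) ≤ CA * ((Z : ℝ) ^ (2 / 3 - ξ / 8) * Λ ^ 3) := by
    have h1 := hA Z ((Z : ℝ) ^ (2 / 3 - κ)) Λ hZ01 (Real.rpow_nonneg hZr _) hΛ (S.filter P3)
      (by
        intro t ht
        rw [mem_filter] at ht
        obtain ⟨hct, hr, -, hl2⟩ := hS t ht.1
        exact ⟨hct, hr, hl2, ht.2⟩)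
    refine h1.trans ((mul_le_mul_of_nonneg_left (?_ : Λ ^ (κ / 2) ≤ Λ ^ 3) ?_).trans
      (vMain_exp hZ01 (by linarith) hΛ3 (by linarith)))
    · rw [← Real.rpow_natCast]
      exact Real.rpow_le_rpow_of_exponent_le hΛ (by push_cast; linarith)
    · exact mul_nonneg (mul_nonneg (by linarith) (Real.rpow_nonneg hZr _)) (Real.rpow_nonneg hZr _)
  have n4 : (((S.filter P4).card : ℕ) : ℝ) ≤ CB * ((Z : ℝ) ^ (2 / 3 - ξ / 8) * Λ ^ 3) := by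
    refine (hB Z ((Z : ℝ) ^ (1 / 20 : ℝ)) Λ hZB' (Real.rpow_nonneg hZr _) hΛ hΛZ
      (S.filter P4) ?_).trans (vMain_exp hZ01 (by linarith) hΛ3 (by linarith))
    intro t ht
    rw [mem_filter] at ht
    obtain ⟨hct, hr, -, hl2⟩ := hS t ht.1
    exact ⟨hct, hr, hcA t ht.1 AB (by linarith), hl2, ht.2⟩
  have hsub : S ⊆ (S.filter P1 ∪ S.filter P2) ∪ (S.filter P3 ∪ S.filter P4) := by
    intro t ht
    simp only [mem_union, mem_filter]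
    rcases hcov t ht with h | h | h | h
    · exact Or.inl (Or.inl ⟨ht, h⟩)
    · exact Or.inl (Or.inr ⟨ht, h⟩)
    · exact Or.inr (Or.inl ⟨ht, h⟩)
    · exact Or.inr (Or.inr ⟨ht, h⟩)
  have hcard : S.card ≤ ((S.filter P1).card + (S.filter P2).card) +
      ((S.filter P3).card + (S.filter P4).card) :=
    (card_le_card hsub).trans ((card_union_le _ _).trans
      (Nat.add_le_add (card_union_le _ _) (card_union_le _ _)))
  have hcard' : (S.card : ℝ) ≤ (((S.filter P1).card : ℝ) + (S.filter P2).card) +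
      (((S.filter P3).card : ℝ) + (S.filter P4).card) := by exact_mod_cast hcard
  calc (S.card : ℝ) ≤ (C1 * ((Z : ℝ) ^ (2 / 3 - ξ / 8) * Λ ^ 3) +
        C2 * ((Z : ℝ) ^ (2 / 3 - ξ / 8) * Λ ^ 3)) + (CA * ((Z : ℝ) ^ (2 / 3 - ξ / 8) * Λ ^ 3) +
        CB * ((Z : ℝ) ^ (2 / 3 - ξ / 8) * Λ ^ 3)) := by linarith
    _ = (CB + CA + C1 + C2) * (Z : ℝ) ^ (2 / 3 - ξ / 8) * Λ ^ 3 := by ring

end Pool.Agent.Helper63.AZ
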