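import Mathlib
import Pool.Agent.Helper18.ZE.Asm
import Pool.Agent.Helper58.ZEU.Explicit
import Pool.Agent.Helper62.ZE.Eps
import Pool.Agent.Helper39.RAll.Main
import Pool.Agent.Helper39.RAll.Hyp
import Pool.Agent.Helper93.AR.H4
import Pool.Agent.Helper63.AZ.VMain

/-! Project RZ: the asymptotic formula (pieces F1, F2, F3). -/

set_option autoImplicit false

open Finset
open Pool.Agent.Helper42.RO Pool.Agent.Helper44.RO2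

namespace Pool.Agent.Helper63.AZ

/-- RZ-F1.  `log c ≤ K N ^ ε` for all triples.  PROOF.  From `Pool.Agent.Helper18.ZE.main_uniform` (see
`Helper39.RAll.hyp` and the result file `AllTriples`, where this form is proved). -/
theorem logc_le (ε : ℝ) (hε : 0 < ε) : ∃ K : ℝ, 0 < K ∧ ∀ t : ℕ × ℕ, Cop t →
    Real.log (c t) ≤ K * (rad (T t) : ℝ) ^ ε := by
  obtain ⟨D, hD⟩ := Pool.Agent.Helper18.ZE.main_uniform
  have h := Pool.Agent.Helper58.ZEU.explicit_of D hD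
  obtain ⟨K, hK, h1⟩ := Pool.Agent.Helper62.ZE.eps_of h ε hε
  exact ⟨K, hK, fun t ht => h1 t.1 t.2 ht.pos1 ht.pos2 ht.cop⟩

/-- RZ-F2.  Few triples with large `c`.  PROOF.  `δ`, `A0`, `C`, `Z0` from `large_count`; `logc_le`
with `ε = δ / 12` gives `log c ≤ Λ := max 1 (K Z ^ ε)`, `Λ ≤ Z` for `Z ≥ Z1`, `Λ ^ 3 ≤ C' Z ^ (δ / 4)`.
The set is finite (`Helper39.RAll.finite`), so for `Z < max Z0 Z1` the number is at most that for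
`max Z0 Z1`, a constant. -/
theorem large_all : ∃ δ A C : ℝ, 0 < δ ∧ 1 ≤ A ∧ 1 ≤ C ∧ ∀ Z : ℕ, 1 ≤ Z →
    (((Helper39.RAll.TT Z ∩ {t : ℕ × ℕ | (Z : ℝ) ^ A < ((t.1 + t.2 : ℕ) : ℝ)}).ncard : ℕ) : ℝ) ≤
      C * (Z : ℝ) ^ (2 / 3 - δ) := by
  obtain ⟨δ0, A0, C0, Z0, hδ0, hA0, hC0, hZ0, hlc⟩ := large_count
  obtain ⟨K1, hK1, hH⟩ := Helper39.RAll.hyp
  have hfin := Helper39.RAll.finite hK1 hH
  set ε : ℝ := min (δ0 / 12) (1 / 2) with hε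
  have hε0 : 0 < ε := lt_min (by positivity) (by norm_num)
  obtain ⟨K, hK, hlog⟩ := logc_le ε hε0
  set Z2 : ℕ := max Z0 (⌈K ^ 2⌉₊ + 1) with hZ2
  set δ : ℝ := min (3 * δ0 / 4) (1 / 3) with hδ
  have hδpos : 0 < δ := lt_min (by positivity) (by norm_num)
  set B : ℝ := (((Helper39.RAll.TT Z2).ncard : ℕ) : ℝ) with hB
  have hBC : 1 ≤ C0 * (1 + K) ^ 3 := by
    have h1 : (1 : ℝ) ≤ (1 + K) ^ 3 := one_le_pow₀ (by linarith)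
    nlinarith
  refine ⟨δ, A0, max (C0 * (1 + K) ^ 3) B, hδpos, hA0, le_max_of_le_left hBC, fun Z hZ => ?_⟩
  have hZ1 : (1 : ℝ) ≤ (Z : ℝ) := by exact_mod_cast hZ
  have hZp : (0 : ℝ) < (Z : ℝ) := by linarith
  rcases lt_or_ge Z Z2 with hlt | hge
  · -- small `Z`
    have h1 : (Helper39.RAll.TT Z ∩ {t : ℕ × ℕ | (Z : ℝ) ^ A0 < ((t.1 + t.2 : ℕ) : ℝ)}).ncard ≤
        (Helper39.RAll.TT Z2).ncard := by
      refine Set.ncard_le_ncard (fun t ht => ?_) (hfin Z2)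
      exact ⟨ht.1.1, ht.1.2.1, ht.1.2.2.1, ht.1.2.2.2.trans hlt.le⟩
    have h2 : (((Helper39.RAll.TT Z ∩ {t : ℕ × ℕ | (Z : ℝ) ^ A0 <
        ((t.1 + t.2 : ℕ) : ℝ)}).ncard : ℕ) : ℝ) ≤ B := Nat.cast_le.2 h1
    have h3 : (1 : ℝ) ≤ (Z : ℝ) ^ (2 / 3 - δ) :=
      Real.one_le_rpow hZ1 (by linarith [min_le_right (3 * δ0 / 4) (1 / 3)])
    have hB0 : 0 ≤ B := Nat.cast_nonneg _
    calc _ ≤ B := h2
      _ ≤ max (C0 * (1 + K) ^ 3) B * 1 := by rw [mul_one]; exact le_max_right _ _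
      _ ≤ max (C0 * (1 + K) ^ 3) B * (Z : ℝ) ^ (2 / 3 - δ) :=
        mul_le_mul_of_nonneg_left h3 (le_max_of_le_right hB0)
  · -- large `Z`
    have hZge0 : Z0 ≤ Z := (le_max_left _ _).trans hge
    have hZK : K ^ 2 ≤ (Z : ℝ) := by
      have h1 : (⌈K ^ 2⌉₊ + 1 : ℕ) ≤ Z := (le_max_right _ _).trans hge
      have h2 : ((⌈K ^ 2⌉₊ : ℕ) : ℝ) ≤ (Z : ℝ) := by
        exact_mod_cast (by omega : ⌈K ^ 2⌉₊ ≤ Z)
      exact (Nat.le_ceil _).trans h2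
    set Λ : ℝ := max 1 (K * (Z : ℝ) ^ ε) with hΛ
    have hΛ1 : 1 ≤ Λ := le_max_left _ _
    have hΛZ : Λ ≤ Z := by
      refine max_le hZ1 ?_
      have h1 : (Z : ℝ) ^ ε ≤ (Z : ℝ) ^ (1 / 2 : ℝ) :=
        Real.rpow_le_rpow_of_exponent_le hZ1 (min_le_right _ _)
      have h2 : K ≤ (Z : ℝ) ^ (1 / 2 : ℝ) := by
        rw [← Real.sqrt_eq_rpow]
        exact Real.le_sqrt_of_sq_le hZK
      have h3 : (Z : ℝ) ^ (1 / 2 : ℝ) * (Z : ℝ) ^ (1 / 2 : ℝ) = Z := by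
        rw [← Real.rpow_add hZp]
        norm_num
      calc K * (Z : ℝ) ^ ε ≤ (Z : ℝ) ^ (1 / 2 : ℝ) * (Z : ℝ) ^ (1 / 2 : ℝ) :=
            mul_le_mul h2 h1 (Real.rpow_nonneg hZp.le _) (Real.rpow_nonneg hZp.le _)
        _ = Z := h3
    have hΛ3 : Λ ^ 3 ≤ (1 + K) ^ 3 * (Z : ℝ) ^ (δ0 / 4) := by
      have h0 : (1 : ℝ) ≤ (Z : ℝ) ^ ε := Real.one_le_rpow hZ1 hε0.le
      have h1 : Λ ≤ (1 + K) * (Z : ℝ) ^ ε := by
        refine max_le (by nlinarith) (by nlinarith)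
      have h2 : Λ ^ 3 ≤ ((1 + K) * (Z : ℝ) ^ ε) ^ 3 := pow_le_pow_left₀ (by linarith) h1 3
      refine h2.trans ?_
      rw [mul_pow]
      refine mul_le_mul_of_nonneg_left ?_ (by positivity)
      rw [← Real.rpow_natCast ((Z : ℝ) ^ ε) 3, ← Real.rpow_mul hZp.le]
      refine Real.rpow_le_rpow_of_exponent_le hZ1 ?_
      push_cast
      have := min_le_left (δ0 / 12) (1 / 2 : ℝ)
      rw [← hε] at this
      linarith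
    have hfS : (Helper39.RAll.TT Z ∩
        {t : ℕ × ℕ | (Z : ℝ) ^ A0 < ((t.1 + t.2 : ℕ) : ℝ)}).Finite :=
      (hfin Z).subset Set.inter_subset_left
    have hmain := hlc Z Λ hZge0 hΛ1 hΛZ hfS.toFinset (by
      intro t ht
      rw [Set.Finite.mem_toFinset] at ht
      obtain ⟨⟨t1, t2, t3, t4⟩, t5⟩ := ht
      have hcop : Cop t := ⟨t1, t2, t3⟩
      have hrad : rad (T t) ≤ Z := t4
      refine ⟨hcop, hrad, ?_, ?_⟩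
      · have h5 : (Z : ℝ) ^ A0 < c t := t5
        have h6 := Real.log_le_log (Real.rpow_pos_of_pos hZp _) h5.le
        rwa [Real.log_rpow hZp] at h6
      · refine (hlog t hcop).trans (le_max_of_le_right ?_)
        refine mul_le_mul_of_nonneg_left ?_ hK.le
        exact Real.rpow_le_rpow (Nat.cast_nonneg _) (by exact_mod_cast hrad) hε0.le)
    rw [Set.ncard_eq_toFinset_card _ hfS]
    refine hmain.trans ?_
    have hpow : (Z : ℝ) ^ (2 / 3 - δ0) * (Z : ℝ) ^ (δ0 / 4) ≤ (Z : ℝ) ^ (2 / 3 - δ) := by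
      rw [← Real.rpow_add hZp]
      refine Real.rpow_le_rpow_of_exponent_le hZ1 ?_
      have := min_le_left (3 * δ0 / 4) (1 / 3 : ℝ)
      rw [← hδ] at this
      linarith
    have hp0 : 0 ≤ (Z : ℝ) ^ (2 / 3 - δ0) := Real.rpow_nonneg hZp.le _
    have hp1 : 0 ≤ (Z : ℝ) ^ (2 / 3 - δ) := Real.rpow_nonneg hZp.le _
    calc C0 * (Z : ℝ) ^ (2 / 3 - δ0) * Λ ^ 3
        ≤ C0 * (Z : ℝ) ^ (2 / 3 - δ0) * ((1 + K) ^ 3 * (Z : ℝ) ^ (δ0 / 4)) :=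
          mul_le_mul_of_nonneg_left hΛ3 (mul_nonneg (by linarith) hp0)
      _ = C0 * (1 + K) ^ 3 * ((Z : ℝ) ^ (2 / 3 - δ0) * (Z : ℝ) ^ (δ0 / 4)) := by ring
      _ ≤ C0 * (1 + K) ^ 3 * (Z : ℝ) ^ (2 / 3 - δ) :=
          mul_le_mul_of_nonneg_left hpow (by linarith)
      _ ≤ max (C0 * (1 + K) ^ 3) B * (Z : ℝ) ^ (2 / 3 - δ) :=
          mul_le_mul_of_nonneg_right (le_max_left _ _) hp1

/-- RZ-F3.  **The asymptotic formula.**  PROOF.  As in `Helper39.RAll.main`: `N(Z, x)` is monotone in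
`x`, the asymptotic formula holds for `x = Z ^ (1 / 3 + ε)` and for `x = Z ^ (max 1 A)`
(`Pool.Agent.Helper93.AR.asym_const`), and the number of elements of `TT Z` with `c > Z ^ A` is at
most `C Z ^ (2 / 3 - δ)` by `large_all`. -/
theorem final : ∃ P : ℝ, 0 < P ∧
    HasProd (fun p : Nat.Primes => (1 - 1 / ((p : ℕ) : ℝ)) * (1 - 2 / ((p : ℕ) : ℝ)) +
      3 * (1 - 1 / ((p : ℕ) : ℝ)) ^ 2 /
        (((p : ℕ) : ℝ) - ((p : ℕ) : ℝ) ^ (2 / 3 : ℝ))) P ∧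
    ∀ ε : ℝ, 0 < ε → ∃ δ : ℝ, 0 < δ ∧ ∃ C : ℝ, ∀ Z : ℕ, 1 ≤ Z →
      (Helper39.RAll.TT Z).Finite ∧
      |(((Helper39.RAll.TT Z).ncard : ℕ) : ℝ) -
        Real.Gamma (1 / 3) ^ 2 / (2 * Real.Gamma (2 / 3)) * P * (Z : ℝ) ^ (2 / 3 : ℝ)| ≤
          C * (Z : ℝ) ^ (2 / 3 - δ) ∧
      ∀ x : ℝ, (Z : ℝ) ^ (1 / 3 + ε) ≤ x →
        |(({t : ℕ × ℕ | 0 < t.1 ∧ 0 < t.2 ∧ t.1.Coprime t.2 ∧
            (∏ p ∈ (t.1 * t.2 * (t.1 + t.2)).primeFactors, p) ≤ Z ∧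
            ((t.1 + t.2 : ℕ) : ℝ) ≤ x}.ncard : ℕ) : ℝ) -
          Real.Gamma (1 / 3) ^ 2 / (2 * Real.Gamma (2 / 3)) * P * (Z : ℝ) ^ (2 / 3 : ℝ)| ≤
            C * (Z : ℝ) ^ (2 / 3 - δ) := by
  obtain ⟨P, hP, hprod, has⟩ := Pool.Agent.Helper93.AR.asym_const
  obtain ⟨K1, hK1, hH⟩ := Helper39.RAll.hyp
  obtain ⟨δ3, A, C3, hδ3, hA, hC3, hlarge⟩ := large_all
  refine ⟨P, hP, hprod, fun ε hε => ?_⟩
  obtain ⟨δ1, C1, hδ1, hC1, h1⟩ := has (1 / 3 + ε) (by linarith)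
  obtain ⟨δ2, C2, hδ2, hC2, h2⟩ := has (max 1 A) (lt_max_of_lt_left (by norm_num))
  refine ⟨min δ3 (min δ1 δ2), lt_min hδ3 (lt_min hδ1 hδ2), C1 + C2 + C3, fun Z hZ => ?_⟩
  have hZ1 : (1 : ℝ) ≤ (Z : ℝ) := by exact_mod_cast hZ
  have hZ0 : (0 : ℝ) < (Z : ℝ) := by linarith
  have hfin := Helper39.RAll.finite hK1 hH Z
  set N : ℝ → ℝ := fun x => (({t : ℕ × ℕ | 0 < t.1 ∧ 0 < t.2 ∧ t.1.Coprime t.2 ∧
      (∏ p ∈ (t.1 * t.2 * (t.1 + t.2)).primeFactors, p) ≤ Z ∧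
      ((t.1 + t.2 : ℕ) : ℝ) ≤ x}.ncard : ℕ) : ℝ) with hN
  have hgg : ∀ x : ℝ, ((Pool.Agent.Helper93.AR.GG Z x).card : ℝ) = N x := by
    intro x
    rw [hN]
    show ((Pool.Agent.Helper93.AR.GG Z x).card : ℝ) = (({t : ℕ × ℕ | 0 < t.1 ∧ 0 < t.2 ∧
      t.1.Coprime t.2 ∧ (∏ p ∈ (t.1 * t.2 * (t.1 + t.2)).primeFactors, p) ≤ Z ∧
      ((t.1 + t.2 : ℕ) : ℝ) ≤ x}.ncard : ℕ) : ℝ)
    rw [← Pool.Agent.Helper93.AR.gg_set, Set.ncard_coe_finset]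
  have hsub : ∀ x : ℝ, {t : ℕ × ℕ | 0 < t.1 ∧ 0 < t.2 ∧ t.1.Coprime t.2 ∧
      (∏ p ∈ (t.1 * t.2 * (t.1 + t.2)).primeFactors, p) ≤ Z ∧
      ((t.1 + t.2 : ℕ) : ℝ) ≤ x} ⊆ Helper39.RAll.TT Z :=
    fun x t ht => ⟨ht.1, ht.2.1, ht.2.2.1, ht.2.2.2.1⟩
  have hNT : ∀ x : ℝ, N x ≤ (((Helper39.RAll.TT Z).ncard : ℕ) : ℝ) := by
    intro x
    have := Set.ncard_le_ncard (hsub x) hfin
    exact Nat.cast_le.2 this
  have hmono : ∀ x y : ℝ, x ≤ y → N x ≤ N y := by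
    intro x y hxy
    have : ({t : ℕ × ℕ | 0 < t.1 ∧ 0 < t.2 ∧ t.1.Coprime t.2 ∧
        (∏ p ∈ (t.1 * t.2 * (t.1 + t.2)).primeFactors, p) ≤ Z ∧
        ((t.1 + t.2 : ℕ) : ℝ) ≤ x}).ncard ≤ ({t : ℕ × ℕ | 0 < t.1 ∧ 0 < t.2 ∧ t.1.Coprime t.2 ∧
        (∏ p ∈ (t.1 * t.2 * (t.1 + t.2)).primeFactors, p) ≤ Z ∧
        ((t.1 + t.2 : ℕ) : ℝ) ≤ y}).ncard :=
      Set.ncard_le_ncard (fun t ht => ⟨ht.1, ht.2.1, ht.2.2.1, ht.2.2.2.1, ht.2.2.2.2.trans hxy⟩)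
        (hfin.subset (hsub y))
    exact Nat.cast_le.2 this
  set E : ℝ := (Z : ℝ) ^ (2 / 3 - min δ3 (min δ1 δ2)) with hE
  have hE0 : 0 ≤ E := Real.rpow_nonneg hZ0.le _
  have hm1 : min δ3 (min δ1 δ2) ≤ δ1 := (min_le_right _ _).trans (min_le_left _ _)
  have hm2 : min δ3 (min δ1 δ2) ≤ δ2 := (min_le_right _ _).trans (min_le_right _ _)
  have hm3 : min δ3 (min δ1 δ2) ≤ δ3 := min_le_left _ _
  have e1 : C1 * (Z : ℝ) ^ (2 / 3 - δ1) ≤ C1 * E := mul_le_mul_of_nonneg_left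
    (Real.rpow_le_rpow_of_exponent_le hZ1 (by linarith)) (by linarith)
  have e2 : C2 * (Z : ℝ) ^ (2 / 3 - δ2) ≤ C2 * E := mul_le_mul_of_nonneg_left
    (Real.rpow_le_rpow_of_exponent_le hZ1 (by linarith)) (by linarith)
  have e3 : C3 * (Z : ℝ) ^ (2 / 3 - δ3) ≤ C3 * E := mul_le_mul_of_nonneg_left
    (Real.rpow_le_rpow_of_exponent_le hZ1 (by linarith)) (by linarith)
  have p1 : 0 ≤ C1 * E := mul_nonneg (by linarith) hE0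
  have p2 : 0 ≤ C2 * E := mul_nonneg (by linarith) hE0
  have p3 : 0 ≤ C3 * E := mul_nonneg (by linarith) hE0
  have hlow : Real.Gamma (1 / 3) ^ 2 / (2 * Real.Gamma (2 / 3)) * P * (Z : ℝ) ^ (2 / 3 : ℝ) -
      C1 * E ≤ N ((Z : ℝ) ^ (1 / 3 + ε)) := by
    have h3 := (abs_le.1 (h1 Z hZ)).1
    rw [hgg] at h3
    linarith
  have hupT : (((Helper39.RAll.TT Z).ncard : ℕ) : ℝ) ≤
      Real.Gamma (1 / 3) ^ 2 / (2 * Real.Gamma (2 / 3)) * P * (Z : ℝ) ^ (2 / 3 : ℝ) +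
        (C2 * E + C3 * E) := by
    have h3 := (abs_le.1 (h2 Z hZ)).2
    rw [hgg] at h3
    have h4 := hlarge Z hZ
    have h5 : Helper39.RAll.TT Z ⊆ {t : ℕ × ℕ | 0 < t.1 ∧ 0 < t.2 ∧ t.1.Coprime t.2 ∧
        (∏ p ∈ (t.1 * t.2 * (t.1 + t.2)).primeFactors, p) ≤ Z ∧
        ((t.1 + t.2 : ℕ) : ℝ) ≤ (Z : ℝ) ^ max 1 A} ∪
        (Helper39.RAll.TT Z ∩ {t : ℕ × ℕ | (Z : ℝ) ^ A < ((t.1 + t.2 : ℕ) : ℝ)}) := by
      intro t ht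
      by_cases hc : ((t.1 + t.2 : ℕ) : ℝ) ≤ (Z : ℝ) ^ max 1 A
      · exact Or.inl ⟨ht.1, ht.2.1, ht.2.2.1, ht.2.2.2, hc⟩
      · refine Or.inr ⟨ht, ?_⟩
        rw [not_le] at hc
        exact lt_of_le_of_lt (Real.rpow_le_rpow_of_exponent_le hZ1 (le_max_right _ _)) hc
    have h6 := (Set.ncard_le_ncard h5 ((hfin.subset (hsub _)).union
      (hfin.subset Set.inter_subset_left))).trans (Set.ncard_union_le _ _)
    have h7 : (((Helper39.RAll.TT Z).ncard : ℕ) : ℝ) ≤ N ((Z : ℝ) ^ max 1 A) +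
        (((Helper39.RAll.TT Z ∩
          {t : ℕ × ℕ | (Z : ℝ) ^ A < ((t.1 + t.2 : ℕ) : ℝ)}).ncard : ℕ) : ℝ) := by
      have h8 := (Nat.cast_le (α := ℝ)).2 h6
      rw [Nat.cast_add] at h8
      exact h8
    linarith
  refine ⟨hfin, ?_, fun x hx => ?_⟩
  · have h8 := hNT ((Z : ℝ) ^ (1 / 3 + ε))
    rw [abs_le]
    constructor <;> nlinarith
  · have h8 := hNT x
    have h9 := hmono _ _ hx
    change |N x - _| ≤ _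
    rw [abs_le]
    constructor <;> nlinarith

end Pool.Agent.Helper63.AZ
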