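import Mathlib
import Pool.Agent.Helper63.AZ.FMain

/-! Project RZ: almost all abc triples, ordered by radical. -/

set_option autoImplicit false

open Finset

namespace Pool.Agent.Helper63.AZ.Crisp

/-- radical of `a b c` -/
def rd (t : ℕ × ℕ) : ℕ := ∏ p ∈ (t.1 * t.2 * (t.1 + t.2)).primeFactors, p

/-- all triples of radical at most `Z` -/
def TZ (Z : ℕ) : Set (ℕ × ℕ) := {t | 0 < t.1 ∧ 0 < t.2 ∧ t.1.Coprime t.2 ∧ rd t ≤ Z}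

/-- those with `c ≤ x` -/
def NZ (Z : ℕ) (x : ℝ) : Set (ℕ × ℕ) :=
  {t | 0 < t.1 ∧ 0 < t.2 ∧ t.1.Coprime t.2 ∧ rd t ≤ Z ∧ ((t.1 + t.2 : ℕ) : ℝ) ≤ x}

/-- those with `rad ≤ c ^ (3 - ε)` -/
def BZ (Z : ℕ) (ε : ℝ) : Set (ℕ × ℕ) :=
  {t | 0 < t.1 ∧ 0 < t.2 ∧ t.1.Coprime t.2 ∧ rd t ≤ Z ∧
    (rd t : ℝ) ≤ ((t.1 + t.2 : ℕ) : ℝ) ^ (3 - ε)}

theorem TZ_mono {Z Z' : ℕ} (h : Z ≤ Z') : TZ Z ⊆ TZ Z' :=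
  fun _ ht => ⟨ht.1, ht.2.1, ht.2.2.1, ht.2.2.2.trans h⟩

theorem NZ_sub (Z : ℕ) (x : ℝ) : NZ Z x ⊆ TZ Z :=
  fun _ ht => ⟨ht.1, ht.2.1, ht.2.2.1, ht.2.2.2.1⟩

theorem BZ_sub (Z : ℕ) (ε : ℝ) : BZ Z ε ⊆ TZ Z :=
  fun _ ht => ⟨ht.1, ht.2.1, ht.2.2.1, ht.2.2.2.1⟩

theorem BZ_anti (Z : ℕ) {ε ε' : ℝ} (h : ε' ≤ ε) : BZ Z ε ⊆ BZ Z ε' := by
  intro t ht
  refine ⟨ht.1, ht.2.1, ht.2.2.1, ht.2.2.2.1, ht.2.2.2.2.trans ?_⟩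
  have h1 : (1 : ℝ) ≤ ((t.1 + t.2 : ℕ) : ℝ) := by
    have := ht.1
    exact_mod_cast (by omega : 1 ≤ t.1 + t.2)
  exact Real.rpow_le_rpow_of_exponent_le h1 (by linarith)

/-- a triple with `rad ≤ c ^ (3 - ε)` has small radical or large `c` -/
theorem BZ_cover {ε κ η : ℝ} (hε : 0 < ε) (hε1 : ε ≤ 1) (hκ : κ = ε / 12) (hη : η = 2 * ε / 27)
    {Z : ℕ} (hZ : 1 ≤ Z) :
    BZ Z ε ⊆ TZ ⌊(Z : ℝ) ^ (1 - κ)⌋₊ ∪ (TZ Z \ NZ Z ((Z : ℝ) ^ (1 / 3 + η))) := by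
  intro t ht
  have hZ1 : (1 : ℝ) ≤ (Z : ℝ) := by exact_mod_cast hZ
  have hZ0 : (0 : ℝ) < (Z : ℝ) := by linarith
  rcases le_or_gt ((rd t : ℕ) : ℝ) ((Z : ℝ) ^ (1 - κ)) with h | h
  · left
    exact ⟨ht.1, ht.2.1, ht.2.2.1, Nat.le_floor h⟩
  · right
    refine ⟨BZ_sub Z ε ht, fun hN => ?_⟩
    have hc : ((t.1 + t.2 : ℕ) : ℝ) ≤ (Z : ℝ) ^ (1 / 3 + η) := hN.2.2.2.2
    have hc0 : (0 : ℝ) ≤ ((t.1 + t.2 : ℕ) : ℝ) := Nat.cast_nonneg _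
    have h1 : (rd t : ℝ) ≤ ((Z : ℝ) ^ (1 / 3 + η)) ^ (3 - ε) :=
      ht.2.2.2.2.trans (Real.rpow_le_rpow hc0 hc (by linarith))
    rw [← Real.rpow_mul hZ0.le] at h1
    have h2 : (Z : ℝ) ^ ((1 / 3 + η) * (3 - ε)) ≤ (Z : ℝ) ^ (1 - κ) := by
      refine Real.rpow_le_rpow_of_exponent_le hZ1 ?_
      rw [hκ, hη]
      nlinarith
    linarith

theorem final_crisp : ∃ P : ℝ, 0 < P ∧
    HasProd (fun p : Nat.Primes => (1 - 1 / ((p : ℕ) : ℝ)) * (1 - 2 / ((p : ℕ) : ℝ)) +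
      3 * (1 - 1 / ((p : ℕ) : ℝ)) ^ 2 /
        (((p : ℕ) : ℝ) - ((p : ℕ) : ℝ) ^ (2 / 3 : ℝ))) P ∧
    ∀ ε : ℝ, 0 < ε → ∃ δ : ℝ, 0 < δ ∧ ∃ C : ℝ, ∀ Z : ℕ, 1 ≤ Z →
      (TZ Z).Finite ∧
      |(((TZ Z).ncard : ℕ) : ℝ) -
        Real.Gamma (1 / 3) ^ 2 / (2 * Real.Gamma (2 / 3)) * P * (Z : ℝ) ^ (2 / 3 : ℝ)| ≤
          C * (Z : ℝ) ^ (2 / 3 - δ) ∧
      (((BZ Z ε).ncard : ℕ) : ℝ) ≤ C * (Z : ℝ) ^ (2 / 3 - δ) := by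
  obtain ⟨P, hP, hprod, hF⟩ := Helper63.AZ.final
  refine ⟨P, hP, hprod, fun ε hε => ?_⟩
  set ε1 : ℝ := min ε 1 with hε1
  have hε1pos : 0 < ε1 := lt_min hε one_pos
  have hε1le : ε1 ≤ 1 := min_le_right _ _
  set η : ℝ := 2 * ε1 / 27 with hη
  set κ : ℝ := ε1 / 12 with hκ
  obtain ⟨δ1, hδ1, C1, hC1⟩ := hF η (by positivity)
  set K : ℝ := Real.Gamma (1 / 3) ^ 2 / (2 * Real.Gamma (2 / 3)) * P with hK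
  have hK0 : 0 < K := by
    have h1 : 0 < Real.Gamma (1 / 3) := Real.Gamma_pos_of_pos (by norm_num)
    have h2 : 0 < Real.Gamma (2 / 3) := Real.Gamma_pos_of_pos (by norm_num)
    positivity
  set D : ℝ := max C1 0 with hD
  have hD0 : 0 ≤ D := le_max_right _ _
  have hC1D : C1 ≤ D := le_max_left _ _
  set δ : ℝ := min δ1 (2 * κ / 3) with hδ
  have hκ0 : 0 < κ := by positivity
  have hδ0 : 0 < δ := lt_min hδ1 (by positivity)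
  refine ⟨δ, hδ0, K + 3 * D, fun Z hZ => ?_⟩
  have hZ1 : (1 : ℝ) ≤ (Z : ℝ) := by exact_mod_cast hZ
  have hZ0 : (0 : ℝ) < (Z : ℝ) := by linarith
  obtain ⟨hfin, hcnt, hN⟩ := hC1 Z hZ
  have hfin' : (TZ Z).Finite := hfin
  have hcnt' : |(((TZ Z).ncard : ℕ) : ℝ) - K * (Z : ℝ) ^ (2 / 3 : ℝ)| ≤
      C1 * (Z : ℝ) ^ (2 / 3 - δ1) := hcnt
  have hN' := hN ((Z : ℝ) ^ (1 / 3 + η)) le_rfl
  change |(((NZ Z ((Z : ℝ) ^ (1 / 3 + η))).ncard : ℕ) : ℝ) - K * (Z : ℝ) ^ (2 / 3 : ℝ)| ≤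
      C1 * (Z : ℝ) ^ (2 / 3 - δ1) at hN'
  have hpw : (Z : ℝ) ^ (2 / 3 - δ1) ≤ (Z : ℝ) ^ (2 / 3 - δ) :=
    Real.rpow_le_rpow_of_exponent_le hZ1 (by linarith [min_le_left δ1 (2 * κ / 3)])
  have hpos : (0 : ℝ) < (Z : ℝ) ^ (2 / 3 - δ) := Real.rpow_pos_of_pos hZ0 _
  have hpos1 : (0 : ℝ) < (Z : ℝ) ^ (2 / 3 - δ1) := Real.rpow_pos_of_pos hZ0 _
  have hCD : C1 * (Z : ℝ) ^ (2 / 3 - δ1) ≤ D * (Z : ℝ) ^ (2 / 3 - δ) :=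
    (mul_le_mul_of_nonneg_right hC1D hpos1.le).trans (mul_le_mul_of_nonneg_left hpw hD0)
  refine ⟨hfin', hcnt'.trans (hCD.trans ?_), ?_⟩
  · exact mul_le_mul_of_nonneg_right (by linarith) hpos.le
  · -- the exceptional set
    set Z' : ℕ := ⌊(Z : ℝ) ^ (1 - κ)⌋₊ with hZ'
    have hκ1 : κ ≤ 1 := by rw [hκ]; linarith
    have hZ'1 : 1 ≤ Z' := by
      refine Nat.le_floor ?_
      rw [Nat.cast_one]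
      exact Real.one_le_rpow hZ1 (by linarith)
    have hZ'r : (1 : ℝ) ≤ (Z' : ℝ) := by exact_mod_cast hZ'1
    have hZ'le : (Z' : ℝ) ≤ (Z : ℝ) ^ (1 - κ) :=
      Nat.floor_le (Real.rpow_nonneg hZ0.le _)
    obtain ⟨hfin2, hcnt2, -⟩ := hC1 Z' hZ'1
    have hfin2' : (TZ Z').Finite := hfin2
    have hcnt2' : |(((TZ Z').ncard : ℕ) : ℝ) - K * (Z' : ℝ) ^ (2 / 3 : ℝ)| ≤
      C1 * (Z' : ℝ) ^ (2 / 3 - δ1) := hcnt2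
    have hsub : BZ Z ε ⊆ TZ Z' ∪ (TZ Z \ NZ Z ((Z : ℝ) ^ (1 / 3 + η))) :=
      (BZ_anti Z (min_le_left ε 1)).trans (BZ_cover hε1pos hε1le hκ hη hZ)
    have hcard1 : (BZ Z ε).ncard ≤ (TZ Z').ncard + (TZ Z \ NZ Z ((Z : ℝ) ^ (1 / 3 + η))).ncard :=
      (Set.ncard_le_ncard hsub (hfin2'.union (hfin'.subset Set.sdiff_subset))).trans
        (Set.ncard_union_le _ _)
    have hcard2 : (TZ Z \ NZ Z ((Z : ℝ) ^ (1 / 3 + η))).ncard +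
        (NZ Z ((Z : ℝ) ^ (1 / 3 + η))).ncard = (TZ Z).ncard :=
      Set.ncard_sdiff_add_ncard_of_subset (NZ_sub _ _) hfin'
    have e1 : (((BZ Z ε).ncard : ℕ) : ℝ) ≤ (((TZ Z').ncard : ℕ) : ℝ) +
        (((TZ Z \ NZ Z ((Z : ℝ) ^ (1 / 3 + η))).ncard : ℕ) : ℝ) := by exact_mod_cast hcard1
    have e2 : (((TZ Z \ NZ Z ((Z : ℝ) ^ (1 / 3 + η))).ncard : ℕ) : ℝ) +
        (((NZ Z ((Z : ℝ) ^ (1 / 3 + η))).ncard : ℕ) : ℝ) = (((TZ Z).ncard : ℕ) : ℝ) := by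
      exact_mod_cast hcard2
    have e3 := (abs_le.1 hcnt').2
    have e4 := (abs_le.1 hN').1
    have e5 := (abs_le.1 hcnt2').2
    have e6 : C1 * (Z' : ℝ) ^ (2 / 3 - δ1) ≤ D * (Z' : ℝ) ^ (2 / 3 : ℝ) := by
      have g1 : (Z' : ℝ) ^ (2 / 3 - δ1) ≤ (Z' : ℝ) ^ (2 / 3 : ℝ) :=
        Real.rpow_le_rpow_of_exponent_le hZ'r (by linarith)
      have g2 : (0 : ℝ) ≤ (Z' : ℝ) ^ (2 / 3 - δ1) := Real.rpow_nonneg (by linarith) _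
      exact (mul_le_mul_of_nonneg_right hC1D g2).trans (mul_le_mul_of_nonneg_left g1 hD0)
    have e7 : (Z' : ℝ) ^ (2 / 3 : ℝ) ≤ (Z : ℝ) ^ (2 / 3 - δ) := by
      have g1 : (Z' : ℝ) ^ (2 / 3 : ℝ) ≤ ((Z : ℝ) ^ (1 - κ)) ^ (2 / 3 : ℝ) :=
        Real.rpow_le_rpow (by linarith) hZ'le (by norm_num)
      rw [← Real.rpow_mul hZ0.le] at g1
      refine g1.trans (Real.rpow_le_rpow_of_exponent_le hZ1 ?_)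
      linarith [min_le_right δ1 (2 * κ / 3)]
    have e8 : (((TZ Z').ncard : ℕ) : ℝ) ≤ (K + D) * (Z : ℝ) ^ (2 / 3 - δ) := by
      have g1 : K * (Z' : ℝ) ^ (2 / 3 : ℝ) ≤ K * (Z : ℝ) ^ (2 / 3 - δ) :=
        mul_le_mul_of_nonneg_left e7 hK0.le
      have g2 : D * (Z' : ℝ) ^ (2 / 3 : ℝ) ≤ D * (Z : ℝ) ^ (2 / 3 - δ) :=
        mul_le_mul_of_nonneg_left e7 hD0
      linarith
    calc (((BZ Z ε).ncard : ℕ) : ℝ) ≤ (K + D) * (Z : ℝ) ^ (2 / 3 - δ) +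
          2 * (D * (Z : ℝ) ^ (2 / 3 - δ)) := by linarith
      _ = (K + 3 * D) * (Z : ℝ) ^ (2 / 3 - δ) := by ring

end Pool.Agent.Helper63.AZ.Crisp
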