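import Pool.Agent.Helper63.AZ.Crisp

set_option autoImplicit false

/-!
# Almost all abc triples, ordered by radical

Pairs `(a, b)` of coprime positive integers, `c = a + b`, radical = product of the distinct primes
dividing `a b c`.
-/

namespace Pool.Agent.Helper63.AZ.CrispRes

/-- The product over all primes
`P = ∏_p ((1 - 1/p) (1 - 2/p) + 3 (1 - 1/p)^2 / (p - p^(2/3)))` converges and is positive. For every
`ε > 0` there are `δ > 0` and `C` such that for all integers `Z ≥ 1`, with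
`K = Γ(1/3)^2 / (2 Γ(2/3)) * P`:
* the number of ALL pairs `(a, b)` of coprime positive integers with `rad (a b c) ≤ Z` (`c = a + b`, of
  any size) is finite and differs from `K Z ^ (2 / 3)` by at most `C Z ^ (2 / 3 - δ)`;
* at most `C Z ^ (2 / 3 - δ)` of them have `rad (a b c) ≤ c ^ (3 - ε)`. -/
theorem result : ∃ P : ℝ, 0 < P ∧
    HasProd (fun p : Nat.Primes => (1 - 1 / ((p : ℕ) : ℝ)) * (1 - 2 / ((p : ℕ) : ℝ)) +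
      3 * (1 - 1 / ((p : ℕ) : ℝ)) ^ 2 /
        (((p : ℕ) : ℝ) - ((p : ℕ) : ℝ) ^ (2 / 3 : ℝ))) P ∧
    ∀ ε : ℝ, 0 < ε → ∃ δ : ℝ, 0 < δ ∧ ∃ C : ℝ, ∀ Z : ℕ, 1 ≤ Z →
      {t : ℕ × ℕ | 0 < t.1 ∧ 0 < t.2 ∧ t.1.Coprime t.2 ∧
        (∏ p ∈ (t.1 * t.2 * (t.1 + t.2)).primeFactors, p) ≤ Z}.Finite ∧
      |(({t : ℕ × ℕ | 0 < t.1 ∧ 0 < t.2 ∧ t.1.Coprime t.2 ∧
          (∏ p ∈ (t.1 * t.2 * (t.1 + t.2)).primeFactors, p) ≤ Z}.ncard : ℕ) : ℝ) -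
        Real.Gamma (1 / 3) ^ 2 / (2 * Real.Gamma (2 / 3)) * P * (Z : ℝ) ^ (2 / 3 : ℝ)| ≤
          C * (Z : ℝ) ^ (2 / 3 - δ) ∧
      (({t : ℕ × ℕ | 0 < t.1 ∧ 0 < t.2 ∧ t.1.Coprime t.2 ∧
          (∏ p ∈ (t.1 * t.2 * (t.1 + t.2)).primeFactors, p) ≤ Z ∧
          ((∏ p ∈ (t.1 * t.2 * (t.1 + t.2)).primeFactors, p : ℕ) : ℝ) ≤
            ((t.1 + t.2 : ℕ) : ℝ) ^ (3 - ε)}.ncard : ℕ) : ℝ) ≤ C * (Z : ℝ) ^ (2 / 3 - δ) :=
  Pool.Agent.Helper63.AZ.Crisp.final_crisp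

end Pool.Agent.Helper63.AZ.CrispRes
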